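import Pool.Agent.Mg.Fb7033cp.G6bb3f2

set_option linter.all false

section

set_option autoImplicit false

namespace Pool.Agent.MP_b7033c_al.Three

/-- The elements of `H` of order prime to `r` are closed under multiplication. -/
def PN {G : Type} [Group G] (r : ℕ) (H : Subgroup G) : Prop :=
  ∀ x ∈ H, ∀ y ∈ H, (orderOf x).Coprime r → (orderOf y).Coprime r → (orderOf (x * y)).Coprime r

/-- Normalisers of characteristic subgroups of Sylow subgroups have normal complements. -/
def CH (r : ℕ) (G : Type) [Group G] : Prop :=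
  ∀ (P : Sylow r G) (X : Subgroup (P : Subgroup G)), X.Characteristic → X ≠ ⊥ →
    PN r (Subgroup.normalizer (X.map (P : Subgroup G).subtype : Set G))

/-- Control of fusion. -/
def FrobA : Prop :=
  ∀ (G : Type) [Group G] [Finite G] (r : ℕ) [Fact r.Prime],
    (∀ U : Subgroup G, IsPGroup r U → U ≠ ⊥ → PN r (Subgroup.normalizer (U : Set G))) →
    ∀ (P : Sylow r G) (x g : G), x ∈ P → g⁻¹ * x * g ∈ P → ∃ u ∈ P, g⁻¹ * x * g = u⁻¹ * x * u

/-- The normal complement theorem of Frobenius. -/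
def Frob : Prop :=
  ∀ (G : Type) [Group G] [Finite G] (r : ℕ) [Fact r.Prime],
    (∀ U : Subgroup G, IsPGroup r U → U ≠ ⊥ → PN r (Subgroup.normalizer (U : Set G))) →
    PN r (⊤ : Subgroup G)

/-- There are no offenders. -/
def Off : Prop :=
  ∀ (E V : Type) [Group E] [Finite E] [CommGroup V] [Finite V] (r : ℕ) (ρ : E →* MulAut V)
    (L A : Subgroup E), r.Prime → r ≠ 2 → Function.Injective ρ → (∀ v : V, v ^ r = 1) →
    (Nat.card L).Coprime r → (∀ x ∈ L, ∀ y ∈ L, Commute x y) → (∀ a ∈ A, a ^ r = 1) →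
    (∀ a ∈ A, ∀ b ∈ A, Commute a b) → A ≠ ⊥ → (∀ a ∈ A, ∀ x ∈ L, a * x * a⁻¹ ∈ L) →
    (∀ a ∈ A, (∀ x ∈ L, Commute a x) → a = 1) →
    Nat.card A * Nat.card {v : V // ∀ a ∈ A, ρ a v = v} < Nat.card V

/-- The lemma of Hall and Higman. -/
def HH : Prop :=
  ∀ (G : Type) [Group G] [Finite G] (r : ℕ) [Fact r.Prime] (U : Subgroup G) [U.Normal],
    IsPGroup r U → (∀ W : Subgroup G, W.Normal → IsPGroup r W → W ≤ U) →
    PN r (⊤ : Subgroup (G ⧸ U)) →
    (∀ K : Subgroup G, K.Normal → (Nat.card K).Coprime r → K = ⊥) →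
    Subgroup.centralizer (U : Set G) ≤ U

/-- The final configuration in Thompson's normal complement theorem. -/
def Conf : Prop :=
  ∀ (G : Type) [Group G] [Finite G] (r : ℕ) [Fact r.Prime] (P : Sylow r G) (U : Subgroup G)
    [U.Normal], r ≠ 2 → IsPGroup r U → (∀ W : Subgroup G, W.Normal → IsPGroup r W → W ≤ U) →
    PN r (⊤ : Subgroup (G ⧸ U)) → Subgroup.centralizer (U : Set G) ≤ U →
    (∀ H : Subgroup G, (P : Subgroup G) ≤ H → H = P ∨ H = ⊤) → CH r G → PN r (⊤ : Subgroup G)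

/-- The hypothesis passes to quotients by normal subgroups of order prime to `r`. -/
def QuotH : Prop :=
  ∀ (G : Type) [Group G] [Finite G] (r : ℕ) [Fact r.Prime] (K : Subgroup G) [K.Normal],
    (Nat.card K).Coprime r → CH r G → CH r (G ⧸ K)

/-- The induction hypothesis. -/
def IHyp (r : ℕ) (G : Type) [Group G] : Prop :=
  ∀ (H : Type) [Group H] [Finite H], Nat.card H < Nat.card G → CH r H → PN r (⊤ : Subgroup H)

/-- The first two steps. -/
def StepA : Prop :=
  ∀ (G : Type) [Group G] [Finite G] (r : ℕ) [Fact r.Prime], CH r G → IHyp r G →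
    ¬ PN r (⊤ : Subgroup G) → ∃ (U : Subgroup G) (_ : U.Normal), IsPGroup r U ∧
      (∀ W : Subgroup G, W.Normal → IsPGroup r W → W ≤ U) ∧ PN r (⊤ : Subgroup (G ⧸ U))

/-- Thompson's normal complement theorem. -/
def NPC : Prop :=
  ∀ (G : Type) [Group G] [Finite G] (r : ℕ) [Fact r.Prime], r ≠ 2 → CH r G → PN r (⊤ : Subgroup G)

/-- Higman's theorem for finite nilpotent groups. -/
def GHF (p h : ℕ) : Prop :=
  ∀ (K : Type) [Group K] [Finite K] (α : MulAut K), Group.IsNilpotent K → α ^ p = 1 →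
    (∀ y, α y = y → y = 1) → (⊤ : Subgroup K).lowerCentralSeries h = ⊥

/-- Finite nilpotent groups have normal complements. -/
def NilPN : Prop :=
  ∀ (G : Type) [Group G] [Finite G] (r : ℕ), r.Prime → Group.IsNilpotent G → PN r (⊤ : Subgroup G)

section basic

variable {G : Type} [Group G] {r : ℕ}

lemma cop_of_pow {x : G} {k : ℕ} (hk : k.Coprime r) (h : x ^ k = 1) : (orderOf x).Coprime r :=
  Nat.Coprime.coprime_dvd_left (orderOf_dvd_of_pow_eq_one h) hk

lemma cop_map {Q : Type} [Group Q] (f : G →* Q) {x : G} (h : (orderOf x).Coprime r) :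
    (orderOf (f x)).Coprime r :=
  Nat.Coprime.coprime_dvd_left (orderOf_map_dvd f x) h

lemma cop_conj {x : G} (h : (orderOf x).Coprime r) (g : G) : (orderOf (g * x * g⁻¹)).Coprime r :=
  cop_map (MulAut.conj g).toMonoidHom h

/-- An element of order prime to `r` in an `r`-group is trivial. -/
lemma eq_one_of_cop {U : Subgroup G} (hU : IsPGroup r U) {x : G} (hx : x ∈ U)
    (h : (orderOf x).Coprime r) : x = 1 := by
  obtain ⟨k, hk⟩ := hU ⟨x, hx⟩
  exact orderOf_eq_one_iff.1 (Nat.eq_one_of_dvd_coprimes (h.pow_right k) dvd_rfl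
    (orderOf_dvd_of_pow_eq_one (congrArg Subtype.val hk)))

lemma PN.mono {H K : Subgroup G} (h : PN r H) (hle : K ≤ H) : PN r K :=
  fun x hx y hy => h x (hle hx) y (hle hy)

lemma PN.of_isPGroup {H : Subgroup G} (h : IsPGroup r H) : PN r H := fun x hx y _ h1 h2 => by
  rwa [eq_one_of_cop h hx h1, one_mul]

/-- Elements of order prime to `r` lift to such elements. -/
lemma exists_lift [Finite G] (hr : r.Prime) {Q : Type} [Group Q] (f : G →* Q) (x : G)
    (h : (orderOf (f x)).Coprime r) :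
    ∃ y ∈ Subgroup.zpowers x, f y = f x ∧ (orderOf y).Coprime r := by
  have h0 : orderOf x ≠ 0 := (orderOf_pos x).ne'
  obtain ⟨e, m, hm, he⟩ := Nat.exists_eq_pow_mul_and_not_dvd h0 r hr.ne_one
  have hc : (r ^ e).Coprime (orderOf (f x)) := Nat.Coprime.pow_left e h.symm
  obtain ⟨k, hk1, hk2⟩ := Nat.chineseRemainder hc 0 1
  refine ⟨x ^ k, Subgroup.npow_mem_zpowers x k, ?_, ?_⟩
  · rw [map_pow]
    conv_rhs => rw [← pow_one (f x)]
    exact pow_eq_pow_iff_modEq.2 hk2
  · obtain ⟨j, rfl⟩ := (Nat.modEq_zero_iff_dvd).1 hk1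
    refine cop_of_pow ((Nat.Prime.coprime_iff_not_dvd hr).2 hm).symm ?_
    rw [← pow_mul, mul_right_comm, ← he, pow_mul, pow_orderOf_eq_one, one_pow]

lemma PN.map [Finite G] (hr : r.Prime) {Q : Type} [Group Q] (f : G →* Q) {H : Subgroup G}
    (h : PN r H) : PN r (H.map f) := by
  rintro _ ⟨x, hx, rfl⟩ _ ⟨y, hy, rfl⟩ h1 h2
  obtain ⟨x', a1, a2, a3⟩ := exists_lift hr f x h1
  obtain ⟨y', b1, b2, b3⟩ := exists_lift hr f y h2
  rw [← a2, ← b2, ← map_mul]
  exact cop_map f (h _ (H.zpowers_le_of_mem hx a1) _ (H.zpowers_le_of_mem hy b1) a3 b3)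

lemma PN.of_map {Q : Type} [Group Q] (f : G →* Q) (hf : Function.Injective f) {H : Subgroup G}
    (h : PN r (H.map f)) : PN r H := by
  intro x hx y hy h1 h2
  have := h _ ⟨x, hx, rfl⟩ _ ⟨y, hy, rfl⟩ (cop_map f h1) (cop_map f h2)
  rwa [← map_mul, orderOf_injective f hf] at this

lemma PN.of_quot (K : Subgroup G) [K.Normal] (hK : (Nat.card K).Coprime r)
    (h : PN r (⊤ : Subgroup (G ⧸ K))) : PN r (⊤ : Subgroup G) := by
  intro x _ y _ h1 h2
  have h3 := h _ (Subgroup.mem_top _) _ (Subgroup.mem_top _)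
    (cop_map (QuotientGroup.mk' K) h1) (cop_map (QuotientGroup.mk' K) h2)
  rw [← map_mul] at h3
  have h4 : (x * y) ^ orderOf (QuotientGroup.mk' K (x * y)) ∈ K := by
    rw [← QuotientGroup.eq_one_iff, ← QuotientGroup.mk'_apply, map_pow, pow_orderOf_eq_one]
  refine cop_of_pow (h3.mul_left hK) ?_
  rw [pow_mul]
  exact congrArg Subtype.val (pow_card_eq_one' (x := (⟨_, h4⟩ : K)))

/-- The subgroup of elements of order prime to `r`. -/
def PN.core {H : Subgroup G} (h : PN r H) : Subgroup G where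
  carrier := {x | x ∈ H ∧ (orderOf x).Coprime r}
  one_mem' := ⟨H.one_mem, by simp⟩
  mul_mem' := fun {a b} ha hb => ⟨H.mul_mem ha.1 hb.1, h a ha.1 b hb.1 ha.2 hb.2⟩
  inv_mem' := fun {a} ha => ⟨H.inv_mem ha.1, by rw [orderOf_inv]; exact ha.2⟩

lemma PN.mem_core {H : Subgroup G} (h : PN r H) {x : G} :
    x ∈ h.core ↔ x ∈ H ∧ (orderOf x).Coprime r := Iff.rfl

lemma PN.card_core [Finite G] {H : Subgroup G} (h : PN r H) : (Nat.card h.core).Coprime r := by
  refine Nat.coprime_of_dvd fun t ht h1 h2 => ?_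
  have := Fact.mk ht
  obtain ⟨y, hy⟩ := exists_prime_orderOf_dvd_card' t h1
  have h3 := y.2.2
  rw [Subgroup.orderOf_coe, hy] at h3
  exact ht.one_lt.ne' (Nat.eq_one_of_dvd_coprimes h3 dvd_rfl h2)

/-- Elements of order prime to `r` centralise the `r`-subgroups normalised by `H`. -/
lemma PN.commute {H U : Subgroup G} (h : PN r H) (hU : IsPGroup r U) (hle : U ≤ H)
    (hn : H ≤ Subgroup.normalizer (U : Set G)) {x u : G} (hx : x ∈ H)
    (hc : (orderOf x).Coprime r) (hu : u ∈ U) : Commute x u := by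
  have h1 : x * u * x⁻¹ * u⁻¹ ∈ U :=
    U.mul_mem ((Subgroup.mem_normalizer_iff.1 (hn hx) u).1 hu) (U.inv_mem hu)
  have h2 := h x hx (u * x⁻¹ * u⁻¹) (H.mul_mem (H.mul_mem (hle hu) (H.inv_mem hx))
    (H.inv_mem (hle hu))) hc (cop_conj (by rwa [orderOf_inv]) u)
  have h3 := eq_one_of_cop hU h1 (by rwa [← mul_assoc, ← mul_assoc] at h2)
  rwa [mul_inv_eq_one, mul_inv_eq_iff_eq_mul] at h3

end basic

end Pool.Agent.MP_b7033c_al.Three

end

section

set_option autoImplicit false

namespace Pool.Agent.MP_b7033c_al.Three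

open scoped commutatorElement

namespace GHFA

/-- terms of the lower central series -/
abbrev g (K : Type) [Group K] (i : ℕ) : Subgroup K := (⊤ : Subgroup K).lowerCentralSeries i

variable {K : Type} [Group K]

lemma three (N H₁ H₂ H₃ : Subgroup K) [N.Normal] (h1 : ⁅⁅H₂, H₃⁆, H₁⁆ ≤ N)
    (h2 : ⁅⁅H₃, H₁⁆, H₂⁆ ≤ N) : ⁅⁅H₁, H₂⁆, H₃⁆ ≤ N := by
  rw [← QuotientGroup.ker_mk' N, ← Subgroup.map_eq_bot_iff, Subgroup.map_commutator,
    Subgroup.map_commutator] at h1 h2 ⊢
  exact Subgroup.commutator_commutator_eq_bot_of_rotate h1 h2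

lemma comm_le (j : ℕ) : ∀ i, ⁅g K i, g K j⁆ ≤ g K (i + j + 1) := by
  induction j with
  | zero => exact fun i => le_rfl
  | succ j ih =>
    intro i
    rw [Subgroup.commutator_comm]
    refine three (g K (i + (j + 1) + 1)) (g K j) ⊤ (g K i) ?_ ?_
    · rw [Subgroup.commutator_comm ⊤, show i + (j + 1) + 1 = i + 1 + j + 1 by omega]
      exact ih (i + 1)
    · exact Subgroup.commutator_mono (ih i) le_rfl

lemma comm_mem {i j k : ℕ} {x y : K} (hx : x ∈ g K i) (hy : y ∈ g K j) (h : i + j + 1 = k) :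
    ⁅x, y⁆ ∈ g K k := h ▸ comm_le j i (Subgroup.commutator_mem_commutator hx hy)

lemma succ_mem {k : ℕ} {x : K} (hx : x ∈ g K (k + 1)) : x ∈ g K k :=
  Subgroup.lowerCentralSeries_antitone _ (Nat.le_succ k) hx

lemma aut_mem (α : MulAut K) {k : ℕ} {x : K} (hx : x ∈ g K k) : α x ∈ g K k := by
  have : (g K k).map α.toMonoidHom = g K k := by
    rw [Subgroup.map_lowerCentralSeries, Subgroup.map_top_of_surjective _ α.surjective]
  rw [← this]
  exact Subgroup.mem_map_of_mem α.toMonoidHom hx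

/-- factors of the lower central series -/
def B (K : Type) [Group K] (k : ℕ) : Type := (g K k).map (QuotientGroup.mk' (g K (k + 1)))

instance (k : ℕ) : CommGroup (B K k) :=
  { (inferInstance : Group ((g K k).map (QuotientGroup.mk' (g K (k + 1))))) with
    mul_comm := by
      rintro ⟨_, x, hx, rfl⟩ ⟨_, y, hy, rfl⟩
      refine Subtype.ext ?_
      change QuotientGroup.mk' (g K (k + 1)) x * QuotientGroup.mk' (g K (k + 1)) y =
        QuotientGroup.mk' (g K (k + 1)) y * QuotientGroup.mk' (g K (k + 1)) x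
      rw [← commutatorElement_eq_one_iff_mul_comm, ← map_commutatorElement]
      exact (QuotientGroup.eq_one_iff _).2
        (Subgroup.commutator_mem_commutator hx (Subgroup.mem_top y)) }

/-- the factors as additive groups -/
abbrev A (K : Type) [Group K] (k : ℕ) : Type := Additive (B K k)

/-- the class of an element that lies in the term -/
def cl (k : ℕ) (x : K) (h : x ∈ g K k) : B K k := ⟨_, Subgroup.mem_map_of_mem _ h⟩

open Classical in
/-- the class of an element -/
noncomputable def c (k : ℕ) (x : K) : A K k :=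
  if h : x ∈ g K k then Additive.ofMul (cl k x h) else 0

lemma c_mul {k : ℕ} {x y : K} (hx : x ∈ g K k) (hy : y ∈ g K k) :
    c k (x * y) = c k x + c k y := by
  rw [c, c, c, dif_pos hx, dif_pos hy, dif_pos (mul_mem hx hy)]
  rfl

lemma c_zero {k : ℕ} {x : K} (hx : x ∈ g K k) : c k x = 0 ↔ x ∈ g K (k + 1) := by
  rw [c, dif_pos hx, ← QuotientGroup.eq_one_iff]
  exact Subtype.ext_iff

lemma c_surj {k : ℕ} (a : A K k) : ∃ x ∈ g K k, c k x = a := by
  obtain ⟨_, x, hx, rfl⟩ := a
  exact ⟨x, hx, dif_pos hx⟩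

lemma c_of_mem {k : ℕ} {x : K} (hx : x ∈ g K (k + 1)) : c k x = 0 := (c_zero (succ_mem hx)).2 hx

lemma c_one (k : ℕ) : c k (1 : K) = 0 := c_of_mem (one_mem _)

lemma c_inv {k : ℕ} {x : K} (hx : x ∈ g K k) : c k x⁻¹ = - c k x := by
  rw [eq_neg_iff_add_eq_zero, ← c_mul (inv_mem hx) hx, inv_mul_cancel, c_one]

lemma c_eq {k : ℕ} {x y : K} (hx : x ∈ g K k) (hy : y ∈ g K k) (h : c k x = c k y) :
    x⁻¹ * y ∈ g K (k + 1) := by
  rw [← c_zero (mul_mem (inv_mem hx) hy), c_mul (inv_mem hx) hy, c_inv hx, h, neg_add_cancel]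

lemma c_conj {k : ℕ} {x : K} (hx : x ∈ g K k) (w : K) : c k (w * x * w⁻¹) = c k x := by
  have h : ⁅x⁻¹, w⁆ ∈ g K (k + 1) :=
    Subgroup.commutator_mem_commutator (inv_mem hx) (Subgroup.mem_top w)
  have e : w * x * w⁻¹ = x * ⁅x⁻¹, w⁆ := by simp only [commutatorElement_def]; group
  rw [e, c_mul hx (succ_mem h), c_of_mem h, add_zero]

lemma c_pow {k : ℕ} {x : K} (hx : x ∈ g K k) (m : ℕ) : c k (x ^ m) = m • c k x := by
  induction m with
  | zero => rw [pow_zero, c_one, zero_smul]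
  | succ m ih => rw [pow_succ, c_mul (pow_mem hx m) hx, ih, succ_nsmul]

lemma c_swap {i j k : ℕ} {x y : K} (hx : x ∈ g K i) (hy : y ∈ g K j) (h : i + j + 1 = k) :
    c k ⁅y, x⁆ = - c k ⁅x, y⁆ := by
  rw [← commutatorElement_inv, c_inv (comm_mem hx hy h)]

lemma c_left {i j k : ℕ} {x x' y : K} (hx : x ∈ g K i) (hx' : x' ∈ g K i) (hy : y ∈ g K j)
    (h : i + j + 1 = k) : c k ⁅x * x', y⁆ = c k ⁅x, y⁆ + c k ⁅x', y⁆ := by
  have e : ⁅x * x', y⁆ = x * ⁅x', y⁆ * x⁻¹ * ⁅x, y⁆ := by
    simp only [commutatorElement_def]; group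
  rw [e, c_mul (Subgroup.Normal.conj_mem inferInstance _ (comm_mem hx' hy h) x) (comm_mem hx hy h),
    c_conj (comm_mem hx' hy h), add_comm]

lemma wd_left {i j k : ℕ} {x x' y : K} (hx : x ∈ g K i) (hx' : x' ∈ g K i) (hy : y ∈ g K j)
    (h : i + j + 1 = k) (e : c i x = c i x') : c k ⁅x, y⁆ = c k ⁅x', y⁆ := by
  have h1 := c_eq hx hx' e
  have h2 := c_left hx (succ_mem h1) hy h
  rw [mul_inv_cancel_left, c_of_mem (comm_mem h1 hy (by omega)), add_zero] at h2
  exact h2.symm

lemma wd_right {i j k : ℕ} {x y y' : K} (hx : x ∈ g K i) (hy : y ∈ g K j) (hy' : y' ∈ g K j)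
    (h : i + j + 1 = k) (e : c j y = c j y') : c k ⁅x, y⁆ = c k ⁅x, y'⁆ := by
  rw [c_swap hy hx (by omega), c_swap hy' hx (by omega), wd_left hy hy' hx (by omega) e]

lemma c_jac {i j l k : ℕ} {x y z : K} (hx : x ∈ g K i) (hy : y ∈ g K j) (hz : z ∈ g K l)
    (h : i + j + l + 2 = k) : c k ⁅x, ⁅y, z⁆⁆ + c k ⁅y, ⁅z, x⁆⁆ + c k ⁅z, ⁅x, y⁆⁆ = 0 := by
  have key : ∀ {i j l : ℕ} {x y z : K}, x ∈ g K i → y ∈ g K j → z ∈ g K l → i + j + l + 2 = k →
      ⁅⁅x, y⁆, y * z * y⁻¹⁆ ∈ g K k ∧ c k ⁅⁅x, y⁆, y * z * y⁻¹⁆ = - c k ⁅z, ⁅x, y⁆⁆ := by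
    intro i j l x y z hx hy hz h
    have h1 := comm_mem hx hy rfl
    have h2 : y * z * y⁻¹ ∈ g K l := Subgroup.Normal.conj_mem inferInstance _ hz y
    refine ⟨comm_mem h1 h2 (by omega), ?_⟩
    rw [wd_right h1 h2 hz (by omega) (c_conj hz y), c_swap hz h1 (by omega)]
  obtain ⟨a1, a2⟩ := key hx hy hz h
  obtain ⟨b1, b2⟩ := key hy hz hx (by omega)
  obtain ⟨c1, c2⟩ := key hz hx hy (by omega)
  have e : ⁅⁅x, y⁆, y * z * y⁻¹⁆ * ⁅⁅y, z⁆, z * x * z⁻¹⁆ * ⁅⁅z, x⁆, x * y * x⁻¹⁆ = 1 := by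
    simp only [commutatorElement_def]; group
  have := congrArg (c k) e
  rw [c_mul (mul_mem a1 b1) c1, c_mul a1 b1, a2, b2, c2, c_one] at this
  rw [← neg_eq_zero, ← this]
  abel

/-- a representative -/
noncomputable def out {k : ℕ} (a : A K k) : K := (c_surj a).choose

lemma out_mem {k : ℕ} (a : A K k) : out a ∈ g K k := (c_surj a).choose_spec.1

lemma c_out {k : ℕ} (a : A K k) : c k (out a) = a := (c_surj a).choose_spec.2

/-- the bracket of homogeneous elements -/
noncomputable def br (i j k : ℕ) (a : A K i) (b : A K j) : A K k :=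
  if i + j + 1 = k then c k ⁅out a, out b⁆ else 0

lemma br_c {i j : ℕ} (k : ℕ) {x y : K} (hx : x ∈ g K i) (hy : y ∈ g K j) :
    br i j k (c i x) (c j y) = if i + j + 1 = k then c k ⁅x, y⁆ else 0 := by
  rw [br]
  split_ifs with h
  · rw [wd_left (out_mem _) hx (out_mem _) h (c_out _), wd_right hx (out_mem _) hy h (c_out _)]
  · rfl

lemma br_swap (i j k : ℕ) (a : A K i) (b : A K j) : br j i k b a = - br i j k a b := by
  rw [br, br]
  by_cases h : i + j + 1 = k
  · rw [if_pos h, if_pos (by omega), c_swap (out_mem a) (out_mem b) h]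
  · rw [if_neg h, if_neg (by omega), neg_zero]

lemma br_self (i k : ℕ) (a : A K i) : br i i k a a = 0 := by
  rw [br, commutatorElement_self, c_one, ite_self]

lemma br_add (i j k : ℕ) (a a' : A K i) (b : A K j) :
    br i j k (a + a') b = br i j k a b + br i j k a' b := by
  obtain ⟨x, hx, rfl⟩ := c_surj a
  obtain ⟨x', hx', rfl⟩ := c_surj a'
  obtain ⟨y, hy, rfl⟩ := c_surj b
  rw [← c_mul hx hx', br_c k (mul_mem hx hx') hy, br_c k hx hy, br_c k hx' hy]
  split_ifs with h
  · exact c_left hx hx' hy h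
  · exact (add_zero _).symm

/-- the bracket as an additive map in the second argument -/
noncomputable def bh (i j k : ℕ) (a : A K i) : A K j →+ A K k :=
  AddMonoidHom.mk' (br i j k a) fun b b' => by
    rw [br_swap, br_add, neg_add, ← br_swap, ← br_swap]

lemma bh_apply (i j k : ℕ) (a : A K i) (b : A K j) : bh i j k a b = br i j k a b := rfl

lemma br_zero (i j k : ℕ) (a : A K i) : br i j k a 0 = 0 := (bh i j k a).map_zero

lemma br_zero' (i j k : ℕ) (b : A K j) : br i j k 0 b = 0 := by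
  rw [br_swap, br_zero, neg_zero]

/-- the graded group -/
abbrev L (K : Type) [Group K] (n : ℕ) : Type := ∀ k : Fin n, A K k

/-- the bracket -/
noncomputable def lb {n : ℕ} (f f' : L K n) : L K n :=
  fun k => ∑ i : Fin n, ∑ j : Fin n, br i j k (f i) (f' j)

lemma lb_swap {n : ℕ} (f f' : L K n) : lb f' f = - lb f f' := by
  funext k
  simp only [lb, Pi.neg_apply, ← Finset.sum_neg_distrib, ← br_swap]
  exact Finset.sum_comm

lemma tri {n : ℕ} (i j l : ℕ) (k : Fin n) {x y z : K} (hx : x ∈ g K i) (hy : y ∈ g K j)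
    (hz : z ∈ g K l) : ∑ m : Fin n, br i m k (c i x) (br j l m (c j y) (c l z)) =
      if i + j + l + 2 = k then c k ⁅x, ⁅y, z⁆⁆ else 0 := by
  have key : ∀ m : ℕ, br i m k (c i x) (br j l m (c j y) (c l z)) =
      if j + l + 1 = m then (if i + j + l + 2 = k then c k ⁅x, ⁅y, z⁆⁆ else 0) else 0 := by
    intro m
    rw [br_c m hy hz]
    by_cases h : j + l + 1 = m
    · rw [if_pos h, if_pos h, br_c k hx (comm_mem hy hz h)]
      exact if_congr (by omega) rfl rfl
    · rw [if_neg h, if_neg h, br_zero]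
  simp only [key]
  by_cases h : i + j + l + 2 = k
  · rw [Finset.sum_eq_single ⟨j + l + 1, by omega⟩, if_pos rfl]
    · exact fun m _ hm => if_neg fun e => hm (Fin.ext e.symm)
    · exact fun e => absurd (Finset.mem_univ _) e
  · simp only [if_neg h, ite_self, Finset.sum_const_zero]

lemma lb_lb {n : ℕ} (f f' f'' : L K n) (k : Fin n) : lb f (lb f' f'') k =
    ∑ i : Fin n, ∑ j : Fin n, ∑ l : Fin n, ∑ m : Fin n,
      br i m k (f i) (br j l m (f' j) (f'' l)) := by
  refine Finset.sum_congr rfl fun i _ => ?_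
  have : ∀ m : Fin n, br i m k (f i) (lb f' f'' m) =
      ∑ j : Fin n, ∑ l : Fin n, br i m k (f i) (br j l m (f' j) (f'' l)) := by
    intro m
    simp only [← bh_apply i m, lb, map_sum]
  simp only [this]
  rw [Finset.sum_comm]
  exact Finset.sum_congr rfl fun j _ => Finset.sum_comm

lemma lb_jac {n : ℕ} (f f' f'' : L K n) :
    lb f (lb f' f'') + lb f' (lb f'' f) + lb f'' (lb f f') = 0 := by
  funext k
  rw [Pi.add_apply, Pi.add_apply, lb_lb, lb_lb, lb_lb, Pi.zero_apply]
  have e1 : ∀ F : Fin n → Fin n → Fin n → A K k,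
      ∑ j, ∑ l, ∑ i, F i j l = ∑ i, ∑ j, ∑ l, F i j l := by
    intro F
    rw [Finset.sum_comm (f := fun i j => ∑ l, F i j l)]
    exact Finset.sum_congr rfl fun j _ => Finset.sum_comm
  rw [e1 (fun i j l => ∑ m : Fin n, br j m k (f' j) (br l i m (f'' l) (f i))),
    ← e1 (fun l i j => ∑ m : Fin n, br l m k (f'' l) (br i j m (f i) (f' j)))]
  simp only [← Finset.sum_add_distrib]
  refine Finset.sum_eq_zero fun i _ => Finset.sum_eq_zero fun j _ => Finset.sum_eq_zero fun l _ => ?_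
  simp only [Finset.sum_add_distrib]
  obtain ⟨x, hx, e1⟩ := c_surj (f i)
  obtain ⟨y, hy, e2⟩ := c_surj (f' j)
  obtain ⟨z, hz, e3⟩ := c_surj (f'' l)
  rw [← e1, ← e2, ← e3, tri i j l k hx hy hz, tri j l i k hy hz hx, tri l i j k hz hx hy]
  by_cases h : (i : ℕ) + j + l + 2 = k
  · rw [if_pos h, if_pos (by omega), if_pos (by omega), c_jac hx hy hz h]
  · rw [if_neg h, if_neg (by omega), if_neg (by omega), add_zero, add_zero]

lemma lb_add {n : ℕ} (f f' f'' : L K n) : lb (f + f') f'' = lb f f'' + lb f' f'' := by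
  funext k
  simp only [lb, Pi.add_apply, br_add, Finset.sum_add_distrib]

lemma lb_add' {n : ℕ} (f f' f'' : L K n) : lb f (f' + f'') = lb f f' + lb f f'' := by
  rw [lb_swap, lb_add, neg_add, ← lb_swap, ← lb_swap]

lemma lb_neg {n : ℕ} (f f' : L K n) : lb f (-f') = - lb f f' :=
  (AddMonoidHom.mk' (lb f) (lb_add' f)).map_neg f'

lemma lb_self {n : ℕ} (f : L K n) : lb f f = 0 := by
  funext k
  rw [lb, ← Fintype.sum_prod_type' (fun i j : Fin n => br i j k (f i) (f j)), Pi.zero_apply]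
  refine Finset.sum_ninvolution Prod.swap (fun a => ?_) (fun a ha e => ha ?_)
    (fun _ => Finset.mem_univ _) Prod.swap_swap
  · rw [Prod.fst_swap, Prod.snd_swap, br_swap a.1 a.2, add_neg_cancel]
  · obtain ⟨i, j⟩ := a
    obtain rfl : j = i := congrArg Prod.fst e
    exact br_self _ _ _

/-- the graded ring -/
@[reducible] noncomputable def lie (K : Type) [Group K] (n : ℕ) : LieRing (L K n) where
  bracket := lb
  add_lie := lb_add
  lie_add := lb_add'
  lie_self := lb_self
  leibniz_lie x y z := by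
    change lb x (lb y z) = lb (lb x y) z + lb y (lb x z)
    rw [lb_swap z (lb x y), lb_swap z x, lb_neg, ← sub_eq_zero, ← lb_jac x y z]
    abel

/-- homogeneous elements -/
noncomputable def hom (n i : ℕ) (x : K) : L K n := fun k => if (k : ℕ) = i then c k x else 0

lemma hom_lb (n : ℕ) {i j : ℕ} {x y : K} (hx : x ∈ g K i) (hy : y ∈ g K j) :
    lb (hom n i x) (hom n j y) = hom n (i + j + 1) ⁅x, y⁆ := by
  funext k
  have key : ∀ a b : Fin n, br a b k (hom n i x a) (hom n j y b) =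
      if (a : ℕ) = i then (if (b : ℕ) = j then hom n (i + j + 1) ⁅x, y⁆ k else 0) else 0 := by
    intro a b
    simp only [hom]
    by_cases ha : (a : ℕ) = i
    · by_cases hb : (b : ℕ) = j
      · subst ha hb
        rw [if_pos rfl, if_pos rfl, if_pos rfl, if_pos rfl, br_c k hx hy]
        exact if_congr eq_comm rfl rfl
      · rw [if_neg hb, if_neg hb, br_zero, ite_self]
    · rw [if_neg ha, if_neg ha, br_zero']
  simp only [lb, key]
  by_cases h : (k : ℕ) = i + j + 1
  · rw [Finset.sum_eq_single ⟨i, by omega⟩, Finset.sum_eq_single ⟨j, by omega⟩, if_pos rfl,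
      if_pos rfl]
    · exact fun m _ hm => by rw [if_pos rfl, if_neg fun e => hm (Fin.ext e)]
    · exact fun e => absurd (Finset.mem_univ _) e
    · exact fun m _ hm => Finset.sum_eq_zero fun _ _ => if_neg fun e => hm (Fin.ext e)
    · exact fun e => absurd (Finset.mem_univ _) e
  · simp only [hom, if_neg h, ite_self, Finset.sum_const_zero]

lemma hom_mul (n : ℕ) {i : ℕ} {x y : K} (hx : x ∈ g K i) (hy : y ∈ g K i) :
    hom n i (x * y) = hom n i x + hom n i y := by
  funext k
  simp only [hom, Pi.add_apply]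
  split_ifs with h
  · subst h
    exact c_mul hx hy
  · exact (add_zero _).symm

lemma hom_one (n i : ℕ) : hom n i (1 : K) = 0 := by
  funext k
  simp only [hom, c_one, ite_self, Pi.zero_apply]

/-- the induced map -/
noncomputable def ps (α : MulAut K) (k : ℕ) (a : A K k) : A K k := c k (α (out a))

lemma ps_c (α : MulAut K) {k : ℕ} {x : K} (hx : x ∈ g K k) : ps α k (c k x) = c k (α x) := by
  have h1 := c_eq hx (out_mem (c k x)) (c_out _).symm
  have h2 := c_mul (aut_mem α hx) (aut_mem α (succ_mem h1))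
  rw [← map_mul, mul_inv_cancel_left, c_of_mem (aut_mem α h1), add_zero] at h2
  exact h2

/-- the induced additive map -/
noncomputable def ph (α : MulAut K) (k : ℕ) : A K k →+ A K k :=
  AddMonoidHom.mk' (ps α k) fun a b => by
    obtain ⟨x, hx, rfl⟩ := c_surj a
    obtain ⟨y, hy, rfl⟩ := c_surj b
    rw [← c_mul hx hy, ps_c α hx, ps_c α hy, ps_c α (mul_mem hx hy), map_mul,
      c_mul (aut_mem α hx) (aut_mem α hy)]

lemma ph_c (α : MulAut K) {k : ℕ} {x : K} (hx : x ∈ g K k) : ph α k (c k x) = c k (α x) :=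
  ps_c α hx

lemma ph_br (α : MulAut K) (i j k : ℕ) (a : A K i) (b : A K j) :
    ph α k (br i j k a b) = br i j k (ph α i a) (ph α j b) := by
  obtain ⟨x, hx, rfl⟩ := c_surj a
  obtain ⟨y, hy, rfl⟩ := c_surj b
  rw [ph_c α hx, ph_c α hy, br_c k hx hy, br_c k (aut_mem α hx) (aut_mem α hy)]
  split_ifs with h
  · rw [ph_c α (comm_mem hx hy h), map_commutatorElement]
  · exact map_zero _

/-- the induced map on the graded ring -/
noncomputable def psi (α : MulAut K) (n : ℕ) : L K n →+ L K n :=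
  AddMonoidHom.mk' (fun f k => ph α k (f k)) fun _ _ => funext fun k => map_add (ph α k) _ _

lemma psi_iter (α : MulAut K) (n : ℕ) (f : L K n) (k : Fin n) {x : K} (hx : x ∈ g K k)
    (e : c k x = f k) (i : ℕ) : α^[i] x ∈ g K k ∧ (psi α n)^[i] f k = c k (α^[i] x) := by
  induction i with
  | zero => exact ⟨hx, e.symm⟩
  | succ i ih =>
    rw [Function.iterate_succ_apply', Function.iterate_succ_apply']
    refine ⟨aut_mem α ih.1, ?_⟩
    rw [← ph_c α ih.1, ← ih.2]
    rfl

lemma c_prod {k : ℕ} (u : ℕ → K) (hu : ∀ i, u i ∈ g K k) (p : ℕ) :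
    ((List.range p).map u).prod ∈ g K k ∧
      c k ((List.range p).map u).prod = ∑ i ∈ Finset.range p, c k (u i) := by
  induction p with
  | zero => exact ⟨one_mem _, c_one k⟩
  | succ p ih =>
    rw [List.prod_range_succ, Finset.sum_range_succ, c_mul ih.1 (hu p), ih.2]
    exact ⟨mul_mem ih.1 (hu p), rfl⟩

lemma cop [Finite K] {p : ℕ} (hp : p.Prime) (α : MulAut K) (h1 : α ^ p = 1)
    (hf : ∀ y, α y = y → y = 1) : (Nat.card K).Coprime p := by
  have := Fact.mk hp
  rw [Nat.coprime_comm, hp.coprime_iff_not_dvd]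
  intro hd
  have hP : IsPGroup p (Subgroup.zpowers α) := by
    rintro ⟨_, k, rfl⟩
    refine ⟨1, Subtype.ext ?_⟩
    change (α ^ k) ^ p ^ 1 = 1
    rw [pow_one, ← zpow_natCast, ← zpow_mul, mul_comm, zpow_mul, zpow_natCast, h1, one_zpow]
  obtain ⟨b, hb, hne⟩ := hP.exists_fixed_point_of_prime_dvd_card_of_fixed_point K hd (a := 1)
    (fun β => map_one (β : MulAut K))
  exact hne (hf b (hb ⟨α, Subgroup.mem_zpowers α⟩)).symm

end GHFA

open GHFA in
theorem ghf (p h : Nat) (hp : p.Prime) (H : LieH p h) : GHF p h := by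
  intro K _ _ α hnil h1 hf
  let _ := lie K (h + 1)
  have hit : (⇑α)^[p] = id := by
    have : ∀ (k : ℕ) (x : K), (⇑α)^[k] x = (α ^ k) x := by
      intro k
      induction k with
      | zero => exact fun _ => rfl
      | succ k ih => exact fun x => by rw [pow_succ]; exact ih (α x)
    funext x
    rw [this, h1]
    rfl
  have key := H (L K (h + 1)) (psi α (h + 1)) (Nat.card K) (cop hp α h1 hf)
    (fun f => funext fun k => by
      obtain ⟨x, hx, e⟩ := c_surj (f k)
      rw [Pi.smul_apply, ← e, ← c_pow hx, pow_card_eq_one', c_one, Pi.zero_apply])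
    (fun f f' => funext fun k => by
      change ph α k (lb f f' k) = lb _ _ k
      simp only [lb, map_sum, ph_br]
      rfl)
    (fun f => funext fun k => by
      obtain ⟨x, hx, e⟩ := c_surj (f k)
      have h2 := psi_iter α (h + 1) f k hx e
      rw [Finset.sum_apply, Finset.sum_congr rfl fun i _ => (h2 i).2,
        ← (c_prod _ (fun i => (h2 i).1) p).2,
        MonoidHom.FixedPointFree.prod_pow_eq_one (φ := α) hf hit, c_one, Pi.zero_apply])
  have fa : ∀ (l : List (L K (h + 1))) (a b : L K (h + 1)),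
      l.foldr lb (a + b) = l.foldr lb a + l.foldr lb b := by
    intro l a b
    induction l with
    | nil => rfl
    | cons u l ih => rw [List.foldr_cons, ih, lb_add']; rfl
  have Q : ∀ k, ∀ l : List (L K (h + 1)), l.length + k = h → ∀ x ∈ g K k,
      l.foldr lb (hom (h + 1) k x) = 0 := by
    intro k
    induction k with
    | zero => exact fun l hl x _ => key l hl _
    | succ k ih =>
      intro l hl x hx
      let F : L K (h + 1) →+ L K (h + 1) := AddMonoidHom.mk' (l.foldr lb) (fa l)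
      change F _ = 0
      induction hx using Subgroup.closure_induction with
      | mem x hx =>
        obtain ⟨u, hu, w, hw, rfl⟩ := hx
        have h2 := ih (l ++ [hom (h + 1) 0 w]) (by simp; omega) u hu
        rw [List.foldr_append] at h2
        rw [← hom_lb (h + 1) (j := 0) hu hw, lb_swap, map_neg, neg_eq_zero]
        exact h2
      | one => rw [hom_one, map_zero]
      | mul x y hx hy a b => rw [hom_mul (h + 1) (i := k + 1) hx hy, map_add, a, b, add_zero]
      | inv x hx a =>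
        have := hom_mul (h + 1) (i := k + 1) (inv_mem hx) hx
        rw [inv_mul_cancel, hom_one] at this
        rw [eq_neg_of_add_eq_zero_left this.symm, map_neg, a, neg_zero]
  have h2 : g K h ≤ g K (h + 1) := fun x hx => by
    have := congrFun (Q h [] (by simp) x hx) (Fin.last h)
    exact (c_zero hx).1 ((if_pos rfl).symm.trans this)
  have h3 : ∀ j, g K h ≤ g K (h + j) := by
    intro j
    induction j with
    | zero => exact le_rfl
    | succ j ih => exact h2.trans (Subgroup.commutator_mono ih le_rfl)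
  obtain ⟨k, hk⟩ := Subgroup.nilpotent_iff_lowerCentralSeries.1 hnil
  rw [eq_bot_iff, ← hk]
  exact (h3 k).trans (Subgroup.lowerCentralSeries_antitone _ (Nat.le_add_left _ _))

end Pool.Agent.MP_b7033c_al.Three

end

section

set_option autoImplicit false

namespace Pool.Agent.MP_b7033c_al.Three

namespace OffA

open Finset

variable {A K V : Type} [Group A] [CommGroup K] [CommGroup V] {r : ℕ}

/-- The commutator map of an endomorphism. -/
def dl (φ : Monoid.End K) : K →* K where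
  toFun s := s⁻¹ * φ s
  map_one' := by simp
  map_mul' x y := by rw [map_mul, mul_inv]; exact mul_mul_mul_comm _ _ _ _

lemma dl_apply (φ : Monoid.End K) (s : K) : dl φ s = s⁻¹ * φ s := rfl

lemma dl_eq_one {φ : Monoid.End K} {s : K} : dl φ s = 1 ↔ φ s = s := by
  rw [dl_apply, inv_mul_eq_one, eq_comm]

/-- Fixed points of a subgroup. -/
def fx (σ : A →* Monoid.End K) (B : Subgroup A) : Subgroup K where
  carrier := {t | ∀ c ∈ B, σ c t = t}
  one_mem' := fun c _ => map_one (σ c)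
  mul_mem' := fun {x y} hx hy c hc => by rw [map_mul, hx c hc, hy c hc]
  inv_mem' := fun {x} hx c hc => by rw [map_inv, hx c hc]

lemma sg_mul (σ : A →* Monoid.End K) (a b : A) (t : K) : σ (a * b) t = σ a (σ b t) := by
  rw [map_mul]; rfl

lemma sg_one (σ : A →* Monoid.End K) (t : K) : σ 1 t = t := by rw [map_one]; rfl

lemma sg_comm (σ : A →* Monoid.End K) (hc : ∀ a b : A, Commute a b) (a b : A) (t : K) :
    σ a (σ b t) = σ b (σ a t) := by rw [← sg_mul, ← sg_mul, (hc a b).eq]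

lemma fx_inv (σ : A →* Monoid.End K) (hc : ∀ a b : A, Commute a b) (B : Subgroup A) (a : A)
    {t : K} (ht : t ∈ fx σ B) : σ a t ∈ fx σ B := fun c h => by rw [sg_comm σ hc, ht c h]

lemma dl_comm (σ : A →* Monoid.End K) (hc : ∀ a b : A, Commute a b) (a c : A) (s : K) :
    σ c (dl (σ a) s) = dl (σ a) (σ c s) := by
  rw [dl_apply, dl_apply, map_mul, map_inv, sg_comm σ hc]

/-- The stabiliser of a point. -/
def st (σ : A →* Monoid.End K) (t : K) : Subgroup A where
  carrier := {c | σ c t = t}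
  one_mem' := sg_one σ t
  mul_mem' := fun {x y} hx hy => by
    show σ (x * y) t = t
    rw [sg_mul, hy, hx]
  inv_mem' := fun {x} hx => by
    show σ x⁻¹ t = t
    conv_lhs => rw [← show σ x t = t from hx]
    rw [← sg_mul, inv_mul_cancel, sg_one]

lemma norm_fix (σ : A →* Monoid.End K) {x : A} (hx : x ^ r = 1) (t : K) :
    σ x (∏ i ∈ range r, σ (x ^ i) t) = ∏ i ∈ range r, σ (x ^ i) t := by
  have h1 := prod_range_succ (fun i => σ (x ^ i) t) r
  rw [prod_range_succ', hx, pow_zero] at h1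
  rw [map_prod, ← mul_right_cancel h1]
  exact prod_congr rfl fun i _ => by rw [pow_succ', sg_mul]

/-- The group theoretic reduction. -/
lemma grp [Finite A] [Finite K] (σ : A →* Monoid.End K) (hr : r.Prime)
    (hK : (Nat.card K).Coprime r) (hp : ∀ a : A, a ^ r = 1) (hc : ∀ a b : A, Commute a b)
    (hne : ∃ a t, σ a t ≠ t) : ∃ (B : Subgroup A) (a : A) (T : Subgroup K), a ∉ B ∧
      (∀ b, ∃ i < r, ∃ c ∈ B, b = a ^ i * c) ∧ T ≠ ⊥ ∧ T ≤ fx σ B ∧ (∀ t ∈ T, σ a t ∈ T) ∧
      ∀ t ∈ T, ∃ s ∈ T, t = s⁻¹ * σ a s := by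
  obtain ⟨B, -, ⟨t0, ht0, a, ha⟩, hmax⟩ := Finite.exists_le_maximal
    (p := fun B : Subgroup A => ∃ t ∈ fx σ B, ∃ a, σ a t ≠ t) (a := ⊥) (by
      obtain ⟨a, t, h⟩ := hne
      exact ⟨t, fun c hc => by rw [Subgroup.mem_bot.1 hc, sg_one], a, h⟩)
  have H : ∀ x ∉ B, ∀ t ∈ fx σ B, σ x t = t → t ∈ fx σ ⊤ := fun x hx t ht h b _ => by
    by_contra hb
    exact hx (hmax (y := st σ t) ⟨t, fun c hc => hc, b, hb⟩ (fun c hc => ht c hc) h)
  have N : ∀ x ∉ B, ∀ t ∈ fx σ B, ∏ i ∈ range r, σ (x ^ i) t ∈ fx σ ⊤ := fun x hx t ht =>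
    H x hx _ (prod_mem fun i _ => fx_inv σ hc B _ ht) (norm_fix σ (hp x) t)
  have haB : a ∉ B := fun h => ha (ht0 a h)
  have inj := (Nat.Coprime.pow_left_bijective hK).1
  have dd : ∀ s, dl (σ a) (dl (σ a) s) = 1 → dl (σ a) s = 1 := fun s h => by
    have h1 := dl_eq_one.1 h
    have h2 : ∀ k, σ (a ^ k) s = s * dl (σ a) s ^ k := fun k => by
      induction k with
      | zero => rw [pow_zero, sg_one, pow_zero, mul_one]
      | succ k ih =>
        rw [pow_succ', sg_mul, ih, map_mul, map_pow, h1, pow_succ', ← mul_assoc, dl_apply,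
          mul_inv_cancel_left]
    have h3 := h2 r
    rw [hp, sg_one] at h3
    exact inj (by simpa using h3)
  have mp : Set.MapsTo (dl (σ a)) ((fx σ B).map (dl (σ a))) ((fx σ B).map (dl (σ a))) := by
    rintro _ ⟨s, hs, rfl⟩
    exact ⟨_, fun c h => by rw [dl_comm σ hc, hs c h], rfl⟩
  refine ⟨B, a, (fx σ B).map (dl (σ a)), haB, fun b => ?_, fun h => ha (dl_eq_one.1 ?_), ?_, ?_,
    fun t ht => ?_⟩
  · by_contra hb
    have h1 : ∀ i, a ^ i * b ∉ B := fun i h => hb ⟨i * (r - 1) % r, Nat.mod_lt _ hr.pos, _, h, by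
      rw [← pow_eq_pow_mod _ (hp a), ← mul_assoc, ← pow_add, ← Nat.mul_succ, Nat.succ_eq_add_one,
        Nat.sub_add_cancel hr.pos, mul_comm i, pow_mul, hp, one_pow, one_mul]⟩
    have h2 : ∏ i ∈ range r, ∏ j ∈ range r, σ ((a ^ i * b) ^ j) t0 ∈ fx σ ⊤ :=
      prod_mem fun i _ => N _ (h1 i) t0 ht0
    rw [prod_comm, ← mul_prod_erase _ _ (mem_range.2 hr.pos)] at h2
    have h3 : ∏ j ∈ (range r).erase 0, ∏ i ∈ range r, σ ((a ^ i * b) ^ j) t0 ∈ fx σ ⊤ :=
      prod_mem fun j hj => by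
        have hj1 := mem_erase.1 hj
        have h4 : a ^ j ∉ B := fun h => by
          obtain ⟨m, hm⟩ := exists_pow_eq_self_of_coprime (x := a) (n := j)
            (Nat.Coprime.coprime_dvd_right (orderOf_dvd_of_pow_eq_one (hp a))
              (Nat.coprime_of_lt_prime hj1.1 (mem_range.1 hj1.2) hr).symm)
          exact haB (hm ▸ B.pow_mem h m)
        have h5 := N _ h4 _ (fx_inv σ hc B (b ^ j) ht0)
        rwa [prod_congr rfl (g := fun i => σ ((a ^ i * b) ^ j) t0) fun i _ => by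
          rw [(hc _ _).mul_pow, sg_mul, ← pow_mul, ← pow_mul, mul_comm i]] at h5
    have h6 := (Subgroup.mul_mem_cancel_right _ h3).1 h2
    simp only [pow_zero, sg_one, prod_const, card_range] at h6
    have h7 := h6 a (Subgroup.mem_top a)
    rw [map_pow] at h7
    exact ha (inj h7)
  · exact Subgroup.mem_bot.1 (h ▸ Subgroup.mem_map_of_mem _ ht0)
  · rintro _ ⟨s, hs, rfl⟩ c h
    rw [dl_comm σ hc, hs c h]
  · rintro _ ⟨s, hs, rfl⟩
    exact ⟨_, fx_inv σ hc B a hs, (dl_comm σ hc a a s).symm⟩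
  · have h1 : Set.InjOn (dl (σ a)) ((fx σ B).map (dl (σ a))) := by
      rintro _ ⟨x, -, rfl⟩ _ ⟨y, -, rfl⟩ h
      rw [← div_eq_one, ← map_div] at h ⊢
      exact dd _ (by rwa [map_div])
    obtain ⟨s, hs, e⟩ := ((Set.toFinite _).injOn_iff_bijOn_of_mapsTo mp).1 h1 |>.surjOn ht
    exact ⟨s, hs, e.symm⟩

/-- An `r`-group has a nontrivial fixed point in a nontrivial invariant subgroup. -/
lemma exists_fix [Finite V] (hr : r.Prime) (α : A →* Monoid.End V) (hp : ∀ a : A, a ^ r = 1)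
    (hV : ∀ v : V, v ^ r = 1) (B : Subgroup A) (Y : Subgroup V)
    (hY : ∀ c ∈ B, ∀ y ∈ Y, α c y ∈ Y) (hne : Y ≠ ⊥) : ∃ y ∈ Y, y ≠ 1 ∧ y ∈ fx α B := by
  have := Fact.mk hr
  let _ : MulAction B Y :=
    { smul := fun c y => ⟨α c y, hY c c.2 y y.2⟩
      one_smul := fun y => Subtype.ext (sg_one α y)
      mul_smul := fun c d y => Subtype.ext (sg_mul α c d y) }
  have hB : IsPGroup r B := fun c => ⟨1, Subtype.ext (by simpa using hp c)⟩
  obtain ⟨⟨y, hy⟩, h1⟩ := (Subgroup.ne_bot_iff_exists_ne_one).1 hne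
  have h2 : orderOf (⟨y, hy⟩ : Y) = r := orderOf_eq_prime (Subtype.ext (hV y)) h1
  obtain ⟨b, hb, h3⟩ := hB.exists_fixed_point_of_prime_dvd_card_of_fixed_point Y
    (h2 ▸ orderOf_dvd_natCard _) (a := 1) fun c => Subtype.ext (map_one (α c))
  exact ⟨b, b.2, fun e => h3 (Subtype.ext e.symm), fun c hc => congrArg Subtype.val (hb ⟨c, hc⟩)⟩

lemma pow_inj (hr : r.Prime) {v : V} (h1 : v ^ r = 1) (hv : v ≠ 1) {i j : Fin r}
    (h : v ^ (i : ℕ) = v ^ (j : ℕ)) : i = j := by
  have := Fact.mk hr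
  have h2 := orderOf_eq_prime h1 hv
  exact Fin.ext (pow_injOn_Iio_orderOf (by rw [h2]; exact i.2) (by rw [h2]; exact j.2) h)

lemma eq_one_of_pow (hV : ∀ v : V, v ^ r = 1) {n : ℕ} (hn : n.Coprime r) {v : V}
    (h : v ^ n = 1) : v = 1 := by
  have := pow_gcd_eq_one.2 ⟨h, hV v⟩
  rwa [hn, pow_one] at this

/-- The element `a` does not act quadratically on the fixed points of `B`. -/
lemma not_quad [Finite K] [Finite V] (hr : r.Prime) (h2 : r ≠ 2) (σ : A →* Monoid.End K)
    (α : A →* Monoid.End V) (κ : K →* Monoid.End V) (hκ : Function.Injective κ)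
    (hrel : ∀ a t v, α a (κ t v) = κ (σ a t) (α a v)) (hK : (Nat.card K).Coprime r)
    (hp : ∀ a : A, a ^ r = 1) (hc : ∀ a b : A, Commute a b) (hV : ∀ v : V, v ^ r = 1)
    {B : Subgroup A} {a : A} {T : Subgroup K} (hT : T ≠ ⊥) (hTB : T ≤ fx σ B)
    (hTa : ∀ t ∈ T, σ a t ∈ T) (hs : ∀ t ∈ T, ∃ s ∈ T, t = s⁻¹ * σ a s) :
    ∃ w ∈ fx α B, dl (α a) (dl (α a) w) ≠ 1 := by
  by_contra hq
  push Not at hq
  have := Fintype.ofFinite T
  have cT : (Fintype.card T).Coprime r := by
    rw [← Nat.card_eq_fintype_card]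
    exact Nat.Coprime.coprime_dvd_left (Subgroup.card_subgroup_dvd_card T) hK
  have kW : ∀ t ∈ T, ∀ w ∈ fx α B, κ t w ∈ fx α B := fun t ht w hw c h => by
    rw [hrel, hTB ht c h, hw c h]
  have ai : ∀ v, α a (α a⁻¹ v) = v := fun v => by rw [← sg_mul, mul_inv_cancel, sg_one]
  have ia : ∀ v, α a⁻¹ (α a v) = v := fun v => by rw [← sg_mul, inv_mul_cancel, sg_one]
  have q1 : ∀ w ∈ fx α B, α a w * α a⁻¹ w = w ^ 2 := fun w hw => by
    have h := dl_eq_one.1 (hq _ (fx_inv α hc B a⁻¹ hw))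
    rw [dl_apply, ai, map_mul, map_inv, ai, inv_mul_eq_iff_eq_mul] at h
    rw [h, sq, mul_assoc, mul_assoc, mul_left_comm (α a⁻¹ w)⁻¹, inv_mul_cancel, mul_one]
  have q2 : ∀ t ∈ T, ∀ w ∈ fx α B, κ t (α a w) * α a⁻¹ (κ t⁻¹ w) = w ^ 2 := fun t ht w hw => by
    obtain ⟨s, hs1, rfl⟩ := hs t ht
    have h := congrArg (κ s⁻¹) (q1 _ (kW s hs1 w hw))
    rw [map_mul, map_pow, ← sg_mul κ s⁻¹ s, inv_mul_cancel, sg_one, hrel, ← sg_mul] at h
    rw [← h]
    congr 1
    have e : ∀ x y, α a x = α a y → x = y := fun x y h => by rw [← ia x, h, ia]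
    apply e
    rw [ai, hrel, ai, ← sg_mul, map_inv (σ a), mul_inv, inv_inv, mul_comm]
  obtain ⟨N, hN⟩ : ∃ N : V →* V, ∀ v, N v = ∏ t : T, κ t v :=
    ⟨{ toFun := fun v => ∏ t : T, κ t v
       map_one' := by simp
       map_mul' := fun x y => by simp [prod_mul_distrib] }, fun _ => rfl⟩
  have N1 : ∀ t ∈ T, ∀ v, κ t (N v) = N v := fun t ht v => by
    rw [hN, map_prod]
    exact Fintype.prod_equiv (Equiv.mulLeft (⟨t, ht⟩ : T)) _ _ fun u => (sg_mul κ t u v).symm
  have N2 : ∀ t ∈ T, ∀ v, N (κ t v) = N v := fun t ht v => by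
    rw [hN, hN]
    exact Fintype.prod_equiv (Equiv.mulRight (⟨t, ht⟩ : T)) _ _ fun u => (sg_mul κ u t v).symm
  have q3 : ∀ w ∈ fx α B, N (α a w) * α a⁻¹ (N w) = w ^ (2 * Fintype.card T) := fun w hw => by
    have e : N w = ∏ t : T, κ (t : K)⁻¹ w := by
      rw [hN]
      exact (Fintype.prod_equiv (Equiv.inv T) _ _ fun u => rfl).symm
    rw [e, hN, map_prod, ← prod_mul_distrib, prod_congr rfl fun (t : T) _ => q2 t t.2 w hw,
      prod_const, card_univ, pow_mul]
  have c2 : (2 * Fintype.card T).Coprime r :=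
    Nat.Coprime.mul_left ((Nat.coprime_primes Nat.prime_two hr).2 h2.symm) cT
  have q4 : ∀ t ∈ T, ∀ w ∈ fx α B, κ t w = w := fun t ht w hw => by
    have h := congrArg (κ t) (q3 w hw)
    have e : κ t (α a⁻¹ (N w)) = α a⁻¹ (N w) := by
      conv_rhs => rw [← N1 _ (hTa t ht) w, hrel, ← sg_mul, inv_mul_cancel, sg_one]
    rw [map_mul, N1 t ht, e, q3 w hw, map_pow] at h
    rw [← div_eq_one]
    exact eq_one_of_pow hV c2 (by rw [div_pow, ← h, div_self'])
  have hY : N.ker = ⊥ := by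
    by_contra hY
    obtain ⟨y, h1, h3, h4⟩ := exists_fix hr α hp hV B N.ker (fun c h y hy => by
      rw [MonoidHom.mem_ker] at hy ⊢
      have := congrArg (α c) hy
      rw [map_one, hN, map_prod] at this
      rw [hN, ← this]
      exact prod_congr rfl fun t _ => by rw [hrel, hTB t.2 c h]) hY
    rw [MonoidHom.mem_ker, hN, prod_congr rfl fun (t : T) _ => q4 t t.2 y h4,
      prod_const, card_univ] at h1
    exact h3 (eq_one_of_pow hV cT h1)
  refine hT ((Subgroup.eq_bot_iff_forall T).2 fun t ht => hκ ?_)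
  rw [map_one]
  exact MonoidHom.ext fun v => (MonoidHom.ker_eq_bot_iff N).1 hY (N2 t ht v)

/-- A non-quadratic element lowers the number of fixed points by the factor `r ^ 2`. -/
lemma card_fx [Finite V] (hr : r.Prime) (α : A →* Monoid.End V) (hp : ∀ a : A, a ^ r = 1)
    (hc : ∀ a b : A, Commute a b) (hV : ∀ v : V, v ^ r = 1) {B : Subgroup A} {a : A} {w : V}
    (hw : w ∈ fx α B) (h : dl (α a) (dl (α a) w) ≠ 1) :
    r ^ 2 * Nat.card (fx α ⊤) ≤ Nat.card (fx α B) := by
  obtain ⟨_, ⟨u, hu, rfl⟩, h1, h2⟩ := exists_fix hr α hp hV ⊤ ((fx α B).map (dl (α a))) (by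
      rintro c - _ ⟨s, hs, rfl⟩
      exact ⟨_, fx_inv α hc B c hs, (dl_comm α hc a c s).symm⟩)
    fun e => h (by
      have h0 := Subgroup.mem_map_of_mem (dl (α a)) hw
      rw [e, Subgroup.mem_bot] at h0
      rw [h0, map_one])
  have h3 : ∀ c ∈ fx α ⊤, dl (α a) c = 1 := fun c hc => dl_eq_one.2 (hc a (Subgroup.mem_top a))
  have := Nat.card_le_card_of_injective
    (fun z : Fin r × Fin r × fx α ⊤ => (⟨w ^ (z.1 : ℕ) * u ^ (z.2.1 : ℕ) * z.2.2,
      mul_mem (mul_mem (pow_mem hw _) (pow_mem hu _))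
        fun c _ => z.2.2.2 c (Subgroup.mem_top c)⟩ : fx α B)) (by
      rintro ⟨i, j, c⟩ ⟨i', j', c'⟩ e
      have e1 : w ^ (i : ℕ) * u ^ (j : ℕ) * c = w ^ (i' : ℕ) * u ^ (j' : ℕ) * c' :=
        congrArg Subtype.val e
      have e2 := congrArg (dl (α a)) e1
      simp only [map_mul, map_pow, h3 _ c.2, h3 _ c'.2, mul_one] at e2
      have e3 := congrArg (dl (α a)) e2
      simp only [map_mul, map_pow, h3 _ h2, one_pow, mul_one] at e3
      obtain rfl := pow_inj hr (hV _) h e3
      obtain rfl := pow_inj hr (hV _) h1 (mul_left_cancel e2)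
      rw [Subtype.ext (mul_left_cancel e1)])
  rwa [Nat.card_prod, Nat.card_prod, Nat.card_fin, ← mul_assoc, ← sq] at this

lemma main [Finite K] [Finite V] (hr : r.Prime) (h2 : r ≠ 2) (κ : K →* Monoid.End V)
    (hκ : Function.Injective κ) (hK : (Nat.card K).Coprime r) (hV : ∀ v : V, v ^ r = 1) (n : ℕ) :
    ∀ (A : Type) [Group A] [Finite A] (σ : A →* Monoid.End K) (α : A →* Monoid.End V),
      Nat.card A = n → (∀ a t v, α a (κ t v) = κ (σ a t) (α a v)) → (∀ a : A, a ^ r = 1) →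
      (∀ a b : A, Commute a b) → (∀ a, (∀ t, σ a t = t) → a = 1) →
      Nat.card A ^ 2 * Nat.card (fx α ⊤) ≤ Nat.card V := by
  induction n using Nat.strong_induction_on with
  | _ n ih =>
  intro A _ _ σ α hn hrel hp hc hf
  rcases subsingleton_or_nontrivial A with hA | hA
  · rw [Nat.card_of_subsingleton (1 : A), one_pow, one_mul]
    exact Nat.card_le_card_of_injective _ Subtype.val_injective
  obtain ⟨x, hx⟩ := exists_ne (1 : A)
  obtain ⟨B, a, T, h1, h3, h4, h5, h6, h7⟩ := grp σ hr hK hp hc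
    ⟨x, not_forall.1 fun h => hx (hf x h)⟩
  obtain ⟨w, hw, hq⟩ := not_quad hr h2 σ α κ hκ hrel hK hp hc hV h4 h5 h6 h7
  have c1 := card_fx hr α hp hc hV hw hq
  have c2 : Nat.card A ≤ r * Nat.card B := by
    have := Nat.card_le_card_of_surjective (fun z : Fin r × B => a ^ (z.1 : ℕ) * z.2) fun b => by
      obtain ⟨i, hi, c, hc, e⟩ := h3 b
      exact ⟨(⟨i, hi⟩, ⟨c, hc⟩), e.symm⟩
    rwa [Nat.card_prod, Nat.card_fin] at this
  have c3 := ih _ (hn ▸ Finite.card_subtype_lt h1) B (σ.comp B.subtype) (α.comp B.subtype) rfl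
    (fun c => hrel c) (fun c => Subtype.ext (hp c)) (fun c d => Subtype.ext (hc c d).eq)
    fun c h => Subtype.ext (hf c h)
  have e : fx (α.comp B.subtype) ⊤ = fx α B :=
    Subgroup.ext fun v => ⟨fun h c hc => h ⟨c, hc⟩ (Subgroup.mem_top _), fun h c _ => h c c.2⟩
  rw [e] at c3
  calc _ ≤ (r * Nat.card B) ^ 2 * Nat.card (fx α ⊤) := by gcongr
    _ = Nat.card B ^ 2 * (r ^ 2 * Nat.card (fx α ⊤)) := by ring
    _ ≤ Nat.card B ^ 2 * Nat.card (fx α B) := by gcongr
    _ ≤ _ := c3

end OffA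

theorem off : Off := by
  intro E V _ _ _ _ r ρ L A hr h2 hρ hV hL hLc hp hc hA hn hf
  let _ : CommGroup L :=
    { (inferInstance : Group L) with mul_comm := fun x y => Subtype.ext (hLc _ x.2 _ y.2).eq }
  let f : E →* Monoid.End V :=
    { toFun := fun g => (ρ g).toMonoidHom
      map_one' := by rw [map_one]; rfl
      map_mul' := fun x y => by rw [map_mul]; rfl }
  let σ : A →* Monoid.End L :=
    { toFun := fun a =>
        { toFun := fun t => ⟨a * t * (a : E)⁻¹, hn _ a.2 _ t.2⟩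
          map_one' := Subtype.ext (by simp)
          map_mul' := fun x y => Subtype.ext (by
            show (a : E) * (x * y) * (a : E)⁻¹ = a * x * (a : E)⁻¹ * (a * y * (a : E)⁻¹)
            group) }
      map_one' := MonoidHom.ext fun t => Subtype.ext (by
        show ((1 : A) : E) * t * ((1 : A) : E)⁻¹ = t
        simp)
      map_mul' := fun a b => MonoidHom.ext fun t => Subtype.ext (by
        show (a : E) * b * t * ((a : E) * b)⁻¹ = a * (b * t * (b : E)⁻¹) * (a : E)⁻¹
        group) }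
  have h := OffA.main hr h2 (f.comp L.subtype)
    (fun x y e => Subtype.ext (hρ (MulEquiv.ext fun v => DFunLike.congr_fun e v))) hL hV _ A σ
    (f.comp A.subtype) rfl (fun a t v => by
      show ρ a (ρ t v) = ρ (a * t * (a : E)⁻¹) (ρ a v)
      rw [← MulAut.mul_apply, ← MulAut.mul_apply, ← map_mul, ← map_mul, inv_mul_cancel_right])
    (fun a => Subtype.ext (hp _ a.2)) (fun a b => Subtype.ext (hc _ a.2 _ b.2).eq)
    fun a h => Subtype.ext (hf _ a.2 fun x hx =>
      mul_inv_eq_iff_eq_mul.1 (congrArg Subtype.val (h ⟨x, hx⟩)))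
  have e : Nat.card {v : V // ∀ a ∈ A, ρ a v = v} = Nat.card (OffA.fx (f.comp A.subtype) ⊤) :=
    Nat.card_congr (Equiv.subtypeEquivRight fun v =>
      ⟨fun h c _ => h c c.2, fun h c hc => h ⟨c, hc⟩ (Subgroup.mem_top _)⟩)
  have h1 : 1 < Nat.card A := (Subgroup.one_lt_card_iff_ne_bot A).2 hA
  have h3 : 0 < Nat.card (OffA.fx (f.comp A.subtype) ⊤) := Nat.card_pos
  rw [e]
  refine lt_of_lt_of_le ?_ h
  gcongr
  nlinarith

end Pool.Agent.MP_b7033c_al.Three

end

section

set_option autoImplicit false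

namespace Pool.Agent.MP_b7033c_al.Three

namespace ConfA

open Pointwise

/-- Elementary abelian subgroups. -/
def EA {G : Type} [Group G] (r : ℕ) (A : Subgroup G) : Prop :=
  (∀ a ∈ A, a ^ r = 1) ∧ ∀ a ∈ A, ∀ b ∈ A, Commute a b

/-- Elementary abelian subgroups of largest order. -/
def MX {G : Type} [Group G] (r : ℕ) (A : Subgroup G) : Prop :=
  EA r A ∧ ∀ B : Subgroup G, EA r B → Nat.card B ≤ Nat.card A

variable {G : Type} [Group G] {r : ℕ}

lemma EA.map {H : Type} [Group H] (f : G →* H) {A : Subgroup G} (h : EA r A) :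
    EA r (A.map f) := by
  constructor
  · rintro _ ⟨a, ha, rfl⟩
    rw [← map_pow, h.1 a ha, map_one]
  · rintro _ ⟨a, ha, rfl⟩ _ ⟨b, hb, rfl⟩
    exact (h.2 a ha b hb).map f

lemma EA.subgroupOf {A : Subgroup G} (h : EA r A) (P : Subgroup G) : EA r (A.subgroupOf P) :=
  ⟨fun a ha => Subtype.ext (h.1 a ha), fun a ha b hb => Subtype.ext (h.2 a ha b hb)⟩

lemma card_subgroupOf {A P : Subgroup G} (h : A ≤ P) : Nat.card (A.subgroupOf P) = Nat.card A :=
  Nat.card_congr (Subgroup.subgroupOfEquivOfLe h).toEquiv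

lemma card_rel (K H : Subgroup G) : Nat.card H = K.relIndex H * Nat.card (K ⊓ H : Subgroup G) := by
  rw [← card_subgroupOf (inf_le_right : K ⊓ H ≤ H), Subgroup.inf_subgroupOf_right, mul_comm]
  exact (Subgroup.card_mul_index _).symm

lemma char_J : (sSup {A : Subgroup G | MX r A}).Characteristic := by
  rw [Subgroup.characteristic_iff_le_comap]
  intro φ
  refine sSup_le fun A hA => Subgroup.map_le_iff_le_comap.1 (le_sSup ?_)
  refine ⟨hA.1.map _, fun B hB => ?_⟩
  rw [Subgroup.card_map_of_injective φ.injective]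
  exact hA.2 B hB

lemma exists_MX [Finite G] : ∃ A : Subgroup G, MX r A := by
  obtain ⟨A, hA, h⟩ := Set.exists_max_image {A : Subgroup G | EA r A} (fun A => Nat.card A)
    (Set.toFinite _) ⟨⊥, fun a ha => by rw [Subgroup.mem_bot.1 ha, one_pow],
      fun a ha b _ => by rw [Subgroup.mem_bot.1 ha]; exact Commute.one_left b⟩
  exact ⟨A, hA, h⟩

/-- Central elements killed by `r`. -/
def Om (r : ℕ) (G : Type) [Group G] : Subgroup G where
  carrier := {z | (∀ g, Commute g z) ∧ z ^ r = 1}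
  one_mem' := ⟨fun g => Commute.one_right g, one_pow r⟩
  mul_mem' := fun {a b} ha hb => ⟨fun g => (ha.1 g).mul_right (hb.1 g), by
    rw [(hb.1 a).mul_pow, ha.2, hb.2, one_mul]⟩
  inv_mem' := fun {a} ha => ⟨fun g => (ha.1 g).inv_right, by rw [inv_pow, ha.2, inv_one]⟩

lemma char_Om : (Om r G).Characteristic := by
  rw [Subgroup.characteristic_iff_le_comap]
  intro φ z hz
  refine ⟨fun g => ?_, ?_⟩
  · obtain ⟨g', rfl⟩ := φ.surjective g
    exact (hz.1 g').map φ
  · show φ z ^ r = 1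
    rw [← map_pow, hz.2, map_one]

lemma Om_ne_bot [Finite G] [Fact r.Prime] [Nontrivial G] (h : IsPGroup r G) : Om r G ≠ ⊥ := by
  have h1 := h.center_nontrivial
  obtain ⟨n, hn, hc⟩ := (h.to_subgroup (Subgroup.center G)).nontrivial_iff_card.1 h1
  obtain ⟨z, hz⟩ := exists_prime_orderOf_dvd_card' (G := Subgroup.center G) r
    (hc ▸ dvd_pow_self r hn.ne')
  intro hb
  have h2 : (z : G) ∈ Om r G := ⟨fun g => Subgroup.mem_center_iff.1 z.2 g, by
    rw [← hz]; exact congrArg Subtype.val (pow_orderOf_eq_one z)⟩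
  rw [hb, Subgroup.mem_bot] at h2
  have h3 : z = 1 := Subtype.ext h2
  rw [h3, orderOf_one] at hz
  exact (Fact.out : r.Prime).ne_one hz.symm

/-- Elements of `U` that centralise `U` and are killed by `r`. -/
def VV (r : ℕ) (U : Subgroup G) : Subgroup G where
  carrier := {z | z ∈ U ∧ (∀ g ∈ U, Commute g z) ∧ z ^ r = 1}
  one_mem' := ⟨U.one_mem, fun g _ => Commute.one_right g, one_pow r⟩
  mul_mem' := fun {a b} ha hb => ⟨U.mul_mem ha.1 hb.1,
    fun g hg => (ha.2.1 g hg).mul_right (hb.2.1 g hg), by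
    rw [(hb.2.1 a ha.1).mul_pow, ha.2.2, hb.2.2, one_mul]⟩
  inv_mem' := fun {a} ha => ⟨U.inv_mem ha.1, fun g hg => (ha.2.1 g hg).inv_right, by
    rw [inv_pow, ha.2.2, inv_one]⟩

lemma normal_VV (U : Subgroup G) [hU : U.Normal] : (VV r U).Normal := by
  refine ⟨fun z hz g => ⟨hU.conj_mem z hz.1 g, fun u hu => ?_, ?_⟩⟩
  · have h1 := hz.2.1 _ (hU.conj_mem' u hu g)
    have h2 := h1.map (MulAut.conj g)
    simp only [MulAut.conj_apply] at h2
    rwa [show g * (g⁻¹ * u * g) * g⁻¹ = u by group] at h2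
  · rw [conj_pow, hz.2.2, mul_one, mul_inv_cancel]

lemma exists_abelian (H : Type) [Group H] [Finite H] [Fact r.Prime] (L : Subgroup H) [L.Normal]
    (hL : L ≠ ⊥) (hc : (Nat.card L).Coprime r) (Pb : Subgroup H) (hP : IsPGroup r Pb) :
    ∃ Z : Subgroup H, Z ≤ L ∧ Z ≠ ⊥ ∧ (∀ x ∈ Z, ∀ y ∈ Z, Commute x y) ∧
      ∀ a ∈ Pb, ∀ x ∈ Z, a * x * a⁻¹ ∈ Z := by
  obtain ⟨q, hq, hqd⟩ := Nat.exists_prime_and_dvd (n := Nat.card L)
    (fun h => hL (Subgroup.card_eq_one.1 h))
  have := Fact.mk hq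
  let : MulAction Pb (Sylow q L) :=
    MulAction.compHom (Sylow q L) ((MulAut.conjNormal : H →* MulAut L).comp Pb.subtype)
  obtain ⟨Q, hQ⟩ := hP.nonempty_fixed_point_of_prime_not_dvd_card (Sylow q L) (by
    intro h
    obtain ⟨Q⟩ : Nonempty (Sylow q L) := inferInstance
    have h1 := (h.trans Q.card_dvd_index).trans (Subgroup.index_dvd_card _)
    exact (Fact.out : r.Prime).ne_one (Nat.eq_one_of_dvd_coprimes hc h1 dvd_rfl))
  set Q' : Subgroup H := (Q : Subgroup L).map L.subtype with hQ'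
  have hconj : ∀ a ∈ Pb, ∀ x ∈ Q', a * x * a⁻¹ ∈ Q' := by
    rintro a ha _ ⟨x, hx, rfl⟩
    have h1 : (MulAut.conjNormal a : MulAut L) • Q = Q := hQ ⟨a, ha⟩
    have h2 : (MulAut.conjNormal a : MulAut L) • x ∈
        (((MulAut.conjNormal a : MulAut L) • Q : Sylow q L) : Subgroup L) :=
      Subgroup.smul_mem_pointwise_smul x _ _ hx
    rw [h1] at h2
    exact ⟨_, h2, rfl⟩
  have hne : Q' ≠ ⊥ := by
    intro h
    exact Q.ne_bot_of_dvd_card hqd ((Subgroup.map_eq_bot_iff_of_injective _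
      L.subtype_injective).1 h)
  have : Nontrivial Q' := (Subgroup.nontrivial_iff_ne_bot Q').2 hne
  have hp : IsPGroup q Q' := Q.isPGroup'.map _
  refine ⟨VV q Q', fun x hx => Subgroup.map_subtype_le _ hx.1, ?_,
    fun x hx y hy => hy.2.1 x hx.1, fun a ha x hx => ⟨hconj a ha x hx.1, fun u hu => ?_, ?_⟩⟩
  · intro hb
    refine Om_ne_bot hp ((Subgroup.eq_bot_iff_forall _).2 fun z hz => ?_)
    have h2 : (z : H) ∈ VV q Q' :=
      ⟨z.2, fun g hg => congrArg Subtype.val (hz.1 ⟨g, hg⟩), congrArg Subtype.val hz.2⟩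
    rw [hb, Subgroup.mem_bot] at h2
    exact Subtype.ext h2
  · have h1 := hx.2.1 _ (hconj a⁻¹ (Pb.inv_mem ha) u hu)
    have h2 := h1.map (MulAut.conj a)
    simp only [MulAut.conj_apply] at h2
    rwa [show a * (a⁻¹ * u * a⁻¹⁻¹) * a⁻¹ = u by group] at h2
  · rw [conj_pow, hx.2.2, mul_one, mul_inv_cancel]

lemma off' (h : Off) (E V : Type) [Group E] [Finite E] [hV : Group V] [Finite V]
    (hc : ∀ a b : V, a * b = b * a) (r : ℕ) (ρ : E →* MulAut V) (L A : Subgroup E)
    (h1 : r.Prime) (h2 : r ≠ 2) (h3 : Function.Injective ρ) (h4 : ∀ v : V, v ^ r = 1)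
    (h5 : (Nat.card L).Coprime r) (h6 : ∀ x ∈ L, ∀ y ∈ L, Commute x y) (h7 : EA r A)
    (h8 : A ≠ ⊥) (h9 : ∀ a ∈ A, ∀ x ∈ L, a * x * a⁻¹ ∈ L)
    (h10 : ∀ a ∈ A, (∀ x ∈ L, Commute a x) → a = 1) :
    Nat.card A * Nat.card {v : V // ∀ a ∈ A, ρ a v = v} < Nat.card V :=
  @h E V _ _ { hV with mul_comm := hc } _ r ρ L A h1 h2 h3 h4 h5 h6 h7.1 h7.2 h8 h9 h10

lemma count [Finite G] (U A : Subgroup G) [U.Normal] (hA : EA r A)
    (hmax : ∀ B : Subgroup G, B ≤ VV r U ⊔ A → EA r B → Nat.card B ≤ Nat.card A) :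
    Nat.card (VV r U) ≤ U.relIndex A * Nat.card (VV r U ⊓ A : Subgroup G) := by
  have := normal_VV (r := r) U
  have hW : EA r (VV r U ⊔ (U ⊓ A)) := by
    constructor
    · intro x hx
      obtain ⟨v, hv, d, hd, rfl⟩ := Subgroup.mem_sup_of_normal_left.1 hx
      rw [(hv.2.1 d hd.1).symm.mul_pow, hv.2.2, hA.1 d hd.2, one_mul]
    · intro x hx y hy
      obtain ⟨v, hv, d, hd, rfl⟩ := Subgroup.mem_sup_of_normal_left.1 hx
      obtain ⟨w, hw, e, he, rfl⟩ := Subgroup.mem_sup_of_normal_left.1 hy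
      exact ((hw.2.1 v hv.1).mul_right (hv.2.1 e he.1).symm).mul_left
        ((hw.2.1 d hd.1).mul_right (hA.2 d hd.2 e he.2))
  have h1 := hmax _ (sup_le_sup_left inf_le_right _) hW
  rw [card_rel (VV r U) (VV r U ⊔ (U ⊓ A)), Subgroup.relIndex_sup_left, inf_sup_self,
    card_rel U A, card_rel (VV r U) (U ⊓ A), ← inf_assoc,
    inf_eq_left.2 (show VV r U ≤ U from fun x hx => hx.1), mul_left_comm] at h1
  refine Nat.le_of_mul_le_mul_left h1 (Nat.pos_of_ne_zero ?_)
  exact Subgroup.index_ne_zero_of_finite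

end ConfA

open ConfA in
theorem conf (h : Off) : Conf := by
  intro G _ _ r hr P U hUn hr2 hU hUmax hq hCU hPmax hCH
  by_contra hnot
  have hUP : U ≤ P := hU.le_sylow_of_normal P
  have hN : ∀ X : Subgroup (P : Subgroup G), X.Characteristic → X ≠ ⊥ →
      Subgroup.normalizer (X.map (P : Subgroup G).subtype : Set G) = P := by
    intro X hX hX0
    have h1 : (P : Subgroup G) ≤ Subgroup.normalizer (X.map (P : Subgroup G).subtype : Set G) := by
      refine le_trans ?_ (Subgroup.le_normalizer_map (P : Subgroup G).subtype)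
      rw [Subgroup.normalizer_eq_top_iff.2 inferInstance, ← MonoidHom.range_eq_map,
        Subgroup.range_subtype]
    refine (hPmax _ h1).resolve_right fun h2 => hnot ?_
    rw [← h2]
    exact hCH P X hX hX0
  have hP0 : (P : Subgroup G) ≠ ⊥ := by
    intro hb
    refine hnot fun x _ y _ _ _ => ?_
    refine Nat.Coprime.coprime_dvd_left (orderOf_dvd_natCard _) ?_
    have h1 := P.not_dvd_index
    rw [hb, Subgroup.index_bot] at h1
    exact ((Nat.Prime.coprime_iff_not_dvd hr.out).2 h1).symm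
  have : Nontrivial (P : Subgroup G) := (Subgroup.nontrivial_iff_ne_bot _).2 hP0
  have hX0 := Om_ne_bot P.isPGroup'
  have hNX := hN _ char_Om hX0
  have hVn := normal_VV (r := r) U
  have hXV : (Om r (P : Subgroup G)).map (P : Subgroup G).subtype ≤ VV r U := by
    rintro _ ⟨z, hz, rfl⟩
    have h1 : ∀ g ∈ U, Commute g (z : G) := fun g hg => congrArg Subtype.val (hz.1 ⟨g, hUP hg⟩)
    exact ⟨hCU fun g hg => h1 g hg, h1, congrArg Subtype.val hz.2⟩
  have hker : (MulAut.conjNormal : G →* MulAut (VV r U)).ker ≤ U := by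
    refine hUmax _ inferInstance (P.isPGroup'.to_le ?_)
    rw [← hNX]
    refine le_trans ?_ (Subgroup.centralizer_le_normalizer _)
    intro g hg x hx
    have h0 : MulAut.conjNormal g (⟨x, hXV hx⟩ : VV r U) = ⟨x, hXV hx⟩ := by
      rw [MonoidHom.mem_ker.1 hg]; rfl
    have h1 : g * x * g⁻¹ = x := congrArg Subtype.val h0
    exact (mul_inv_eq_iff_eq_mul.1 h1).symm
  have hker' : U ≤ (MulAut.conjNormal : G →* MulAut (VV r U)).ker := by
    intro u hu
    refine MonoidHom.mem_ker.2 (MulEquiv.ext fun v => Subtype.ext ?_)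
    exact mul_inv_eq_iff_eq_mul.2 (v.2.2.1 u hu)
  set ρ : G ⧸ U →* MulAut (VV r U) := QuotientGroup.lift U MulAut.conjNormal hker' with hρ
  have hinj : Function.Injective ρ := by
    refine (injective_iff_map_eq_one ρ).2 fun x hx => ?_
    obtain ⟨g, rfl⟩ := QuotientGroup.mk_surjective x
    exact (QuotientGroup.eq_one_iff g).2 (hker hx)
  obtain ⟨A, hA, hAU⟩ : ∃ A : Subgroup (P : Subgroup G), MX r A ∧
      ¬ A.map (P : Subgroup G).subtype ≤ U := by
    by_contra hcon
    push Not at hcon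
    have hJ0 : sSup {A : Subgroup (P : Subgroup G) | MX r A} ≠ ⊥ := by
      intro hb
      obtain ⟨A, hA⟩ := exists_MX (G := (P : Subgroup G)) (r := r)
      have h1 : A = ⊥ := le_bot_iff.1 (hb ▸ le_sSup hA)
      have h2 := hA.2 (Om r _) ⟨fun a ha => ha.2, fun a _ b hb => hb.1 a⟩
      rw [h1, Subgroup.card_bot] at h2
      exact hX0 (Subgroup.eq_bot_of_card_le _ h2)
    have hJn : ((sSup {A : Subgroup (P : Subgroup G) | MX r A}).map
        (P : Subgroup G).subtype).Normal := by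
      refine ⟨fun x hx g => ?_⟩
      have h1 : (sSup {A : Subgroup (P : Subgroup G) | MX r A}).map (P : Subgroup G).subtype ≤
          ((sSup {A : Subgroup (P : Subgroup G) | MX r A}).map
            (P : Subgroup G).subtype).comap (MulAut.conj g).toMonoidHom := by
        refine Subgroup.map_le_iff_le_comap.2 (sSup_le fun A hA => ?_)
        set B := (A.map (P : Subgroup G).subtype).map (MulAut.conj g).toMonoidHom with hB
        have hBP : B ≤ P := by
          rintro _ ⟨y, hy, rfl⟩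
          exact hUP (hUn.conj_mem y (hcon A hA hy) g)
        have hBm : MX r (B.subgroupOf P) := by
          refine ⟨((hA.1.map _).map _).subgroupOf _, fun C hC => ?_⟩
          rw [card_subgroupOf hBP, hB, Subgroup.card_map_of_injective (MulAut.conj g).injective,
            Subgroup.card_map_of_injective (P : Subgroup G).subtype_injective]
          exact hA.2 C hC
        intro a ha
        have h2 : (MulAut.conj g).toMonoidHom a ∈ B := ⟨a, ⟨a, ha, rfl⟩, rfl⟩
        exact ⟨⟨_, hBP h2⟩, le_sSup (s := {A : Subgroup (P : Subgroup G) | MX r A}) hBm h2, rfl⟩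
      exact h1 hx
    have h2 := hN _ char_J hJ0
    rw [Subgroup.normalizer_eq_top_iff.2 hJn] at h2
    refine hnot (PN.of_isPGroup ?_)
    rw [h2]
    exact P.isPGroup'
  set π := QuotientGroup.mk' U with hπ
  have hπk : π.ker = U := QuotientGroup.ker_mk' U
  have hπs : Function.Surjective π := QuotientGroup.mk'_surjective U
  have hLn : hq.core.Normal := ⟨fun x hx g => ⟨Subgroup.mem_top _, cop_conj hx.2 g⟩⟩
  have hL0 : hq.core ≠ ⊥ := by
    intro hb
    refine hnot fun x _ y _ h1 h2 => ?_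
    have h3 : π x ∈ hq.core := ⟨Subgroup.mem_top _, cop_map π h1⟩
    rw [hb, Subgroup.mem_bot, ← MonoidHom.mem_ker, hπk] at h3
    rwa [eq_one_of_cop hU h3 h1, one_mul]
  have hPb : IsPGroup r ((P : Subgroup G).map π) := P.isPGroup'.map π
  have hcm : ((P : Subgroup G).map π).comap π = P := by
    rw [Subgroup.comap_map_eq, hπk, sup_eq_left.2 hUP]
  obtain ⟨Z, hZL, hZ0, hZc, hZn⟩ := exists_abelian (G ⧸ U) hq.core hL0 hq.card_core _ hPb
  have htop : Z ⊔ (P : Subgroup G).map π = ⊤ := by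
    have h1 : (P : Subgroup G) ≤ (Z ⊔ (P : Subgroup G).map π).comap π :=
      Subgroup.map_le_iff_le_comap.1 le_sup_right
    rcases hPmax _ h1 with h2 | h2
    · refine absurd ((Subgroup.eq_bot_iff_forall _).2 fun z hz => ?_) hZ0
      obtain ⟨g, rfl⟩ := hπs z
      have h3 : g ∈ (Z ⊔ (P : Subgroup G).map π).comap π := Subgroup.mem_sup_left hz
      rw [h2] at h3
      exact eq_one_of_cop hPb ⟨g, h3, rfl⟩ (hZL hz).2
    · refine eq_top_iff.2 fun z _ => ?_
      obtain ⟨g, rfl⟩ := hπs z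
      have h3 : g ∈ (Z ⊔ (P : Subgroup G).map π).comap π := h2 ▸ Subgroup.mem_top g
      exact h3
  have hfaith : ∀ a ∈ (P : Subgroup G).map π, (∀ x ∈ Z, Commute a x) → a = 1 := by
    set C := (P : Subgroup G).map π ⊓ Subgroup.centralizer (Z : Set (G ⧸ U)) with hC
    have hCn : C.Normal := by
      rw [← Subgroup.normalizer_eq_top_iff, eq_top_iff, ← htop]
      refine sup_le (fun z hz => Subgroup.mem_normalizer_fintype fun c hc => ?_)
        (fun a ha => Subgroup.mem_normalizer_fintype fun c hc => ?_)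
      · rw [hc.2 z hz, mul_inv_cancel_right]
        exact hc
      · refine ⟨Subgroup.mul_mem _ (Subgroup.mul_mem _ ha hc.1) (Subgroup.inv_mem _ ha),
          fun z hz => ?_⟩
        have h1 := hc.2 _ (hZn a⁻¹ (Subgroup.inv_mem _ ha) z hz)
        calc z * (a * c * a⁻¹) = a * (a⁻¹ * z * a⁻¹⁻¹ * c) * a⁻¹ := by group
          _ = a * (c * (a⁻¹ * z * a⁻¹⁻¹)) * a⁻¹ := by rw [h1]
          _ = _ := by group
    have h1 : C.comap π ≤ U := by
      refine hUmax _ (hCn.comap π) (P.isPGroup'.to_le ?_)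
      rw [← hcm]
      exact Subgroup.comap_mono inf_le_left
    intro a ha hc
    obtain ⟨g, rfl⟩ := hπs a
    have h2 : g ∈ C.comap π := ⟨ha, fun z hz => (hc z hz).symm⟩
    rw [← MonoidHom.mem_ker, hπk]
    exact h1 h2
  set A' := A.map (P : Subgroup G).subtype with hA'
  have hA'P : A' ≤ P := Subgroup.map_subtype_le _
  have hEA : EA r A' := hA.1.map _
  have hle : A'.map π ≤ (P : Subgroup G).map π := Subgroup.map_mono hA'P
  have hoff := off' h (G ⧸ U) (VV r U) (fun a b => Subtype.ext (b.2.2.1 a a.2.1)) r ρ Z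
    (A'.map π) hr.out hr2 hinj (fun v => Subtype.ext v.2.2.2)
    (Nat.Coprime.coprime_dvd_left (Subgroup.card_dvd_of_le hZL) hq.card_core) hZc (hEA.map π)
    (by rw [Ne, Subgroup.map_eq_bot_iff, hπk]; exact hAU)
    (fun a ha => hZn a (hle ha)) (fun a ha => hfaith a (hle ha))
  have hcount := count U A' hEA (by
    intro B hB hBE
    have hBP : B ≤ P := hB.trans (sup_le (fun x hx => hUP hx.1) hA'P)
    rw [← card_subgroupOf hBP, hA',
      Subgroup.card_map_of_injective (P : Subgroup G).subtype_injective]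
    exact hA.2 _ (hBE.subgroupOf _))
  have hidx : U.relIndex A' = Nat.card (A'.map π) := by
    rw [← Subgroup.relIndex_ker, hπk]
  have hfix : Nat.card (VV r U ⊓ A' : Subgroup G) ≤
      Nat.card {v : VV r U // ∀ a ∈ A'.map π, ρ a v = v} := by
    refine Nat.card_le_card_of_injective (fun x => ⟨⟨x.1, x.2.1⟩, ?_⟩) ?_
    · rintro _ ⟨a, ha, rfl⟩
      exact Subtype.ext (mul_inv_eq_iff_eq_mul.2 (hEA.2 a ha x.1 x.2.2))
    · intro x y hxy
      exact Subtype.ext (congrArg (fun t => t.1.1) hxy)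
  rw [hidx] at hcount
  exact absurd (hcount.trans (Nat.mul_le_mul_left _ hfix)) (not_le.2 hoff)

end Pool.Agent.MP_b7033c_al.Three

end

section

set_option autoImplicit false

namespace Pool.Agent.MP_b7033c_al.Three

namespace StepAA

open Subgroup

variable {G : Type} [Group G] {r : ℕ}

/-- The normaliser of the image normalises the images of characteristic subgroups. -/
lemma norm_le [Finite G] {S : Type} [Group S] (f : S →* G) (hf : Function.Injective f)
    (X : Subgroup S) (hX : X.Characteristic) :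
    normalizer (f.range : Set G) ≤ normalizer (X.map f : Set G) := by
  intro g hg
  refine mem_normalizer_fintype ?_
  rintro _ ⟨x, hx, rfl⟩
  let e : S ≃* f.range := MonoidHom.ofInjective hf
  let φ : S ≃* S := (e.trans (f.range.normalizerMonoidHom ⟨g, hg⟩)).trans e.symm
  have h1 : φ x ∈ X := characteristic_iff_le_comap.1 hX φ hx
  refine ⟨φ x, h1, ?_⟩
  have h2 : ∀ y : f.range, f (e.symm y) = y := fun y => by
    have := congrArg Subtype.val (e.apply_symm_apply y)
    exact this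
  exact h2 _

/-- The hypothesis `CH` for an isomorphic copy of a Sylow subgroup. -/
lemma ch_inj (hc : CH r G) {S : Type} [Group S] (f : S →* G) (hf : Function.Injective f)
    (P : Sylow r G) (hP : f.range = P) (X : Subgroup S) (hX : X.Characteristic) (h0 : X ≠ ⊥) :
    PN r (normalizer (X.map f : Set G)) := by
  let e : S ≃* (P : Subgroup G) := (MonoidHom.ofInjective hf).trans (MulEquiv.subgroupCongr hP)
  have he : (P : Subgroup G).subtype.comp e.toMonoidHom = f := by
    ext x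
    rfl
  have h1 : (X.map e.toMonoidHom).Characteristic := by
    refine characteristic_iff_le_comap.2 fun φ => ?_
    rintro _ ⟨x, hx, rfl⟩
    have h2 : ((e.trans φ).trans e.symm) x ∈ X := characteristic_iff_le_comap.1 hX _ hx
    exact ⟨_, h2, e.apply_symm_apply _⟩
  have h3 : X.map e.toMonoidHom ≠ ⊥ := fun h =>
    h0 ((map_eq_bot_iff_of_injective X (f := e.toMonoidHom) e.injective).1 h)
  have h4 := hc P _ h1 h3
  rwa [map_map, he] at h4

/-- The exponent of `r` in the order of a subgroup. -/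
noncomputable def vv (r : ℕ) (H : Subgroup G) : ℕ := (Nat.card H).factorization r

lemma card_le_pow [Finite G] [hr : Fact r.Prime] {T H : Subgroup G} (hT : IsPGroup r T)
    (hle : T ≤ H) : Nat.card T ≤ r ^ vv r H := by
  obtain ⟨k, hk⟩ := IsPGroup.iff_card.1 hT
  have h1 := card_dvd_of_le hle
  rw [hk] at h1 ⊢
  exact Nat.pow_le_pow_right hr.out.pos
    ((hr.out.pow_dvd_iff_le_factorization Nat.card_pos.ne').1 h1)

/-- A proper subgroup of an `r`-group is properly contained in its normaliser. -/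
lemma lt_inf [Finite G] [Fact r.Prime] {S P : Subgroup G} (hP : IsPGroup r P) (hle : S ≤ P)
    (hne : S ≠ P) : S < P ⊓ normalizer (S : Set G) := by
  have := hP.isNilpotent
  have h1 : S.subgroupOf P < ⊤ := lt_top_iff_ne_top.2 fun h =>
    hne (le_antisymm hle (subgroupOf_eq_top.1 h))
  have h2 := Group.normalizerCondition_of_isNilpotent _ h1
  rw [← subgroupOf_normalizer_eq hle] at h2
  obtain ⟨g, hg1, hg2⟩ := SetLike.exists_of_lt h2
  refine lt_of_le_of_ne (le_inf hle le_normalizer) fun h => hg2 ?_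
  have h3 : (g : G) ∈ P ⊓ normalizer (S : Set G) := ⟨g.2, hg1⟩
  rw [← h] at h3
  exact h3

/-- The subgroups that violate the hypothesis of the theorem of Frobenius. -/
def Bad (r : ℕ) (U : Subgroup G) : Prop :=
  IsPGroup r U ∧ U ≠ ⊥ ∧ ¬ PN r (normalizer (U : Set G))

lemma card_lt [Finite G] {H K : Subgroup G} (h : H < K) : Nat.card H < Nat.card K :=
  lt_of_not_ge fun hc => h.ne (eq_of_le_of_card_ge h.le hc)

/-- The first step: an extremal bad subgroup is normal. -/
lemma step1 [Finite G] [hr : Fact r.Prime] (hc : CH r G) (ih : IHyp r G) {U : Subgroup G}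
    (hU : Bad r U)
    (hm : ∀ W : Subgroup G, Bad r W →
      vv r (normalizer (W : Set G)) ≤ vv r (normalizer (U : Set G))) :
    normalizer (U : Set G) = ⊤ := by
  by_contra hN
  set N := normalizer (U : Set G) with hNd
  have h1 : Nat.card N < Nat.card G := by
    have := card_lt (lt_top_iff_ne_top.2 hN)
    rwa [card_top] at this
  have h2 : ¬ CH r N := fun h => hU.2.2 (by
    have := (ih N h1 h).map hr.out N.subtype
    rwa [← MonoidHom.range_eq_map, range_subtype] at this)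
  simp only [CH, not_forall] at h2
  obtain ⟨S, X, hX, h0, hb⟩ := h2
  let f : (S : Subgroup N) →* G := N.subtype.comp (S : Subgroup N).subtype
  have hf : Function.Injective f := N.subtype_injective.comp (S : Subgroup N).subtype_injective
  have hXf : X.map f = (X.map (S : Subgroup N).subtype).map N.subtype := (map_map _ _ _).symm
  have hS : IsPGroup r f.range := S.isPGroup'.of_equiv (MonoidHom.ofInjective hf)
  have hb' : ¬ PN r (normalizer (X.map f : Set G)) := fun h => hb (by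
    refine PN.of_map N.subtype N.subtype_injective (h.mono ?_)
    rw [hXf]
    exact le_normalizer_map _)
  have hbad : Bad r (X.map f) :=
    ⟨hS.to_le (map_le_range f X), fun h => h0 ((map_eq_bot_iff_of_injective X hf).1 h), hb'⟩
  obtain ⟨P, hP⟩ := hS.exists_le_sylow
  by_cases he : f.range = P
  · exact hb' (ch_inj hc f hf P he X hX h0)
  · have h3 := card_lt (lt_inf P.isPGroup' hP he)
    have h4 := card_le_pow (P.isPGroup'.to_le (inf_le_left (b := normalizer (f.range : Set G))))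
      (inf_le_right.trans (norm_le f hf X hX))
    have h5 := Nat.pow_le_pow_right hr.out.pos (hm _ hbad)
    have h6 : Nat.card f.range = r ^ vv r N := by
      rw [← Nat.card_congr (MonoidHom.ofInjective hf).toEquiv]
      exact S.card_eq_multiplicity
    omega

/-- The third step: the hypothesis holds in the quotient. -/
lemma step3 [Finite G] [hr : Fact r.Prime] {U : Subgroup G} [U.Normal] (hU : Bad r U)
    (hm : ∀ W : Subgroup G, Bad r W → vv r (⊤ : Subgroup G) ≤ vv r (normalizer (W : Set G)) →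
      Nat.card W ≤ Nat.card U) : CH r (G ⧸ U) := by
  intro P X hX h0
  let π := QuotientGroup.mk' U
  have hπ : Function.Surjective π := QuotientGroup.mk'_surjective U
  have hk : IsPGroup r π.ker := by
    rw [QuotientGroup.ker_mk']
    exact hU.1
  set Y := X.map (P : Subgroup (G ⧸ U)).subtype with hY
  have hYP : Y ≤ P := map_subtype_le X
  have hY0 : Y ≠ ⊥ := fun h => h0 ((map_eq_bot_iff_of_injective X (subtype_injective _)).1 h)
  have hW : IsPGroup r (Y.comap π) := (P.isPGroup'.to_le hYP).comap_of_ker_isPGroup π hk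
  have hUW : U ≤ Y.comap π := by
    have := ker_le_comap π Y
    rwa [QuotientGroup.ker_mk'] at this
  have hlt : U < Y.comap π := lt_of_le_of_ne hUW fun h => hY0 (by
    rw [← map_comap_eq_self_of_surjective hπ Y, ← h]
    exact (map_eq_bot_iff U).2 (QuotientGroup.ker_mk' U).ge)
  have hn : normalizer (Y.comap π : Set G) = (normalizer (Y : Set (G ⧸ U))).comap π :=
    (comap_normalizer_eq_of_surjective Y hπ).symm
  have hPn : (P : Subgroup (G ⧸ U)) ≤ normalizer (Y : Set (G ⧸ U)) := by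
    refine le_trans ?_ (norm_le _ (subtype_injective _) X hX)
    rw [range_subtype]
    exact le_normalizer
  let Q : Sylow r G := P.comapOfKerIsPGroup π hk (by
    rw [MonoidHom.range_eq_top_of_surjective π hπ]
    exact le_top)
  have hQ : (Q : Subgroup G) ≤ normalizer (Y.comap π : Set G) := by
    rw [hn]
    exact comap_mono hPn
  have h1 := card_le_pow Q.isPGroup' hQ
  rw [Q.card_eq_multiplicity, ← card_top (G := G)] at h1
  have h2 := (Nat.pow_le_pow_iff_right hr.out.one_lt).1 h1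
  have h3 : PN r (normalizer (Y.comap π : Set G)) := by
    by_contra hb
    exact (card_lt hlt).not_ge (hm _ ⟨hW, (bot_le.trans_lt hlt).ne', hb⟩ h2)
  have h4 := h3.map hr.out π
  rwa [hn, map_comap_eq_self_of_surjective hπ] at h4

end StepAA

open StepAA in
theorem stepA (h : Frob) : StepA := by
  intro G _ _ r hr hc ih hn
  have hex : {U : Subgroup G | Bad r U}.Nonempty := by
    by_contra h0
    refine hn (h G r fun U h1 h2 => ?_)
    by_contra h3
    exact h0 ⟨U, h1, h2, h3⟩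
  obtain ⟨U0, hU0, hm0⟩ := Set.exists_max_image _
    (fun U : Subgroup G => vv r (Subgroup.normalizer (U : Set G))) (Set.toFinite _) hex
  obtain ⟨U, ⟨hU, hv⟩, hm⟩ := Set.exists_max_image
    {U : Subgroup G | Bad r U ∧ vv r (Subgroup.normalizer (U0 : Set G)) ≤
      vv r (Subgroup.normalizer (U : Set G))}
    (fun U : Subgroup G => Nat.card U) (Set.toFinite _) ⟨U0, hU0, le_rfl⟩
  have h1 : Subgroup.normalizer (U : Set G) = ⊤ :=
    step1 hc ih hU fun W hW => (hm0 W hW).trans hv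
  have hN : U.Normal := Subgroup.normalizer_eq_top_iff.1 h1
  have hm' : ∀ W : Subgroup G, Bad r W →
      vv r (⊤ : Subgroup G) ≤ vv r (Subgroup.normalizer (W : Set G)) →
      Nat.card W ≤ Nat.card U := fun W hW hle => hm W ⟨hW, hv.trans (h1 ▸ hle)⟩
  refine ⟨U, hN, hU.1, fun W hW hp => ?_, ih _ ?_ (step3 hU hm')⟩
  · have h2 : Subgroup.normalizer ((U ⊔ W : Subgroup G) : Set G) = ⊤ :=
      Subgroup.normalizer_eq_top_iff.2 inferInstance
    have h3 := hm' (U ⊔ W) ⟨hU.1.to_sup_of_normal_right hp,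
      fun h0 => hU.2.1 (le_bot_iff.1 (le_sup_left.trans h0.le)), h2 ▸ hn⟩ (h2 ▸ le_rfl)
    exact le_sup_right.trans (Subgroup.eq_of_le_of_card_ge le_sup_left h3).ge
  · have h2 := U.card_eq_card_quotient_mul_card_subgroup
    have h3 : 1 < Nat.card U := (Subgroup.one_lt_card_iff_ne_bot U).2 hU.2.1
    rw [h2]
    exact lt_mul_of_one_lt_right Nat.card_pos h3

end Pool.Agent.MP_b7033c_al.Three

end

section

set_option autoImplicit false

namespace Pool.Agent.MP_b7033c_al.Three

namespace NPCA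

lemma char_map {A B : Type} [Group A] [Group B] (e : A ≃* B) (X : Subgroup A)
    (hX : X.Characteristic) : (X.map e.toMonoidHom).Characteristic := by
  rw [Subgroup.characteristic_iff_map_le] at hX ⊢
  rintro φ _ ⟨_, ⟨x, hx, rfl⟩, rfl⟩
  refine ⟨e.symm (φ (e x)), hX (e.trans (φ.trans e.symm)) ⟨x, hx, rfl⟩, ?_⟩
  simp

lemma ch_sub {G : Type} [Group G] [Finite G] {r : ℕ} [Fact r.Prime] (P : Sylow r G)
    (H : Subgroup G) (hle : (P : Subgroup G) ≤ H) (h : CH r G) : CH r H := by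
  intro S X hX hne
  have c1 : Nat.card (S : Subgroup H) = Nat.card (P : Subgroup G) := by
    rw [S.card_eq_multiplicity, ← (P.subtype hle).card_eq_multiplicity, Sylow.coe_subtype]
    exact Nat.card_congr (Subgroup.subgroupOfEquivOfLe hle).toEquiv
  have c2 : Nat.card ((S : Subgroup H).map H.subtype) = r ^ (Nat.card G).factorization r := by
    rw [Subgroup.card_map_of_injective H.subtype_injective, c1, P.card_eq_multiplicity]
  obtain ⟨S', hS'⟩ : ∃ S' : Sylow r G, (S' : Subgroup G) = (S : Subgroup H).map H.subtype :=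
    ⟨Sylow.ofCard _ c2, rfl⟩
  obtain ⟨e, he⟩ : ∃ e : (S : Subgroup H) ≃* (S' : Subgroup G), ∀ s, (e s : G) = ((s : H) : G) :=
    ⟨((S : Subgroup H).equivMapOfInjective H.subtype H.subtype_injective).trans
      (MulEquiv.subgroupCongr hS'.symm), fun _ => rfl⟩
  have h1 := h S' (X.map e.toMonoidHom) (char_map e X hX) (by
    rwa [Ne, Subgroup.map_eq_bot_iff_of_injective _ e.injective])
  have h2 : (X.map e.toMonoidHom).map (S' : Subgroup G).subtype =
      (X.map (S : Subgroup H).subtype).map H.subtype := by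
    rw [Subgroup.map_map, Subgroup.map_map]
    congr 1
    ext s
    exact he s
  rw [h2] at h1
  exact PN.of_map H.subtype H.subtype_injective (h1.mono (Subgroup.le_normalizer_map _))

lemma pgroup_of {G : Type} [Group G] [Finite G] {r : ℕ} [Fact r.Prime] (H : Subgroup G)
    (h : ∀ x ∈ H, (orderOf x).Coprime r → x = 1) : IsPGroup r H := by
  rw [IsPGroup.iff_card]
  refine ⟨_, Nat.eq_prime_pow_of_unique_prime_dvd Nat.card_pos.ne' fun {t} ht hd => ?_⟩
  by_contra hne
  have := Fact.mk ht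
  obtain ⟨y, hy⟩ := exists_prime_orderOf_dvd_card' t hd
  have h1 : orderOf (y : G) = t := by rw [Subgroup.orderOf_coe, hy]
  have h2 := h y y.2 (by rw [h1]; exact (Nat.coprime_primes ht Fact.out).2 hne)
  rw [h2, orderOf_one] at h1
  exact ht.one_lt.ne h1

lemma step (h1 : HH) (h2 : Conf) (h3 : QuotH) (h4 : StepA) (G : Type) [Group G] [Finite G]
    (r : ℕ) [Fact r.Prime] (hr : r ≠ 2) (hc : CH r G) (ih : IHyp r G) :
    PN r (⊤ : Subgroup G) := by
  by_contra hn
  obtain ⟨U, hUn, hU, hmax, hq⟩ := h4 G r hc ih hn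
  have hK : ∀ K : Subgroup G, K.Normal → (Nat.card K).Coprime r → K = ⊥ := by
    intro K hKn hKc
    by_contra hne
    refine hn (PN.of_quot K hKc (ih (G ⧸ K) ?_ (h3 G r K hKc hc)))
    have e := Subgroup.card_eq_card_quotient_mul_card_subgroup K
    have e1 : 1 < Nat.card K := K.one_lt_card_iff_ne_bot.2 hne
    have e2 : 0 < Nat.card (G ⧸ K) := Nat.card_pos
    rw [e]
    exact lt_mul_of_one_lt_right e2 e1
  have hC := h1 G r U hU hmax hq hK
  obtain ⟨P⟩ : Nonempty (Sylow r G) := inferInstance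
  refine hn (h2 G r P U hr hU hmax hq hC (fun H hle => ?_) hc)
  by_cases ht : H = ⊤
  · exact Or.inr ht
  refine Or.inl (P.is_maximal' (pgroup_of H fun x hx hxc => ?_) hle)
  have e1 : Nat.card H < Nat.card G :=
    lt_of_le_of_ne H.card_le_card_group fun e => ht (H.eq_top_of_card_eq e)
  have e2 : PN r H := by
    have := (ih H e1 (ch_sub P H hle hc)).map Fact.out H.subtype
    rwa [← MonoidHom.range_eq_map, Subgroup.range_subtype] at this
  have e3 : U ≤ H := (hU.le_sylow_of_normal P).trans hle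
  refine eq_one_of_cop hU (hC ?_) hxc
  rw [Subgroup.mem_centralizer_iff]
  intro u hu
  exact (e2.commute hU e3 (by rw [Subgroup.normalizer_eq_top]; exact le_top) hx hxc hu).symm.eq

end NPCA

theorem npc (h1 : HH) (h2 : Conf) (h3 : QuotH) (h4 : StepA) : NPC := by
  intro G _ _ r _ hr hc
  have key : ∀ (n : ℕ) (G : Type) [Group G] [Finite G], Nat.card G = n → CH r G →
      PN r (⊤ : Subgroup G) := by
    intro n
    induction n using Nat.strong_induction_on with
    | _ n ih =>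
      intro G _ _ hG hc
      exact NPCA.step h1 h2 h3 h4 G r hr hc fun H _ _ hH hcH => ih _ (hG ▸ hH) H rfl hcH
  exact key _ G rfl hc

end Pool.Agent.MP_b7033c_al.Three

end

section

set_option autoImplicit false

namespace Pool.Agent.MP_b7033c_al.Three

namespace FrobAA

variable {G : Type} [Group G] {r : ℕ}

lemma mem_smul {P : Sylow r G} {g x : G} : x ∈ (g • P : Sylow r G) ↔ g⁻¹ * x * g ∈ P := by
  change x ∈ ((g • P : Sylow r G) : Subgroup G) ↔ g⁻¹ * x * g ∈ (P : Subgroup G)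
  rw [Sylow.coe_subgroup_smul, Subgroup.mem_pointwise_smul_iff_inv_smul_mem]
  simp

variable [Finite G] [hr : Fact r.Prime]

/-- A group with a normal complement is the product of the complement and a Sylow subgroup. -/
lemma dec_top (h : PN r (⊤ : Subgroup G)) (S : Sylow r G) (n : G) :
    ∃ l s : G, (orderOf l).Coprime r ∧ s ∈ S ∧ n = l * s := by
  have hn : h.core.Normal := ⟨fun x hx g => ⟨Subgroup.mem_top _, cop_conj hx.2 g⟩⟩
  have hq : IsPGroup r (G ⧸ h.core) := by
    intro q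
    obtain ⟨x, rfl⟩ := QuotientGroup.mk'_surjective h.core q
    obtain ⟨e, m, hm, he⟩ :=
      Nat.exists_eq_pow_mul_and_not_dvd (orderOf_pos x).ne' r hr.out.ne_one
    refine ⟨e, ?_⟩
    rw [← map_pow, QuotientGroup.mk'_apply, QuotientGroup.eq_one_iff]
    refine ⟨Subgroup.mem_top _,
      cop_of_pow ((Nat.Prime.coprime_iff_not_dvd hr.out).2 hm).symm ?_⟩
    rw [← pow_mul, ← he, pow_orderOf_eq_one]
  have ht := (S.mapSurjective (QuotientGroup.mk'_surjective h.core)).is_maximal'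
    (hq.to_subgroup ⊤) le_top
  have hm : QuotientGroup.mk' h.core n ∈ (S : Subgroup G).map (QuotientGroup.mk' h.core) := by
    rw [← Sylow.coe_mapSurjective (QuotientGroup.mk'_surjective h.core), ← ht]
    exact Subgroup.mem_top _
  obtain ⟨s, hs, e⟩ := hm
  have h1 : s⁻¹ * n ∈ h.core := QuotientGroup.eq.1 e
  refine ⟨s * (s⁻¹ * n) * s⁻¹, s, cop_conj h1.2 s, hs, by group⟩

lemma dec {H : Subgroup G} (h : PN r H) (S : Sylow r H) (n : H) :
    ∃ l s : H, (orderOf (l : G)).Coprime r ∧ s ∈ S ∧ n = l * s := by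
  have h' : PN r (⊤ : Subgroup H) := by
    refine PN.of_map H.subtype H.subtype_injective (h.mono ?_)
    rintro _ ⟨x, -, rfl⟩
    exact x.2
  obtain ⟨l, s, h1, h2, h3⟩ := dec_top h' S n
  exact ⟨l, s, by rwa [Subgroup.orderOf_coe], h2, h3⟩

/-- The normaliser condition. -/
lemma nc {P D : Subgroup G} (hP : IsPGroup r P) (hle : D ≤ P) (hne : ¬ P ≤ D) :
    ∃ x ∈ P, x ∉ D ∧ x ∈ Subgroup.normalizer (D : Set G) := by
  have := hP.isNilpotent
  have hlt : D.subgroupOf P < ⊤ :=
    lt_top_iff_ne_top.2 fun h => hne (Subgroup.subgroupOf_eq_top.1 h)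
  have h1 := Group.normalizerCondition_of_isNilpotent (D.subgroupOf P) hlt
  rw [← Subgroup.subgroupOf_normalizer_eq hle] at h1
  obtain ⟨x, hx1, hx2⟩ := SetLike.exists_of_lt h1
  exact ⟨x, x.2, hx2, hx1⟩

variable (hG : ∀ U : Subgroup G, IsPGroup r U → U ≠ ⊥ → PN r (Subgroup.normalizer (U : Set G)))
include hG

lemma zero {D A B : Subgroup G} (hD : IsPGroup r D) (hA : IsPGroup r A) (hB : IsPGroup r B)
    (hAN : A ≤ Subgroup.normalizer (D : Set G)) (hBN : B ≤ Subgroup.normalizer (D : Set G)) :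
    ∃ (R : Sylow r G) (c : G), (∀ d ∈ D, Commute c d) ∧ A ≤ R ∧ B ≤ (c • R : Sylow r G) := by
  by_cases h0 : D = ⊥
  · obtain ⟨R, hR⟩ := hA.exists_le_sylow
    obtain ⟨R', hR'⟩ := hB.exists_le_sylow
    obtain ⟨c, hc⟩ := MulAction.exists_smul_eq G R R'
    refine ⟨R, c, fun d hd => ?_, hR, hc ▸ hR'⟩
    rw [h0, Subgroup.mem_bot] at hd
    rw [hd]
    exact Commute.one_right c
  have hN := hG D hD h0
  set N := Subgroup.normalizer (D : Set G) with hNdef
  obtain ⟨S, hS⟩ := (hA.comap_subtype (K := N)).exists_le_sylow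
  obtain ⟨T, hT⟩ := (hB.comap_subtype (K := N)).exists_le_sylow
  obtain ⟨n, hn⟩ := MulAction.exists_smul_eq N S T
  obtain ⟨l, s, h1, h2, h3⟩ := dec hN S n
  have hs : s • S = S := Sylow.smul_eq_iff_mem_normalizer.2 (Subgroup.le_normalizer h2)
  rw [h3, mul_smul, hs] at hn
  obtain ⟨R, hR⟩ := (S.isPGroup'.map N.subtype).exists_le_sylow
  refine ⟨R, l, fun d hd => hN.commute hD Subgroup.le_normalizer le_rfl l.2 h1 hd,
    fun a ha => hR ⟨⟨a, hAN ha⟩, hS ha, rfl⟩, fun b hb => ?_⟩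
  have h4 : (⟨b, hBN hb⟩ : N) ∈ (l • S : Sylow r N) := hn ▸ hT hb
  exact mem_smul.2 (hR ⟨_, mem_smul.1 h4, rfl⟩)

lemma one : ∀ (k : ℕ) (P Q : Sylow r G),
    Nat.card G - Nat.card ((P : Subgroup G) ⊓ Q : Subgroup G) = k →
    ∃ c : G, (∀ d, d ∈ P → d ∈ Q → Commute c d) ∧ Q = c • P := by
  intro k
  induction k using Nat.strong_induction_on with
  | _ k ih =>
    intro P Q hk
    set D : Subgroup G := (P : Subgroup G) ⊓ Q with hDdef
    by_cases h1 : (P : Subgroup G) ≤ D
    · refine ⟨1, fun d _ _ => Commute.one_left d, ?_⟩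
      rw [one_smul]
      exact Sylow.ext (P.is_maximal' Q.isPGroup' (h1.trans inf_le_right))
    by_cases h2 : (Q : Subgroup G) ≤ D
    · refine ⟨1, fun d _ _ => Commute.one_left d, ?_⟩
      rw [one_smul]
      exact (Sylow.ext (Q.is_maximal' P.isPGroup' (h2.trans inf_le_left))).symm
    obtain ⟨a, a1, a2, a3⟩ := nc P.isPGroup' (inf_le_left : D ≤ P) h1
    obtain ⟨b, b1, b2, b3⟩ := nc Q.isPGroup' (inf_le_right : D ≤ Q) h2
    obtain ⟨R, c, c1, c2, c3⟩ := zero hG (D := D) (A := P ⊓ Subgroup.normalizer (D : Set G))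
      (B := Q ⊓ Subgroup.normalizer (D : Set G)) P.isPGroup'.to_inf_left P.isPGroup'.to_inf_left
      Q.isPGroup'.to_inf_left inf_le_right inf_le_right
    have lt : ∀ E : Subgroup G, D ≤ E → ∀ x ∈ E, x ∉ D → Nat.card G - Nat.card E < k := by
      intro E hE x x1 x2
      have e1 : Nat.card D < Nat.card E := by
        refine lt_of_le_of_ne (Subgroup.card_le_of_le hE) fun e => x2 ?_
        rwa [Subgroup.eq_of_le_of_card_ge hE e.ge]
      have e2 : Nat.card E ≤ Nat.card G := E.card_le_card_group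
      omega
    have dR : D ≤ R := fun d hd => c2 ⟨hd.1, Subgroup.le_normalizer hd⟩
    have dR' : D ≤ (c • R : Sylow r G) := fun d hd => c3 ⟨hd.2, Subgroup.le_normalizer hd⟩
    obtain ⟨x, x1, x2⟩ := ih _ (lt _ (le_inf inf_le_left dR) a ⟨a1, c2 ⟨a1, a3⟩⟩ a2) P R rfl
    obtain ⟨y, y1, y2⟩ :=
      ih _ (lt _ (le_inf dR' inf_le_right) b ⟨c3 ⟨b1, b3⟩, b1⟩ b2) (c • R) Q rfl
    refine ⟨y * c * x, fun d d1 d2 => ?_, by rw [mul_smul, mul_smul, ← x2, ← y2]⟩
    exact ((y1 d (dR' ⟨d1, d2⟩) d2).mul_left (c1 d ⟨d1, d2⟩)).mul_left (x1 d d1 (dR ⟨d1, d2⟩))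

end FrobAA

open FrobAA in
theorem frobA : FrobA := by
  intro G _ _ r hr hG P x g hx hz
  by_cases h0 : (P : Subgroup G) = ⊥
  · have : x = 1 := by
      have h : x ∈ (P : Subgroup G) := hx
      rwa [h0, Subgroup.mem_bot] at h
    exact ⟨1, one_mem P, by simp [this]⟩
  obtain ⟨c, c1, c2⟩ := one hG _ (g⁻¹ • P) P rfl
  have hc := c1 (g⁻¹ * x * g) (mem_smul.2 (by simpa [mul_assoc] using hx)) hz
  rw [← mul_smul] at c2
  have hm : c * g⁻¹ ∈ Subgroup.normalizer ((P : Subgroup G) : Set G) :=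
    Sylow.smul_eq_iff_mem_normalizer.1 c2.symm
  have hN := hG P P.isPGroup' h0
  obtain ⟨l, s, h1, h2, h3⟩ := dec hN (P.subtype Subgroup.le_normalizer) ⟨_, hm⟩
  have hs : (s : G) ∈ P := h2
  have e : c * g⁻¹ = l * s := congrArg Subtype.val h3
  have hl := hN.commute P.isPGroup' Subgroup.le_normalizer le_rfl l.2 h1
    (mul_mem (mul_mem hs hx) (inv_mem hs))
  refine ⟨(s : G)⁻¹, inv_mem hs, ?_⟩
  calc g⁻¹ * x * g = c * (g⁻¹ * x * g) * c⁻¹ := by rw [hc.eq]; group
    _ = (c * g⁻¹) * x * (c * g⁻¹)⁻¹ := by group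
    _ = l * (s * x * (s : G)⁻¹) * (l : G)⁻¹ := by rw [e]; group
    _ = (s : G)⁻¹⁻¹ * x * (s : G)⁻¹ := by rw [hl.eq]; group

end Pool.Agent.MP_b7033c_al.Three

end

section

set_option autoImplicit false

namespace Pool.Agent.MP_b7033c_al.Three

namespace FrobA

open scoped commutatorElement

lemma focal_le {G : Type} [Group G] (P : Subgroup G)
    (h : ∀ x g : G, x ∈ P → g⁻¹ * x * g ∈ P → ∃ u ∈ P, g⁻¹ * x * g = u⁻¹ * x * u) :
    P.focalSubgroupOf ≤ commutator P := by
  rw [Subgroup.focalSubgroupOf_eq_closure, Subgroup.closure_le]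
  rintro g ⟨x, hx, u, e⟩
  have e1 : u⁻¹⁻¹ * x⁻¹ * u⁻¹ = x⁻¹ * g := by
    rw [e, commutatorElement_def]
    group
  obtain ⟨v, hv, e2⟩ := h x⁻¹ u⁻¹ (P.inv_mem hx) (e1 ▸ P.mul_mem (P.inv_mem hx) g.2)
  have e3 : g = ⁅(⟨x, hx⟩ : P), (⟨v, hv⟩ : P)⁻¹⁆ := by
    apply Subtype.ext
    rw [e1] at e2
    change (g : G) = x * v⁻¹ * x⁻¹ * v⁻¹⁻¹
    rw [inv_mul_eq_iff_eq_mul] at e2
    rw [e2]
    group
  rw [e3]
  exact Subgroup.commutator_mem_commutator (Subgroup.mem_top _) (Subgroup.mem_top _)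

lemma pass {G : Type} [Group G] {r : ℕ} (M : Subgroup G)
    (h : ∀ U : Subgroup G, IsPGroup r U → U ≠ ⊥ → PN r (Subgroup.normalizer (U : Set G)))
    (U : Subgroup M) (hU : IsPGroup r U) (h0 : U ≠ ⊥) :
    PN r (Subgroup.normalizer (U : Set M)) :=
  PN.of_map M.subtype M.subtype_injective
    ((h (U.map M.subtype) (hU.map _)
      (by rwa [Ne, Subgroup.map_eq_bot_iff_of_injective _ M.subtype_injective])).mono
      (Subgroup.le_normalizer_map M.subtype))

end FrobA

theorem frob (h : FrobA) : Frob := by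
  intro G _ _ r hr
  induction hn : Nat.card G using Nat.strong_induction_on generalizing G with
  | _ n ih =>
  intro hG
  obtain ⟨P⟩ : Nonempty (Sylow r G) := inferInstance
  by_cases hP : (P : Subgroup G) = ⊥
  · intro x _ y _ _ _
    have := P.not_dvd_index
    rw [hP, Subgroup.index_bot] at this
    exact Nat.Coprime.coprime_dvd_left (orderOf_dvd_natCard _)
      ((Nat.Prime.coprime_iff_not_dvd hr.out).2 this).symm
  have hnt : Nontrivial (P : Subgroup G) := (Subgroup.nontrivial_iff_ne_bot _).2 hP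
  have hnil : Group.IsNilpotent (P : Subgroup G) := P.2.isNilpotent
  have h1 := (FrobA.focal_le (P : Subgroup G) (h G r hG P)).trans_lt
    (Group.IsSolvable.commutator_lt_top_of_nontrivial (P : Subgroup G))
  set M := (P : Subgroup G).transferFocal.ker with hM
  have hM1 : M ≠ ⊤ := by
    intro e
    refine h1.ne ?_
    have := Subgroup.ker_transferFocal_inf_eq_focalSubgroup P
    rw [← hM, e, top_inf_eq] at this
    rw [Subgroup.focalSubgroupOf_def, ← this, Subgroup.subgroupOf_self]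
  have hM2 : ∀ x : G, (orderOf x).Coprime r → x ∈ M := fun x hx =>
    eq_one_of_cop ((P.2.to_quotient (P : Subgroup G).focalSubgroupOf).to_subgroup ⊤)
      (Subgroup.mem_top _) (cop_map _ hx)
  have hlt : Nat.card M < n := by
    rw [← hn]
    exact lt_of_le_of_ne (Subgroup.card_le_card_group M)
      fun e => hM1 (Subgroup.eq_top_of_card_eq M e)
  have h2 := (ih _ hlt M rfl (FrobA.pass M hG)).map hr.out M.subtype
  intro x _ y _ hx hy
  exact h2 x ⟨⟨x, hM2 x hx⟩, Subgroup.mem_top _, rfl⟩ y ⟨⟨y, hM2 y hy⟩, Subgroup.mem_top _, rfl⟩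
    hx hy

end Pool.Agent.MP_b7033c_al.Three

end

section

set_option autoImplicit false

namespace Pool.Agent.MP_b7033c_al.Three

namespace QuotHA

open scoped Pointwise

variable {G : Type} [Group G] {r : ℕ}

lemma eq_of_mk (K : Subgroup G) [K.Normal] (hK : (Nat.card K).Coprime r) {W : Subgroup G}
    (hW : IsPGroup r W) {x y : G} (hx : x ∈ W) (hy : y ∈ W)
    (h : QuotientGroup.mk' K x = QuotientGroup.mk' K y) : x = y := by
  have h1 : x * y⁻¹ ∈ K := by
    rw [← QuotientGroup.eq_one_iff, ← QuotientGroup.mk'_apply, map_mul, map_inv, h, mul_inv_cancel]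
  have h2 : (orderOf (x * y⁻¹)).Coprime r :=
    cop_of_pow hK (congrArg Subtype.val (pow_card_eq_one' (x := (⟨_, h1⟩ : K))))
  exact mul_inv_eq_one.1 (eq_one_of_cop hW (W.mul_mem hx (W.inv_mem hy)) h2)

lemma exists_sylow (K : Subgroup G) [K.Normal] (hK : (Nat.card K).Coprime r)
    (Z : Subgroup (G ⧸ K)) {W : Subgroup G} (hW : IsPGroup r W)
    (h : W.map (QuotientGroup.mk' K) = Z) :
    ∃ S : Sylow r (Z.comap (QuotientGroup.mk' K)),
      ∀ a : Z.comap (QuotientGroup.mk' K), a ∈ (S : Subgroup _) ↔ a.1 ∈ W := by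
  refine ⟨⟨W.comap (Z.comap (QuotientGroup.mk' K)).subtype, hW.comap_subtype, ?_⟩,
    fun a => Iff.rfl⟩
  intro Q hQ hle
  refine le_antisymm (fun q hq => ?_) hle
  have h1 : QuotientGroup.mk' K q.1 ∈ W.map (QuotientGroup.mk' K) := by
    rw [h]; exact q.2
  obtain ⟨x, hx, e⟩ := h1
  have hxY : x ∈ Z.comap (QuotientGroup.mk' K) := by
    rw [Subgroup.mem_comap, ← h]; exact ⟨x, hx, rfl⟩
  have h2 : x = q.1 := eq_of_mk K hK (hQ.map (Z.comap (QuotientGroup.mk' K)).subtype)
    ⟨⟨x, hxY⟩, hle hx, rfl⟩ ⟨q, hq, rfl⟩ e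
  show q.1 ∈ W
  rw [← h2]; exact hx

lemma frattini [Finite G] [Fact r.Prime] (K : Subgroup G) [K.Normal]
    (hK : (Nat.card K).Coprime r) {W : Subgroup G} (hW : IsPGroup r W) :
    Subgroup.normalizer (W.map (QuotientGroup.mk' K) : Set (G ⧸ K)) ≤
      (Subgroup.normalizer (W : Set G)).map (QuotientGroup.mk' K) := by
  intro gb hg
  obtain ⟨g, rfl⟩ := QuotientGroup.mk'_surjective K gb
  have h2 : (W.map (MulAut.conj g).toMonoidHom).map (QuotientGroup.mk' K) =
      W.map (QuotientGroup.mk' K) := by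
    apply le_antisymm
    · rintro _ ⟨_, ⟨w, hw, rfl⟩, rfl⟩
      have := (Subgroup.mem_normalizer_iff.1 hg (QuotientGroup.mk' K w)).1 ⟨w, hw, rfl⟩
      simpa using this
    · intro z hz
      obtain ⟨w, hw, e⟩ := (Subgroup.mem_normalizer_iff''.1 hg z).1 hz
      refine ⟨g * w * g⁻¹, ⟨w, hw, rfl⟩, ?_⟩
      rw [map_mul, map_mul, map_inv, e]
      group
  obtain ⟨S₁, h₁⟩ := exists_sylow K hK _ hW rfl
  obtain ⟨S₂, h₂⟩ := exists_sylow K hK _ (hW.map (MulAut.conj g).toMonoidHom) h2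
  obtain ⟨y, hy⟩ := MulAction.exists_smul_eq
    ((W.map (QuotientGroup.mk' K)).comap (QuotientGroup.mk' K)) S₁ S₂
  have h3 : g⁻¹ * y.1 ∈ Subgroup.normalizer (W : Set G) := by
    refine Subgroup.mem_normalizer_fintype fun w hw => ?_
    have a1 : w ∈ (W.map (QuotientGroup.mk' K)).comap (QuotientGroup.mk' K) := ⟨w, hw, rfl⟩
    have a2 : y * ⟨w, a1⟩ * y⁻¹ ∈ (S₂ : Subgroup _) := by
      rw [← hy, Sylow.coe_subgroup_smul, Subgroup.mem_smul_pointwise_iff_exists]
      exact ⟨⟨w, a1⟩, (h₁ _).2 hw, rfl⟩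
    obtain ⟨w', hw', e⟩ := (h₂ _).1 a2
    have e' : g * w' * g⁻¹ = y.1 * w * y.1⁻¹ := e
    have a3 : g⁻¹ * y.1 * w * (g⁻¹ * y.1)⁻¹ = w' := by
      have : g⁻¹ * y.1 * w * (g⁻¹ * y.1)⁻¹ = g⁻¹ * (y.1 * w * y.1⁻¹) * g := by group
      rw [this, ← e']; group
    rw [a3]; exact hw'
  obtain ⟨x, hx, e⟩ := y.2
  refine ⟨x * (g⁻¹ * y.1)⁻¹, Subgroup.mul_mem _ (Subgroup.le_normalizer hx)
    (Subgroup.inv_mem _ h3), ?_⟩
  rw [map_mul, map_inv, map_mul, map_inv, e]
  group

end QuotHA

theorem quotH : QuotH := by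
  intro G _ _ r hr K _ hK hG Pb
  obtain ⟨P, rfl⟩ := Sylow.mapSurjective_surjective (QuotientGroup.mk'_surjective K) r Pb
  intro Xb hc hne
  let f : (P : Subgroup G) →*
      (P.mapSurjective (QuotientGroup.mk'_surjective K) : Subgroup (G ⧸ K)) :=
    (QuotientGroup.mk' K).subgroupMap P
  have hf : Function.Bijective f :=
    ⟨fun x y h => Subtype.ext (QuotHA.eq_of_mk K hK P.isPGroup' x.2 y.2 (congrArg Subtype.val h)),
      MonoidHom.subgroupMap_surjective _ _⟩
  let e := MulEquiv.ofBijective f hf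
  have hX : (Xb.comap f).Characteristic := by
    rw [Subgroup.characteristic_iff_comap_eq] at hc ⊢
    intro φ
    ext x
    have h := SetLike.ext_iff.1 (hc (e.symm.trans (φ.trans e))) (e x)
    have e1 : (e.symm.trans (φ.trans e)).toMonoidHom (e x) = f (φ x) := by
      show e (φ (e.symm (e x))) = f (φ x)
      rw [MulEquiv.symm_apply_apply]; rfl
    rw [Subgroup.mem_comap, e1] at h
    exact h
  have hne' : Xb.comap f ≠ ⊥ := by
    intro h
    apply hne
    rw [← Subgroup.map_comap_eq_self_of_surjective hf.2 Xb, h, Subgroup.map_bot]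
  have him : ((Xb.comap f).map (P : Subgroup G).subtype).map (QuotientGroup.mk' K) =
      Xb.map (P.mapSurjective (QuotientGroup.mk'_surjective K) : Subgroup (G ⧸ K)).subtype := by
    apply le_antisymm
    · rintro _ ⟨_, ⟨x, hx, rfl⟩, rfl⟩
      exact ⟨f x, hx, rfl⟩
    · rintro _ ⟨z, hz, rfl⟩
      obtain ⟨x, rfl⟩ := hf.2 z
      exact ⟨x.1, ⟨x, hz, rfl⟩, rfl⟩
  rw [← him]
  exact ((hG P _ hX hne').map hr.out (QuotientGroup.mk' K)).mono
    (QuotHA.frattini K hK ((P.isPGroup'.to_subgroup _).map _))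

end Pool.Agent.MP_b7033c_al.Three

end

section

set_option autoImplicit false

namespace Pool.Agent.MP_b7033c_al.Three

open scoped Nat Pointwise

namespace ThoA

variable {K : Type} [Group K]

theorem pow_apply (α : MulAut K) (k : ℕ) (x : K) : (α ^ k) x = α^[k] x := by
  induction k generalizing x with
  | zero => rfl
  | succ k ih => rw [pow_succ, MulAut.mul_apply, ih, Function.iterate_succ_apply]

theorem pow_transfer {L : Type} [Group L] (α : MulAut K) (β : MulAut L) (f : K → L)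
    (h : ∀ x, β (f x) = f (α x)) (k : ℕ) (x : K) : (β ^ k) (f x) = f ((α ^ k) x) := by
  induction k generalizing x with
  | zero => rfl
  | succ k ih => rw [pow_succ, pow_succ, MulAut.mul_apply, MulAut.mul_apply, h, ih]

theorem conj_pow (α : MulAut K) (y : K) (k : ℕ) :
    (MulAut.conj y * α) ^ k =
      MulAut.conj ((List.range k).map (fun i => α^[i] y)).prod * α ^ k := by
  induction k with
  | zero => simp
  | succ k ih =>
    rw [pow_succ, ih, List.range_succ, List.map_append, List.prod_append, map_mul, pow_succ]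
    ext x
    simp only [MulAut.mul_apply, MulAut.conj_apply, map_mul, map_inv, List.map_cons, List.map_nil,
      List.prod_cons, List.prod_nil, mul_one, pow_apply]

variable [Finite K]

theorem conj_pow_eq_one {α : MulAut K} {p : ℕ} (h1 : α ^ p = 1) (h2 : ∀ y, α y = y → y = 1)
    (y : K) : (MulAut.conj y * α) ^ p = 1 := by
  have h3 : α^[p] = id := by
    funext x
    rw [← pow_apply, h1]
    rfl
  rw [conj_pow, (show MonoidHom.FixedPointFree α from h2).prod_pow_eq_one h3, h1, map_one, mul_one]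

theorem exists_res (α : MulAut K) (H : Subgroup K) (h : ∀ x ∈ H, α x ∈ H) :
    ∃ β : MulAut H, ∀ x : H, (β x : K) = α x := by
  let ψ : H →* H := (α.toMonoidHom.comp H.subtype).codRestrict H fun x => h x x.2
  have hψ : Function.Injective ψ := fun x y e =>
    Subtype.ext (α.injective (congrArg Subtype.val e))
  exact ⟨MulEquiv.ofBijective ψ (Finite.injective_iff_bijective.1 hψ), fun x => rfl⟩

theorem res {α : MulAut K} {p : ℕ} (h1 : α ^ p = 1) (h2 : ∀ y, α y = y → y = 1) (H : Subgroup K)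
    (h : ∀ x ∈ H, α x ∈ H) : ∃ β : MulAut H, β ^ p = 1 ∧ ∀ y, β y = y → y = 1 := by
  obtain ⟨β, hβ⟩ := exists_res α H h
  refine ⟨β, ?_, fun y e => Subtype.ext (h2 y (by rw [← hβ, e]))⟩
  ext x
  rw [← pow_transfer β α Subtype.val (fun x => (hβ x).symm), h1]
  rfl

theorem inv_mem (α : MulAut K) (H : Subgroup K) (h : ∀ x ∈ H, α x ∈ H) (x : K) (hx : α x ∈ H) :
    x ∈ H := by
  obtain ⟨β, hβ⟩ := exists_res α H h
  obtain ⟨y, hy⟩ := β.surjective ⟨α x, hx⟩
  have : α y = α x := by rw [← hβ, hy]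
  rw [← α.injective this]
  exact y.2

theorem quo {α : MulAut K} {p : ℕ} (h1 : α ^ p = 1) (h2 : ∀ y, α y = y → y = 1) (N : Subgroup K)
    [N.Normal] (h : ∀ x ∈ N, α x ∈ N) : ∃ β : MulAut (K ⧸ N), β ^ p = 1 ∧ ∀ y, β y = y → y = 1 := by
  let ψ : K ⧸ N →* K ⧸ N := QuotientGroup.map N N α.toMonoidHom h
  have hψ : Function.Surjective ψ := by
    intro y
    obtain ⟨x, rfl⟩ := QuotientGroup.mk_surjective y
    obtain ⟨z, rfl⟩ := α.surjective x
    exact ⟨(z : K ⧸ N), rfl⟩
  let β : MulAut (K ⧸ N) := MulEquiv.ofBijective ψ (Finite.surjective_iff_bijective.1 hψ)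
  have hβ : ∀ x : K, β (x : K ⧸ N) = ((α x : K) : K ⧸ N) := fun x => rfl
  refine ⟨β, ?_, fun y e => ?_⟩
  · ext y
    obtain ⟨x, rfl⟩ := QuotientGroup.mk_surjective y
    rw [pow_transfer α β (fun x : K => (x : K ⧸ N)) hβ, h1]
    rfl
  · obtain ⟨x, rfl⟩ := QuotientGroup.mk_surjective y
    rw [hβ] at e
    have e1 : x / α x ∈ N := by
      rw [← QuotientGroup.eq_one_iff, QuotientGroup.mk_div, e, div_self']
    obtain ⟨γ, hγ⟩ := exists_res α N h
    have hf : MonoidHom.FixedPointFree γ := fun y e => Subtype.ext (h2 y (by rw [← hγ, e]))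
    obtain ⟨z, hz⟩ := hf.commutatorMap_surjective ⟨_, e1⟩
    have e2 : MonoidHom.commutatorMap α (z : K) = MonoidHom.commutatorMap α x := by
      have := congrArg Subtype.val hz
      rw [MonoidHom.commutatorMap_apply, Subgroup.coe_div, hγ] at this
      exact this
    have e3 := (show MonoidHom.FixedPointFree α from h2).commutatorMap_injective e2
    rw [QuotientGroup.eq_one_iff, ← e3]
    exact z.2

theorem inv_sylow {α : MulAut K} (h2 : ∀ y, α y = y → y = 1) (r : ℕ) [Fact r.Prime] :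
    ∃ R : Sylow r K, ∀ x ∈ (R : Subgroup K), α x ∈ (R : Subgroup K) := by
  obtain ⟨R⟩ : Nonempty (Sylow r K) := inferInstance
  obtain ⟨g, hg⟩ := MulAction.exists_smul_eq K R (α • R)
  obtain ⟨y, hy⟩ := (show MonoidHom.FixedPointFree α from h2).commutatorMap_surjective g⁻¹
  rw [MonoidHom.commutatorMap_apply] at hy
  have key : ∀ (h x : K), x ∈ ((h • R : Sylow r K) : Subgroup K) ↔ h⁻¹ * x * h ∈ (R : Subgroup K) := by
    intro h x
    rw [Sylow.coe_subgroup_smul, Subgroup.mem_pointwise_smul_iff_inv_smul_mem, ← map_inv,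
      MulAut.smul_def, MulAut.conj_apply, inv_inv]
  refine ⟨y⁻¹ • R, fun x hx => ?_⟩
  rw [key] at hx ⊢
  have h3 : α (y⁻¹⁻¹ * x * y⁻¹) ∈ ((α • R : Sylow r K) : Subgroup K) := by
    rw [Sylow.pointwise_smul_def]
    exact Subgroup.smul_mem_pointwise_smul _ α _ hx
  rw [← hg, key, ← inv_inv g, ← hy] at h3
  have e : (y / α y)⁻¹⁻¹ * α (y⁻¹⁻¹ * x * y⁻¹) * (y / α y)⁻¹ = y⁻¹⁻¹ * α x * y⁻¹ := by
    simp only [div_eq_mul_inv, map_mul, map_inv]
    group
  rwa [e] at h3

/-- elements of order dividing `t` in the centre of the derived subgroup -/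
def VV (K : Type) [Group K] (t : ℕ) : Subgroup K where
  carrier := {z | z ∈ commutator K ∧ (∀ w ∈ commutator K, Commute z w) ∧ z ^ t = 1}
  one_mem' := ⟨one_mem _, fun w _ => Commute.one_left w, one_pow t⟩
  mul_mem' := fun {a b} ha hb => ⟨mul_mem ha.1 hb.1, fun w hw => (ha.2.1 w hw).mul_left (hb.2.1 w hw),
    by rw [(ha.2.1 b hb.1).mul_pow, ha.2.2, hb.2.2, mul_one]⟩
  inv_mem' := fun {a} ha => ⟨Subgroup.inv_mem _ ha.1, fun w hw => (ha.2.1 w hw).inv_left,
    by rw [inv_pow, ha.2.2, inv_one]⟩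

omit [Finite K] in
theorem char_mem (H : Subgroup K) [hH : H.Characteristic] (γ : MulAut K) (x : K) (hx : x ∈ H) :
    γ x ∈ H :=
  Subgroup.characteristic_iff_le_comap.1 hH γ hx

omit [Finite K] in
theorem VV_aut (t : ℕ) (γ : MulAut K) (z : K) (hz : z ∈ VV K t) : γ z ∈ VV K t := by
  refine ⟨char_mem _ γ z hz.1, fun w hw => ?_, by rw [← map_pow, hz.2.2, map_one]⟩
  have := (hz.2.1 _ (char_mem _ γ.symm w hw)).map γ
  rwa [MulEquiv.apply_symm_apply] at this

instance VV_normal (t : ℕ) : (VV K t).Normal := ⟨fun z hz g => VV_aut t (MulAut.conj g) z hz⟩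

theorem center_ne (hN : NormId) {p : ℕ} (hp : p.Prime) {α : MulAut K} (h1 : α ^ p = 1)
    (h2 : ∀ y, α y = y → y = 1) (hn : Group.IsNilpotent (commutator K))
    (hb : commutator K ≠ ⊥) : Subgroup.center K ≠ ⊥ := by
  have : Nontrivial (commutator K) := (Subgroup.nontrivial_iff_ne_bot _).2 hb
  have hc := (Subgroup.one_lt_card_iff_ne_bot _).2 (Group.IsNilpotent.center_ne_bot (commutator K))
  obtain ⟨t, ht, htd⟩ := Nat.exists_prime_and_dvd hc.ne'
  have : Fact t.Prime := ⟨ht⟩
  obtain ⟨z, hz⟩ := exists_prime_orderOf_dvd_card' t htd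
  have hzV : ((z : commutator K) : K) ∈ VV K t := by
    refine ⟨z.1.2, fun w hw => ?_, ?_⟩
    · exact (congrArg Subtype.val (Subgroup.mem_center_iff.1 z.2 ⟨w, hw⟩)).symm
    · have := pow_orderOf_eq_one z
      rw [hz] at this
      exact congrArg (fun u : Subgroup.center (commutator K) => ((u : commutator K) : K)) this
  have hz1 : ((z : commutator K) : K) ≠ 1 := by
    intro e
    have : z = 1 := Subtype.ext (Subtype.ext e)
    rw [this, orderOf_one] at hz
    exact ht.one_lt.ne hz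
  have hV : IsPGroup t (VV K t) := fun g => ⟨1, Subtype.ext (by rw [pow_one]; exact g.2.2.2)⟩
  have hdv : t ∣ Nat.card (VV K t) := by
    refine hV.card_eq_or_dvd.resolve_left fun e => hz1 ?_
    rw [Subgroup.card_eq_one] at e
    rw [e] at hzV
    exact Subgroup.mem_bot.1 hzV
  obtain ⟨T⟩ : Nonempty (Sylow t K) := inferInstance
  let _ : MulAction (T : Subgroup K) (VV K t) :=
    MulAction.compHom _ ((MulAut.conjNormal : K →* MulAut (VV K t)).comp (T : Subgroup K).subtype)
  obtain ⟨v, hv, hv1⟩ := T.isPGroup'.exists_fixed_point_of_prime_dvd_card_of_fixed_point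
    (VV K t) hdv (a := 1) (fun g => map_one (MulAut.conjNormal (g : K)))
  have hT : (T : Subgroup K) ≤ Subgroup.centralizer {(v : K)} := by
    intro g hg
    have e : g * v * g⁻¹ = v := congrArg Subtype.val (hv ⟨g, hg⟩)
    rw [Subgroup.mem_centralizer_singleton_iff]
    exact mul_inv_eq_iff_eq_mul.1 e
  have hidx : (Subgroup.centralizer {(v : K)}).index = 1 := by
    by_contra hne
    obtain ⟨s, hs, hsd⟩ := Nat.exists_prime_and_dvd hne
    have : Fact s.Prime := ⟨hs⟩
    by_cases e : s = t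
    · subst e
      exact T.not_dvd_index (hsd.trans (Subgroup.index_dvd_of_le hT))
    · obtain ⟨S, hS⟩ := inv_sylow h2 s
      have hcomm := hN p K α (VV K t) S hp h1 h2 (VV_normal t) (fun u hu w hw => hu.2.1 w hw.1)
        (VV_aut t α) hS (IsPGroup.coprime_card_of_ne t s (Ne.symm e) _ _ hV S.isPGroup') v v.2
      have hS' : (S : Subgroup K) ≤ Subgroup.centralizer {(v : K)} := by
        intro g hg
        rw [Subgroup.mem_centralizer_singleton_iff]
        exact (hcomm g hg).symm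
      exact S.not_dvd_index (hsd.trans (Subgroup.index_dvd_of_le hS'))
  rw [Subgroup.index_eq_one] at hidx
  intro hbot
  have hvc : (v : K) ∈ Subgroup.center K := by
    rw [Subgroup.mem_center_iff]
    intro g
    have : g ∈ Subgroup.centralizer {(v : K)} := by rw [hidx]; exact Subgroup.mem_top g
    exact Subgroup.mem_centralizer_singleton_iff.1 this
  rw [hbot] at hvc
  exact hv1 (Subtype.ext (Subgroup.mem_bot.1 hvc)).symm

end ThoA

open ThoA in
theorem tho (hY : Yosh) (hN : NormId) (p n B : ℕ) (hp : p.Prime) (hn : n ≤ B) (H : GH p n B) :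
    Tho p B := by
  have main : ∀ (N : ℕ) (K : Type) [Group K] [Finite K] (α : MulAut K), Nat.card K = N →
      (Nat.card K).Coprime B ! → α ^ p = 1 → (∀ y, α y = y → y = 1) → Group.IsNilpotent K := by
    intro N
    induction N using Nat.strong_induction_on with
    | _ N ih =>
      intro K _ _ α hK hc h1 h2
      have sub : ∀ S : Subgroup K, S ≠ ⊤ → (∀ x ∈ S, α x ∈ S) → Group.IsNilpotent S := by
        intro S hS hi
        obtain ⟨β, b1, b2⟩ := res h1 h2 S hi
        refine ih (Nat.card S) ?_ S β rfl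
          (hc.coprime_dvd_left (Subgroup.card_subgroup_dvd_card S)) b1 b2
        rw [← hK]
        exact not_le.1 fun hl => hS (S.eq_top_of_le_card hl)
      by_cases hall : ∀ (r : ℕ) (_ : Fact r.Prime) (P : Sylow r K), (P : Subgroup K).Normal
      · exact (Group.isNilpotent_of_finite_tfae.out 3 0 rfl rfl).1 hall
      push Not at hall
      obtain ⟨r, hr, P, hP⟩ := hall
      obtain ⟨R, hR⟩ := inv_sylow h2 r
      have hRn : ¬ (R : Subgroup K).Normal := by
        intro hn'
        have := Sylow.unique_of_normal R hn'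
        rw [Subsingleton.elim P R] at hP
        exact hP hn'
      have hRb : (R : Subgroup K) ≠ ⊥ := by
        intro e
        rw [e] at hRn
        exact hRn inferInstance
      have hrd : r ∣ Nat.card K :=
        (R.isPGroup'.card_eq_or_dvd.resolve_left fun e => hRb (Subgroup.card_eq_one.1 e)).trans
          (Subgroup.card_subgroup_dvd_card _)
      have hrB : B < r := by
        by_contra hle
        have h3 : r ∣ B ! := hr.out.dvd_factorial.2 (not_lt.1 hle)
        exact hr.out.one_lt.ne' (Nat.eq_one_of_dvd_coprimes hc hrd h3)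
      have hNR : Group.IsNilpotent (Subgroup.normalizer ((R : Subgroup K) : Set K)) := by
        refine sub _ (fun e => hRn (Subgroup.normalizer_eq_top_iff.1 e)) fun g hg => ?_
        rw [Subgroup.mem_normalizer_iff] at hg ⊢
        intro h
        obtain ⟨x, rfl⟩ := α.surjective h
        rw [← map_inv, ← map_mul, ← map_mul]
        exact ⟨fun hx => hR _ ((hg x).1 (inv_mem α _ hR x hx)),
          fun hx => hR _ ((hg x).2 (inv_mem α _ hR _ hx))⟩
      have hl : (R : Subgroup K).lowerCentralSeries n = ⊥ := by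
        obtain ⟨β, b1, b2⟩ := res h1 h2 R hR
        rw [← Subgroup.top_subtype_lowerCentralSeries, H R β R.isPGroup'.isNilpotent
          (hc.coprime_dvd_left (Subgroup.card_subgroup_dvd_card _)) (conj_pow_eq_one b1 b2),
          Subgroup.map_bot]
      have hcm := hY K r R n (lt_of_le_of_lt hn hrB) hRb hl hNR
      by_cases hb : commutator K = ⊥
      · exact Subgroup.nilpotent_iff_lowerCentralSeries.2 ⟨1, hb⟩
      have hz := center_ne hN hp h1 h2 (sub _ hcm (char_mem _ α)) hb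
      obtain ⟨β, b1, b2⟩ := quo h1 h2 (Subgroup.center K) (char_mem _ α)
      have hq := Subgroup.card_eq_card_quotient_mul_card_subgroup (Subgroup.center K)
      refine Group.of_quotient_center_nilpotent (ih (Nat.card (K ⧸ Subgroup.center K)) ?_ _ β rfl
        (hc.coprime_dvd_left ⟨_, hq⟩) b1 b2)
      rw [← hK, hq]
      exact lt_mul_of_one_lt_right Nat.card_pos ((Subgroup.one_lt_card_iff_ne_bot _).2 hz)
  intro K _ _ α hc h1 h2
  exact main _ K α rfl hc h1 h2

end Pool.Agent.MP_b7033c_al.Three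

end

section

/-! Finite groups with a fixed point free automorphism of prime order are nilpotent. -/

set_option autoImplicit false

namespace Pool.Agent.MP_b7033c_al.Three

open scoped Nat Pointwise

namespace ThoFA

open ThoA

variable {K : Type} [Group K]

/-- elements of order dividing `t` in the centre of `N` -/
def VN (N : Subgroup K) (t : ℕ) : Subgroup K where
  carrier := {z | z ∈ N ∧ (∀ w ∈ N, Commute z w) ∧ z ^ t = 1}
  one_mem' := ⟨one_mem _, fun w _ => Commute.one_left w, one_pow t⟩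
  mul_mem' := fun {a b} ha hb => ⟨mul_mem ha.1 hb.1, fun w hw => (ha.2.1 w hw).mul_left (hb.2.1 w hw),
    by rw [(ha.2.1 b hb.1).mul_pow, ha.2.2, hb.2.2, mul_one]⟩
  inv_mem' := fun {a} ha => ⟨Subgroup.inv_mem _ ha.1, fun w hw => (ha.2.1 w hw).inv_left,
    by rw [inv_pow, ha.2.2, inv_one]⟩

variable [Finite K]

theorem VN_aut (N : Subgroup K) (t : ℕ) (γ : MulAut K) (hγ : ∀ x ∈ N, γ x ∈ N) (z : K)
    (hz : z ∈ VN N t) : γ z ∈ VN N t := by
  refine ⟨hγ z hz.1, fun w hw => ?_, by rw [← map_pow, hz.2.2, map_one]⟩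
  obtain ⟨x, rfl⟩ := γ.surjective w
  exact (hz.2.1 _ (inv_mem γ N hγ x hw)).map γ

theorem VN_normal (N : Subgroup K) [hN : N.Normal] (t : ℕ) : (VN N t).Normal :=
  ⟨fun z hz g => VN_aut N t (MulAut.conj g) (fun x hx => hN.conj_mem x hx g) z hz⟩

theorem center_ne (hN : NormId) {p : ℕ} (hp : p.Prime) {α : MulAut K} (h1 : α ^ p = 1)
    (h2 : ∀ y, α y = y → y = 1) (N : Subgroup K) [N.Normal] (hi : ∀ x ∈ N, α x ∈ N)
    (hn : Group.IsNilpotent N) (hb : N ≠ ⊥) : Subgroup.center K ≠ ⊥ := by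
  have : Nontrivial N := (Subgroup.nontrivial_iff_ne_bot _).2 hb
  have hc := (Subgroup.one_lt_card_iff_ne_bot _).2 (Group.IsNilpotent.center_ne_bot N)
  obtain ⟨t, ht, htd⟩ := Nat.exists_prime_and_dvd hc.ne'
  have : Fact t.Prime := ⟨ht⟩
  have hVn := VN_normal N t
  obtain ⟨z, hz⟩ := exists_prime_orderOf_dvd_card' t htd
  have hzV : ((z : N) : K) ∈ VN N t := by
    refine ⟨z.1.2, fun w hw => ?_, ?_⟩
    · exact (congrArg Subtype.val (Subgroup.mem_center_iff.1 z.2 ⟨w, hw⟩)).symm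
    · have := pow_orderOf_eq_one z
      rw [hz] at this
      exact congrArg (fun u : Subgroup.center N => ((u : N) : K)) this
  have hz1 : ((z : N) : K) ≠ 1 := by
    intro e
    have : z = 1 := Subtype.ext (Subtype.ext e)
    rw [this, orderOf_one] at hz
    exact ht.one_lt.ne hz
  have hV : IsPGroup t (VN N t) := fun g => ⟨1, Subtype.ext (by rw [pow_one]; exact g.2.2.2)⟩
  have hdv : t ∣ Nat.card (VN N t) := by
    refine hV.card_eq_or_dvd.resolve_left fun e => hz1 ?_
    rw [Subgroup.card_eq_one] at e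
    rw [e] at hzV
    exact Subgroup.mem_bot.1 hzV
  obtain ⟨T⟩ : Nonempty (Sylow t K) := inferInstance
  let _ : MulAction (T : Subgroup K) (VN N t) :=
    MulAction.compHom _ ((MulAut.conjNormal : K →* MulAut (VN N t)).comp (T : Subgroup K).subtype)
  obtain ⟨v, hv, hv1⟩ := T.isPGroup'.exists_fixed_point_of_prime_dvd_card_of_fixed_point
    (VN N t) hdv (a := 1) (fun g => map_one (MulAut.conjNormal (g : K)))
  have hT : (T : Subgroup K) ≤ Subgroup.centralizer {(v : K)} := by
    intro g hg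
    have e : g * v * g⁻¹ = v := congrArg Subtype.val (hv ⟨g, hg⟩)
    rw [Subgroup.mem_centralizer_singleton_iff]
    exact mul_inv_eq_iff_eq_mul.1 e
  have hidx : (Subgroup.centralizer {(v : K)}).index = 1 := by
    by_contra hne
    obtain ⟨s, hs, hsd⟩ := Nat.exists_prime_and_dvd hne
    have : Fact s.Prime := ⟨hs⟩
    by_cases e : s = t
    · subst e
      exact T.not_dvd_index (hsd.trans (Subgroup.index_dvd_of_le hT))
    · obtain ⟨S, hS⟩ := inv_sylow h2 s
      have hcomm := hN p K α (VN N t) S hp h1 h2 hVn (fun u hu w hw => hu.2.1 w hw.1)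
        (VN_aut N t α hi) hS (IsPGroup.coprime_card_of_ne t s (Ne.symm e) _ _ hV S.isPGroup') v v.2
      have hS' : (S : Subgroup K) ≤ Subgroup.centralizer {(v : K)} := by
        intro g hg
        rw [Subgroup.mem_centralizer_singleton_iff]
        exact (hcomm g hg).symm
      exact S.not_dvd_index (hsd.trans (Subgroup.index_dvd_of_le hS'))
  rw [Subgroup.index_eq_one] at hidx
  intro hbot
  have hvc : (v : K) ∈ Subgroup.center K := by
    rw [Subgroup.mem_center_iff]
    intro g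
    have : g ∈ Subgroup.centralizer {(v : K)} := by rw [hidx]; exact Subgroup.mem_top g
    exact Subgroup.mem_centralizer_singleton_iff.1 this
  rw [hbot] at hvc
  exact hv1 (Subtype.ext (Subgroup.mem_bot.1 hvc)).symm

/-- every Sylow subgroup is invariant under a conjugate of the automorphism -/
theorem all_sylow {p : ℕ} {α : MulAut K} (h1 : α ^ p = 1) (h2 : ∀ y, α y = y → y = 1) (r : ℕ)
    [Fact r.Prime] (P : Sylow r K) : ∃ β : MulAut K, β ^ p = 1 ∧ (∀ y, β y = y → y = 1) ∧
      ∀ x ∈ (P : Subgroup K), β x ∈ (P : Subgroup K) := by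
  obtain ⟨R, hR⟩ := inv_sylow h2 r
  obtain ⟨g, rfl⟩ := MulAction.exists_smul_eq K R P
  refine ⟨MulAut.conj g * α * (MulAut.conj g)⁻¹, by rw [_root_.conj_pow, h1, mul_one, mul_inv_cancel],
    fun y hy => ?_, fun x hx => ?_⟩
  · have h3 : α ((MulAut.conj g)⁻¹ y) = (MulAut.conj g)⁻¹ y := by
      conv_rhs => rw [← hy]
      rw [MulAut.mul_apply, MulAut.mul_apply, MulAut.inv_apply_self]
    exact ((MulAut.conj g)⁻¹).map_eq_one_iff.1 (h2 _ h3)
  · rw [Sylow.coe_subgroup_smul, Subgroup.mem_pointwise_smul_iff_inv_smul_mem,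
      MulAut.smul_def] at hx ⊢
    rw [MulAut.mul_apply, MulAut.mul_apply, MulAut.inv_apply_self]
    exact hR _ hx

theorem norm_inv (α : MulAut K) (S : Subgroup K) (hS : ∀ x ∈ S, α x ∈ S) :
    ∀ g ∈ Subgroup.normalizer (S : Set K), α g ∈ Subgroup.normalizer (S : Set K) := by
  intro g hg
  rw [Subgroup.mem_normalizer_iff] at hg ⊢
  intro h
  obtain ⟨x, rfl⟩ := α.surjective h
  rw [← map_inv, ← map_mul, ← map_mul]
  exact ⟨fun hx => hS _ ((hg x).1 (inv_mem α _ hS x hx)),
    fun hx => hS _ ((hg x).2 (inv_mem α _ hS _ hx))⟩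

end ThoFA

open ThoA in
theorem thoF (h1 : NPC) (hN : NormId) (h2 : NilPN) (p : Nat) (hp : p.Prime) : Tho p 0 := by
  have main : ∀ (n : ℕ) (K : Type) [Group K] [Finite K] (α : MulAut K), Nat.card K = n →
      α ^ p = 1 → (∀ y, α y = y → y = 1) → Group.IsNilpotent K := by
    intro n
    induction n using Nat.strong_induction_on with
    | _ n ih =>
      intro K _ _ α hK a1 a2
      by_contra hnil
      have sub : ∀ γ : MulAut K, γ ^ p = 1 → (∀ y, γ y = y → y = 1) → ∀ S : Subgroup K, S ≠ ⊤ →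
          (∀ x ∈ S, γ x ∈ S) → Group.IsNilpotent S := by
        intro γ c1 c2 S hS hi
        obtain ⟨β, b1, b2⟩ := res c1 c2 S hi
        refine ih (Nat.card S) ?_ S β rfl b1 b2
        rw [← hK]
        exact not_le.1 fun hl => hS (S.eq_top_of_le_card hl)
      have simple : ∀ γ : MulAut K, γ ^ p = 1 → (∀ y, γ y = y → y = 1) → ∀ N : Subgroup K,
          N.Normal → (∀ x ∈ N, γ x ∈ N) → N ≠ ⊥ → N = ⊤ := by
        intro γ c1 c2 N hn hi hb
        by_contra ht
        have hz := ThoFA.center_ne hN hp c1 c2 N hi (sub γ c1 c2 N ht hi) hb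
        obtain ⟨β, b1, b2⟩ := quo c1 c2 (Subgroup.center K) (char_mem _ γ)
        have hq := Subgroup.card_eq_card_quotient_mul_card_subgroup (Subgroup.center K)
        refine hnil (Group.of_quotient_center_nilpotent
          (ih (Nat.card (K ⧸ Subgroup.center K)) ?_ _ β rfl b1 b2))
        rw [← hK, hq]
        exact lt_mul_of_one_lt_right Nat.card_pos ((Subgroup.one_lt_card_iff_ne_bot _).2 hz)
      have hnp : ∀ r : ℕ, r.Prime → ¬ IsPGroup r K := fun r hr h => by
        have := Fact.mk hr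
        exact hnil h.isNilpotent
      obtain ⟨r, hr, hrd, hr2⟩ : ∃ r : ℕ, r.Prime ∧ r ∣ Nat.card K ∧ r ≠ 2 := by
        by_contra hc
        push Not at hc
        exact hnp 2 Nat.prime_two (IsPGroup.of_card
          (Nat.eq_prime_pow_of_unique_prime_dvd Nat.card_pos.ne' fun h3 h4 => hc _ h3 h4))
      have := Fact.mk hr
      have hCH : CH r K := by
        intro P X hX hXb
        obtain ⟨γ, c1, c2, c3⟩ := ThoFA.all_sylow a1 a2 r P
        have hi : ∀ x ∈ X.map (P : Subgroup K).subtype, γ x ∈ X.map (P : Subgroup K).subtype := by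
          rintro _ ⟨x, hx, rfl⟩
          obtain ⟨β, hβ⟩ := exists_res γ P c3
          exact ⟨β x, char_mem X β x hx, hβ x⟩
        have hne : Subgroup.normalizer (X.map (P : Subgroup K).subtype : Set K) ≠ ⊤ := by
          intro e
          have ht := simple γ c1 c2 _ (Subgroup.normalizer_eq_top_iff.1 e) hi fun e2 =>
            hXb ((Subgroup.map_eq_bot_iff_of_injective X (Subgroup.subtype_injective _)).1 e2)
          have hP : (P : Subgroup K) = ⊤ := top_le_iff.1 (ht ▸ Subgroup.map_subtype_le X)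
          refine hnp r hr ?_
          have := P.isPGroup'
          rw [hP] at this
          exact this.of_equiv Subgroup.topEquiv
        have h3 := PN.map hr (Subgroup.subtype _)
          (h2 _ r hr (sub γ c1 c2 _ hne (ThoFA.norm_inv γ _ hi)))
        rwa [← MonoidHom.range_eq_map, Subgroup.range_subtype] at h3
      have hPN := h1 K r hr2 hCH
      have hcore : hPN.core = ⊥ := by
        by_contra hb
        have ht := simple α a1 a2 hPN.core
          ⟨fun x hx g => ⟨Subgroup.mem_top _, cop_conj hx.2 g⟩⟩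
          (fun x hx => ⟨Subgroup.mem_top _, cop_map α.toMonoidHom hx.2⟩) hb
        have h4 := hPN.card_core
        rw [ht, Subgroup.card_top] at h4
        exact hr.one_lt.ne' (Nat.eq_one_of_dvd_coprimes h4 hrd dvd_rfl)
      refine hnp r hr (IsPGroup.of_card
        (Nat.eq_prime_pow_of_unique_prime_dvd Nat.card_pos.ne' fun {d} h3 h4 => ?_))
      by_contra hd
      have := Fact.mk h3
      obtain ⟨y, hy⟩ := exists_prime_orderOf_dvd_card' d h4
      have h5 : y ∈ hPN.core :=
        ⟨Subgroup.mem_top _, by rw [hy]; exact (Nat.coprime_primes h3 hr).2 hd⟩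
      rw [hcore, Subgroup.mem_bot] at h5
      rw [h5, orderOf_one] at hy
      exact h3.one_lt.ne hy
  intro K _ _ α _ a1 a2
  exact main _ K α rfl a1 a2

end Pool.Agent.MP_b7033c_al.Three

end

section

set_option autoImplicit false

namespace Pool.Agent.MP_b7033c_al.Three

namespace NilPNA

theorem pi {ι : Type} [Finite ι] {H : ι → Type} [∀ i, Group (H i)] {r : ℕ}
    (h : ∀ i, PN r (⊤ : Subgroup (H i))) : PN r (⊤ : Subgroup (∀ i, H i)) := by
  intro x _ y _ h1 h2
  have := Fintype.ofFinite ι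
  refine cop_of_pow (k := ∏ i, orderOf (x i * y i)) (Nat.Coprime.prod_left fun i _ =>
    h i _ (Subgroup.mem_top _) _ (Subgroup.mem_top _) (cop_map (Pi.evalMonoidHom H i) h1)
      (cop_map (Pi.evalMonoidHom H i) h2)) ?_
  funext i
  exact orderOf_dvd_iff_pow_eq_one.1
    (Finset.dvd_prod_of_mem (fun i => orderOf (x i * y i)) (Finset.mem_univ i))

theorem pgrp {G : Type} [Group G] {p r : ℕ} (hp : p.Prime) (hr : r.Prime) (h : IsPGroup p G) :
    PN r (⊤ : Subgroup G) := by
  by_cases e : p = r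
  · exact PN.of_isPGroup (e ▸ h.to_subgroup ⊤)
  · intro x _ y _ _ _
    obtain ⟨k, hk⟩ := h (x * y)
    exact cop_of_pow (((Nat.coprime_primes hp hr).2 e).pow_left k) hk

end NilPNA

theorem nilPN : NilPN := by
  intro G _ _ r hr h
  obtain ⟨e⟩ := ((Group.isNilpotent_of_finite_tfae (G := G)).out 0 4).1 h
  have h1 := (NilPNA.pi fun p : (Nat.card G).primeFactors => NilPNA.pi fun P : Sylow p G =>
    NilPNA.pgrp (Nat.prime_of_mem_primeFactors p.2) hr P.isPGroup').map hr e.toMonoidHom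
  exact h1.mono fun x _ => ⟨e.symm x, Subgroup.mem_top _, e.apply_symm_apply x⟩

end Pool.Agent.MP_b7033c_al.Three

end
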