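import Mathlib

set_option linter.all false

section

set_option autoImplicit false

namespace Pool.Agent.MP_b7033c_al

variable {G : Type*} [Group G]

/-- right conjugate -/
def cj (x g : G) : G := g⁻¹ * x * g

/-- right commutator -/
def cm (x y : G) : G := x⁻¹ * y⁻¹ * x * y

/-- the two elements generate a group of class at most two -/
def Cl (x y : G) : Prop := Commute (cm x y) x ∧ Commute (cm x y) y

lemma cj_eq (x g : G) : cj x g = x * cm x g := by unfold cj cm; group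

lemma cm_eq (x g : G) : cm x g = x⁻¹ * cj x g := by unfold cj cm; group

lemma cm_eq' (x g : G) : cm x g = (cj g x)⁻¹ * g := by unfold cj cm; group

lemma cj_mul (x y g : G) : cj (x * y) g = cj x g * cj y g := by unfold cj; group

lemma cj_inv (x g : G) : cj x⁻¹ g = (cj x g)⁻¹ := by unfold cj; group

lemma cj_cj (x g h : G) : cj (cj x g) h = cj x (g * h) := by unfold cj; group

lemma cj_one (x : G) : cj x 1 = x := by unfold cj; group

lemma cj_cm (x y g : G) : cj (cm x y) g = cm (cj x g) (cj y g) := by unfold cj cm; group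

lemma cj_pow (x g : G) (n : ℕ) : cj x g ^ n = cj (x ^ n) g := by
  have : cj x g = g⁻¹ * x * g⁻¹⁻¹ := by unfold cj; group
  rw [this, conj_pow]; unfold cj; group

lemma cm_swap (x y : G) : cm y x = (cm x y)⁻¹ := by unfold cm; group

lemma cj_of_comm {x g : G} (h : Commute x g) : cj x g = x := by
  unfold cj; rw [mul_assoc, h.eq]; group

lemma comm_of_cj {x g : G} (h : cj x g = x) : Commute x g := by
  have : x * g = g * cj x g := by rw [h]; unfold cj at h; calc
    x * g = g * (g⁻¹ * x * g) := by group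
    _ = g * x := by rw [h]
  rw [h] at this; exact this

lemma cm_eq_one {x g : G} : cm x g = 1 ↔ Commute x g := by
  constructor
  · intro h; apply comm_of_cj; rw [cj_eq, h, mul_one]
  · intro h; rw [cm_eq, cj_of_comm h]; group

lemma comm_cj {x y : G} (h : Commute x y) (g : G) : Commute (cj x g) (cj y g) := by
  show _ = _
  rw [← cj_mul, ← cj_mul, h.eq]

lemma comm_cj_of {x y g : G} (h : Commute x y) (h2 : Commute x g) : Commute x (cj y g) :=
  (h2.inv_right.mul_right h).mul_right h2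

lemma comm_cm_of {x y g : G} (h : Commute x y) (h2 : Commute x g) : Commute x (cm y g) :=
  ((h.inv_right.mul_right h2.inv_right).mul_right h).mul_right h2

lemma cj_inj {x y g : G} (h : cj x g = cj y g) : x = y := by
  have := congrArg (fun t => cj t g⁻¹) h
  simpa only [cj_cj, mul_inv_cancel, cj_one] using this

lemma Cl.symm {x y : G} (h : Cl x y) : Cl y x := by
  unfold Cl; rw [cm_swap]; exact ⟨h.2.inv_left, h.1.inv_left⟩

lemma Cl.cj {x y : G} (h : Cl x y) (g : G) : Cl (cj x g) (cj y g) := by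
  unfold Cl; rw [← cj_cm]; exact ⟨comm_cj h.1 g, comm_cj h.2 g⟩

lemma Cl.cm_inv_right {x y : G} (h : Cl x y) : cm x y⁻¹ = (cm x y)⁻¹ := by
  have : cm x y⁻¹ = Pool.Agent.MP_b7033c_al.cj (cm x y)⁻¹ y⁻¹ := by
    unfold Pool.Agent.MP_b7033c_al.cj cm; group
  rw [this, cj_of_comm h.2.inv_left.inv_right]

lemma Cl.cm_inv_left {x y : G} (h : Cl x y) : cm x⁻¹ y = (cm x y)⁻¹ := by
  rw [cm_swap, h.symm.cm_inv_right, inv_inv, cm_swap]

lemma Cl.inv_right {x y : G} (h : Cl x y) : Cl x y⁻¹ := by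
  unfold Cl; rw [h.cm_inv_right]; exact ⟨h.1.inv_left, h.2.inv_left.inv_right⟩

lemma Cl.inv_left {x y : G} (h : Cl x y) : Cl x⁻¹ y := h.symm.inv_right.symm

lemma Cl.cm_pow_left {x y : G} (h : Cl x y) (n : ℕ) : cm (x ^ n) y = cm x y ^ n := by
  rw [cm_eq, ← cj_pow, cj_eq, h.1.symm.mul_pow]; group

lemma Cl.cm_pow_right {x y : G} (h : Cl x y) (n : ℕ) : cm x (y ^ n) = cm x y ^ n := by
  rw [cm_swap, h.symm.cm_pow_left, cm_swap x y]; group

lemma Cl.pow_right {x y : G} (h : Cl x y) (n : ℕ) : Cl x (y ^ n) := by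
  unfold Cl; rw [h.cm_pow_right]; exact ⟨h.1.pow_left n, (h.2.pow_left n).pow_right n⟩

lemma Cl.cm_pow_one {x y : G} (h : Cl x y) {n : ℕ} (hx : x ^ n = 1) : cm x y ^ n = 1 := by
  rw [← h.cm_pow_left, hx]; unfold cm; group

lemma Cl.comm_cj {x y : G} (h : Cl x y) : Commute x (Pool.Agent.MP_b7033c_al.cj x y) := by
  rw [cj_eq]; exact (Commute.refl x).mul_right h.1.symm

lemma Cl.cj_inv_right {x y : G} (h : Cl x y) :
    Pool.Agent.MP_b7033c_al.cj x y⁻¹ = x * (cm x y)⁻¹ := by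
  rw [cj_eq, h.cm_inv_right]

lemma comm_of_sq {z l : G} {n : ℕ} (hn : Odd n) (hl : l ^ n = 1) (h : Commute z (l ^ 2)) :
    Commute z l := by
  obtain ⟨k, rfl⟩ := hn
  have : l = (l ^ 2) ^ (k + 1) := by
    rw [← pow_mul, show 2 * (k + 1) = (2 * k + 1) + 1 by ring, pow_succ, hl, one_mul]
  rw [this]; exact h.pow_right _

lemma Cl.line {w s : G} (h : Cl w s) :
    w * Pool.Agent.MP_b7033c_al.cj w (s ^ 2) = Pool.Agent.MP_b7033c_al.cj w s ^ 2 ∧
    Pool.Agent.MP_b7033c_al.cj w (s ^ 2) * w = Pool.Agent.MP_b7033c_al.cj w s ^ 2 := by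
  rw [cj_eq, cj_eq, h.cm_pow_right, h.1.symm.mul_pow]
  refine ⟨by rw [← mul_assoc, pow_two w], ?_⟩
  rw [mul_assoc, (h.1.pow_left 2).eq, ← mul_assoc, pow_two w]

/-- Three lines through `w`. -/
lemma lines {w u c : G} {n : ℕ} (hn : Odd n) (hu : u ^ n = 1) (hc : c ^ n = 1)
    (huc : Commute u c) (h0 : Cl w u) (h1 : Cl w (u * c)) (h2 : Cl w (u * c⁻¹)) :
    Cl w c ∧ Commute (cm w c) u ∧ Commute (cm w u) c := by
  have e1 : (u * c⁻¹) ^ 2 * c = u ^ 2 * c⁻¹ := by rw [huc.inv_right.mul_pow]; group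
  have e2 : (u * c) ^ 2 = u ^ 2 * c * c := by rw [huc.mul_pow, pow_two c, mul_assoc]
  have a0 := h0.line
  have a1 := h1.line
  have a2 := congrArg (fun t => cj t c) h2.line.1
  have a3 := congrArg (fun t => cj t c) h2.line.2
  have a4 := congrArg (fun t => cj t c) h0.line.1
  simp only [cj_mul, cj_cj, ← cj_pow, e1, inv_mul_cancel_right] at a2 a3 a4
  rw [e2] at a1
  set k := cm w c with hk
  set k' := cj w c * w⁻¹ with hk'
  have b1 : cj k' (u ^ 2 * c⁻¹) = k := by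
    have e : c * (u ^ 2 * c⁻¹) = u ^ 2 := by rw [← mul_assoc, ← (huc.pow_left 2).eq]; group
    rw [hk', cj_mul, cj_inv, cj_cj, e, hk, cm_eq]
    have := a0.1.trans a2.symm
    calc cj w (u ^ 2) * (cj w (u ^ 2 * c⁻¹))⁻¹
        = w⁻¹ * (w * cj w (u ^ 2)) * (cj w (u ^ 2 * c⁻¹))⁻¹ := by group
      _ = _ := by rw [this]; group
  have b2 : cj k' (u ^ 2 * c) = k := by
    have e : c * (u ^ 2 * c) = u ^ 2 * c * c := by rw [← mul_assoc, ← (huc.pow_left 2).eq]
    rw [hk', cj_mul, cj_inv, cj_cj, e, hk, cm_eq]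
    have := a1.1.trans a4.symm
    calc cj w (u ^ 2 * c * c) * (cj w (u ^ 2 * c))⁻¹
        = w⁻¹ * (w * cj w (u ^ 2 * c * c)) * (cj w (u ^ 2 * c))⁻¹ := by group
      _ = _ := by rw [this]; group
  have b3 : cj k (u ^ 2 * c⁻¹) = k' := by
    have e : c * (u ^ 2 * c⁻¹) = u ^ 2 := by rw [← mul_assoc, ← (huc.pow_left 2).eq]; group
    rw [hk, cm_eq, cj_mul, cj_inv, cj_cj, e, hk']
    have := a0.2.trans a3.symm
    calc (cj w (u ^ 2 * c⁻¹))⁻¹ * cj w (u ^ 2)
        = (cj w (u ^ 2 * c⁻¹))⁻¹ * (cj w (u ^ 2) * w) * w⁻¹ := by group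
      _ = _ := by rw [this]; group
  have kc : Commute k c := by
    apply comm_of_sq hn hc
    apply comm_of_cj
    calc cj k (c ^ 2) = cj (cj k' (u ^ 2 * c⁻¹)) (c ^ 2) := by rw [b1]
      _ = cj k' (u ^ 2 * c) := by rw [cj_cj]; congr 1; group
      _ = k := b2
  have ku : Commute k u := by
    apply comm_of_sq hn hu
    apply comm_of_sq hn (by rw [← pow_mul, mul_comm, pow_mul, hu, one_pow])
    have h3 : Commute k ((u ^ 2 * c⁻¹) ^ 2) := by
      apply comm_of_cj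
      rw [pow_two, ← cj_cj, b3, b1]
    rw [(huc.pow_left 2).inv_right.mul_pow] at h3
    have h4 := h3.mul_right (kc.pow_right 2)
    have e : (u ^ 2) ^ 2 * c⁻¹ ^ 2 * c ^ 2 = (u ^ 2) ^ 2 := by group
    rwa [e] at h4
  have kw : Commute k w := by
    rw [cj_of_comm ((ku.pow_right 2).mul_right kc.inv_right), hk', cj_eq, ← hk] at b3
    show k * w = w * k
    calc k * w = (w * k * w⁻¹) * w := by rw [← b3]
      _ = w * k := by group
  refine ⟨⟨kw, kc⟩, ku, ?_⟩
  apply comm_of_cj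
  have e : cj (cm w u) c = cj (cm w u) k := by
    rw [cj_cm, cj_of_comm huc, cj_eq w c, ← hk, cm_eq, cj_mul, cj_of_comm ku, cm_eq w u]
    unfold cj; group
  rw [e, cj_of_comm (comm_cm_of kw ku).symm]

end Pool.Agent.MP_b7033c_al

end

section

set_option autoImplicit false

namespace Pool.Agent.MP_b7033c_al

variable {G : Type*} [Group G]

lemma cm_mul_left (x y z : G) : cm (x * y) z = cj (cm x z) y * cm y z := by unfold cj cm; group

lemma cm_mul_right (x y z : G) : cm x (y * z) = cm x y * cm (cj x y) z := by unfold cj cm; group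

lemma cm_mul_right' (x y z : G) : cm x (y * z) = cm x z * cj (cm x y) z := by unfold cj cm; group

lemma hall_witt (x y z : G) :
    cj (cm (cm x y⁻¹) z) y * cj (cm (cm y z⁻¹) x) z * cj (cm (cm z x⁻¹) y) x = 1 := by
  unfold cj cm; group

/-- Commutators of elements of `X` that generate a group of class two with every element of `X`. -/
def Pc (X : Set G) : Set G :=
  {c | ∃ u ∈ X, ∃ v ∈ X, Cl u v ∧ c = cm u v ∧ ∀ w ∈ X, Cl w c}

/-- Sandwich sets of exponent dividing `n`. -/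
structure Sw (n : ℕ) (S : Set G) : Prop where
  conj : ∀ s ∈ S, ∀ g, cj s g ∈ S
  inv : ∀ s ∈ S, s⁻¹ ∈ S
  pow : ∀ s ∈ S, s ^ n = 1
  cl : ∀ s ∈ S, ∀ t ∈ S, Cl s t

lemma lines' {w u v : G} {n : ℕ} (hn : Odd n) (hu : u ^ n = 1) (h : Cl u v) (h0 : Cl w u)
    (h1 : Cl w (cj u v)) (h2 : Cl w (cj u v⁻¹)) :
    Cl w (cm u v) ∧ Commute (cm w (cm u v)) u ∧ Commute (cm w u) (cm u v) :=
  lines hn hu (h.cm_pow_one hu) h.1.symm h0 (cj_eq u v ▸ h1) (h.cj_inv_right ▸ h2)

lemma sw_Pc {n : ℕ} (hn : Odd n) {X : Set G} (hc : ∀ s ∈ X, ∀ g, cj s g ∈ X)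
    (hp : ∀ s ∈ X, s ^ n = 1) : Sw n (Pc X) where
  conj := by
    rintro _ ⟨u, hu, v, hv, h, rfl, H⟩ g
    refine ⟨_, hc u hu g, _, hc v hv g, h.cj g, cj_cm u v g, fun w hw => ?_⟩
    have := (H _ (hc w hw g⁻¹)).cj g
    rwa [cj_cj, inv_mul_cancel, cj_one] at this
  inv := by
    rintro _ ⟨u, hu, v, hv, h, rfl, H⟩
    exact ⟨v, hv, u, hu, h.symm, (cm_swap u v).symm, fun w hw => (H w hw).inv_right⟩
  pow := by
    rintro _ ⟨u, hu, v, hv, h, rfl, H⟩
    exact h.cm_pow_one (hp u hu)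
  cl := by
    rintro s ⟨-, -, -, -, -, -, H⟩ _ ⟨u, hu, v, hv, h, rfl, -⟩
    exact (lines' hn (hp u hu) h (H u hu).symm (H _ (hc u hu v)).symm (H _ (hc u hu _)).symm).1

variable {n : ℕ} {S : Set G}

lemma Sw.lines (H : Sw n S) (hn : Odd n) {w u v : G} (hw : w ∈ S) (hu : u ∈ S) (hv : v ∈ S) :
    Cl w (cm u v) ∧ Commute (cm w (cm u v)) u ∧ Commute (cm w u) (cm u v) :=
  lines' hn (H.pow u hu) (H.cl u hu v hv) (H.cl w hw u hu) (H.cl w hw _ (H.conj u hu v))
    (H.cl w hw _ (H.conj u hu _))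

/-- Commutators sharing an entry commute. -/
lemma Sw.share (H : Sw n S) (hn : Odd n) {w u v : G} (hw : w ∈ S) (hu : u ∈ S) (hv : v ∈ S) :
    Commute (cm w u) (cm v u) := by
  rw [cm_swap u v]; exact (H.lines hn hw hu hv).2.2.inv_right

lemma Sw.cm_mem (H : Sw n S) (hn : Odd n) {u v : G} (hu : u ∈ S) (hv : v ∈ S) :
    cm u v ∈ S ∪ Pc S :=
  Or.inr ⟨u, hu, v, hv, H.cl u hu v hv, rfl, fun _ hw => (H.lines hn hw hu hv).1⟩

lemma Sw.step (H : Sw n S) (hn : Odd n) : Sw n (S ∪ Pc S) := by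
  have P := sw_Pc hn H.conj H.pow
  refine ⟨?_, ?_, ?_, ?_⟩
  · rintro s (h | h) g
    exacts [Or.inl (H.conj s h g), Or.inr (P.conj s h g)]
  · rintro s (h | h)
    exacts [Or.inl (H.inv s h), Or.inr (P.inv s h)]
  · rintro s (h | h)
    exacts [H.pow s h, P.pow s h]
  · rintro s (h | h) t (h' | h')
    · exact H.cl s h t h'
    · obtain ⟨-, -, -, -, -, -, K⟩ := h'
      exact K s h
    · obtain ⟨-, -, -, -, -, -, K⟩ := h
      exact (K t h').symm
    · exact P.cl s h t h'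

/-- The facts about three elements of a sandwich set. -/
structure Tri (w a b : G) : Prop where
  ar : Commute (cm w a) (cm (cj w a) b)
  wr : Commute w (cm (cj w a) b)
  ga : Commute (cm (cm w a) b) a
  gw : Commute (cm (cm w a) b) w
  gr : Commute (cm (cm w a) b) (cm (cj w a) b)
  wd : Commute w (cm (cm (cj w a) b) a)
  z : cm (cm w (a * b)) (a * b) = cm (cm w a) b * cm (cm (cj w a) b) a
  d : cm (cm (cj w a) b) a = cm (cm w b) a

lemma Sw.ga (H : Sw n S) (hn : Odd n) {w a b : G} (hw : w ∈ S) (ha : a ∈ S) (hb : b ∈ S) :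
    Commute (cm (cm w a) b) a := by
  have K := H.step hn
  have hα := H.cm_mem hn hw ha
  apply comm_of_cj
  have e : cj b a = (cm a b)⁻¹ * b := by
    rw [cj_eq, cm_swap a b, (H.cl a ha b hb).2.inv_left.eq]
  rw [cj_cm, cj_of_comm (H.cl w hw a ha).2, e, cm_mul_right',
    cm_eq_one.2 (H.lines hn hw ha hb).2.2.inv_right]
  unfold cj; group

lemma Sw.tri (H : Sw n S) (hn : Odd n) {w a b : G} (hw : w ∈ S) (ha : a ∈ S) (hb : b ∈ S) :
    Tri w a b := by
  have K := H.step hn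
  have hα := H.cm_mem hn hw ha
  have hwa := H.conj w hw a
  have hρ := H.cm_mem hn hwa hb
  have wa := H.cl w hw a ha
  have ab := H.cl a ha b hb
  have wab := H.cl _ hwa b hb
  have αb := K.cl _ hα b (Or.inl hb)
  have ga := H.ga hn hw ha hb
  have gw : Commute (cm (cm w a) b) w := by
    have := (H.ga hn ha hw hb).inv_left
    rwa [cm_swap w a, αb.cm_inv_left, inv_inv] at this
  have βα : Commute (cm w b) (cm w a) := by
    rw [cm_swap b w]; exact (H.lines hn hb hw ha).2.2.inv_left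
  have gβ : Commute (cm (cm w a) b) (cm w b) := K.share hn hα (Or.inl hb) (Or.inl hw)
  have hr : cm (cj w a) b = cm w b * cm (cm w a) b := by
    rw [cj_eq, cm_mul_left, cj_of_comm βα]
  have wr : Commute w (cm (cj w a) b) := by
    rw [hr]; exact (H.cl w hw b hb).1.symm.mul_right gw.symm
  have ar : Commute (cm w a) (cm (cj w a) b) := by
    rw [hr]; exact βα.symm.mul_right αb.1.symm
  have gr : Commute (cm (cm w a) b) (cm (cj w a) b) := K.share hn hα (Or.inl hb) (Or.inl hwa)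
  refine ⟨ar, wr, ga, gw, gr, ?_, ?_, ?_⟩
  · rw [cm_eq]
    refine wr.inv_right.mul_right ?_
    have h1 : Commute (cj w a⁻¹) (cm (cj w a) b) := by
      rw [wa.cj_inv_right]; exact wr.mul_left ar.inv_left
    have := comm_cj h1 a
    rwa [cj_cj, inv_mul_cancel, cj_one] at this
  · have e : a * b = b * cm a b * a := by
      rw [mul_assoc, ab.1.eq]; unfold cm
      have := ab.2.eq; have h2 := ab.1.eq
      unfold cm at this h2
      calc a * b = b * a * (a⁻¹ * b⁻¹ * a * b) := by group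
        _ = _ := by group
    have e2 : cj (cm (cj w a) b) (a * b) = cj (cm (cj w a) b) a := by
      rw [e, ← cj_cj, ← cj_cj, cj_of_comm wab.2, cj_of_comm (H.share hn hwa hb ha)]
    rw [cm_eq, cm_mul_right, cj_mul, e2, ← cj_cj, cj_of_comm wa.2, cj_eq (cm w a) b,
      cj_eq (cm (cj w a) b) a, mul_assoc (cm w a), ← mul_assoc (cm (cm w a) b), gr.eq]
    group
  · rw [hr, cm_mul_left, cm_eq_one.2 ga, mul_one, cj_of_comm (comm_cm_of gβ ga).symm]

lemma reduce {w₁ w₂ y : G} (h : Commute (cm (w₁ * w₂) y) y) (h1 : Commute w₂ (cm w₂ y))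
    (h2 : Commute w₂ (cm (cm w₂ y) y)) (h3 : Commute (cm w₂ y) (cm (cm w₂ y) y)) :
    cj (cm w₁ y * cm (cm w₁ y) y) (cm w₂ y) = cm w₁ y * (cm (cm w₂ y) y)⁻¹ := by
  have e := cj_of_comm h
  rw [cm_mul_left, cj_mul, cj_cj, cj_eq (cm w₂ y) y] at e
  have e2 : cj (cm w₁ y) (w₂ * y) = cj (cm w₁ y * cm (cm w₁ y) y) (w₂ * cm w₂ y) := by
    rw [← cj_eq, ← cj_eq, cj_cj]; congr 1; unfold cj; group
  apply cj_inj (g := w₂)
  rw [cj_cj, ← h1.eq, ← e2, cj_mul, cj_of_comm h2.symm.inv_left]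
  rw [h3.eq, ← mul_assoc] at e
  rw [← mul_right_cancel e]; group

lemma Sw.zero (H : Sw n S) (hn : Odd n) {a b w v : G} (ha : a ∈ S) (hb : b ∈ S) (hw : w ∈ S)
    (hv : v ∈ S) (h1 : Commute (cm (w * v) (a * b)) (a * b))
    (h2 : Commute (cm (w * v⁻¹) (a * b⁻¹)) (a * b⁻¹)) :
    cm (cm w a) b * cm (cm w b) a = 1 := by
  have K := H.step hn
  have mem : ∀ {x y : G}, x ∈ S → y ∈ S → cm x y ∈ S ∪ Pc S := H.cm_mem hn
  have red : ∀ {v b : G}, v ∈ S → b ∈ S → Commute (cm (w * v) (a * b)) (a * b) →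
      cj (cm w a * cm (cj w a) b * (cm (cm w a) b * cm (cm (cj w a) b) a))
        (cm v a * cm (cj v a) b) =
      cm w a * cm (cj w a) b * (cm (cm v a) b * cm (cm (cj v a) b) a)⁻¹ := by
    intro v b hv hb h
    have T := H.tri hn hv ha hb
    have c1 := K.cl _ (mem hv ha) b (Or.inl hb)
    have c2 := K.cl _ (mem (H.conj v hv a) hb) a (Or.inl ha)
    have := reduce h (by rw [cm_mul_right]; exact (H.cl v hv a ha).1.symm.mul_right T.wr)
      (by rw [T.z]; exact T.gw.symm.mul_right T.wd)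
      (by
        rw [T.z, cm_mul_right]
        exact (c1.1.symm.mul_right (comm_cm_of T.ar (H.cl v hv a ha).2)).mul_left
          (T.gr.symm.mul_right c2.1.symm))
    rwa [T.z, (H.tri hn hw ha hb).z, cm_mul_right, cm_mul_right] at this
  have r1 := red hv hb h1
  have r2 := red (H.inv v hv) (H.inv b hb) h2
  have T := H.tri hn hw ha hb
  have hwa := H.conj w hw a
  have hva := H.conj v hv a
  have αb := K.cl _ (mem hw ha) b (Or.inl hb)
  have ρa := K.cl _ (mem hwa hb) a (Or.inl ha)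
  have lb := K.cl _ (mem hv ha) b (Or.inl hb)
  have τa := K.cl _ (mem hva hb) a (Or.inl ha)
  have ρl := K.cl _ (mem hwa hb) _ (mem hv ha)
  have gd : Commute (cm (cm w a) b) (cm (cm (cj w a) b) a) := comm_cm_of T.gr T.ga
  rw [cj_inv, (H.cl v hv a ha).cm_inv_left, (H.cl _ hwa b hb).cm_inv_right,
    (H.cl _ hva b hb).inv_right.cm_inv_left, (H.cl _ hva b hb).cm_inv_right, inv_inv,
    αb.cm_inv_right, ρa.cm_inv_left, lb.inv_right.cm_inv_left, lb.cm_inv_right, inv_inv,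
    ← mul_inv_rev, ← gd.eq] at r2
  have zn : (cm (cm w a) b * cm (cm (cj w a) b) a) ^ n = 1 := by
    rw [gd.mul_pow, αb.cm_pow_one (K.pow _ (mem hw ha)), ρa.cm_pow_one (K.pow _ (mem hwa hb)),
      one_mul]
  have ln := K.pow _ (mem hv ha)
  have αl : Commute (cm w a) (cm v a) := H.share hn hw ha hv
  have ρτ : Commute (cm (cj w a) b) (cm (cj v a) b) := H.share hn hwa hb hva
  have lτ := (H.tri hn hv ha hb).ar
  have αρ := T.ar
  rw [← T.d]
  generalize cm (cm w a) b * cm (cm (cj w a) b) a = z at *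
  generalize cm (cm v a) b * cm (cm (cj v a) b) a = ζ at *
  generalize cm w a = α at *
  generalize cm v a = l at *
  generalize cm (cj w a) b = ρ at *
  generalize cm (cj v a) b = τ at *
  have ηρ : Commute (cm α τ) ρ := (comm_cm_of αρ.symm ρτ).symm
  have s1 : cj α (l * τ) = α * cm α τ := by rw [← cj_cj, cj_of_comm αl, cj_eq]
  have s2 : cj α (l⁻¹ * τ) = α * cm α τ := by rw [← cj_cj, cj_of_comm αl.inv_right, cj_eq]
  have s3 : cj ρ (l * τ) = ρ * cm ρ l := by rw [lτ.eq, ← cj_cj, cj_of_comm ρτ, cj_eq]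
  have s4 : cj ρ⁻¹ (l⁻¹ * τ) = ρ⁻¹ * cm ρ l := by
    rw [lτ.inv_left.eq, ← cj_cj, cj_of_comm ρτ.inv_left, cj_eq, ρl.inv_right.cm_inv_left,
      ρl.cm_inv_right, inv_inv]
  rw [cj_mul, cj_mul, s1, s3, mul_assoc α, ← mul_assoc (cm α τ), ηρ.eq] at r1
  rw [cj_mul, cj_mul, s2, s4, mul_assoc α, ← mul_assoc (cm α τ), ηρ.inv_right.eq] at r2
  have t1 : cm α τ * cm ρ l * cj z (l * τ) = ζ⁻¹ := by
    apply mul_left_cancel (a := α * ρ); rw [← r1]; group
  have t2 : cm α τ * cm ρ l * cj z⁻¹ (l⁻¹ * τ) = ζ⁻¹ := by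
    apply mul_left_cancel (a := α * ρ⁻¹); rw [← r2]; group
  have t3 := mul_left_cancel (t1.trans t2.symm)
  rw [← cj_cj, ← cj_cj] at t3
  have t4 : cj z (l ^ 2) = z⁻¹ := by
    rw [pow_two, ← cj_cj, cj_inj t3, cj_cj, inv_mul_cancel, cj_one]
  have t5 : Commute z l := by
    apply comm_of_sq hn ln
    apply comm_of_sq hn (by rw [← pow_mul, mul_comm, pow_mul, ln, one_pow])
    apply comm_of_cj
    rw [pow_two, ← cj_cj, t4, cj_inv, t4, inv_inv]
  rw [cj_of_comm (t5.pow_right 2)] at t4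
  obtain ⟨k, rfl⟩ := hn
  have t6 : z ^ 2 = 1 := by rw [pow_two]; nth_rewrite 1 [t4]; exact inv_mul_cancel z
  rwa [pow_succ, pow_mul, t6, one_pow, one_mul] at zn

lemma Sw.cube (H : Sw n S) (hn : Odd n) {a b w : G} (ha : a ∈ S) (hb : b ∈ S) (hw : w ∈ S)
    (h1 : cm (cm w a) b * cm (cm w b) a = 1) (h2 : cm (cm a w) b * cm (cm a b) w = 1) :
    cm (cm w a) b ^ 3 = 1 ∧ cm (cm w a) b ^ n = 1 := by
  have K := H.step hn
  have T := H.tri hn hw ha hb
  have αb := K.cl _ (H.cm_mem hn hw ha) b (Or.inl hb)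
  have cw := K.cl _ (H.cm_mem hn ha hb) w (Or.inl hw)
  refine ⟨?_, αb.cm_pow_one (K.pow _ (H.cm_mem hn hw ha))⟩
  have e := hall_witt w a b
  rw [cm_swap w a, αb.cm_inv_left, inv_mul_eq_one] at h2
  rw [(H.cl w hw a ha).cm_inv_right, αb.cm_inv_left, (H.cl a ha b hb).cm_inv_right, cw.cm_inv_left,
    ← h2, (H.cl b hb w hw).cm_inv_right, ← cm_swap b w, ← inv_eq_of_mul_eq_one_right h1,
    cj_of_comm T.ga.inv_left, cj_of_comm αb.2.inv_left, cj_of_comm T.gw.inv_left] at e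
  rw [← inv_inj, ← inv_pow, pow_succ, pow_two, e, inv_one]

end Pool.Agent.MP_b7033c_al

end

section

set_option autoImplicit false

namespace Pool.Agent.MP_b7033c_al

variable {G : Type*} [Group G]

/-- The properties of the kernel that are used; they pass to quotients. -/
structure Hyp (F : Subgroup G) : Prop where
  normal : F.Normal
  per : ∀ x ∈ F, IsOfFinOrder x
  split : ∀ x ∈ F, x ∈ Subgroup.closure {t | ∃ g, g ∉ F ∧ t = cj x g}
  cls : ∀ x ∈ F, ∀ g, g ∉ F → Commute (cm x (cj x g)) x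

variable {F : Subgroup G}

lemma Hyp.cj_mem (H : Hyp F) {x : G} (hx : x ∈ F) (g : G) : cj x g ∈ F := by
  have := H.normal.conj_mem x hx g⁻¹
  rwa [inv_inv] at this

lemma Hyp.cm_mem (H : Hyp F) {x : G} (hx : x ∈ F) (g : G) : cm x g ∈ F := by
  rw [cm_eq]; exact F.mul_mem (F.inv_mem hx) (H.cj_mem hx g)

lemma Hyp.cl (H : Hyp F) {x g : G} (hx : x ∈ F) (hg : g ∉ F) : Cl x (cj x g) := by
  refine ⟨H.cls x hx g hg, ?_⟩
  have := H.cls _ (H.cj_mem hx g) g⁻¹ (fun h => hg (by simpa using F.inv_mem h))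
  rw [cj_cj, mul_inv_cancel, cj_one, cm_swap] at this
  simpa using this.inv_left

lemma Hyp.comm (H : Hyp F) {x : G} (hx : x ∈ F) (h : ∀ g, g ∉ F → Commute x (cj x g))
    {f : G} (hf : f ∈ F) : Commute x (cj x f) := by
  have : Subgroup.closure {t | ∃ g, g ∉ F ∧ t = cj x g} ≤ Subgroup.centralizer {cj x f} := by
    rw [Subgroup.closure_le]
    rintro _ ⟨g, hg, rfl⟩
    have h1 := comm_cj (h (g * f⁻¹) fun h2 => hg (by simpa using F.mul_mem h2 hf)) f
    rw [cj_cj, inv_mul_cancel_right] at h1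
    exact Subgroup.mem_centralizer_singleton_iff.2 h1.symm
  exact Subgroup.mem_centralizer_singleton_iff.1 (this (H.split x hx))

section NC

variable (H : Hyp F) (N : ∀ x ∈ F, (∀ f ∈ F, Commute x (cj x f)) → x = 1)
include H N

lemma Hyp.sq {y : G} (hy : y ∈ F) {n : ℕ} (h : (y ^ n) ^ n = 1) : y ^ n = 1 := by
  refine N _ (F.pow_mem hy n) fun f hf => H.comm (F.pow_mem hy n) (fun g hg => ?_) hf
  have c := H.cl hy hg
  rw [← cm_eq_one, ← cj_pow, (c.symm.pow_right n).symm.cm_pow_right,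
    (c.symm.pow_right n).symm.cm_pow_one h]

lemma Hyp.two {x : G} (hx : x ∈ F) (h : x ^ 2 = 1) : x = 1 := by
  refine N _ hx fun f hf => H.comm hx (fun g hg => ?_) hf
  have c := H.cl hx hg
  have h2 : cj x g ^ 2 = 1 := by rw [cj_pow, h]; simp [cj]
  have e : (x * cj x g) ^ 2 = cm x (cj x g) := by
    rw [pow_two] at h h2
    unfold cm
    rw [inv_eq_of_mul_eq_one_right h, inv_eq_of_mul_eq_one_right h2, pow_two]; group
  rw [← cm_eq_one, ← e]
  exact H.sq N (F.mul_mem hx (H.cj_mem hx g)) (by rw [e, c.cm_pow_one h])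

lemma Hyp.sw {n : ℕ} (hn : Odd n) (h3 : Nat.Coprime 3 n) {S : Set G} (hS : Sw n S)
    (hF : S ⊆ F) {a : G} (ha : a ∈ S) : a = 1 := by
  have K := hS.step hn
  have hK : S ∪ Pc S ⊆ F := by
    rintro s (h | ⟨u, hu, v, -, -, rfl, -⟩)
    exacts [hF h, H.cm_mem (hF hu) v]
  have key : ∀ a ∈ S ∪ Pc S, ∀ b ∈ S ∪ Pc S, ∀ g, g ∉ F →
      cm (cm (cj a g) a) b * cm (cm (cj a g) b) a = 1 := by
    intro a ha b hb g hg
    refine K.zero hn ha hb (K.conj a ha g) (K.conj b hb g) ?_ ?_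
    · rw [← cj_mul]; exact (H.cl (F.mul_mem (hK ha) (hK hb)) hg).symm.2
    · rw [← cj_inv, ← cj_mul]; exact (H.cl (F.mul_mem (hK ha) (F.inv_mem (hK hb))) hg).symm.2
  refine N a (hF ha) fun f hf => H.comm (hF ha) (fun g hg => ?_) hf
  have hd := hS.cm_mem hn (hS.conj a ha g) ha
  refine (cm_eq_one.1 (N _ (hK hd) fun f _ => cm_eq_one.1 ?_)).symm
  have hb := K.conj _ hd f
  have h2 := key _ (Or.inl (hS.conj a ha g)) _ hb g⁻¹ (fun h => hg (by simpa using F.inv_mem h))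
  rw [cj_cj, mul_inv_cancel, cj_one] at h2
  have := K.cube hn (Or.inl ha) hb (Or.inl (hS.conj a ha g)) (key a (Or.inl ha) _ hb g hg) h2
  have h4 := pow_gcd_eq_one.2 this
  rwa [h3, pow_one] at h4

lemma Hyp.big {n : ℕ} (hn : Odd n) (h3 : Nat.Coprime 3 n) {x : G} (hx : x ∈ F)
    (h : x ^ n = 1) : x = 1 := by
  let X : Set G := {t | ∃ g, t = cj x g}
  have hc : ∀ s ∈ X, ∀ g, cj s g ∈ X := by
    rintro _ ⟨k, rfl⟩ g; exact ⟨_, cj_cj x k g⟩
  have hp : ∀ s ∈ X, s ^ n = 1 := by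
    rintro _ ⟨k, rfl⟩; rw [cj_pow, h]; simp [cj]
  have hF : Pc X ⊆ F := by
    rintro _ ⟨_, ⟨k, rfl⟩, v, -, -, rfl, -⟩
    exact H.cm_mem (H.cj_mem hx k) v
  have cross : ∀ k l, k⁻¹ * l ∉ F → Cl (cj x k) (cj x l) := fun k l hk => by
    have := H.cl (H.cj_mem hx k) hk
    rwa [cj_cj, mul_inv_cancel_left] at this
  have L : ∀ k l m, k⁻¹ * l ∉ F → m⁻¹ * k ∉ F → Cl (cj x m) (cm (cj x k) (cj x l)) := by
    intro k l m h1 h2
    have hv := H.cj_mem hx l
    refine (lines' hn (hp _ ⟨k, rfl⟩) (cross k l h1) (cross m k h2) ?_ ?_).1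
    · rw [cj_cj]
      exact cross _ _ fun h4 => h2 (by simpa [mul_assoc] using F.mul_mem h4 (F.inv_mem hv))
    · rw [cj_cj]
      exact cross _ _ fun h4 => h2 (by simpa [mul_assoc] using F.mul_mem h4 hv)
  refine N x hx fun f hf => H.comm hx (fun g hg => cm_eq_one.1 ?_) hf
  refine H.sw N hn h3 (sw_Pc hn hc hp) hF
    ⟨x, ⟨1, (cj_one x).symm⟩, _, ⟨g, rfl⟩, H.cl hx hg, rfl, ?_⟩
  rintro _ ⟨m, rfl⟩
  by_cases hm : m ∈ F
  · have := L g 1 m (fun h4 => hg (by simpa using F.inv_mem h4))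
      (fun h4 => hg (by simpa using F.mul_mem hm h4))
    rw [cj_one, cm_swap] at this
    simpa using this.inv_right
  · have := L 1 g m (by simpa using hg) (by simpa using hm)
    rwa [cj_one] at this

lemma Hyp.three {x : G} (hx : x ∈ F) : x ^ 3 = 1 := by
  have h0 : orderOf x ≠ 0 := (H.per x hx).orderOf_pos.ne'
  have h1 : ∀ {q : ℕ}, q.Prime → q ∣ orderOf x → q = 3 := by
    intro q hq hd
    by_contra h3
    have ho := orderOf_pow_orderOf_div h0 hd
    have hp : (x ^ (orderOf x / q)) ^ q = 1 := by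
      have := pow_orderOf_eq_one (x ^ (orderOf x / q))
      rwa [ho] at this
    have : x ^ (orderOf x / q) = 1 := by
      rcases hq.eq_two_or_odd' with rfl | hodd
      · exact H.two N (F.pow_mem hx _) hp
      · exact H.big N hodd ((Nat.coprime_primes Nat.prime_three hq).2 (Ne.symm h3))
          (F.pow_mem hx _) hp
    rw [this, orderOf_one] at ho
    exact hq.one_lt.ne ho
  have h2 := Nat.eq_prime_pow_of_unique_prime_dvd h0 h1
  have h4 : ∀ j : ℕ, ∀ y ∈ F, y ^ 3 ^ j = 1 → y ^ 3 = 1 := by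
    intro j
    induction j with
    | zero => intro y _ h; rw [pow_zero, pow_one] at h; rw [h, one_pow]
    | succ j ih =>
      intro y hy h
      rw [pow_succ', pow_mul] at h
      exact H.sq N hy (ih _ (F.pow_mem hy 3) h)
  exact h4 _ x hx (by rw [← h2, pow_orderOf_eq_one])

lemma Hyp.triv {x : G} (hx : x ∈ F) : x = 1 := by
  refine N x hx fun f hf => ?_
  have h1 := H.three N (F.mul_mem hx hf)
  have h2 := H.three N (F.mul_mem hx (F.inv_mem hf))
  have h3 := H.three N hf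
  have e : ∀ {f : G}, (x * f) ^ 3 = 1 → x * f * x = f⁻¹ * x⁻¹ * f⁻¹ := fun {f} h => by
    calc x * f * x = (x * f) ^ 3 * (f⁻¹ * x⁻¹ * f⁻¹) := by rw [pow_succ, pow_two]; group
      _ = _ := by rw [h, one_mul]
  have e3 : f * f = f⁻¹ := eq_inv_of_mul_eq_one_left (by rw [← h3, pow_succ, pow_two])
  have e4 : f⁻¹ * f⁻¹ = f := by rw [← mul_inv_rev, e3, inv_inv]
  calc x * cj x f = (x * f⁻¹ * x) * f := by unfold cj; group
    _ = f * x⁻¹ * (f * f) := by rw [e h2]; group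
    _ = (f⁻¹ * f⁻¹) * x⁻¹ * f⁻¹ := by rw [e3, e4]
    _ = f⁻¹ * (x * f * x) := by rw [e h1]; group
    _ = cj x f * x := by unfold cj; group

end NC

end Pool.Agent.MP_b7033c_al

end

section

set_option autoImplicit false

namespace Pool.Agent.MP_b7033c_al

open Subgroup

variable {G : Type*} [Group G]

/-- locally finite subgroups -/
def LF (H : Subgroup G) : Prop := ∀ s : Set G, s.Finite → s ⊆ H → Finite (closure s)

lemma LF.sup {H K : Subgroup G} (hH : LF H) (hK : LF K) (hn : ∀ h ∈ H, ∀ k ∈ K, cj k h ∈ K) :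
    ∃ M : Subgroup G, (∀ x, x ∈ M ↔ ∃ h ∈ H, ∃ k ∈ K, x = h * k) ∧ LF M := by
  have mk : ∀ H K : Subgroup G, (∀ h ∈ H, ∀ k ∈ K, cj k h ∈ K) →
      ∃ M : Subgroup G, ∀ x, x ∈ M ↔ ∃ h ∈ H, ∃ k ∈ K, x = h * k := by
    intro H K hn
    refine ⟨⟨⟨⟨{x | ∃ h ∈ H, ∃ k ∈ K, x = h * k}, ?_⟩, 1, H.one_mem, 1, K.one_mem, by simp⟩, ?_⟩,
      fun x => Iff.rfl⟩
    · rintro _ _ ⟨h, hh, k, hk, rfl⟩ ⟨h', hh', k', hk', rfl⟩
      exact ⟨_, H.mul_mem hh hh', _, K.mul_mem (hn h' hh' k hk) hk', by unfold cj; group⟩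
    · rintro _ ⟨h, hh, k, hk, rfl⟩
      exact ⟨_, H.inv_mem hh, _, hn _ (H.inv_mem hh) _ (K.inv_mem hk), by unfold cj; group⟩
  obtain ⟨M, hM⟩ := mk H K hn
  refine ⟨M, hM, fun s hs hsM => ?_⟩
  choose! f hf g hg e using fun x hx => (hM x).1 (hsM hx : x ∈ M)
  have h1 := hH (f '' s) (hs.image f) (by rintro _ ⟨x, hx, rfl⟩; exact hf x hx)
  have h1' : closure (f '' s) ≤ H := (closure_le _).2 (by rintro _ ⟨x, hx, rfl⟩; exact hf x hx)
  let t : Set G := Set.image2 cj (g '' s) (closure (f '' s))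
  have h2 := hK t ((hs.image g).image2 _ (Set.toFinite _)) (by
    rintro _ ⟨_, ⟨x, hx, rfl⟩, h, hh, rfl⟩; exact hn h (h1' hh) _ (hg x hx))
  obtain ⟨M₀, hM₀⟩ := mk (closure (f '' s)) (closure t) (by
    intro h hh k hk
    induction hk using closure_induction with
    | mem k hk =>
      obtain ⟨y, hy, h', hh', rfl⟩ := hk
      exact subset_closure ⟨y, hy, _, mul_mem hh' hh, (cj_cj _ _ _).symm⟩
    | one => simp [cj]
    | mul a b _ _ ha hb => rw [cj_mul]; exact mul_mem ha hb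
    | inv a _ ha => rw [cj_inv]; exact inv_mem ha)
  have h3 : (M₀ : Set G).Finite :=
    ((Set.toFinite (closure (f '' s) : Set G)).image2 (· * ·)
      (Set.toFinite (closure t : Set G))).subset fun x hx => by
        obtain ⟨h, hh, k, hk, rfl⟩ := (hM₀ x).1 hx
        exact ⟨h, hh, k, hk, rfl⟩
  have h4 : closure s ≤ M₀ := (closure_le _).2 fun x hx => (hM₀ x).2
    ⟨_, subset_closure ⟨x, hx, rfl⟩, _, subset_closure ⟨_, ⟨x, hx, rfl⟩, 1, one_mem _, cj_one _⟩,
      e x hx⟩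
  exact (h3.subset h4).to_subtype

lemma LF.comap {R : Subgroup G} [R.Normal] (hR : LF R) {A : Subgroup (G ⧸ R)} (hA : LF A) :
    LF (A.comap (QuotientGroup.mk' R)) := by
  intro s hs hsA
  have h1 := hA _ (hs.image (QuotientGroup.mk' R)) (by rintro _ ⟨x, hx, rfl⟩; exact hsA hx)
  rw [← MonoidHom.map_closure] at h1
  let φ : closure s →* G ⧸ R := (QuotientGroup.mk' R).comp (closure s).subtype
  have h2 : Finite φ.range := by
    rw [MonoidHom.range_comp, range_subtype]; exact h1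
  have h3 : φ.ker.FiniteIndex := Subgroup.finiteIndex_ker φ
  have h4 : Group.FG (closure s) := @Group.closure_finite_fg _ _ s hs.to_subtype
  have h5 : Group.FG φ.ker := Subgroup.fg_of_index_ne_zero _
  obtain ⟨t, ht, ht'⟩ := (Subgroup.fg_iff _).1 ((Group.fg_iff_subgroup_fg _).1 h5)
  have h6 := hR _ (ht'.image (closure s).subtype) (by
    rintro _ ⟨x, hx, rfl⟩
    have : x ∈ φ.ker := ht ▸ subset_closure hx
    exact (QuotientGroup.eq_one_iff _).1 this)
  rw [← MonoidHom.map_closure, ht] at h6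
  have h7 : Finite φ.ker :=
    Finite.of_equiv _ (φ.ker.equivMapOfInjective _ (closure s).subtype_injective).symm.toEquiv
  exact Finite.of_subgroup_quotient φ.ker

open scoped IsMulCommutative in
lemma lf_comm {X : Set G} (hc : ∀ x ∈ X, ∀ y ∈ X, Commute x y) (ho : ∀ x ∈ X, IsOfFinOrder x) :
    LF (closure X) := by
  intro s hs hsX
  have h1 : ∀ x ∈ closure X, ∀ y ∈ closure X, x * y = y * x := fun x hx y hy =>
    Set.centralizer_centralizer_comm_of_comm hc _ (closure_le_centralizer_centralizer X hx) _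
      (closure_le_centralizer_centralizer X hy)
  have h2 : ∀ x ∈ closure X, IsOfFinOrder x := fun x hx => by
    induction hx using closure_induction with
    | mem x hx => exact ho x hx
    | one => exact IsOfFinOrder.one
    | mul a b ha hb ha' hb' => exact Commute.isOfFinOrder_mul (h1 a ha b hb) ha' hb'
    | inv a _ ha => exact ha.inv
  have h3 := isMulCommutative_closure fun x hx y hy => h1 x (hsX hx) y (hsX hy)
  have h4 : Group.FG (closure s) := @Group.closure_finite_fg _ _ s hs.to_subtype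
  exact CommGroup.finite_of_fg_isMulTorsion (G := closure s) fun x =>
    Submonoid.isOfFinOrder_coe.1 (h2 x ((closure_le _).2 hsX x.2))

theorem Hyp.lf {F : Subgroup G} (H : Hyp F) : LF F := by
  let N : Set (Subgroup G) := {K | K ≤ F ∧ (∀ f ∈ F, ∀ k ∈ K, cj k f ∈ K) ∧ LF K}
  have hb : ⊥ ∈ N := ⟨bot_le, fun f _ k hk => by rw [mem_bot.1 hk]; simp [cj], fun s _ hs =>
    ((Set.finite_singleton 1).subset ((closure_le ⊥).2 hs)).to_subtype⟩
  have hd : DirectedOn (· ≤ ·) N := by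
    rintro A ⟨a1, a2, a3⟩ B ⟨b1, b2, b3⟩
    obtain ⟨M, hM, hM'⟩ := a3.sup b3 fun h hh => b2 h (a1 hh)
    refine ⟨M, ⟨fun x hx => ?_, fun f hf x hx => ?_, hM'⟩,
      fun x hx => (hM x).2 ⟨x, hx, 1, one_mem _, by simp⟩,
      fun x hx => (hM x).2 ⟨1, one_mem _, x, hx, by simp⟩⟩
    · obtain ⟨h, hh, k, hk, rfl⟩ := (hM x).1 hx
      exact mul_mem (a1 hh) (b1 hk)
    · obtain ⟨h, hh, k, hk, rfl⟩ := (hM x).1 hx
      exact (hM _).2 ⟨_, a2 f hf h hh, _, b2 f hf k hk, cj_mul _ _ _⟩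
  have mem : ∀ x, x ∈ sSup N ↔ ∃ K ∈ N, x ∈ K := fun x => mem_sSup_of_directedOn ⟨_, hb⟩ hd
  have hRF : sSup N ≤ F := sSup_le fun K hK => hK.1
  have hlf : LF (sSup N) := by
    intro s hs hsR
    have : ∃ K ∈ N, s ⊆ K := by
      induction s, hs using Set.Finite.induction_on with
      | empty => exact ⟨_, hb, Set.empty_subset _⟩
      | @insert x s _ _ ih =>
        obtain ⟨K, hK, hsK⟩ := ih ((Set.subset_insert _ _).trans hsR)
        obtain ⟨K', hK', hx⟩ := (mem x).1 (hsR (Set.mem_insert _ _))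
        obtain ⟨M, hM, h1, h2⟩ := hd K hK K' hK'
        exact ⟨M, hM, Set.insert_subset (h2 hx) (hsK.trans h1)⟩
    obtain ⟨K, hK, hsK⟩ := this
    exact hK.2.2 s hs hsK
  have hn : (sSup N).Normal := ⟨fun x hx g => by
    obtain ⟨K, ⟨k1, k2, k3⟩, hxK⟩ := (mem x).1 hx
    refine (mem _).2 ⟨K.map (MulAut.conj g).toMonoidHom, ⟨?_, ?_, ?_⟩, x, hxK, rfl⟩
    · rintro _ ⟨y, hy, rfl⟩; exact H.normal.conj_mem y (k1 hy) g
    · rintro f hf _ ⟨y, hy, rfl⟩
      exact ⟨_, k2 _ (H.cj_mem hf g) y hy, by simp [cj, mul_assoc]⟩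
    · intro s hs hsK
      obtain ⟨t, ht, rfl⟩ : ∃ t ⊆ (K : Set G), (MulAut.conj g).toMonoidHom '' t = s :=
        Set.subset_image_iff.1 hsK
      have := k3 t (hs.of_finite_image (MulAut.conj g).injective.injOn) ht
      rw [← MonoidHom.map_closure]
      exact Finite.of_equiv _
        ((closure t).equivMapOfInjective _ (MulAut.conj g).injective).toEquiv⟩
  let π := QuotientGroup.mk' (sSup N)
  have hπ : ∀ x g, π (cj x g) = cj (π x) (π g) := fun x g => by simp [cj]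
  have out : ∀ g, π g ∈ F.map π → g ∈ F := by
    rintro g ⟨f, hf, e⟩
    have := mul_mem hf (hRF (QuotientGroup.eq.1 e))
    simpa using this
  have Q : Hyp (F.map π) := by
    refine ⟨H.normal.map π (QuotientGroup.mk'_surjective _), ?_, ?_, ?_⟩
    · rintro _ ⟨x, hx, rfl⟩; exact π.isOfFinOrder (H.per x hx)
    · rintro _ ⟨x, hx, rfl⟩
      have := mem_map_of_mem π (H.split x hx)
      rw [MonoidHom.map_closure] at this
      refine closure_mono ?_ this
      rintro _ ⟨_, ⟨g, hg, rfl⟩, rfl⟩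
      exact ⟨π g, fun h => hg (out g h), hπ x g⟩
    · rintro _ ⟨x, hx, rfl⟩ g hg
      obtain ⟨g, rfl⟩ := QuotientGroup.mk'_surjective _ g
      have := (H.cls x hx g fun h => hg (mem_map_of_mem π h)).map π
      simpa only [cm, cj, map_mul, map_inv] using this
  have T : ∀ y ∈ F.map π, y = 1 := fun y hy => Q.triv (fun x hx hc => by
    let X : Set (G ⧸ sSup N) := {t | ∃ f ∈ F.map π, t = cj x f}
    have hX : closure X ≤ F.map π := (closure_le _).2 (by
      rintro _ ⟨f, _, rfl⟩; exact Q.cj_mem hx f)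
    have h1 : LF (closure X) := lf_comm (by
      rintro _ ⟨f, hf, rfl⟩ _ ⟨f', hf', rfl⟩
      have := comm_cj (hc _ (mul_mem hf' (inv_mem hf))) f
      rwa [cj_cj, inv_mul_cancel_right] at this) (by
      rintro _ ⟨f, _, rfl⟩; exact Q.per _ (Q.cj_mem hx f))
    have h2 : (closure X).comap π ∈ N := by
      refine ⟨fun g hg => out g (hX hg), fun f hf k hk => ?_, hlf.comap h1⟩
      rw [mem_comap, hπ]
      rw [mem_comap] at hk
      generalize π k = k' at hk
      induction hk using closure_induction with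
      | mem k hk =>
        obtain ⟨f', hf', rfl⟩ := hk
        exact subset_closure ⟨_, mul_mem hf' (mem_map_of_mem π hf), cj_cj _ _ _⟩
      | one => simp [cj]
      | mul a b _ _ ha hb => rw [cj_mul]; exact mul_mem ha hb
      | inv a _ ha => rw [cj_inv]; exact inv_mem ha
    obtain ⟨x, -, rfl⟩ := hx
    exact (QuotientGroup.eq_one_iff x).2
      (le_sSup h2 (subset_closure ⟨1, one_mem _, (cj_one _).symm⟩))) hy
  intro s hs hsF
  exact hlf s hs fun x hx => (QuotientGroup.eq_one_iff x).1 (T _ (mem_map_of_mem π (hsF hx)))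

end Pool.Agent.MP_b7033c_al

end
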