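import Pool.Agent.Mg.Fb7033cp.G6bb3f2
import Pool.Agent.Mg.Fb7033cp.G900cc2
import Pool.Agent.Mg.Fb7033cp.Ga6f301

set_option linter.all false

section

set_option autoImplicit false

namespace Pool.Agent.MP_b7033c_al.Three

open scoped Nat commutatorElement
open SumA

lemma cop_mono {m a b : ℕ} (h : m.Coprime b !) (hab : a ≤ b) : m.Coprime a ! :=
  Nat.Coprime.coprime_dvd_right (Nat.factorial_dvd_factorial hab) h

lemma gh0 {p h : ℕ} (H : Core p h) (K : Type) [Group K] [Finite K] (α : MulAut K)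
    (hn : (⊤ : Subgroup K).lowerCentralSeries (h + 2) = ⊥)
    (hc : (Nat.card K).Coprime (2 ^ (h + 2) + p * (h + 3))!)
    (hs : ∀ y, (MulAut.conj y * α) ^ p = 1) :
    (⊤ : Subgroup K).lowerCentralSeries (h + 1) = ⊥ := by
  have hg : Good (h + 2) (⊤ : Subgroup K) :=
    ⟨inferInstance, hn, by rw [Subgroup.card_top]; exact cop_mono hc (Nat.le_add_right _ _)⟩
  have key := H (h + 2) (MulAut K) _ rep ((⊤ : Subgroup K).map MulAut.conj) α (Nat.card K)
    (cop_mono hc (Nat.le_add_left _ _)) rep_card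
    (by
      rintro _ ⟨y, -, rfl⟩
      exact ⟨α y, Subgroup.mem_top _, by ext x; simp⟩)
    (by rintro _ ⟨y, -, rfl⟩; exact hs y) (by rintro _ ⟨y, -, rfl⟩; exact rep_unip hn y)
  rw [Subgroup.lowerCentralSeries_succ, eq_bot_iff, Subgroup.commutator_le]
  intro g hg' y _
  have h0 := Subgroup.mem_map_of_mem (MulAut.conj (G := K)) hg'
  rw [Subgroup.map_lowerCentralSeries] at h0
  have h1 := rep_inj hg (key _ h0)
  have h2 := DFunLike.congr_fun h1 y
  rw [MulAut.conj_apply, MulAut.one_apply] at h2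
  rw [Subgroup.mem_bot, commutatorElement_def, h2, mul_inv_cancel]

theorem gh (p h : ℕ) (H : Core p h) : GH p (h + 1) (2 ^ (h + 2) + p * (h + 3)) := by
  intro K _ _ α hnil hc hs
  let N := (⊤ : Subgroup K).lowerCentralSeries (h + 2)
  have hN : N.map α.toMonoidHom = N := by
    rw [Subgroup.map_lowerCentralSeries, Subgroup.map_top_of_surjective _ α.surjective]
  let β : MulAut (K ⧸ N) := QuotientGroup.congr N N α hN
  have hmap : ∀ k, ((⊤ : Subgroup K).lowerCentralSeries k).map (QuotientGroup.mk' N) =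
      (⊤ : Subgroup (K ⧸ N)).lowerCentralSeries k := fun k => by
    rw [Subgroup.map_lowerCentralSeries,
      Subgroup.map_top_of_surjective _ (QuotientGroup.mk'_surjective N)]
  have h1 := gh0 H (K ⧸ N) β (by rw [← hmap, Subgroup.map_eq_bot_iff, QuotientGroup.ker_mk'])
    (Nat.Coprime.coprime_dvd_left (Subgroup.card_quotient_dvd_card N) hc) (by
      intro y
      obtain ⟨y, rfl⟩ := QuotientGroup.mk_surjective y
      have : ∀ k : ℕ, ∀ x : K, ((MulAut.conj (y : K ⧸ N) * β) ^ k) (x : K ⧸ N) =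
          (((MulAut.conj y * α) ^ k) x : K) := by
        intro k
        induction k with
        | zero => intro x; rfl
        | succ k ih => intro x; rw [pow_succ, pow_succ]; exact ih ((MulAut.conj y * α) x)
      ext x
      obtain ⟨x, rfl⟩ := QuotientGroup.mk_surjective x
      rw [this, hs]; rfl)
  rw [← hmap, Subgroup.map_eq_bot_iff, QuotientGroup.ker_mk'] at h1
  have h2 : ∀ j, (⊤ : Subgroup K).lowerCentralSeries (h + 1) ≤
      (⊤ : Subgroup K).lowerCentralSeries (h + 1 + j) := by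
    intro j
    induction j with
    | zero => exact le_rfl
    | succ j ih => exact h1.trans (Subgroup.commutator_mono ih le_rfl)
  obtain ⟨k, hk⟩ := Subgroup.nilpotent_iff_lowerCentralSeries.1 hnil
  rw [eq_bot_iff, ← hk]
  exact (h2 k).trans (Subgroup.lowerCentralSeries_antitone _ (Nat.le_add_left _ _))

end Pool.Agent.MP_b7033c_al.Three

end

section

set_option autoImplicit false

namespace Pool.Agent.MP_b7033c_al.Three

namespace NilLFA

theorem finite_of_nil (G : Type) [Group G] [Group.IsNilpotent G] :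
    Group.FG G → IsMulTorsion G → Finite G := by
  refine Group.nilpotent_center_quotient_ind
    (P := fun G _ _ => Group.FG G → IsMulTorsion G → Finite G) G ?_ ?_
  · intro H _ _ _ _
    infer_instance
  · intro H _ _ ih hfg ht
    have h1 : Finite (H ⧸ Subgroup.center H) :=
      ih inferInstance (IsMulTorsion.of_surjective (QuotientGroup.mk'_surjective _) ht)
    have h2 : (Subgroup.center H).FiniteIndex := Subgroup.finiteIndex_of_finite_quotient
    have h4 : Group.FG (Subgroup.center H) := inferInstance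
    have h3 : Finite (Subgroup.center H) :=
      @CommGroup.finite_of_fg_isMulTorsion _
        { (inferInstance : Group (Subgroup.center H)) with
          mul_comm := fun a b => Subtype.ext (Subgroup.mem_center_iff.1 b.2 a.1) } h4
        (ht.subgroup _)
    exact Finite.of_subgroup_quotient (Subgroup.center H)

end NilLFA

theorem nilLF : NilLF := by
  intro G _ N n hn ht s hs hsN
  have hle : Subgroup.closure s ≤ N := (Subgroup.closure_le N).2 hsN
  have h1 : Group.IsNilpotent (Subgroup.closure s) :=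
    Subgroup.isNilpotent_of_lowerCentralSeries_eq_bot (n := n)
      (eq_bot_iff.2 (hn ▸ Subgroup.lowerCentralSeries_mono n hle))
  have h2 : Finite s := hs
  exact NilLFA.finite_of_nil _ inferInstance fun x =>
    (Subgroup.subtype_injective _).isOfFinOrder_iff.1 (ht x.1 (hle x.2))

end Pool.Agent.MP_b7033c_al.Three

end

section

set_option autoImplicit false

namespace Pool.Agent.MP_b7033c_al.Three

open scoped Nat commutatorElement

/-- The order of `y` has no prime factor up to `B`. -/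
def Big {E : Type} [Group E] (B : ℕ) (y : E) : Prop := ∃ k : ℕ, k.Coprime B ! ∧ y ^ k = 1

/-- The theorems of Thompson and Higman for large primes. -/
def FinH (p n B : ℕ) : Prop :=
  ∀ (E : Type) [Group E] (Γ : Subgroup E) (c : E), Finite Γ → (∀ y ∈ Γ, Big B y) →
    (∀ y ∈ Γ, c * y * c⁻¹ ∈ Γ) → (∀ y ∈ Γ, (y * c) ^ p = 1) → Γ.lowerCentralSeries n = ⊥

lemma card_cop {E : Type} [Group E] {B : ℕ} (Γ : Subgroup E) [Finite Γ] (h : ∀ y ∈ Γ, Big B y) :
    (Nat.card Γ).Coprime B ! := by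
  refine Nat.coprime_of_dvd fun r hr h1 h2 => ?_
  have := Fact.mk hr
  obtain ⟨y, hy⟩ := exists_prime_orderOf_dvd_card' r h1
  obtain ⟨k, hk, hy'⟩ := h y y.2
  have h3 : r ∣ k := hy ▸ orderOf_dvd_of_pow_eq_one (Subtype.ext hy')
  exact hr.one_lt.ne' (Nat.eq_one_of_dvd_coprimes hk h3 h2)

lemma Big.fpf {E : Type} [Group E] {p B : ℕ} (hp : p.Prime) (hB : p ≤ B) {y c : E} (hy : Big B y)
    (hc : c ^ p = 1) (h1 : (y * c) ^ p = 1) (h2 : c * y * c⁻¹ = y) : y = 1 := by
  obtain ⟨k, hk, hy⟩ := hy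
  have h3 : Commute y c := (mul_inv_eq_iff_eq_mul.1 h2).symm
  rw [h3.mul_pow, hc, mul_one] at h1
  have h4 := pow_gcd_eq_one.2 ⟨hy, h1⟩
  rwa [Nat.Coprime.coprime_dvd_right (Nat.dvd_factorial hp.pos hB) hk, pow_one] at h4

lemma finH {p n B : ℕ} (hp : p.Prime) (hB : p ≤ B) (h1 : GH p n B) (h2 : Tho p B) :
    FinH p n B := by
  intro E _ Γ c hf hb hc hs
  have hcp : c ^ p = 1 := by simpa using hs 1 Γ.one_mem
  have hn : c ∈ Subgroup.normalizer (Γ : Set E) := Subgroup.mem_normalizer_fintype hc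
  let α := Γ.normalizerMonoidHom ⟨c, hn⟩
  have hcard := card_cop Γ hb
  have hnil := h2 Γ α hcard (by
      rw [← map_pow, ← map_one Γ.normalizerMonoidHom]; exact congrArg _ (Subtype.ext hcp))
    fun y hy => Subtype.ext ((hb y y.2).fpf hp hB hcp (hs y y.2) (congrArg Subtype.val hy))
  rw [← Subgroup.top_subtype_lowerCentralSeries, h1 Γ α hnil hcard, Subgroup.map_bot]
  intro y
  have : MulAut.conj y * α =
      Γ.normalizerMonoidHom ⟨y * c, mul_mem (Subgroup.le_normalizer y.2) hn⟩ := by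
    ext z
    show y.1 * (c * z * c⁻¹) * y.1⁻¹ = y * c * z * (y * c)⁻¹
    group
  rw [this, ← map_pow, ← map_one Γ.normalizerMonoidHom]
  exact congrArg _ (Subtype.ext (hs y y.2))

namespace ModA

variable {E : Type} [Group E] {M : Subgroup E}

lemma nk_succ (μ δ : E) (k : ℕ) : (μ * δ) ^ (k + 1) * (δ ^ (k + 1))⁻¹ =
    (μ * δ) ^ k * (δ ^ k)⁻¹ * (δ ^ k * μ * (δ ^ k)⁻¹) := by
  rw [pow_succ, pow_succ]; group

lemma conj_pow_mem {δ : E} (hδ : ∀ μ ∈ M, δ * μ * δ⁻¹ ∈ M) (k : ℕ) :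
    ∀ μ ∈ M, δ ^ k * μ * (δ ^ k)⁻¹ ∈ M := by
  induction k with
  | zero => simp
  | succ k ih =>
    intro μ hμ
    convert hδ _ (ih μ hμ) using 1
    rw [pow_succ']; group

lemma nk_mem {δ : E} (hδ : ∀ μ ∈ M, δ * μ * δ⁻¹ ∈ M) {μ : E} (hμ : μ ∈ M) (k : ℕ) :
    (μ * δ) ^ k * (δ ^ k)⁻¹ ∈ M := by
  induction k with
  | zero => simp
  | succ k ih => rw [nk_succ]; exact M.mul_mem ih (conj_pow_mem hδ k μ hμ)

lemma nk_mul (hM : ∀ u ∈ M, ∀ v ∈ M, Commute u v) {δ : E} (hδ : ∀ μ ∈ M, δ * μ * δ⁻¹ ∈ M)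
    {μ ν : E} (hμ : μ ∈ M) (hν : ν ∈ M) (k : ℕ) : (μ * ν * δ) ^ k * (δ ^ k)⁻¹ =
      (μ * δ) ^ k * (δ ^ k)⁻¹ * ((ν * δ) ^ k * (δ ^ k)⁻¹) := by
  induction k with
  | zero => simp
  | succ k ih =>
    rw [nk_succ, nk_succ, nk_succ, ih, show δ ^ k * (μ * ν) * (δ ^ k)⁻¹ =
      δ ^ k * μ * (δ ^ k)⁻¹ * (δ ^ k * ν * (δ ^ k)⁻¹) by group]
    exact (hM _ (nk_mem hδ hν k) _ (conj_pow_mem hδ k μ hμ)).mul_mul_mul_comm _ _

lemma split_closure {Y : Set E} (hY : Subgroup.closure Y = M) (hM : ∀ u ∈ M, ∀ v ∈ M, Commute u v)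
    {δ : E} (hδ : ∀ μ ∈ M, δ * μ * δ⁻¹ ∈ M) {p : ℕ} (h1 : δ ^ p = 1)
    (h2 : ∀ μ ∈ Y, (μ * δ) ^ p = 1) : ∀ μ ∈ M, (μ * δ) ^ p = 1 := by
  subst hY
  have hm : ∀ μ ∈ Subgroup.closure Y, ∀ ν ∈ Subgroup.closure Y,
      (μ * ν * δ) ^ p = (μ * δ) ^ p * (ν * δ) ^ p := fun μ hμ ν hν => by
    simpa [h1] using nk_mul hM hδ hμ hν p
  intro μ hμ
  induction hμ using Subgroup.closure_induction with
  | mem x hx => exact h2 x hx
  | one => rwa [one_mul]
  | mul x y hx hy h3 h4 => rw [hm x hx y hy, h3, h4, one_mul]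
  | inv x hx h3 =>
    have := hm x hx _ (inv_mem hx)
    rwa [mul_inv_cancel, one_mul, h1, h3, one_mul, eq_comm] at this

end ModA

open ModA

/-- An abelian group on which all elements outside `F` have zero norm is centralised by a term of
the lower central series of `F`. -/
theorem modul {p h n B : ℕ} (hB : p * (n + 1) ≤ B) (h2B : 2 ≤ B) (HC : Core p h) (HF : FinH p n B)
    {G E : Type} [Group G] [Group E] (F : Subgroup G) [hF : F.Normal] (a : G) (ha : a ∉ F)
    (hp : ∀ c, c ∉ F → c ^ p = 1) (hb : ∀ y ∈ F, Big B y)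
    (hfin : ∀ y ∈ F, Finite (Subgroup.closure {a, y * a})) (γ : G →* E) (M : Subgroup E)
    (hM : ∀ u ∈ M, ∀ v ∈ M, Commute u v) (hγ : ∀ g, ∀ μ ∈ M, γ g * μ * (γ g)⁻¹ ∈ M)
    (m : ℕ) (hm : m.Coprime B !) (hmM : ∀ μ ∈ M, μ ^ m = 1)
    (hs : ∀ c, c ∉ F → ∀ μ ∈ M, (μ * γ c) ^ p = 1) :
    ∀ y ∈ F.lowerCentralSeries h, ∀ μ ∈ M, γ y * μ * (γ y)⁻¹ = μ := by
  have hya : ∀ y ∈ F, y * a ∉ F := fun y hy h => ha (by simpa using F.mul_mem (F.inv_mem hy) h)
  have hm0 : 0 < m := by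
    rcases Nat.eq_zero_or_pos m with rfl | h
    · have := (Nat.one_lt_factorial.2 h2B).ne'
      simp [this] at hm
    · exact h
  let _ : CommGroup M := { (inferInstance : Group M) with
    mul_comm := fun u v => Subtype.ext (hM _ u.2 _ v.2) }
  have hn : ∀ g, γ g ∈ Subgroup.normalizer (M : Set E) := fun g =>
    Subgroup.mem_normalizer_iff.2 fun μ => ⟨hγ g μ, fun h => by
      simpa [mul_assoc] using hγ g⁻¹ _ h⟩
  let ρ : G →* AddMonoid.End (Additive M) :=
    { toFun := fun g => MonoidHom.toAdditive (M.normalizerMonoidHom ⟨γ g, hn g⟩).toMonoidHom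
      map_one' := AddMonoidHom.ext fun v => Subtype.ext (by
        show γ 1 * v.toMul.1 * (γ 1)⁻¹ = v.toMul.1
        simp)
      map_mul' := fun g g' => AddMonoidHom.ext fun v => Subtype.ext (by
        show γ (g * g') * v.toMul.1 * (γ (g * g'))⁻¹ =
          γ g * (γ g' * v.toMul.1 * (γ g')⁻¹) * (γ g)⁻¹
        rw [map_mul]; group) }
  have hρ : ∀ g (v : Additive M), ((ρ g v).toMul : E) = γ g * v.toMul.1 * (γ g)⁻¹ :=
    fun _ _ => rfl
  have key := HC n G _ ρ F a m (cop_mono hm hB) (AddMonoidHom.ext fun v => by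
      refine (AddMonoid.End.natCast_apply _ _).trans ?_
      exact Subtype.ext (hmM _ v.toMul.2)) (fun y hy => hF.conj_mem y hy a)
    (fun y hy => hp _ (hya y hy)) ?_
  · intro y hy μ hμ
    have := hρ y (Additive.ofMul ⟨μ, hμ⟩)
    rw [key y hy] at this
    exact this.symm
  intro y hy
  refine AddMonoidHom.ext fun v => ?_
  let L := Subgroup.closure ({a, y * a} : Set G)
  have hL : Finite L := hfin y hy
  have haL : a ∈ L := Subgroup.subset_closure (by simp)
  have hyL : y ∈ L := by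
    simpa using L.mul_mem (Subgroup.subset_closure (by simp) : y * a ∈ L) (L.inv_mem haL)
  let Y : Set E := (fun g => γ g * v.toMul.1 * (γ g)⁻¹) '' L
  have hYM : Y ⊆ M := by rintro _ ⟨g, -, rfl⟩; exact hγ g _ v.toMul.2
  let M0 := Subgroup.closure Y
  have hM0 : M0 ≤ M := (Subgroup.closure_le _).2 hYM
  have fM0 : Finite M0 := nilLF E M 1 (by
      rw [Subgroup.lowerCentralSeries_succ, eq_bot_iff, Subgroup.commutator_le]
      exact fun u hu w hw => (hM u hu w hw).commutator_eq)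
    (fun x hx => isOfFinOrder_iff_pow_eq_one.2 ⟨m, hm0, hmM x hx⟩) Y
    ((Set.toFinite (L : Set G)).image _) hYM
  have cM0 : ∀ g ∈ L, ∀ μ ∈ M0, γ g * μ * (γ g)⁻¹ ∈ M0 := by
    intro g hg
    have : M0 ≤ M0.comap (MulAut.conj (γ g)).toMonoidHom := by
      rw [Subgroup.closure_le]
      rintro _ ⟨g', hg', rfl⟩
      refine Subgroup.subset_closure ⟨g * g', L.mul_mem hg hg', ?_⟩
      simp [mul_assoc]
    exact this
  let H : Subgroup E :=
    { carrier := {w | ∃ μ ∈ M0, ∃ k ∈ L ⊓ F, w = μ * γ k}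
      one_mem' := ⟨1, one_mem _, 1, one_mem _, by simp⟩
      mul_mem' := by
        rintro _ _ ⟨μ, hμ, k, hk, rfl⟩ ⟨ν, hν, l, hl, rfl⟩
        exact ⟨_, M0.mul_mem hμ (cM0 k hk.1 ν hν), k * l, mul_mem hk hl, by rw [map_mul]; group⟩
      inv_mem' := by
        rintro _ ⟨μ, hμ, k, hk, rfl⟩
        exact ⟨_, cM0 _ (inv_mem hk.1) _ (inv_mem hμ), k⁻¹, inv_mem hk, by rw [map_inv]; group⟩ }
  have fH : Finite H := by
    have : Finite (L ⊓ F : Subgroup G) :=
      Finite.of_injective _ (Subgroup.inclusion_injective inf_le_left)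
    refine Finite.of_surjective (fun q : M0 × (L ⊓ F : Subgroup G) =>
      (⟨q.1 * γ q.2, q.1, q.1.2, q.2, q.2.2, rfl⟩ : H)) ?_
    rintro ⟨_, μ, hμ, k, hk, rfl⟩
    exact ⟨(⟨μ, hμ⟩, ⟨k, hk⟩), rfl⟩
  have hH := HF E H (γ a) fH (by
      rintro _ ⟨μ, hμ, k, hk, rfl⟩
      obtain ⟨j, hj, hkj⟩ := hb k hk.2
      refine ⟨j * m, hj.mul_left hm, ?_⟩
      have := nk_mem (hγ k) (hM0 hμ) j
      rw [← map_pow, hkj, map_one, inv_one, mul_one] at this
      rw [pow_mul, hmM _ this]) (by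
      rintro _ ⟨μ, hμ, k, hk, rfl⟩
      exact ⟨_, cM0 a haL μ hμ, a * k * a⁻¹, ⟨L.mul_mem (L.mul_mem haL hk.1) (L.inv_mem haL),
        hF.conj_mem k hk.2 a⟩, by rw [map_mul, map_mul, map_inv]; group⟩) (by
      rintro _ ⟨μ, hμ, k, hk, rfl⟩
      rw [mul_assoc, ← map_mul]
      exact hs _ (hya k hk.2) μ (hM0 hμ))
  have hi : ∀ i, ((((ρ y - 1) ^ i) v).toMul : E) ∈ H.lowerCentralSeries i := by
    intro i
    induction i with
    | zero => exact ⟨_, Subgroup.subset_closure ⟨1, one_mem _, rfl⟩, 1, one_mem _, by simp⟩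
    | succ i ih =>
      rw [Subgroup.lowerCentralSeries_succ, Subgroup.commutator_comm, pow_succ']
      have := Subgroup.commutator_mem_commutator
        (show γ y ∈ H from ⟨1, one_mem _, y, ⟨hyL, hy⟩, (one_mul _).symm⟩) ih
      convert this using 1
      rw [commutatorElement_def, ← hρ, ← div_eq_mul_inv]; rfl
  have := hi n
  rw [hH] at this
  exact Subtype.ext this

end Pool.Agent.MP_b7033c_al.Three

end

section

set_option autoImplicit false

namespace Pool.Agent.MP_b7033c_al.Three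

open scoped Nat commutatorElement

/-- The order of `y` is prime to `p`. -/
def Cop {E : Type} [Group E] (p : ℕ) (y : E) : Prop := ∃ k : ℕ, k.Coprime p ∧ y ^ k = 1

/-- The theorems of Thompson and Higman. -/
def FinG (p n : ℕ) : Prop :=
  ∀ (E : Type) [Group E] (Γ : Subgroup E) (c : E), Finite Γ → (∀ y ∈ Γ, Cop p y) →
    (∀ y ∈ Γ, c * y * c⁻¹ ∈ Γ) → (∀ y ∈ Γ, (y * c) ^ p = 1) → Γ.lowerCentralSeries n = ⊥

lemma Cop.fpf {E : Type} [Group E] {p : ℕ} {y c : E} (hy : Cop p y)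
    (hc : c ^ p = 1) (h1 : (y * c) ^ p = 1) (h2 : c * y * c⁻¹ = y) : y = 1 := by
  obtain ⟨k, hk, hy⟩ := hy
  have h3 : Commute y c := (mul_inv_eq_iff_eq_mul.1 h2).symm
  rw [h3.mul_pow, hc, mul_one] at h1
  have h4 := pow_gcd_eq_one.2 ⟨hy, h1⟩
  rwa [hk, pow_one] at h4

lemma finG {p n : ℕ} (h1 : GHF p n) (h2 : Tho p 0) : FinG p n := by
  intro E _ Γ c hf hb hc hs
  have hcp : c ^ p = 1 := by simpa using hs 1 Γ.one_mem
  have hn : c ∈ Subgroup.normalizer (Γ : Set E) := Subgroup.mem_normalizer_fintype hc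
  let α := Γ.normalizerMonoidHom ⟨c, hn⟩
  have a1 : α ^ p = 1 := by
    rw [← map_pow, ← map_one Γ.normalizerMonoidHom]; exact congrArg _ (Subtype.ext hcp)
  have a2 : ∀ y, α y = y → y = 1 := fun y hy =>
    Subtype.ext ((hb y y.2).fpf hcp (hs y y.2) (congrArg Subtype.val hy))
  rw [← Subgroup.top_subtype_lowerCentralSeries, h1 Γ α (h2 Γ α (by simp) a1 a2) a1 a2,
    Subgroup.map_bot]

lemma cl_two {E : Type} [Group E] {u v : E} {m : ℕ} (h1 : Commute ⁅u, v⁆ u) (h2 : Commute ⁅u, v⁆ v)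
    (hv : v ^ m = 1) : ⁅u ^ m, v⁆ = 1 := by
  have e1 : u * v * u⁻¹ = ⁅u, v⁆ * v := by rw [commutatorElement_def]; group
  have e2 : ⁅u, v⁆ ^ m = 1 := by
    have := congrArg (· ^ m) e1
    simpa only [conj_pow, hv, h2.mul_pow, mul_one, mul_inv_cancel, eq_comm] using this
  have e3 : ∀ k : ℕ, u ^ k * v * (u ^ k)⁻¹ = ⁅u, v⁆ ^ k * v := by
    intro k
    induction k with
    | zero => simp
    | succ k ihk =>
      calc u ^ (k + 1) * v * (u ^ (k + 1))⁻¹ = u * (u ^ k * v * (u ^ k)⁻¹) * u⁻¹ := by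
            rw [pow_succ']; group
        _ = ⁅u, v⁆ ^ k * (u * v * u⁻¹) := by
            rw [ihk, ← mul_assoc, ← (h1.pow_left k).eq]; group
        _ = _ := by rw [e1, pow_succ, mul_assoc]
  rw [commutatorElement_def, e3, e2, one_mul, mul_inv_cancel]

/-- In a group of class at most `n`, the `m ^ n`-th powers centralise the elements of order
dividing `m`. -/
lemma pow_comm {E : Type} [Group E] {H : Subgroup E} {n m : ℕ} (hH : H.lowerCentralSeries n = ⊥)
    {x y : E} (hx : x ∈ H) (hy : y ∈ H) (hm : y ^ m = 1) : Commute (x ^ m ^ n) y := by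
  have key : ∀ (x y : H), y ^ m = 1 → ∀ i,
      ⁅x ^ m ^ i, y⁆ ∈ (⊤ : Subgroup H).lowerCentralSeries (i + 1) := by
    intro x y hm i
    induction i with
    | zero => exact Subgroup.commutator_mem_commutator (Subgroup.mem_top _) (Subgroup.mem_top _)
    | succ i ih =>
      let π := QuotientGroup.mk' ((⊤ : Subgroup H).lowerCentralSeries (i + 1 + 1))
      have hc : ∀ g, Commute ⁅π (x ^ m ^ i), π y⁆ (π g) := fun g => by
        rw [← commutatorElement_eq_one_iff_commute, ← map_commutatorElement,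
          ← map_commutatorElement]
        exact (QuotientGroup.eq_one_iff _).2
          (Subgroup.commutator_mem_commutator ih (Subgroup.mem_top g))
      rw [← QuotientGroup.eq_one_iff, ← QuotientGroup.mk'_apply, map_commutatorElement, pow_succ,
        pow_mul, map_pow]
      exact cl_two (hc _) (hc _) (by rw [← map_pow, hm, map_one])
  have h1 := Subgroup.mem_map_of_mem H.subtype (Subgroup.lowerCentralSeries_antitone _
    (Nat.le_succ n) (key ⟨x, hx⟩ ⟨y, hy⟩ (Subtype.ext hm) n))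
  rw [Subgroup.top_subtype_lowerCentralSeries, hH, map_commutatorElement] at h1
  exact commutatorElement_eq_one_iff_commute.1 h1

/-- Commutation across the cosets of `F` gives commutation. -/
lemma comm_all {G S : Type} [Group G] [Group S] {F : Subgroup G} {p : ℕ} (hp : p.Prime) {a : G}
    (ha : a ∉ F) (hc : a ^ p = 1) (γ : G →* S) (τ : G → S)
    (h1 : ∀ g h, γ g * τ h * (γ g)⁻¹ = τ (g * h)) (h2 : ∀ g, (τ g * γ a) ^ p = 1)
    (h3 : ∀ g c, c ∉ F → Commute (τ g) (τ (c * g))) (g h : G) : Commute (τ g) (τ h) := by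
  by_cases hg : h * g⁻¹ ∈ F
  swap
  · simpa using h3 g _ hg
  have hpow : ∀ k : ℕ, 0 < k → k < p → a ^ k * (h * g⁻¹) ∉ F := by
    intro k h1 h2 h3
    have h4 : a ^ k ∈ F := by simpa only [mul_inv_cancel_right] using F.mul_mem h3 (F.inv_mem hg)
    obtain ⟨j, -, hj⟩ := Nat.exists_mul_mod_eq_one_of_coprime
      ((Nat.coprime_of_lt_prime h1.ne' h2 hp).symm) hp.one_lt
    have h5 := F.pow_mem h4 j
    rw [← pow_mul, ← Nat.div_add_mod (k * j) p, hj, pow_succ, pow_mul, hc, one_pow, one_mul] at h5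
    exact ha h5
  have key : ∀ k : ℕ, k < p → ∃ t, Commute (τ g) t ∧
      (τ h * γ a) ^ (k + 1) = τ h * t * γ (a ^ (k + 1)) := by
    intro k
    induction k with
    | zero => exact fun _ => ⟨1, Commute.one_right _, by simp⟩
    | succ k ih =>
      intro hk
      obtain ⟨t, ht, e⟩ := ih (by omega)
      refine ⟨t * τ (a ^ (k + 1) * h), ht.mul_right ?_, ?_⟩
      · simpa [mul_assoc] using h3 g _ (hpow _ k.succ_pos hk)
      · rw [pow_succ, e, ← h1, pow_succ a (k + 1), map_mul]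
        group
  obtain ⟨t, ht, e⟩ := key (p - 1) (by have := hp.pos; omega)
  rw [Nat.sub_add_cancel hp.pos, h2, hc, map_one, mul_one] at e
  rw [eq_inv_of_mul_eq_one_left e.symm]
  exact ht.inv_right

open ModA

/-- An abelian group on which all elements outside `F` have zero norm is centralised by a term of
the lower central series of `F`. -/
theorem modul2 {p h n B : ℕ} (hpp : p.Prime) (hB : p * (n + 1) ≤ B) (HC : Core p h) (HF : FinG p n)
    {G E : Type} [Group G] [Group E] (F : Subgroup G) [hF : F.Normal] (a : G) (ha : a ∉ F)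
    (hp : ∀ c, c ∉ F → c ^ p = 1) (hb : ∀ y ∈ F, Cop p y)
    (hfin : ∀ y ∈ F, Finite (Subgroup.closure {a, y * a})) (γ : G →* E) (M : Subgroup E)
    (hM : ∀ u ∈ M, ∀ v ∈ M, Commute u v) (hγ : ∀ g, ∀ μ ∈ M, γ g * μ * (γ g)⁻¹ ∈ M)
    (m : ℕ) (hm : m.Coprime B !) (hmM : ∀ μ ∈ M, μ ^ m = 1)
    (hs : ∀ c, c ∉ F → ∀ μ ∈ M, (μ * γ c) ^ p = 1) :
    ∀ y ∈ F.lowerCentralSeries h, ∀ μ ∈ M, γ y * μ * (γ y)⁻¹ = μ := by
  have hya : ∀ y ∈ F, y * a ∉ F := fun y hy h => ha (by simpa using F.mul_mem (F.inv_mem hy) h)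
  have hpB : p ≤ B := le_trans (by nlinarith) hB
  have h2B : 2 ≤ B := hpp.two_le.trans hpB
  have hm0 : 0 < m := by
    rcases Nat.eq_zero_or_pos m with rfl | h
    · have := (Nat.one_lt_factorial.2 h2B).ne'
      simp [this] at hm
    · exact h
  let _ : CommGroup M := { (inferInstance : Group M) with
    mul_comm := fun u v => Subtype.ext (hM _ u.2 _ v.2) }
  have hn : ∀ g, γ g ∈ Subgroup.normalizer (M : Set E) := fun g =>
    Subgroup.mem_normalizer_iff.2 fun μ => ⟨hγ g μ, fun h => by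
      simpa [mul_assoc] using hγ g⁻¹ _ h⟩
  let ρ : G →* AddMonoid.End (Additive M) :=
    { toFun := fun g => MonoidHom.toAdditive (M.normalizerMonoidHom ⟨γ g, hn g⟩).toMonoidHom
      map_one' := AddMonoidHom.ext fun v => Subtype.ext (by
        show γ 1 * v.toMul.1 * (γ 1)⁻¹ = v.toMul.1
        simp)
      map_mul' := fun g g' => AddMonoidHom.ext fun v => Subtype.ext (by
        show γ (g * g') * v.toMul.1 * (γ (g * g'))⁻¹ =
          γ g * (γ g' * v.toMul.1 * (γ g')⁻¹) * (γ g)⁻¹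
        rw [map_mul]; group) }
  have hρ : ∀ g (v : Additive M), ((ρ g v).toMul : E) = γ g * v.toMul.1 * (γ g)⁻¹ :=
    fun _ _ => rfl
  have key := HC n G _ ρ F a m (cop_mono hm hB) (AddMonoidHom.ext fun v => by
      refine (AddMonoid.End.natCast_apply _ _).trans ?_
      exact Subtype.ext (hmM _ v.toMul.2)) (fun y hy => hF.conj_mem y hy a)
    (fun y hy => hp _ (hya y hy)) ?_
  · intro y hy μ hμ
    have := hρ y (Additive.ofMul ⟨μ, hμ⟩)
    rw [key y hy] at this
    exact this.symm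
  intro y hy
  refine AddMonoidHom.ext fun v => ?_
  let L := Subgroup.closure ({a, y * a} : Set G)
  have hL : Finite L := hfin y hy
  have haL : a ∈ L := Subgroup.subset_closure (by simp)
  have hyL : y ∈ L := by
    simpa using L.mul_mem (Subgroup.subset_closure (by simp) : y * a ∈ L) (L.inv_mem haL)
  let Y : Set E := (fun g => γ g * v.toMul.1 * (γ g)⁻¹) '' L
  have hYM : Y ⊆ M := by rintro _ ⟨g, -, rfl⟩; exact hγ g _ v.toMul.2
  let M0 := Subgroup.closure Y
  have hM0 : M0 ≤ M := (Subgroup.closure_le _).2 hYM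
  have fM0 : Finite M0 := nilLF E M 1 (by
      rw [Subgroup.lowerCentralSeries_succ, eq_bot_iff, Subgroup.commutator_le]
      exact fun u hu w hw => (hM u hu w hw).commutator_eq)
    (fun x hx => isOfFinOrder_iff_pow_eq_one.2 ⟨m, hm0, hmM x hx⟩) Y
    ((Set.toFinite (L : Set G)).image _) hYM
  have cM0 : ∀ g ∈ L, ∀ μ ∈ M0, γ g * μ * (γ g)⁻¹ ∈ M0 := by
    intro g hg
    have : M0 ≤ M0.comap (MulAut.conj (γ g)).toMonoidHom := by
      rw [Subgroup.closure_le]
      rintro _ ⟨g', hg', rfl⟩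
      refine Subgroup.subset_closure ⟨g * g', L.mul_mem hg hg', ?_⟩
      simp [mul_assoc]
    exact this
  let H : Subgroup E :=
    { carrier := {w | ∃ μ ∈ M0, ∃ k ∈ L ⊓ F, w = μ * γ k}
      one_mem' := ⟨1, one_mem _, 1, one_mem _, by simp⟩
      mul_mem' := by
        rintro _ _ ⟨μ, hμ, k, hk, rfl⟩ ⟨ν, hν, l, hl, rfl⟩
        exact ⟨_, M0.mul_mem hμ (cM0 k hk.1 ν hν), k * l, mul_mem hk hl, by rw [map_mul]; group⟩
      inv_mem' := by
        rintro _ ⟨μ, hμ, k, hk, rfl⟩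
        exact ⟨_, cM0 _ (inv_mem hk.1) _ (inv_mem hμ), k⁻¹, inv_mem hk, by rw [map_inv]; group⟩ }
  have fH : Finite H := by
    have : Finite (L ⊓ F : Subgroup G) :=
      Finite.of_injective _ (Subgroup.inclusion_injective inf_le_left)
    refine Finite.of_surjective (fun q : M0 × (L ⊓ F : Subgroup G) =>
      (⟨q.1 * γ q.2, q.1, q.1.2, q.2, q.2.2, rfl⟩ : H)) ?_
    rintro ⟨_, μ, hμ, k, hk, rfl⟩
    exact ⟨(⟨μ, hμ⟩, ⟨k, hk⟩), rfl⟩
  have hH := HF E H (γ a) fH (by
      rintro _ ⟨μ, hμ, k, hk, rfl⟩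
      obtain ⟨j, hj, hkj⟩ := hb k hk.2
      refine ⟨j * m, hj.mul_left (hm.coprime_dvd_right (Nat.dvd_factorial hpp.pos hpB)), ?_⟩
      have := nk_mem (hγ k) (hM0 hμ) j
      rw [← map_pow, hkj, map_one, inv_one, mul_one] at this
      rw [pow_mul, hmM _ this]) (by
      rintro _ ⟨μ, hμ, k, hk, rfl⟩
      exact ⟨_, cM0 a haL μ hμ, a * k * a⁻¹, ⟨L.mul_mem (L.mul_mem haL hk.1) (L.inv_mem haL),
        hF.conj_mem k hk.2 a⟩, by rw [map_mul, map_mul, map_inv]; group⟩) (by
      rintro _ ⟨μ, hμ, k, hk, rfl⟩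
      rw [mul_assoc, ← map_mul]
      exact hs _ (hya k hk.2) μ (hM0 hμ))
  have hi : ∀ i, ((((ρ y - 1) ^ i) v).toMul : E) ∈ H.lowerCentralSeries i := by
    intro i
    induction i with
    | zero => exact ⟨_, Subgroup.subset_closure ⟨1, one_mem _, rfl⟩, 1, one_mem _, by simp⟩
    | succ i ih =>
      rw [Subgroup.lowerCentralSeries_succ, Subgroup.commutator_comm, pow_succ']
      have := Subgroup.commutator_mem_commutator
        (show γ y ∈ H from ⟨1, one_mem _, y, ⟨hyL, hy⟩, (one_mul _).symm⟩) ih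
      convert this using 1
      rw [commutatorElement_def, ← hρ, ← div_eq_mul_inv]; rfl
  have := hi n
  rw [hH] at this
  exact Subtype.ext this

end Pool.Agent.MP_b7033c_al.Three

end

section

set_option autoImplicit false

namespace Pool.Agent.MP_b7033c_al.Three.GenA

open scoped Nat
open SumA

variable {G : Type} [Group G] {F : Subgroup G} {Y : Set G} {n : ℕ}

/-- `x` lies, with any `y` of `Y`, in a good subgroup normalised by any given `c` outside `F`. -/
def Xp (F : Subgroup G) (Y : Set G) (n : ℕ) (x : G) : Prop :=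
  ∀ c, c ∉ F → ∀ y ∈ Y, ∃ K : Subgroup G, Good n K ∧ (K : Set G) ⊆ Y ∧ x ∈ K ∧ y ∈ K ∧
    ∀ z ∈ K, c * z * c⁻¹ ∈ K

lemma Xp.conj [hF : F.Normal] (hY : ∀ g, ∀ y ∈ Y, g * y * g⁻¹ ∈ Y) {x : G} (h : Xp F Y n x)
    (g : G) : Xp F Y n (g * x * g⁻¹) := by
  intro c hc y hy
  obtain ⟨K, h1, h2, h3, h4, h5⟩ := h (g⁻¹ * c * g)
    (fun h => hc (by simpa [mul_assoc] using hF.conj_mem _ h g)) (g⁻¹ * y * g)
    (by simpa using hY g⁻¹ y hy)
  refine ⟨K.map (MulAut.conj g).toMonoidHom, h1.map _, ?_, ⟨x, h3, rfl⟩,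
    ⟨_, h4, by simp [mul_assoc]⟩, ?_⟩
  · rintro _ ⟨z, hz, rfl⟩; exact hY g z (h2 hz)
  · rintro _ ⟨z, hz, rfl⟩; exact ⟨_, h5 z hz, by simp [mul_assoc]⟩

lemma cl_one (K : Subgroup G) : cl K 1 = 1 := by simpa using cl_pow K.one_mem 0

lemma cl_inv {K : Subgroup G} {x : G} (hx : x ∈ K) : cl K x⁻¹ = (cl K x)⁻¹ := by
  rw [cl_eq hx, cl_eq (K.inv_mem hx), ← map_inv]
  exact congrArg _ (Subtype.ext (funext fun k => inv_pow x _))

lemma add_inv_add {K : Subgroup G} (h : Good n K) {x y : G} (hx : x ∈ K) (hy : y ∈ K) :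
    add x⁻¹ (add x y) = y := by
  have h1 := (add_spec h hx hy).1
  refine cl_inj h (add_spec h (K.inv_mem hx) h1).1 hy ?_
  rw [cl_add h (K.inv_mem hx) h1, cl_add h hx hy, cl_inv hx, inv_mul_cancel_left]

lemma add_conj {K : Subgroup G} (h : Good n K) {x y : G} (hx : x ∈ K) (hy : y ∈ K) (g : G) :
    add (g * x * g⁻¹) (g * y * g⁻¹) = g * add x y * g⁻¹ := add_map h hx hy (MulAut.conj g)

lemma Xp.pair {a : G} (ha : a ∉ F) {x : G} (h : Xp F Y n x) (y : Y) :
    ∃ K : Subgroup G, Good n K ∧ (K : Set G) ⊆ Y ∧ x ∈ K ∧ y.1 ∈ K := by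
  obtain ⟨K, h1, h2, h3, h4, -⟩ := h a ha y y.2
  exact ⟨K, h1, h2, h3, h4⟩

/-- The translation by `x`. -/
noncomputable def T {a : G} (ha : a ∉ F) {x : G} (h : Xp F Y n x) : Equiv.Perm Y where
  toFun y := ⟨add x y, by
    obtain ⟨K, h1, h2, h3, h4⟩ := h.pair ha y
    exact h2 (add_spec h1 h3 h4).1⟩
  invFun y := ⟨add x⁻¹ y, by
    obtain ⟨K, h1, h2, h3, h4⟩ := h.pair ha y
    exact h2 (add_spec h1 (K.inv_mem h3) h4).1⟩
  left_inv y := by
    obtain ⟨K, h1, h2, h3, h4⟩ := h.pair ha y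
    exact Subtype.ext (add_inv_add h1 h3 h4)
  right_inv y := by
    obtain ⟨K, h1, h2, h3, h4⟩ := h.pair ha y
    exact Subtype.ext (by simpa using add_inv_add h1 (K.inv_mem h3) h4)

/-- Conjugation on `Y`. -/
def gam (hY : ∀ g, ∀ y ∈ Y, g * y * g⁻¹ ∈ Y) : G →* Equiv.Perm Y where
  toFun g :=
    { toFun := fun y => ⟨g * y * g⁻¹, hY g y y.2⟩
      invFun := fun y => ⟨g⁻¹ * y * g⁻¹⁻¹, hY _ y y.2⟩
      left_inv := fun y => Subtype.ext (by simp [mul_assoc])
      right_inv := fun y => Subtype.ext (by simp [mul_assoc]) }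
  map_one' := by ext y; simp
  map_mul' g h := by ext y; simp [mul_assoc]

variable {a : G} (ha : a ∉ F)

lemma T_apply {x : G} (h : Xp F Y n x) (y : Y) : (T ha h y : G) = add x y := rfl

lemma T_congr {x y : G} (hx : Xp F Y n x) (hy : Xp F Y n y) (h : x = y) : T ha hx = T ha hy := by
  subst h; rfl

lemma T_pow {x : G} (h : Xp F Y n x) {k : ℕ} (hk : x ^ k = 1) : T ha h ^ k = 1 := by
  ext y
  obtain ⟨K, h1, h2, h3, h4⟩ := h.pair ha y
  have : ∀ j : ℕ, ((T ha h ^ j) y : G) ∈ K ∧ cl K ((T ha h ^ j) y) = cl K x ^ j * cl K y := by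
    intro j
    induction j with
    | zero => exact ⟨h4, by simp⟩
    | succ j ih =>
      rw [pow_succ', Equiv.Perm.mul_apply, T_apply]
      exact ⟨(add_spec h1 h3 ih.1).1, by rw [cl_add h1 h3 ih.1, ih.2, pow_succ', mul_assoc]⟩
  show _ = y.1
  refine cl_inj h1 (this k).1 h4 ?_
  rw [(this k).2, ← cl_pow h3, hk, cl_one, one_mul]

variable (hY : ∀ g, ∀ y ∈ Y, g * y * g⁻¹ ∈ Y)

lemma T_split {p : ℕ} {x c : G} (h : Xp F Y n x) (hc : c ∉ F) (hp : c ^ p = 1)
    (hf : ∀ y ∈ Y, c * y * c⁻¹ = y → y = 1) : (T ha h * gam hY c) ^ p = 1 := by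
  ext y
  obtain ⟨K, h1, h2, h3, h4, h5⟩ := h c hc y y.2
  set τ := T ha h * gam hY c with hτ
  have hτa : ∀ z : Y, (τ z : G) = add x (c * z * c⁻¹) := fun _ => rfl
  have hτK : ∀ z : Y, z.1 ∈ K → (τ z : G) ∈ K := fun z hz => (add_spec h1 h3 (h5 _ hz)).1
  have key : ∀ k : ℕ, ∃ s, ∀ z : Y, z.1 ∈ K → ((τ ^ k) z : G) ∈ K ∧
      cl K ((τ ^ k) z) = s * cl K (c ^ k * z * (c ^ k)⁻¹) := by
    intro k
    induction k with
    | zero => exact ⟨1, fun z hz => ⟨hz, by simp⟩⟩
    | succ k ih =>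
      obtain ⟨s, hs⟩ := ih
      refine ⟨s * cl K (c ^ k * x * (c ^ k)⁻¹), fun z hz => ?_⟩
      rw [pow_succ, Equiv.Perm.mul_apply]
      refine ⟨(hs _ (hτK z hz)).1, ?_⟩
      rw [(hs _ (hτK z hz)).2, hτa, ← add_conj h1 h3 (h5 _ hz),
        cl_add h1 (ModA.conj_pow_mem h5 k _ h3) (ModA.conj_pow_mem h5 k _ (h5 _ hz)),
        ← mul_assoc s, show c ^ k * (c * z * c⁻¹) * (c ^ k)⁻¹ = c ^ (k + 1) * z * (c ^ (k + 1))⁻¹ by
          rw [pow_succ]; group]
  obtain ⟨s, hs⟩ := key p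
  simp only [hp, one_mul, inv_one, mul_one] at hs
  let o : Y := ⟨1, h2 K.one_mem⟩
  have ho : o.1 = 1 := rfl
  have hu := hs o K.one_mem
  have e1 : τ ((τ ^ p) o) = (τ ^ p) (τ o) := by
    rw [← Equiv.Perm.mul_apply, ← Equiv.Perm.mul_apply, ← pow_succ, ← pow_succ']
  have e2 := (hs _ (hτK o K.one_mem)).2
  rw [← e1, hτa, hτa, ho, cl_add h1 h3 (h5 _ hu.1),
    cl_add h1 h3 (h5 _ K.one_mem), mul_left_comm, mul_right_inj, mul_one, mul_inv_cancel] at e2
  have e3 := hf _ (h2 hu.1) (cl_inj h1 (h5 _ hu.1) hu.1 (e2.trans hu.2.symm))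
  have e4 := hu.2
  rw [e3, ho, cl_one, mul_one] at e4
  show _ = y.1
  refine cl_inj h1 (hs y h4).1 h4 ?_
  rw [(hs y h4).2, ← e4, one_mul]

variable [hF : F.Normal]

lemma gam_T {x : G} (h : Xp F Y n x) (g : G) :
    gam hY g * T ha h * (gam hY g)⁻¹ = T ha (h.conj hY g) := by
  rw [mul_inv_eq_iff_eq_mul]
  ext y
  obtain ⟨K, h1, h2, h3, h4⟩ := h.pair ha y
  exact (add_conj h1 h3 h4 g).symm

lemma T_cross {x c : G} (h : Xp F Y n x) (hc : c ∉ F) :
    Commute (T ha h) (T ha (h.conj hY c)) := by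
  ext y
  obtain ⟨K, h1, h2, h3, h4, h5⟩ := h c hc y y.2
  have h6 := h5 x h3
  have h7 := (add_spec h1 h6 h4).1
  have h8 := (add_spec h1 h3 h4).1
  show add x (add (c * x * c⁻¹) y) = add (c * x * c⁻¹) (add x y)
  refine cl_inj h1 (add_spec h1 h3 h7).1 (add_spec h1 h6 h8).1 ?_
  rw [cl_add h1 h3 h7, cl_add h1 h6 h8, cl_add h1 h6 h4, cl_add h1 h3 h4, mul_left_comm]

include ha hY in
/-- The main step. -/
theorem trick {p h B : ℕ} (hp : p.Prime) (hB : p * (n + 1) ≤ B) (HC : Core p h) (HF : FinG p n)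
    (hc : ∀ c, c ∉ F → c ^ p = 1) (hb : ∀ y ∈ F, Cop p y) (hYF : Y ⊆ F) (h1Y : 1 ∈ Y)
    (hfin : ∀ y ∈ F, Finite (Subgroup.closure {a, y * a})) {x : G} (hx : Xp F Y n x)
    (hxb : Big B x) : ∀ y ∈ F.lowerCentralSeries h, Commute x y := by
  have hf : ∀ c, c ∉ F → ∀ y ∈ Y, c * y * c⁻¹ = y → y = 1 := fun c h1 y hy =>
    (hb y (hYF hy)).fpf (hc c h1)
      (hc _ fun h => h1 (by simpa using F.mul_mem (F.inv_mem (hYF hy)) h))
  let τ : G → Equiv.Perm Y := fun g => T ha (hx.conj hY g)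
  have t1 : ∀ g g', gam hY g * τ g' * (gam hY g)⁻¹ = τ (g * g') := fun g g' =>
    (gam_T ha hY (hx.conj hY g') g).trans (T_congr ha _ _ (by group))
  have t2 : ∀ c, c ∉ F → ∀ g, (τ g * gam hY c) ^ p = 1 := fun c h1 g =>
    T_split ha hY _ h1 (hc c h1) (hf c h1)
  have t3 := comm_all hp ha (hc a ha) (gam hY) τ t1 (t2 a ha) fun g c h1 => by
    have := T_cross ha hY (hx.conj hY g) h1
    rwa [T_congr ha ((hx.conj hY g).conj hY c) (hx.conj hY (c * g)) (by group)] at this
  have hM : ∀ u ∈ Subgroup.closure (Set.range τ), ∀ v ∈ Subgroup.closure (Set.range τ),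
      Commute u v := by
    intro u hu v hv
    have := Subgroup.closure_le_centralizer_centralizer _ hu v
      (((Subgroup.closure_le (Subgroup.centralizer (Set.range τ))).2 (by
        rintro _ ⟨g, rfl⟩ _ ⟨g', rfl⟩; exact t3 g' g)) hv)
    exact this.symm
  have hγ : ∀ g, ∀ μ ∈ Subgroup.closure (Set.range τ),
      gam hY g * μ * (gam hY g)⁻¹ ∈ Subgroup.closure (Set.range τ) := by
    intro g
    have : Subgroup.closure (Set.range τ) ≤
        (Subgroup.closure (Set.range τ)).comap (MulAut.conj (gam hY g)).toMonoidHom := by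
      rw [Subgroup.closure_le]
      rintro _ ⟨g', rfl⟩
      exact Subgroup.subset_closure ⟨g * g', (t1 g g').symm⟩
    exact this
  obtain ⟨m, hm, hxm⟩ := hxb
  intro y hy
  have key := modul2 hp hB HC HF F a ha hc hb hfin (gam hY) _ hM hγ m hm (by
      intro μ hμ
      induction hμ using Subgroup.closure_induction with
      | mem u hu =>
        obtain ⟨g, rfl⟩ := hu
        exact T_pow ha _ (by rw [conj_pow, hxm, mul_one, mul_inv_cancel])
      | one => exact one_pow m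
      | mul u v hu hv h1 h2 => rw [(hM u hu v hv).mul_pow, h1, h2, one_mul]
      | inv u _ h1 => rw [inv_pow, h1, inv_one])
    (fun c h1 => ModA.split_closure rfl hM (hγ c) (by rw [← map_pow, hc c h1, map_one]) (by
      rintro _ ⟨g, rfl⟩; exact t2 c h1 g)) y hy (τ 1) (Subgroup.subset_closure ⟨1, rfl⟩)
  rw [t1, mul_one] at key
  have one : ∀ g, (τ g ⟨1, h1Y⟩ : G) = g * x * g⁻¹ := by
    intro g
    obtain ⟨K, h1, h2, h3, h4⟩ := (hx.conj hY g).pair ha ⟨1, h1Y⟩
    refine cl_inj h1 (add_spec h1 h3 h4).1 h3 ?_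
    rw [cl_add h1 h3 h4, cl_one, mul_one]
  have := one y
  rw [key, one, one_mul, inv_one, mul_one, eq_mul_inv_iff_mul_eq] at this
  exact this

end Pool.Agent.MP_b7033c_al.Three.GenA

end

section

set_option autoImplicit false

namespace Pool.Agent.MP_b7033c_al.Three.CoreA

open Polynomial
open scoped Nat commutatorElement

variable {R : Type} [Ring R]

/-- Evaluation at a natural number. -/
noncomputable def ev (t : ℕ) : R[X] →+* R :=
  eval₂RingHom' (RingHom.id R) (t : R) (fun a => (Nat.cast_commute t a).symm)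

lemma ev_apply (t : ℕ) (q : R[X]) : ev t q = q.eval (t : R) := rfl

lemma ev_C (t : ℕ) (r : R) : ev t (C r) = r := by rw [ev_apply, eval_C]

lemma ev_zero (q : R[X]) : ev 0 q = q.coeff 0 := by
  rw [ev_apply, Nat.cast_zero, coeff_zero_eq_eval_zero]

lemma ev_sum (t N : ℕ) (q : R[X]) (h : q.natDegree ≤ N) :
    ev t q = ∑ j ∈ Finset.range (N + 1), t ^ j • q.coeff j := by
  rw [ev_apply, eval_eq_sum_range' (Nat.lt_succ_of_le h)]
  refine Finset.sum_congr rfl fun j _ => ?_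
  rw [nsmul_eq_mul', Nat.cast_pow]

lemma inv_mem {m : ℕ} {k : ℤ} (hm : (m : R) = 0) (hk : IsCoprime (m : ℤ) k) (S : AddSubgroup R)
    {x : R} (h : k • x ∈ S) : x ∈ S := by
  obtain ⟨u, v, huv⟩ := hk
  have h1 : (m : ℤ) • x = 0 := by rw [natCast_zsmul, nsmul_eq_mul, hm, zero_mul]
  have h2 : x = v • k • x := by
    conv_lhs => rw [← one_smul ℤ x, ← huv, add_smul, mul_smul, h1, smul_zero, zero_add, mul_smul]
  rw [h2]; exact S.zsmul_mem h v

lemma cop {m N k : ℕ} (hc : m.Coprime N !) (h0 : 0 < k) (hk : k ≤ N) :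
    IsCoprime (m : ℤ) (k : ℤ) :=
  Nat.isCoprime_iff_coprime.2 (Nat.Coprime.coprime_dvd_right (Nat.dvd_factorial h0 hk) hc)

lemma vander {m N : ℕ} (hm : (m : R) = 0) (hc : m.Coprime N !) (S : AddSubgroup R) (q : R[X])
    (hq : q.natDegree ≤ N) (h : ∀ t : ℕ, ev t q ∈ S) (j : ℕ) : q.coeff j ∈ S := by
  by_cases hj : N < j
  · rw [coeff_eq_zero_of_natDegree_lt (hq.trans_lt hj)]; exact S.zero_mem
  let V := Matrix.vandermonde (fun i : Fin (N + 1) => ((i : ℕ) : ℤ))
  have hd : IsCoprime (m : ℤ) V.det := by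
    rw [Matrix.det_vandermonde]
    refine IsCoprime.prod_right fun i _ => IsCoprime.prod_right fun k hk => ?_
    have h1 : (i : ℕ) < k := Fin.lt_def.1 (Finset.mem_Ioi.1 hk)
    rw [← Nat.cast_sub h1.le]
    exact cop hc (by omega) (by omega)
  refine inv_mem hm hd S ?_
  let J : Fin (N + 1) := ⟨j, by omega⟩
  have h2 : ∑ t : Fin (N + 1), V.adjugate J t • ev t q = V.det • q.coeff j := by
    have h3 : ∀ t : Fin (N + 1), ev t q = ∑ i : Fin (N + 1), V t i • q.coeff i := by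
      intro t
      rw [ev_sum t N q hq, Finset.sum_range]
      refine Finset.sum_congr rfl fun i _ => ?_
      rw [show V t i = _ from Matrix.vandermonde_apply _ _ _, ← Nat.cast_pow, natCast_zsmul]
    simp_rw [h3, Finset.smul_sum, ← mul_smul]
    rw [Finset.sum_comm]
    simp_rw [← Finset.sum_smul, ← Matrix.mul_apply, Matrix.adjugate_mul]
    rw [Finset.sum_eq_single J]
    · simp [J]
    · intro b _ hb; simp [Matrix.one_apply_ne hb.symm]
    · simp
  rw [← h2]
  exact S.sum_mem fun t _ => S.zsmul_mem (h t) _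

lemma ext_ev {m N : ℕ} (hm : (m : R) = 0) (hc : m.Coprime N !) {q q' : R[X]}
    (hq : q.natDegree ≤ N) (hq' : q'.natDegree ≤ N) (h : ∀ t : ℕ, ev t q = ev t q') : q = q' := by
  rw [← sub_eq_zero]
  ext j
  refine vander hm hc ⊥ (q - q') ((natDegree_sub_le _ _).trans (max_le hq hq')) (fun t => ?_) j
  rw [map_sub, h, sub_self]; exact zero_mem _

lemma exists_poly {m N n : ℕ} (hm : (m : R) = 0) (hc : m.Coprime N !) (hn : n ≤ N) (g : R)
    (hg : (g - 1) ^ n = 0) : ∃ q : R[X], q.natDegree ≤ n ∧ ∀ t : ℕ, ev t q = g ^ t := by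
  have h1 : ∀ j : ℕ, ∃ v : ℤ, j ≤ N → (v : R) * (j ! : R) = 1 := by
    intro j
    by_cases hj : j ≤ N
    · obtain ⟨u, v, huv⟩ := Nat.isCoprime_iff_coprime.2
        (Nat.Coprime.coprime_dvd_right (Nat.factorial_dvd_factorial hj) hc)
      refine ⟨v, fun _ => ?_⟩
      have := congrArg (Int.cast : ℤ → R) huv
      push_cast at this
      rwa [hm, mul_zero, zero_add] at this
    · exact ⟨0, fun h => absurd h hj⟩
  choose v hv using h1
  refine ⟨∑ j ∈ Finset.range n, C ((g - 1) ^ j * v j) * (descPochhammer ℤ j).map (Int.castRingHom R),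
    ?_, fun t => ?_⟩
  · refine natDegree_sum_le_of_forall_le _ _ fun j hj => (natDegree_C_mul_le _ _).trans ?_
    refine natDegree_map_le.trans ?_
    rw [descPochhammer_natDegree]; exact (Finset.mem_range.1 hj).le
  · have h2 : ∀ j ∈ Finset.range n, ev t (C ((g - 1) ^ j * v j) *
        (descPochhammer ℤ j).map (Int.castRingHom R)) = (g - 1) ^ j * (t.choose j : R) := by
      intro j hj
      rw [map_mul, ev_C, ev_apply, eval_natCast_map, descPochhammer_eval_eq_descFactorial,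
        Nat.descFactorial_eq_factorial_mul_choose, map_natCast, Nat.cast_mul, mul_assoc,
        ← mul_assoc (v j : R), hv j ((Finset.mem_range.1 hj).le.trans hn), one_mul]
    rw [map_sum, Finset.sum_congr rfl h2]
    have h3 := (Commute.one_right (g - 1)).add_pow t
    rw [sub_add_cancel] at h3
    simp only [one_pow, mul_one] at h3
    rw [h3]
    refine (Finset.sum_subset (Finset.range_mono (Nat.le_add_right n (t + 1))) ?_).trans
      (Finset.sum_subset (Finset.range_mono (Nat.le_add_left (t + 1) n)) ?_).symm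
    · intro j _ hj
      rw [pow_eq_zero_of_le (by simpa using hj) hg, zero_mul]
    · intro j _ hj
      rw [Nat.choose_eq_zero_of_lt (by simpa using hj), Nat.cast_zero, mul_zero]

lemma ev_taylor (s t : ℕ) (q : R[X]) : ev t (taylor (s : R) q) = ev (t + s) q := by
  induction q using Polynomial.induction_on' with
  | add p q hp hq => rw [map_add, map_add, map_add, hp, hq]
  | monomial i k =>
    rw [taylor_monomial, map_mul, map_pow, map_add, ev_C, ev_C, ev_apply, ev_apply, eval_X,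
      eval_monomial, Nat.cast_add]

/-- A filtration shifted by a group: the theorem of Kaloujnine. -/
lemma kalou {E A : Type} [Group E] [AddCommGroup A] (Γ : Subgroup E) (θ : E → A →+ A)
    (h1 : ∀ r, θ 1 r = r) (hθ : ∀ g g' r, θ (g * g') r = θ g (θ g' r)) (S : ℕ → AddSubgroup A)
    (hS : ∀ i, S (i + 1) ≤ S i) (h0 : ∀ g ∈ Γ, ∀ i, ∀ r ∈ S i, θ g r - r ∈ S (i + 1)) (k : ℕ) :
    ∀ g ∈ Γ.lowerCentralSeries k, ∀ i, ∀ r ∈ S i, θ g r - r ∈ S (i + k + 1) := by
  have hi : ∀ g ∈ Γ, ∀ i, ∀ r ∈ S i, θ g r ∈ S i := fun g hg i r hr => by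
    simpa using (S i).add_mem (hS i (h0 g hg i r hr)) hr
  induction k with
  | zero => exact h0
  | succ k ih =>
    let H : Subgroup E :=
      { carrier := {g | g ∈ Γ ∧ ∀ i, ∀ r ∈ S i, θ g r - r ∈ S (i + (k + 1) + 1)}
        one_mem' := ⟨Γ.one_mem, fun i r _ => by rw [h1, sub_self]; exact zero_mem _⟩
        mul_mem' := by
          rintro a b ⟨ha, ha'⟩ ⟨hb, hb'⟩
          refine ⟨Γ.mul_mem ha hb, fun i r hr => ?_⟩
          have := (S _).add_mem (hi a ha _ _ (hb' i r hr)) (ha' i r hr)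
          rwa [map_sub, sub_add_sub_cancel, ← hθ] at this
        inv_mem' := by
          rintro a ⟨ha, ha'⟩
          refine ⟨Γ.inv_mem ha, fun i r hr => ?_⟩
          have := (S _).neg_mem (hi _ (Γ.inv_mem ha) _ _ (ha' i r hr))
          rwa [map_sub, neg_sub, ← hθ, inv_mul_cancel, h1] at this }
    have hle : Γ.lowerCentralSeries k ≤ Γ := Γ.lowerCentralSeries_antitone (Nat.zero_le k)
    have : Γ.lowerCentralSeries (k + 1) ≤ H := by
      rw [Subgroup.lowerCentralSeries_succ, Subgroup.commutator_le]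
      intro g hg z hz
      have hg' := hle hg
      refine ⟨Γ.mul_mem (Γ.mul_mem (Γ.mul_mem hg' hz) (Γ.inv_mem hg')) (Γ.inv_mem hz),
        fun i r hr => ?_⟩
      have hs := hi _ (Γ.mul_mem (Γ.inv_mem hg') (Γ.inv_mem hz)) i r hr
      set s := θ (g⁻¹ * z⁻¹) r with hsd
      have e1 : θ ⁅g, z⁆ r = θ g (θ z s) := by
        rw [hsd, ← hθ, ← hθ, commutatorElement_def]; congr 2; group
      have e2 : r = θ z (θ g s) := by
        rw [hsd, ← hθ, ← hθ, show z * g * (g⁻¹ * z⁻¹) = 1 by group, h1]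
      have a1 := ih g hg _ _ (h0 z hz i s hs)
      have a2 := h0 z hz _ _ (ih g hg i s hs)
      rw [show i + 1 + k + 1 = i + (k + 1) + 1 by ring] at a1
      rw [show i + k + 1 + 1 = i + (k + 1) + 1 by ring] at a2
      have := (S _).sub_mem a1 a2
      rw [map_sub, map_sub, ← e2] at this
      rw [e1]
      convert this using 1
      abel
    exact fun g hg => (this hg).2

end Pool.Agent.MP_b7033c_al.Three.CoreA

end

section

set_option autoImplicit false

namespace Pool.Agent.MP_b7033c_al.Three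

open Polynomial
open scoped Nat commutatorElement

namespace CoreA

variable {R : Type} [Ring R]

/-- The ring commutator. -/
def br (x y : R) : R := x * y - y * x

/-- Lower central series of an additive subgroup closed under commutators. -/
def Fil (S : AddSubgroup R) (i : ℕ) : AddSubgroup R :=
  AddSubgroup.closure {r | ∃ l : List R, l.length = i ∧ (∀ x ∈ l, x ∈ S) ∧
    ∃ y ∈ S, r = l.foldr br y}

lemma br_mem {S T : AddSubgroup R} {x : R} {X : Set R} (h : ∀ y ∈ X, br x y ∈ T)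
    (hS : S ≤ AddSubgroup.closure X) : ∀ y ∈ S, br x y ∈ T := by
  intro y hy
  have hy' := hS hy
  clear hy
  induction hy' using AddSubgroup.closure_induction with
  | mem y hy => exact h y hy
  | zero => simp [br]
  | add a b _ _ ha hb =>
    convert T.add_mem ha hb using 1
    simp only [br]; noncomm_ring
  | neg a _ ha =>
    convert T.neg_mem ha using 1
    simp only [br]; noncomm_ring

lemma fil_zero {S : AddSubgroup R} {y : R} (hy : y ∈ S) : y ∈ Fil S 0 :=
  AddSubgroup.subset_closure ⟨[], rfl, by simp, y, hy, rfl⟩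

lemma fil_br {S : AddSubgroup R} {x : R} (hx : x ∈ S) (i : ℕ) :
    ∀ y ∈ Fil S i, br x y ∈ Fil S (i + 1) := by
  refine br_mem ?_ le_rfl
  rintro _ ⟨l, hl, hm, y, hy, rfl⟩
  refine AddSubgroup.subset_closure ⟨x :: l, by simp [hl], ?_, y, hy, rfl⟩
  intro z hz
  rcases List.mem_cons.1 hz with rfl | hz
  exacts [hx, hm z hz]

lemma fil_anti {S : AddSubgroup R} (hS : ∀ x ∈ S, ∀ y ∈ S, br x y ∈ S) (i : ℕ) :
    Fil S (i + 1) ≤ Fil S i := by
  refine AddSubgroup.closure_mono ?_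
  rintro _ ⟨l, hl, hm, y, hy, rfl⟩
  rcases List.eq_nil_or_concat' l with rfl | ⟨l', x, rfl⟩
  · simp at hl
  · refine ⟨l', by simpa using hl, fun z hz => hm z (by simp [hz]), br x y,
      hS x (hm x (by simp)) y hy, by simp⟩

lemma fil_bot {p h m : ℕ} (H : LieH p h) (hmp : m.Coprime p) (hm : (m : R) = 0)
    {S : AddSubgroup R} (hS : ∀ x ∈ S, ∀ y ∈ S, br x y ∈ S) (β : R →+ R)
    (hβ : ∀ x ∈ S, β x ∈ S) (hb : ∀ x y, β (br x y) = br (β x) (β y))
    (hN : ∀ x ∈ S, ∑ i ∈ Finset.range p, β^[i] x = 0) : Fil S h = ⊥ := by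
  let _ : LieRing S :=
    { bracket := fun x y => ⟨br x.1 y.1, hS _ x.2 _ y.2⟩
      add_lie := fun x y z => Subtype.ext (by
        show br (x.1 + y.1) z.1 = br x.1 z.1 + br y.1 z.1
        simp only [br]; noncomm_ring)
      lie_add := fun x y z => Subtype.ext (by
        show br x.1 (y.1 + z.1) = br x.1 y.1 + br x.1 z.1
        simp only [br]; noncomm_ring)
      lie_self := fun x => Subtype.ext (sub_self _)
      leibniz_lie := fun x y z => Subtype.ext (by
        show br x.1 (br y.1 z.1) = br (br x.1 y.1) z.1 + br y.1 (br x.1 z.1)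
        simp only [br]; noncomm_ring) }
  let ψ : S →+ S := (β.comp S.subtype).codRestrict S (fun x => hβ x x.2)
  have hit : ∀ i (x : S), ((ψ^[i] x : S) : R) = β^[i] x := by
    intro i
    induction i with
    | zero => intro x; rfl
    | succ i ih => intro x; rw [Function.iterate_succ_apply, ih, Function.iterate_succ_apply]; rfl
  have key := H S ψ m hmp (fun x => Subtype.ext (by
      show m • (x : R) = 0
      rw [nsmul_eq_mul, hm, zero_mul])) (fun x y => Subtype.ext (hb x y))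
    (fun x => Subtype.ext (by
      rw [AddSubgroup.val_finsetSum]; simp_rw [hit]; exact hN x x.2))
  have hf : ∀ (l : List S) (y : S), ((l.foldr (fun x z => ⁅x, z⁆) y : S) : R) =
      (l.map Subtype.val).foldr br y.1 := by
    intro l y
    induction l with
    | nil => rfl
    | cons x l ih => rw [List.map_cons, List.foldr_cons, List.foldr_cons, ← ih]; rfl
  rw [eq_bot_iff, Fil, AddSubgroup.closure_le]
  rintro _ ⟨l, hl, hm, y, hy, rfl⟩
  have := hf (l.attachWith _ hm) ⟨y, hy⟩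
  rw [key _ (by simpa using hl), List.attachWith_map_subtype_val] at this
  exact this.symm

/-- Conjugation by the image of a group element. -/
def th {E : Type} [Group E] (ρ : E →* R) (g : E) : R →+ R where
  toFun r := ρ g * r * ρ g⁻¹
  map_zero' := by simp
  map_add' a b := by noncomm_ring

lemma th_apply {E : Type} [Group E] (ρ : E →* R) (g : E) (r : R) :
    th ρ g r = ρ g * r * ρ g⁻¹ := rfl

lemma th_one {E : Type} [Group E] (ρ : E →* R) (r : R) : th ρ 1 r = r := by simp [th_apply]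

lemma th_mul {E : Type} [Group E] (ρ : E →* R) (g g' : E) (r : R) :
    th ρ (g * g') r = th ρ g (th ρ g' r) := by simp [th_apply, mul_assoc]

lemma th_br {E : Type} [Group E] (ρ : E →* R) (g : E) (x y : R) :
    th ρ g (br x y) = br (th ρ g x) (th ρ g y) := by
  have : ∀ r, ρ g⁻¹ * (ρ g * r) = r := fun r => by
    rw [← mul_assoc, ← map_mul, inv_mul_cancel, map_one, one_mul]
  simp only [th_apply, br, mul_assoc, this, mul_sub, sub_mul]

lemma th_iter {E : Type} [Group E] (ρ : E →* R) (g : E) (i : ℕ) (r : R) :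
    (th ρ g)^[i] r = th ρ (g ^ i) r := by
  induction i with
  | zero => simp [th_one]
  | succ i ih => rw [Function.iterate_succ_apply', ih, pow_succ', th_mul]

lemma deg3 {a b : R[X]} {n : ℕ} (ha : a.natDegree ≤ n) (hb : b.natDegree ≤ n) (r : R) :
    (a * C r * b).natDegree ≤ 2 * n :=
  natDegree_mul_le.trans (by have := natDegree_mul_C_le a r; omega)

end CoreA

open CoreA

theorem core (p h : ℕ) (hp : p.Prime) (H : LieH p h) : Core p (h + 1) := by
  intro n E _ R _ ρ Γ c m hc hm hcΓ hsp hu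
  have h2 := hp.two_le
  have hN : 2 * n ≤ p * (n + 1) := by nlinarith
  have hn : n ≤ p * (n + 1) := by omega
  have hex : ∀ y : E, ∃ q : R[X], y ∈ Γ → q.natDegree ≤ n ∧ ∀ t : ℕ, ev t q = ρ (y ^ t) := by
    intro y
    by_cases hy : y ∈ Γ
    · obtain ⟨q, h1, h3⟩ := exists_poly hm hc hn _ (hu y hy)
      exact ⟨q, fun _ => ⟨h1, fun t => by rw [h3, map_pow]⟩⟩
    · exact ⟨0, fun h => absurd h hy⟩
  choose Q hQ using hex
  let D : E → R := fun y => (Q y).coeff 1
  have c0 : ∀ y ∈ Γ, (Q y).coeff 0 = 1 := fun y hy => by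
    rw [← ev_zero, (hQ y hy).2, pow_zero, map_one]
  have hconj : ∀ g : E, ∀ y ∈ Γ, g * y * g⁻¹ ∈ Γ → D (g * y * g⁻¹) = th ρ g (D y) := by
    intro g y hy hg
    have : Q (g * y * g⁻¹) = C (ρ g) * Q y * C (ρ g⁻¹) := by
      refine ext_ev hm hc ((hQ _ hg).1.trans hn) (((natDegree_mul_C_le _ _).trans
        ((natDegree_C_mul_le _ _).trans (hQ y hy).1)).trans hn) fun t => ?_
      rw [(hQ _ hg).2, map_mul (ev t), map_mul (ev t), ev_C, ev_C, (hQ y hy).2, conj_pow,
        map_mul, map_mul]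
    simp only [D, this, coeff_mul_C, coeff_C_mul, th_apply]
  have hinv : ∀ y ∈ Γ, D y⁻¹ = -D y := by
    intro y hy
    have hy' := Γ.inv_mem hy
    have : Q y * Q y⁻¹ = 1 := by
      refine ext_ev hm hc (natDegree_mul_le.trans ?_) (by simp) fun t => ?_
      · have := (hQ y hy).1; have := (hQ _ hy').1; omega
      · rw [map_mul, (hQ y hy).2, (hQ _ hy').2, ← map_mul, inv_pow, mul_inv_cancel, map_one,
          map_one]
    have h3 := congrArg (fun q => coeff q 1) this
    simp only [mul_coeff_one, c0 y hy, c0 _ hy', one_mul, mul_one, coeff_one] at h3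
    exact eq_neg_of_add_eq_zero_left h3
  have hnorm : ∀ y ∈ Γ, ∑ i ∈ Finset.range p, (th ρ c)^[i] (D y) = 0 := by
    intro y hy
    have h3 : (Q y * C (ρ c)) ^ p = 1 := by
      refine ext_ev hm hc (natDegree_pow_le.trans (Nat.mul_le_mul_left _ ?_)) (by simp)
        fun t => ?_
      · have := (hQ y hy).1; have := natDegree_mul_C_le (Q y) (ρ c); omega
      · rw [map_pow, map_mul, ev_C, (hQ y hy).2, ← map_mul, ← map_pow,
          hsp _ (Γ.pow_mem hy t), map_one, map_one]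
    have h4 : ∀ k : ℕ, ((Q y * C (ρ c)) ^ k).coeff 0 = ρ (c ^ k) ∧
        ((Q y * C (ρ c)) ^ k).coeff 1 =
          (∑ i ∈ Finset.range k, (th ρ c)^[i] (D y)) * ρ (c ^ k) := by
      intro k
      induction k with
      | zero => simp [coeff_one]
      | succ k ih =>
        rw [pow_succ, mul_coeff_zero, mul_coeff_one, ih.1, ih.2, coeff_mul_C, coeff_mul_C,
          c0 y hy, one_mul, pow_succ, map_mul, Finset.sum_range_succ, th_iter, th_apply, add_mul,
          add_comm]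
        refine ⟨rfl, ?_⟩
        simp only [mul_assoc]
        rw [← mul_assoc (ρ (c ^ k)⁻¹), ← map_mul ρ (c ^ k)⁻¹, inv_mul_cancel, map_one, one_mul]
    have h5 := (h4 p).2
    have h6 := hsp 1 Γ.one_mem
    rw [one_mul] at h6
    rw [h3, h6, map_one, mul_one] at h5
    rw [← h5, coeff_one]; rfl
  -- the polynomial of the conjugation action
  let F : E → R → R[X] := fun z r => Q z * C r * Q z⁻¹
  have Fd : ∀ z ∈ Γ, ∀ r, (F z r).natDegree ≤ p * (n + 1) := fun z hz r =>
    (deg3 (hQ z hz).1 (hQ _ (Γ.inv_mem hz)).1 r).trans hN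
  have Fe : ∀ z ∈ Γ, ∀ r t, ev t (F z r) = th ρ (z ^ t) r := fun z hz r t => by
    simp only [F, map_mul, ev_C, (hQ z hz).2, (hQ _ (Γ.inv_mem hz)).2, th_apply, inv_pow]
  have F0 : ∀ z ∈ Γ, ∀ r, (F z r).coeff 0 = r := fun z hz r => by
    rw [← ev_zero, Fe z hz, pow_zero, th_one]
  have F1 : ∀ z ∈ Γ, ∀ r, (F z r).coeff 1 = br (D z) r := fun z hz r => by
    have := hinv z hz
    simp only [D] at this
    simp only [F]
    rw [mul_coeff_one, coeff_mul_C, coeff_mul_C, c0 z hz, c0 _ (Γ.inv_mem hz), this]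
    simp only [br, D]
    noncomm_ring
  have Fder : ∀ z ∈ Γ, ∀ r, ∀ j : ℕ,
      (j + 1 : ℤ) • (F z r).coeff (j + 1) = br (D z) ((F z r).coeff j) := by
    intro z hz r j
    have h3 : derivative (F z r) = C (D z) * F z r - F z r * C (D z) := by
      refine ext_ev hm hc ((natDegree_derivative_le _).trans ((Nat.sub_le _ _).trans (Fd z hz r)))
        ((natDegree_sub_le _ _).trans (max_le ((natDegree_C_mul_le _ _).trans (Fd z hz r))
          ((natDegree_mul_C_le _ _).trans (Fd z hz r)))) fun s => ?_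
      have h4 : taylor (s : R) (F z r) = F z (th ρ (z ^ s) r) := by
        refine ext_ev hm hc (by rw [natDegree_taylor]; exact Fd z hz r) (Fd z hz _) fun t => ?_
        rw [ev_taylor, Fe z hz, Fe z hz, pow_add, th_mul]
      rw [ev_apply, ← taylor_coeff_one, h4, F1 z hz, map_sub, map_mul _ (C _),
        map_mul _ _ (C (D z)), ev_C, Fe z hz, br]
    have h5 := congrArg (fun q => coeff q j) h3
    simp only [coeff_derivative, coeff_sub, coeff_C_mul, coeff_mul_C] at h5
    rw [br, ← h5, zsmul_eq_mul']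
    push_cast; rfl
  have shift : ∀ z ∈ Γ, ∀ T : AddSubgroup R, (∀ y ∈ T, br (D z) y ∈ T) → ∀ r, br (D z) r ∈ T →
      th ρ z r - r ∈ T := by
    intro z hz T hT r hr
    have h3 : ∀ j, (F z r).coeff (j + 1) ∈ T := by
      intro j
      induction j with
      | zero => rwa [F1 z hz]
      | succ j ih =>
        by_cases hj : p * (n + 1) < j + 1 + 1
        · rw [coeff_eq_zero_of_natDegree_lt ((Fd z hz r).trans_lt hj)]; exact T.zero_mem
        · refine inv_mem hm (cop hc (Nat.succ_pos (j + 1)) (not_lt.1 hj)) T ?_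
          have := Fder z hz r (j + 1)
          rw [Nat.succ_eq_add_one, Nat.cast_add_one, this]
          exact hT _ ih
    have h4 := Fe z hz r 1
    rw [ev_sum 1 _ _ (Fd z hz r), Finset.sum_range_succ', F0 z hz, pow_one] at h4
    simp only [one_pow, one_smul] at h4
    rw [← h4, add_sub_cancel_right]
    exact T.sum_mem fun j _ => h3 j
  let S : AddSubgroup R := AddSubgroup.closure (D '' Γ)
  have DS : ∀ y ∈ Γ, D y ∈ S := fun y hy => AddSubgroup.subset_closure ⟨y, hy, rfl⟩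
  have thS : ∀ g : E, (∀ y ∈ Γ, g * y * g⁻¹ ∈ Γ) → ∀ x ∈ S, th ρ g x ∈ S := by
    intro g hg
    have : S ≤ S.comap (th ρ g) := by
      rw [AddSubgroup.closure_le]
      rintro _ ⟨y, hy, rfl⟩
      show th ρ g (D y) ∈ S
      rw [← hconj g y hy (hg y hy)]; exact DS _ (hg y hy)
    exact this
  have hS : ∀ x ∈ S, ∀ y ∈ S, br x y ∈ S := by
    intro x hx y hy
    have h3 : ∀ z ∈ D '' Γ, br y z ∈ S := by
      rintro _ ⟨z, hz, rfl⟩
      have h4 := vander hm hc S _ (Fd z hz y) (fun t => by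
        rw [Fe z hz]
        exact thS _ (fun w hw => Γ.mul_mem (Γ.mul_mem (Γ.pow_mem hz t) hw)
          (Γ.inv_mem (Γ.pow_mem hz t))) y hy) 1
      rw [F1 z hz] at h4
      simpa [br] using S.neg_mem h4
    simpa [br] using S.neg_mem (br_mem h3 le_rfl x hx)
  have hbot : Fil S h = ⊥ := by
    refine fil_bot H (Nat.Coprime.coprime_dvd_right (Nat.dvd_factorial hp.pos (by nlinarith)) hc)
      hm hS (th ρ c) (thS c hcΓ) (th_br ρ c) fun x hx => ?_
    induction hx using AddSubgroup.closure_induction with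
    | mem y hy => obtain ⟨y, hy, rfl⟩ := hy; exact hnorm y hy
    | zero => simp [th_iter]
    | add a b _ _ ha hb =>
      simp only [th_iter, map_add, Finset.sum_add_distrib] at ha hb ⊢
      rw [ha, hb, add_zero]
    | neg a _ ha =>
      simp only [th_iter, map_neg, Finset.sum_neg_distrib] at ha ⊢
      rw [ha, neg_zero]
  have kal := kalou Γ (th ρ) (th_one ρ) (th_mul ρ) (Fil S) (fil_anti hS) (fun z hz i r hr =>
    shift z hz _ (fun y hy => fil_anti hS _ (fil_br (DS z hz) _ y hy)) r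
      (fil_br (DS z hz) _ r hr)) h
  have : Γ.lowerCentralSeries (h + 1) ≤ ρ.toHomUnits.ker := by
    rw [Subgroup.lowerCentralSeries_succ, Subgroup.commutator_le]
    intro g hg y hy
    have h3 := fil_anti hS _ (show _ ∈ Fil S (h + 1) by
      simpa using kal g hg 0 _ (fil_zero (DS y hy)))
    rw [hbot, AddSubgroup.mem_bot, sub_eq_zero, th_apply] at h3
    have h4 : br (D y) (ρ g) = 0 := by
      rw [br, sub_eq_zero]
      conv_lhs => rw [← h3, mul_assoc, ← map_mul, inv_mul_cancel, map_one, mul_one]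
    have h5 := shift y hy ⊥ (fun w hw => by simp [AddSubgroup.mem_bot.1 hw, br]) _ h4
    rw [AddSubgroup.mem_bot, sub_eq_zero, th_apply, ← map_mul, ← map_mul] at h5
    rw [MonoidHom.mem_ker, Units.ext_iff, MonoidHom.coe_toHomUnits,
      show ⁅g, y⁆ = g * (y * g * y⁻¹)⁻¹ by rw [commutatorElement_def]; group]
    have h6 : ρ (y * g * y⁻¹)⁻¹ = ρ g⁻¹ := by
      have := (ρ.toHomUnits.map_inv (y * g * y⁻¹))
      rw [show ρ.toHomUnits (y * g * y⁻¹) = ρ.toHomUnits g from Units.ext h5, ← map_inv] at this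
      exact congrArg Units.val this
    rw [map_mul, h6, ← map_mul, mul_inv_cancel, map_one, Units.val_one]
  intro y hy
  exact congrArg Units.val (MonoidHom.mem_ker.1 (this hy))

end Pool.Agent.MP_b7033c_al.Three

end

section

set_option autoImplicit false

namespace Pool.Agent.MP_b7033c_al.Three

open scoped Nat commutatorElement
open SumA GenA

/-- The locally finite radical. -/
lemma exists_radical {G : Type} [Group G] : ∃ R : Subgroup G, R.Normal ∧ LF R ∧
    ∀ K : Subgroup G, K.Normal → LF K → K ≤ R := by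
  let N : Set (Subgroup G) := {K | K.Normal ∧ LF K}
  have hb : ⊥ ∈ N := ⟨inferInstance, fun s _ hs =>
    ((Set.finite_singleton 1).subset ((Subgroup.closure_le ⊥).2 hs)).to_subtype⟩
  have hd : DirectedOn (· ≤ ·) N := by
    rintro A ⟨a2, a3⟩ B ⟨b2, b3⟩
    obtain ⟨M, hM, hM'⟩ := a3.sup b3 fun h _ k hk => by simpa [cj] using b2.conj_mem k hk h⁻¹
    refine ⟨M, ⟨⟨fun x hx f => ?_⟩, hM'⟩,
      fun x hx => (hM x).2 ⟨x, hx, 1, one_mem _, by simp⟩,
      fun x hx => (hM x).2 ⟨1, one_mem _, x, hx, by simp⟩⟩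
    obtain ⟨h, hh, k, hk, rfl⟩ := (hM x).1 hx
    exact (hM _).2 ⟨_, a2.conj_mem h hh f, _, b2.conj_mem k hk f, by group⟩
  have mem : ∀ x, x ∈ sSup N ↔ ∃ K ∈ N, x ∈ K := fun x =>
    Subgroup.mem_sSup_of_directedOn ⟨_, hb⟩ hd
  refine ⟨sSup N, ⟨fun x hx g => ?_⟩, fun s hs hsR => ?_, fun K h1 h2 => le_sSup ⟨h1, h2⟩⟩
  · obtain ⟨K, hK, hx⟩ := (mem x).1 hx
    exact (mem _).2 ⟨K, hK, hK.1.conj_mem x hx g⟩
  · have : ∃ K ∈ N, s ⊆ K := by
      induction s, hs using Set.Finite.induction_on with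
      | empty => exact ⟨⊥, hb, by simp⟩
      | insert _ _ ih =>
        obtain ⟨h1, h2⟩ := Set.insert_subset_iff.1 hsR
        obtain ⟨A, hA, h3⟩ := ih h2
        obtain ⟨B, hB, h4⟩ := (mem _).1 h1
        obtain ⟨M, hM, h5, h6⟩ := hd A hA B hB
        exact ⟨M, hM, Set.insert_subset_iff.2 ⟨h6 h4, h3.trans h5⟩⟩
    obtain ⟨K, hK, h⟩ := this
    exact hK.2 s hs h

lemma normal_closure_conj {G : Type} [Group G] {X : Set G} (h : ∀ g, ∀ x ∈ X, g * x * g⁻¹ ∈ X) :
    (Subgroup.closure X).Normal := ⟨fun x hx g => by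
  have : Subgroup.closure X ≤ (Subgroup.closure X).comap (MulAut.conj g).toMonoidHom :=
    (Subgroup.closure_le _).2 fun y hy => Subgroup.subset_closure (h g y hy)
  exact this hx⟩

lemma exists_split (m : ℕ) : ∀ o : ℕ, 0 < o → ∃ j k : ℕ, k.Coprime m ∧ o ∣ m ^ j * k := by
  intro o
  induction o using Nat.strong_induction_on with
  | _ o ih =>
    intro ho
    by_cases h : o.Coprime m
    · exact ⟨0, o, h, by simp⟩
    obtain ⟨u, hu⟩ := Nat.gcd_dvd_left o m
    have h1 : 0 < u := Nat.pos_of_mul_pos_left (hu ▸ ho)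
    have h2 : 1 < o.gcd m := lt_of_le_of_ne (Nat.gcd_pos_of_pos_left m ho) (Ne.symm h)
    obtain ⟨j, k, h3, h4⟩ := ih u (by nlinarith) h1
    refine ⟨j + 1, k, h3, ?_⟩
    rw [hu, pow_succ', mul_assoc]
    exact Nat.mul_dvd_mul (Nat.gcd_dvd_right _ _) h4

lemma fin_sub {G : Type} [Group G] {S T : Set G} (h1 : Finite (Subgroup.closure T))
    (h2 : S ⊆ Subgroup.closure T) : Finite (Subgroup.closure S) :=
  Finite.of_injective _ (Subgroup.inclusion_injective ((Subgroup.closure_le _).2 h2))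

theorem final2 {p n : ℕ} (hp : p.Prime) (HL : LieH p n) (HF : FinG p n) (hN : NilPN) :
    ∃ e : ℕ, 0 < e ∧ ∀ (G : Type) [Group G] (F : Subgroup G) [F.Normal] (a : G), a ∉ F →
    (∀ c, c ∉ F → c ^ p = 1) → (∀ y ∈ F, Cop p y) →
    (∀ c d, c ∉ F → d ∉ F → Finite (Subgroup.closure {c, d})) → ∀ s : Set G, s.Finite →
    (∀ z ∈ s, ∃ x ∈ F, z = x ^ e ∧
      ∀ c d, c ∉ F → d ∉ F → Finite (Subgroup.closure {x, c, d})) →
    Finite (Subgroup.closure s) := by
  have HC := core p n hp HL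
  obtain ⟨B, hB1, hB2⟩ : ∃ B, 2 ^ n ≤ B ∧ p * (n + 1) ≤ B :=
    ⟨2 ^ n + p * (n + 1), Nat.le_add_right _ _, Nat.le_add_left _ _⟩
  refine ⟨B ! ^ n, pow_pos B.factorial_pos n, fun G _ F hF a ha hc hb hfin s hs hs3 => ?_⟩
  have hout : ∀ c, c ∉ F → ∀ y ∈ F, y * c ∉ F := fun c h1 y hy h =>
    h1 (by simpa using F.mul_mem (F.inv_mem hy) h)
  have hper : ∀ y ∈ F, IsOfFinOrder y := fun y hy => by
    obtain ⟨k, hk, h⟩ := hb y hy
    refine isOfFinOrder_iff_pow_eq_one.2 ⟨k, Nat.pos_of_ne_zero ?_, h⟩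
    rintro rfl
    exact hp.one_lt.ne' (by simpa using hk)
  have hker : ∀ (L : Subgroup G) (c : G), Finite L → c ∈ L → c ∉ F → Finite (L ⊓ F : Subgroup G) ∧
      (∀ w ∈ L ⊓ F, c * w * c⁻¹ ∈ L ⊓ F) ∧ (L ⊓ F).lowerCentralSeries n = ⊥ := by
    intro L c _ hcL h1
    have hf : Finite (L ⊓ F : Subgroup G) :=
      Finite.of_injective _ (Subgroup.inclusion_injective inf_le_left)
    have hcc : ∀ w ∈ L ⊓ F, c * w * c⁻¹ ∈ L ⊓ F := fun w hw =>
      ⟨L.mul_mem (L.mul_mem hcL hw.1) (L.inv_mem hcL), hF.conj_mem w hw.2 c⟩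
    exact ⟨hf, hcc, HF G _ c hf (fun w hw => hb w hw.2) hcc fun w hw => hc _ (hout c h1 w hw.2)⟩
  have hbig : ∀ (g y : G), Big B y → Big B (g * y * g⁻¹) := fun g y ⟨k, h1, h2⟩ =>
    ⟨k, h1, by rw [conj_pow, h2, mul_one, mul_inv_cancel]⟩
  let Y : Set G := {y | y ∈ F ∧ Big B y}
  have hY : ∀ g, ∀ y ∈ Y, g * y * g⁻¹ ∈ Y := fun g y hy => ⟨hF.conj_mem y hy.1 g, hbig g y hy.2⟩
  let X : Set G := {x | x ∈ Y ∧ Xp F Y n x}
  have hX : ∀ x ∈ Y, (∀ c d, c ∉ F → d ∉ F → Finite (Subgroup.closure {x, c, d})) → x ∈ X := by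
    intro x hx hx3
    refine ⟨hx, fun c h1 z hz => ?_⟩
    let L := Subgroup.closure ({x, c, z * c} : Set G)
    have hcL : c ∈ L := Subgroup.subset_closure (by simp)
    obtain ⟨k1, k2, k3⟩ := hker L c (hx3 c _ h1 (hout c h1 z hz.1)) hcL h1
    have hnil := (Subgroup.isNilpotent_iff_lowerCentralSeries _).2 ⟨n, k3⟩
    let K : Subgroup G :=
      { carrier := {w | w ∈ L ⊓ F ∧ Big B w}
        one_mem' := ⟨one_mem _, 1, by simp, by simp⟩
        inv_mem' := fun {w} ⟨h2, k, h3, h4⟩ => ⟨inv_mem h2, k, h3, by rw [inv_pow, h4, inv_one]⟩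
        mul_mem' := fun {u v} ⟨h2, k, h3, h4⟩ ⟨h5, l, h6, h7⟩ => by
          refine ⟨mul_mem h2 h5, _, Nat.coprime_of_dvd fun r hr h8 h9 => ?_, pow_orderOf_eq_one _⟩
          have := hN (L ⊓ F : Subgroup G) r hr hnil ⟨u, h2⟩ (Subgroup.mem_top _) ⟨v, h5⟩
            (Subgroup.mem_top _) (cop_of_pow (h3.coprime_dvd_right h9) (Subtype.ext h4))
            (cop_of_pow (h6.coprime_dvd_right h9) (Subtype.ext h7))
          rw [← Subgroup.orderOf_coe] at this
          exact hr.one_lt.ne' (Nat.eq_one_of_dvd_coprimes this h8 dvd_rfl) }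
    have hle : K ≤ L ⊓ F := fun w hw => hw.1
    have hKf : Finite K := Finite.of_injective _ (Subgroup.inclusion_injective hle)
    refine ⟨K, ⟨hKf, eq_bot_iff.2 (k3 ▸ Subgroup.lowerCentralSeries_mono n hle),
      cop_mono (card_cop K fun w hw => hw.2) hB1⟩, fun w hw => ⟨hw.1.2, hw.2⟩,
      ⟨⟨Subgroup.subset_closure (by simp), hx.1⟩, hx.2⟩, ⟨⟨?_, hz.1⟩, hz.2⟩,
      fun w hw => ⟨k2 w hw.1, hbig c w hw.2⟩⟩
    simpa using L.mul_mem (Subgroup.subset_closure (by simp) : z * c ∈ L) (L.inv_mem hcL)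
  obtain ⟨R, hRn, hRl, hR⟩ := exists_radical (G := G)
  have hXR : Subgroup.closure X ≤ R := by
    have hle : Subgroup.closure X ≤ F := (Subgroup.closure_le _).2 fun x hx => hx.1.1
    refine hR _ (normal_closure_conj fun g x hx => ⟨hY g x hx.1, hx.2.conj hY g⟩)
      (nilLF G _ (n + 1 + 1) ?_ fun x hx => hper x (hle hx))
    rw [Subgroup.lowerCentralSeries_succ, eq_bot_iff, Subgroup.commutator_le]
    intro y hy x hx
    have h1 : Subgroup.closure X ≤ Subgroup.centralizer {y} :=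
      (Subgroup.closure_le _).2 fun z hz => Subgroup.mem_centralizer_singleton_iff.2
        (trick ha hY hp hB2 HC HF hc hb (fun _ h => h.1) ⟨F.one_mem, 1, by simp, by simp⟩
          (fun w hw => hfin _ _ ha (hout a ha w hw)) hz.2 hz.1.2 y
          (Subgroup.lowerCentralSeries_mono _ hle hy))
    exact (show Commute x y from
      Subgroup.mem_centralizer_singleton_iff.1 (h1 hx)).symm.commutator_eq
  have hpow : ∀ (m : ℕ), ∀ w ∈ F, w ^ m ^ (n + 1) ∈ R → w ^ m ^ n ∈ R := by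
    intro m w hw h1
    let π := QuotientGroup.mk' R
    let τ : G → G ⧸ R := fun g => π (g * w ^ m ^ n * g⁻¹)
    have t3 := comm_all hp ha (hc a ha) π τ
      (fun g h => by simp only [τ, ← map_inv, ← map_mul]; congr 1; group)
      (fun g => by
        simp only [τ, ← map_mul, ← map_pow]
        rw [hc _ (hout a ha _ (hF.conj_mem _ (F.pow_mem hw _) g)), map_one])
      (fun g c h2 => by
        have hw' := hF.conj_mem w hw g
        let L := Subgroup.closure ({c, g * w * g⁻¹ * c} : Set G)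
        have hcL : c ∈ L := Subgroup.subset_closure (by simp)
        obtain ⟨-, k2, k3⟩ := hker L c (hfin _ _ h2 (hout c h2 _ hw')) hcL h2
        have k4 : g * w * g⁻¹ ∈ L ⊓ F := ⟨by
          simpa using L.mul_mem (Subgroup.subset_closure (by simp) : g * w * g⁻¹ * c ∈ L)
            (L.inv_mem hcL), hw'⟩
        have k5 := pow_comm (H := (L ⊓ F).map π) (m := m)
          (by rw [← Subgroup.map_lowerCentralSeries, k3, Subgroup.map_bot])
          (Subgroup.mem_map_of_mem π k4)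
          (Subgroup.mem_map_of_mem π (k2 _ (pow_mem k4 (m ^ n)))) (by
            rw [← map_pow, conj_pow, ← pow_mul, ← pow_succ, conj_pow]
            exact (QuotientGroup.eq_one_iff _).2 (hRn.conj_mem _ (hRn.conj_mem _ h1 g) c))
        rw [← map_pow, conj_pow] at k5
        convert k5 using 2
        group)
    have h3 : (Subgroup.closure (Set.range τ)).Normal := normal_closure_conj (by
      rintro g _ ⟨h, rfl⟩
      obtain ⟨g, rfl⟩ := QuotientGroup.mk'_surjective R g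
      exact ⟨g * h, by simp only [τ, π, ← map_inv, ← map_mul]; congr 1; group⟩)
    have h4 := LF.comap hRl (lf_comm (X := Set.range τ)
      (by rintro _ ⟨g, rfl⟩ _ ⟨h, rfl⟩; exact t3 g h)
      (by rintro _ ⟨g, rfl⟩; exact π.isOfFinOrder (hper _ (hF.conj_mem _ (F.pow_mem hw _) g))))
    exact hR _ (h3.comap π) h4 (Subgroup.subset_closure ⟨1, by simp [τ, π]⟩)
  refine hRl s hs fun z hz => ?_
  obtain ⟨x, hx, rfl, hx3⟩ := hs3 z hz
  obtain ⟨j, k, h1, h2⟩ := exists_split B ! _ (hper x hx).orderOf_pos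
  have h3 : x ^ B ! ^ (n + j) ∈ R := by
    rw [add_comm, pow_add, pow_mul]
    refine pow_mem (hXR (Subgroup.subset_closure (hX _ ⟨F.pow_mem hx _, k, h1, ?_⟩
      fun c d h4 h5 => fin_sub (hx3 c d h4 h5) ?_))) _
    · rw [← pow_mul]; exact orderOf_dvd_iff_pow_eq_one.1 h2
    · rw [Set.insert_subset_iff, Set.insert_subset_iff, Set.singleton_subset_iff]
      exact ⟨pow_mem (Subgroup.subset_closure (by simp)) _, Subgroup.subset_closure (by simp),
        Subgroup.subset_closure (by simp)⟩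
  clear h2
  induction j with
  | zero => exact h3
  | succ j ih =>
    refine ih ?_
    have := hpow B ! (x ^ B ! ^ j) (F.pow_mem hx _) (by
      rwa [← pow_mul, ← pow_add, show j + (n + 1) = n + (j + 1) by ring])
    rwa [← pow_mul, ← pow_add, add_comm] at this

end Pool.Agent.MP_b7033c_al.Three

end
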