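import Pool.Agent.Mg.Fb7033cp.G900cc2

set_option linter.all false

set_option autoImplicit false

namespace Pool.Agent.MP_b7033c_al.Three

namespace HHA

theorem pn_of_center {H : Type} [Group H] [Finite H] {r : ℕ}
    (h : (Subgroup.center H).index.Coprime r) : PN r (⊤ : Subgroup H) := by
  intro x _ y _ hx hy
  have h1 := cop_map (MonoidHom.transferCenterPow H) hx
  have h2 := cop_map (MonoidHom.transferCenterPow H) hy
  have h3 : MonoidHom.transferCenterPow H (x * y) ^ (orderOf (MonoidHom.transferCenterPow H x) *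
      orderOf (MonoidHom.transferCenterPow H y)) = 1 := by
    have c : Commute (MonoidHom.transferCenterPow H x) (MonoidHom.transferCenterPow H y) :=
      Subtype.ext (Subgroup.mem_center_iff.1 (MonoidHom.transferCenterPow H y).2 _)
    rw [map_mul, c.mul_pow, pow_mul, pow_orderOf_eq_one, one_pow, pow_mul', pow_orderOf_eq_one,
      one_pow, one_mul]
  have h4 := congrArg Subtype.val h3
  rw [Subgroup.coe_pow, MonoidHom.transferCenterPow_apply, ← pow_mul] at h4
  exact cop_of_pow (h.mul_left (h1.mul_left h2)) h4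

end HHA

theorem hh : HH := by
  intro G _ _ r hr U _ _ hW hQ hK
  obtain ⟨D, hD⟩ : ∃ D : Subgroup G, D = Subgroup.centralizer (U : Set G) ⊓
      hQ.core.comap (QuotientGroup.mk' U) := ⟨_, rfl⟩
  have mD : ∀ y : G, y ∈ D ↔ y ∈ Subgroup.centralizer (U : Set G) ∧
      QuotientGroup.mk' U y ∈ hQ.core := fun y => by rw [hD]; rfl
  have h1 : U.subgroupOf D ≤ Subgroup.center D := fun x hx => by
    rw [Subgroup.mem_center_iff]
    intro y
    have hy : (y : G) ∈ Subgroup.centralizer (U : Set G) := ((mD _).1 y.2).1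
    exact Subtype.ext (hy x hx).symm
  have h2 : (U.subgroupOf D).index ∣ Nat.card hQ.core := by
    have e : U.subgroupOf D = ((QuotientGroup.mk' U).comp D.subtype).ker := by
      rw [← MonoidHom.comap_ker, QuotientGroup.ker_mk']
      rfl
    rw [e, Subgroup.index_ker]
    refine Subgroup.card_dvd_of_le ?_
    rintro _ ⟨y, rfl⟩
    exact ((mD _).1 y.2).2
  have h3 := HHA.pn_of_center
    (hQ.card_core.coprime_dvd_left ((Subgroup.index_dvd_of_le h1).trans h2))
  have h4 : PN r (Subgroup.centralizer (U : Set G)) := fun x hx y hy a b => by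
    have hx' : x ∈ D := (mD _).2 ⟨hx, Subgroup.mem_top _, cop_map _ a⟩
    have hy' : y ∈ D := (mD _).2 ⟨hy, Subgroup.mem_top _, cop_map _ b⟩
    exact cop_map D.subtype (h3 ⟨x, hx'⟩ (Subgroup.mem_top _) ⟨y, hy'⟩ (Subgroup.mem_top _)
      (by rwa [Subgroup.orderOf_mk]) (by rwa [Subgroup.orderOf_mk]))
  have hn : (Subgroup.centralizer (U : Set G)).Normal := inferInstance
  have h5 := hK h4.core ⟨fun x hx g => ⟨hn.conj_mem x hx.1 g, cop_conj hx.2 g⟩⟩ h4.card_core
  refine hW _ hn fun x => ?_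
  obtain ⟨e, m, hm, he⟩ := Nat.exists_eq_pow_mul_and_not_dvd (orderOf_pos (x : G)).ne' r
    hr.out.ne_one
  have h6 : (x : G) ^ r ^ e ∈ h4.core := ⟨Subgroup.pow_mem _ x.2 _,
    cop_of_pow ((Nat.Prime.coprime_iff_not_dvd hr.out).2 hm).symm (by
      rw [← pow_mul, ← he, pow_orderOf_eq_one])⟩
  rw [h5, Subgroup.mem_bot] at h6
  exact ⟨e, Subtype.ext h6⟩

end Pool.Agent.MP_b7033c_al.Three
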