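import Pool.Agent.Mg.Fb7033cp.Ga6f301

set_option linter.all false

section

set_option autoImplicit false

namespace Pool.Agent.MP_b7033c_al.Five

open Subgroup

variable {K L : Type} [Group K] [Group L] {q : ℕ}

lemma zpow_eq_of_dvd {x : K} {Q a b : ℤ} (h : x ^ Q = 1) (hd : Q ∣ a - b) : x ^ a = x ^ b := by
  obtain ⟨c, hc⟩ := hd
  rw [show a = b + Q * c by linarith, zpow_add, zpow_mul, h, one_zpow, mul_one]

lemma exists_exp [Finite K] [Fact q.Prime] (hK : IsPGroup q K) :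
    ∃ e : ℕ, ∀ x : K, x ^ ((q : ℤ) ^ e) = 1 := by
  obtain ⟨e, he⟩ := IsPGroup.iff_card.1 hK
  refine ⟨e, fun x => ?_⟩
  have := pow_card_eq_one' (x := x)
  rw [he] at this
  exact_mod_cast this

lemma eq_one_of_not_dvd [Fact q.Prime] {x : K} {e : ℕ} {s : ℤ} (hx : x ^ ((q : ℤ) ^ e) = 1)
    (hs : x ^ s = 1) (hq : ¬ (q : ℤ) ∣ s) : x = 1 := by
  have h1 : IsCoprime ((q : ℤ) ^ e) s :=
    ((Nat.prime_iff_prime_int.1 Fact.out).irreducible.coprime_iff_not_dvd.2 hq).pow_left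
  obtain ⟨a, b, h⟩ := h1
  rw [← zpow_one x, ← h, zpow_add, mul_comm a, mul_comm b, zpow_mul, zpow_mul, hx, hs]
  simp

lemma teich {n d : ℤ} (h5 : q % 5 = 1) (h : d ∣ n ^ 5 - 1) (e : ℕ) : d ∣ n ^ q ^ e - n := by
  obtain ⟨j, hj⟩ : ∃ j, q ^ e = 5 * j + 1 :=
    ⟨q ^ e / 5, by have := Nat.pow_mod q e 5; rw [h5, one_pow] at this; omega⟩
  rw [hj, pow_succ, pow_mul, ← sub_one_mul]
  exact (h.trans (by simpa using sub_dvd_pow_sub_pow (n ^ 5) 1 j)).mul_right _

lemma teich' {n : ℤ} (h : (q : ℤ) ∣ n ^ 5 - 1) (e : ℕ) : (q : ℤ) ^ e ∣ (n ^ q ^ e) ^ 5 - 1 := by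
  have := dvd_sub_pow_of_dvd_sub h e
  rw [one_pow, ← pow_mul, mul_comm, pow_mul] at this
  exact (pow_dvd_pow _ (Nat.le_succ e)).trans this

/-- Lifting of eigen-elements. -/
lemma lift [Finite K] [Fact q.Prime] (hK : IsPGroup q K) (h5 : q % 5 = 1) (ψ : K →* K)
    (hψ : ∀ x, ψ (ψ (ψ (ψ (ψ x)))) = x) (π : K →* L) (hπ : ∀ w, π w = 1 → π (ψ w) = 1)
    {x : K} {n : ℤ} (hx : π (ψ x) = π x ^ n) :
    ∃ y, π y = π x ∧ ∃ m : ℤ, (q : ℤ) ∣ m - n ∧ ψ y = y ^ m := by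
  classical
  by_cases h1 : π x = 1
  · exact ⟨1, by simp [h1], n, by simp, by simp⟩
  obtain ⟨e, he⟩ := exists_exp hK
  have cg : ∀ a b, π a = π b → π (ψ a) = π (ψ b) := fun a b h => by
    have := hπ (a⁻¹ * b) (by simp [h])
    rw [map_mul, map_mul, map_inv, map_inv, inv_mul_eq_one] at this
    exact this
  have st : ∀ a (k : ℤ), π a = π x ^ k → π (ψ a) = π x ^ (n * k) := fun a k h => by
    rw [cg a (x ^ k) (by rw [h, map_zpow]), map_zpow, map_zpow, hx, zpow_mul]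
  have h2 : π x ^ (n ^ 5 - 1) = 1 := by
    have := st _ _ (st _ _ (st _ _ (st _ _ hx)))
    rw [hψ] at this
    rw [zpow_sub, show n ^ 5 = n * (n * (n * (n * n))) by ring, ← this]; simp
  have h3 : π x ^ ((q : ℤ) ^ e) = 1 := by rw [← map_zpow, he, map_one]
  have h4 : (q : ℤ) ∣ n ^ 5 - 1 := by
    by_contra h
    exact h1 (eq_one_of_not_dvd h3 h2 h)
  set t := n ^ q ^ e with ht
  have h6 : (q : ℤ) ^ e ∣ t ^ 5 - 1 := teich' h4 e
  have h7 : π x ^ t = π x ^ n := zpow_eq_of_dvd h2 (teich h5 dvd_rfl e)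
  have h8 : ∀ y : K, y ^ t ^ 5 = y := fun y => by rw [zpow_eq_of_dvd (he y) h6, zpow_one]
  let σ : {y // π y = π x} → {y // π y = π x} := fun y => ⟨ψ y.1 ^ t ^ 4, by
    rw [map_zpow, cg _ _ y.2, hx, ← h7, ← zpow_mul, ← map_zpow,
      show t * t ^ 4 = t ^ 5 by ring, h8]⟩
  have hσ : σ^[5 ^ 1] = id := by
    funext y
    apply Subtype.ext
    simp only [pow_one, Function.iterate_succ, Function.iterate_zero, Function.comp, id, σ,
      map_zpow, hψ, ← zpow_mul]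
    rw [show t ^ 4 * t ^ 4 * t ^ 4 * t ^ 4 * t ^ 4 = t ^ 5 * t ^ 5 * t ^ 5 * t ^ 5 by ring]
    simp only [zpow_mul, h8]
  have hb : Function.Bijective σ := by
    have : Function.Injective (σ^[4 + 1]) := by
      rw [show 4 + 1 = 5 ^ 1 by norm_num, hσ]; exact Function.injective_id
    exact Finite.injective_iff_bijective.1 (Function.Injective.of_comp (f := σ^[4]) this)
  have := Fintype.ofFinite {y // π y = π x}
  have hc : ¬ 5 ∣ Fintype.card {y // π y = π x} := by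
    have e1 : {y // π y = π x} ≃ π.ker :=
      ⟨fun y => ⟨x⁻¹ * y.1, by simp [MonoidHom.mem_ker, y.2]⟩,
        fun k => ⟨x * k.1, by simp [MonoidHom.mem_ker.1 k.2]⟩,
        fun y => by simp, fun k => by simp⟩
    obtain ⟨k, hk⟩ := IsPGroup.iff_card.1 (hK.to_subgroup π.ker)
    rw [← Nat.card_eq_fintype_card, Nat.card_congr e1, hk]
    intro h
    have := (Nat.prime_dvd_prime_iff_eq Nat.prime_five Fact.out).1
      (Nat.prime_five.dvd_of_dvd_pow h)
    omega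
  have : Fact (Nat.Prime 5) := ⟨Nat.prime_five⟩
  obtain ⟨y, hy⟩ := Equiv.Perm.exists_fixed_point_of_prime (p := 5) (n := 1) hc
    (σ := Equiv.ofBijective σ hb) (by
      ext y
      rw [Equiv.Perm.coe_pow]
      exact congrArg Subtype.val (congrFun hσ y))
  refine ⟨y.1, y.2, t, teich h5 h4 e, ?_⟩
  have h9 : ψ y.1 ^ t ^ 4 = y.1 := congrArg Subtype.val hy
  conv_rhs => rw [← h9]
  rw [← zpow_mul, show t ^ 4 * t = t ^ 5 by ring, h8]

lemma ab_dec {A : Type} [AddCommGroup A] (f : A →+ A) (l e : ℤ)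
    (h5 : ∀ x, f (f (f (f (f x)))) = x)
    (h0 : ∀ x : A, (1 + l + l ^ 2 + l ^ 3 + l ^ 4) • x = 0) (he : ∀ x : A, (5 * e) • x = x)
    (z : A) : ∃ p : ℕ → A, (∀ k, f (p k) = l ^ k • p k) ∧ z = p 0 + p 1 + p 4 + p 2 + p 3 := by
  have h1 : ∀ (c : ℤ) (x : A), (c * (1 + l + l ^ 2 + l ^ 3 + l ^ 4)) • x = 0 := fun c x => by
    rw [mul_smul, h0, smul_zero]
  have h2 : ∀ (k : ℕ) (x : A), (l ^ k) ^ 5 • x = x := fun k x => by
    obtain ⟨c, hc⟩ := sub_dvd_pow_sub_pow (l ^ 5) 1 k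
    have := h1 (c * (l - 1)) x
    rw [show c * (l - 1) * (1 + l + l ^ 2 + l ^ 3 + l ^ 4) = (l ^ 5 - 1) * c by ring, ← hc,
      one_pow, sub_smul, one_smul, sub_eq_zero, ← pow_mul, mul_comm, pow_mul] at this
    exact this
  refine ⟨fun k => e • (z + (l ^ k) ^ 4 • f z + (l ^ k) ^ 3 • f (f z) + (l ^ k) ^ 2 • f (f (f z)) +
    l ^ k • f (f (f (f z)))), fun k => ?_, ?_⟩
  · simp only [map_zsmul, map_add, h5]
    have := h2 k (f z)
    linear_combination (norm := module) (-e) • this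
  · have a0 := he z
    have a1 := h1 ((l ^ 4 - l ^ 3 + l ^ 2 - l + 1) * (l ^ 8 - l ^ 6 + l ^ 4 - l ^ 2 + 1)) (f z)
    have a2 := h1 (l ^ 8 - l ^ 7 + l ^ 5 - l ^ 4 + l ^ 3 - l + 1) (f (f z))
    have a3 := h1 (l ^ 4 - l ^ 3 + l ^ 2 - l + 1) (f (f (f z)))
    have a4 := h0 (f (f (f (f z))))
    linear_combination (norm := module) -a0 - e • a1 - e • a2 - e • a3 - e • a4

/-- Eigen-elements of degree `i`. -/
def Eg (q : ℕ) (w : ℤ) (ψ : K →* K) (i : ℕ) (x : K) : Prop :=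
  ∃ n : ℤ, (q : ℤ) ∣ n - w ^ i ∧ ψ x = x ^ n

lemma cyc_five {w : ℤ} (hw : (q : ℤ) ∣ 1 + w + w ^ 2 + w ^ 3 + w ^ 4) : (q : ℤ) ∣ w ^ 5 - 1 := by
  rw [show w ^ 5 - 1 = (1 + w + w ^ 2 + w ^ 3 + w ^ 4) * (w - 1) by ring]
  exact hw.mul_right _

lemma not_dvd_five [Fact q.Prime] (h5 : q % 5 = 1) : ¬ (q : ℤ) ∣ 5 := fun h => by
  have := (Nat.prime_dvd_prime_iff_eq Fact.out Nat.prime_five).1 (by exact_mod_cast h)
  omega

open scoped IsMulCommutative in
/-- Factorisation into eigen-elements in a finite group. -/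
lemma fac_fin [Fact q.Prime] (h5 : q % 5 = 1) {w : ℤ}
    (hw : (q : ℤ) ∣ 1 + w + w ^ 2 + w ^ 3 + w ^ 4) (K : Type) [Group K] [Group.IsNilpotent K] :
    Finite K → IsPGroup q K → ∀ ψ : K →* K, (∀ x, ψ (ψ (ψ (ψ (ψ x)))) = x) → ∀ x : K,
      ∃ y : ℕ → K, (∀ k, Eg q w ψ k (y k)) ∧ x = y 0 * y 1 * y 4 * y 2 * y 3 := by
  refine Group.nilpotent_center_quotient_ind (P := fun K _ _ => Finite K → IsPGroup q K →
    ∀ ψ : K →* K, (∀ x, ψ (ψ (ψ (ψ (ψ x)))) = x) → ∀ x : K,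
      ∃ y : ℕ → K, (∀ k, Eg q w ψ k (y k)) ∧ x = y 0 * y 1 * y 4 * y 2 * y 3) K ?_ ?_
  · intro K _ _ _ _ ψ _ x
    exact ⟨fun _ => 1, fun k => ⟨w ^ k, by simp, by simp⟩, Subsingleton.elim _ _⟩
  intro K _ _ ih _ hK ψ hψ x
  have hZ : ∀ z ∈ center K, ψ z ∈ center K := fun z hz => mem_center_iff.2 fun g => by
    rw [← hψ g, ← map_mul, mem_center_iff.1 hz, map_mul]
  let π := QuotientGroup.mk' (center K)
  obtain ⟨y, hy, e1⟩ := ih inferInstance (hK.to_quotient _)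
    (QuotientGroup.map _ _ ψ fun z hz => hZ z hz) (fun x => by
      obtain ⟨x, rfl⟩ := QuotientGroup.mk_surjective x
      simp only [QuotientGroup.map_mk, hψ]) (π x)
  have h1 : ∀ k, ∃ u : K, π u = y k ∧ Eg q w ψ k u := fun k => by
    obtain ⟨n, hn, e⟩ := hy k
    obtain ⟨v, hv⟩ := QuotientGroup.mk_surjective (y k)
    obtain ⟨u, hu, m, hm, e'⟩ := lift hK h5 ψ hψ π (fun z hz => (QuotientGroup.eq_one_iff _).2
      (hZ z ((QuotientGroup.eq_one_iff _).1 hz))) (x := v) (n := n) (by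
        rw [← hv] at e; exact e)
    exact ⟨u, hu.trans hv, m, by simpa using dvd_add hm hn, e'⟩
  choose u hu hu' using h1
  have hz : (u 0 * u 1 * u 4 * u 2 * u 3)⁻¹ * x ∈ center K := by
    rw [← QuotientGroup.eq]
    change π _ = π x
    simp only [map_mul, hu, e1]
  obtain ⟨e, he⟩ := exists_exp hK
  have hq := cyc_five hw
  set l := w ^ q ^ e
  have hl : (q : ℤ) ∣ l - w := teich h5 hq e
  have hl5 : (q : ℤ) ^ e ∣ l ^ 5 - 1 := teich' hq e
  have hp : Prime (q : ℤ) := Nat.prime_iff_prime_int.1 Fact.out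
  have hl0 : (q : ℤ) ^ e ∣ 1 + l + l ^ 2 + l ^ 3 + l ^ 4 := by
    refine (hp.irreducible.coprime_iff_not_dvd.2 (fun h : (q : ℤ) ∣ l - 1 =>
      not_dvd_five h5 ?_)).pow_left.dvd_of_dvd_mul_right (by
        rwa [show (1 + l + l ^ 2 + l ^ 3 + l ^ 4) * (l - 1) = l ^ 5 - 1 by ring])
    have h' : (q : ℤ) ∣ w - 1 := by simpa using dvd_sub h hl
    have := dvd_sub hw (h'.mul_right (4 + 3 * w + 2 * w ^ 2 + w ^ 3))
    rwa [show 1 + w + w ^ 2 + w ^ 3 + w ^ 4 - (w - 1) * (4 + 3 * w + 2 * w ^ 2 + w ^ 3) = 5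
      by ring] at this
  obtain ⟨a, b, hab⟩ : IsCoprime ((q : ℤ) ^ e) 5 :=
    (hp.irreducible.coprime_iff_not_dvd.2 (not_dvd_five h5)).pow_left
  have heZ : ∀ z : center K, z ^ ((q : ℤ) ^ e) = 1 := fun z => Subtype.ext (he z)
  obtain ⟨p, hp1, hp2⟩ := ab_dec (A := Additive (center K))
    (MonoidHom.toAdditive ((ψ.comp (center K).subtype).codRestrict (center K) fun z => hZ z z.2))
    l b (fun z => Subtype.ext (hψ z.toMul.1))
    (fun z => (zpow_eq_of_dvd (heZ z.toMul) (b := 0) (by simpa using hl0)).trans (zpow_zero _))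
    (fun z => (zpow_eq_of_dvd (heZ z.toMul) (a := 5 * b) (b := 1) ⟨-a, by linarith⟩).trans (zpow_one _))
    (Additive.ofMul ⟨_, hz⟩)
  have c : ∀ k g, g * ((p k).toMul : K) = (p k).toMul * g := fun k =>
    mem_center_iff.1 (p k).toMul.2
  refine ⟨fun k => u k * (p k).toMul, fun k => ?_, ?_⟩
  · obtain ⟨n, hn, e'⟩ := hu' k
    have h2 : ψ (p k).toMul = ((p k).toMul : K) ^ l ^ k := congrArg Subtype.val (hp1 k)
    have h3 : u k ^ (n ^ 5 - 1) = 1 := by
      have := hψ (u k)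
      simp only [e', map_zpow, ← zpow_mul] at this
      rw [zpow_sub, show n ^ 5 = n * (n * (n * (n * n))) by ring, this]; simp
    refine ⟨l ^ k, hl.trans (sub_dvd_pow_sub_pow _ _ _), ?_⟩
    rw [map_mul, h2, e', Commute.mul_zpow (c k (u k))]
    congr 1
    by_cases h1 : u k = 1
    · simp [h1]
    have h4 : (q : ℤ) ∣ n - l ^ k := by
      simpa using dvd_sub hn (hl.trans (sub_dvd_pow_sub_pow l w k))
    have h6 := dvd_sub_pow_of_dvd_sub h4 e
    have h7 : (q : ℤ) ^ e ∣ (l ^ k) ^ 5 - 1 := by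
      rw [← pow_mul, mul_comm, pow_mul]
      exact hl5.trans (by simpa using sub_dvd_pow_sub_pow (l ^ 5) 1 k)
    rw [← zpow_eq_of_dvd h3 (teich h5 dvd_rfl e),
      zpow_eq_of_dvd (he _) ((pow_dvd_pow _ (Nat.le_succ e)).trans h6),
      zpow_eq_of_dvd (he _) (teich h5 h7 e)]
  · have h2 : (u 0 * u 1 * u 4 * u 2 * u 3)⁻¹ * x = (p 0).toMul * (p 1).toMul * (p 4).toMul *
        (p 2).toMul * (p 3).toMul := congrArg Subtype.val hp2
    rw [inv_mul_eq_iff_eq_mul] at h2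
    have cen : ∀ a z b z' : K, z ∈ center K → a * z * (b * z') = a * b * (z * z') :=
      fun a z b z' hz => by
        rw [mul_assoc, ← mul_assoc z, ← mem_center_iff.1 hz b]; simp only [mul_assoc]
    have m := fun k => (p k).toMul.2
    rw [h2, cen _ _ (u 1) _ (m 0), cen _ _ (u 4) _ (mul_mem (m 0) (m 1)),
      cen _ _ (u 2) _ (mul_mem (mul_mem (m 0) (m 1)) (m 4)),
      cen _ _ (u 3) _ (mul_mem (mul_mem (mul_mem (m 0) (m 1)) (m 4)) (m 2))]

end Pool.Agent.MP_b7033c_al.Five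

end

section

set_option autoImplicit false

namespace Pool.Agent.MP_b7033c_al.Five

open Subgroup
open scoped commutatorElement

variable {K : Type} [Group K] {q : ℕ}

lemma cm_zpow {x y : K} (h1 : Commute (cm x y) x) (h2 : Commute (cm x y) y) (a b : ℤ) :
    cm (x ^ a) (y ^ b) = cm x y ^ (a * b) := by
  have h3 : ∀ b : ℤ, cj x (y ^ b) = x * cm x y ^ b := fun b => by
    induction b using Int.induction_on with
    | zero => simp [cj]
    | succ n ih =>
      rw [zpow_add_one, ← cj_cj, ih, cj_mul, cj_eq x y, cj_of_comm (h2.zpow_left _), mul_assoc,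
        ← zpow_one_add, add_comm]
    | pred n ih =>
      apply cj_inj (g := y)
      rw [cj_cj, ← zpow_add_one, sub_add_cancel, ih, cj_mul, cj_eq x y,
        cj_of_comm (h2.zpow_left _), mul_assoc, ← zpow_one_add, add_sub_cancel]
  have h4 : cj (x ^ a) (y ^ b) = cj x (y ^ b) ^ a := by
    have := conj_zpow (i := a) (a := (y ^ b)⁻¹) (b := x)
    rw [inv_inv] at this
    exact this.symm
  rw [cm_eq, h4, h3, (h1.symm.zpow_right b).mul_zpow, ← zpow_mul, mul_comm b]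
  simp

lemma cm_mem {A B : Subgroup K} {x y : K} (hx : x ∈ A) (hy : y ∈ B) : cm x y ∈ ⁅A, B⁆ := by
  have := commutator_mem_commutator (inv_mem hx) (inv_mem hy)
  rwa [commutatorElement_def, inv_inv, inv_inv] at this

lemma map_cm {L : Type} [Group L] (f : K →* L) (x y : K) : f (cm x y) = cm (f x) (f y) := by
  simp [cm]

lemma nl [Group.IsNilpotent K] {N T : Subgroup K} [N.Normal] (h : T ≤ N ⊔ ⁅T, ⊤⁆) : T ≤ N := by
  let π := QuotientGroup.mk' N
  obtain ⟨n, hn⟩ :=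
    Subgroup.nilpotent_iff_lowerCentralSeries.1 (inferInstance : Group.IsNilpotent (K ⧸ N))
  have h1 : T.map π ≤ ⁅T.map π, ⊤⁆ := by
    refine (map_mono h).trans ?_
    rw [Subgroup.map_sup, map_commutator, (Subgroup.map_eq_bot_iff _).2 (QuotientGroup.ker_mk' N).ge,
      bot_sup_eq]
    exact commutator_mono le_rfl le_top
  have h2 : ∀ m, T.map π ≤ (⊤ : Subgroup (K ⧸ N)).lowerCentralSeries m := fun m => by
    induction m with
    | zero => exact le_top
    | succ m ih => exact h1.trans (commutator_mono ih le_rfl)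
  have := h2 n
  rwa [hn, le_bot_iff, Subgroup.map_eq_bot_iff, QuotientGroup.ker_mk'] at this

lemma nongen [Finite K] [Group.IsNilpotent K] {M V : Subgroup K} (h1 : M ≤ V)
    (h : V ≤ M ⊔ ⁅V, V⁆) : V ≤ M := by
  rcases eq_top_or_exists_le_coatom (M.subgroupOf V) with h2 | ⟨P, hP, h2⟩
  · exact subgroupOf_eq_top.1 h2
  have := NormalizerCondition.normal_of_coatom P Group.normalizerCondition_of_isNilpotent hP
  refine (hP.1 (top_le_iff.1 (nl ?_))).elim
  refine (map_le_map_iff_of_injective V.subtype_injective).1 ?_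
  rw [Subgroup.map_sup, map_commutator, ← MonoidHom.range_eq_map, range_subtype]
  refine h.trans (sup_le_sup_right ?_ _)
  rw [← map_subgroupOf_eq_of_le h1]
  exact map_mono h2

lemma step [Finite K] [Fact q.Prime] (hK : IsPGroup q K) (h5 : q % 5 = 1) (ψ : K →* K)
    (hψ : ∀ x, ψ (ψ (ψ (ψ (ψ x)))) = x) {w : ℤ} {i j : ℕ} {y z : K} (hy : Eg q w ψ i y)
    (hz : Eg q w ψ j z) :
    ∃ u, Eg q w ψ (i + j) u ∧ normalClosure {u} = normalClosure {cm y z} := by
  have := hK.isNilpotent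
  obtain ⟨a, ha, ea⟩ := hy
  obtain ⟨b, hb, eb⟩ := hz
  set T := normalClosure {cm y z}
  have hc : cm y z ∈ T := subset_normalClosure rfl
  have h1 : T.map ψ ≤ T := by
    refine (map_normalClosure_le _ _).trans (normalClosure_le_normal ?_)
    rintro _ ⟨_, rfl, rfl⟩
    have h2 : Commute (QuotientGroup.mk' T y) (QuotientGroup.mk' T z) := by
      rw [← cm_eq_one, ← map_cm]; exact (QuotientGroup.eq_one_iff _).2 hc
    refine (QuotientGroup.eq_one_iff _).1 (?_ : QuotientGroup.mk' T _ = 1)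
    rw [map_cm, map_cm, ea, eb, map_zpow, map_zpow, cm_eq_one]
    exact h2.zpow_zpow a b
  let π := QuotientGroup.mk' ⁅T, (⊤ : Subgroup K)⁆
  have h2 : ∀ g, Commute (cm (π y) (π z)) (π g) := fun g => by
    rw [← cm_eq_one, ← map_cm, ← map_cm]
    exact (QuotientGroup.eq_one_iff _).2 (cm_mem hc (mem_top _))
  obtain ⟨u, hu, m, hm, e⟩ := lift hK h5 ψ hψ π (fun v hv => (QuotientGroup.eq_one_iff _).2 (by
    have := mem_map_of_mem ψ ((QuotientGroup.eq_one_iff _).1 hv)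
    rw [map_commutator] at this
    exact commutator_mono h1 le_top this)) (x := cm y z) (n := a * b) (by
      rw [map_cm, map_cm, ea, eb, map_zpow, map_zpow, cm_zpow (h2 y) (h2 z), map_cm])
  have h3 : u⁻¹ * cm y z ∈ ⁅T, ⊤⁆ := QuotientGroup.eq.1 hu
  refine ⟨u, ⟨m, ?_, e⟩, le_antisymm (normalClosure_le_normal ?_) (nl (normalClosure_le_normal ?_))⟩
  · rw [show m - w ^ (i + j) = m - a * b + (a - w ^ i) * b + (b - w ^ j) * w ^ i by ring]
    exact dvd_add (dvd_add hm (ha.mul_right _)) (hb.mul_right _)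
  · rintro _ rfl
    simpa using mul_mem hc (inv_mem (commutator_le_left _ _ h3))
  · rintro _ rfl
    simpa using mul_mem_sup (subset_normalClosure (s := {u}) rfl) h3

lemma chain [Finite K] [Fact q.Prime] (hK : IsPGroup q K) (h5 : q % 5 = 1) (ψ : K →* K)
    (hψ : ∀ x, ψ (ψ (ψ (ψ (ψ x)))) = x) {w : ℤ} {j : ℕ} {z y₀ : K} (hz : Eg q w ψ j z)
    (hg : closure {y₀, z} = ⊤) {V : Subgroup K} [V.Normal] (h0 : y₀ ∈ V) (k : ℕ) :
    ∀ i y, y ∈ V → Eg q w ψ i y → (∀ t ∈ V, Eg q w ψ (i + k * j) t → t = 1) →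
      normalClosure {y} ≤ closure {t | t ∈ V ∧ ∃ l < k, Eg q w ψ (i + l * j) t} ⊔ ⁅V, V⁆ := by
  induction k with
  | zero =>
    intro i y h1 h2 h3
    rw [h3 y h1 (by simpa using h2)]
    exact (normalClosure_le_normal (N := ⊥) (by simp)).trans bot_le
  | succ k ih =>
    intro i y h1 h2 h3
    obtain ⟨u, hu, e⟩ := step hK h5 ψ hψ h2 hz
    have h4 : u ∈ V := normalClosure_le_normal (s := {cm y z}) (by
      rintro _ rfl
      exact commutator_le_left _ _ (cm_mem h1 (mem_top _))) (e ▸ subset_normalClosure rfl)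
    have h6 := ih (i + j) u h4 hu fun t ht h => h3 t ht (by
      rwa [show i + (k + 1) * j = i + j + k * j by ring])
    let N := normalClosure {u} ⊔ ⁅V, V⁆
    let π := QuotientGroup.mk' N
    have h7 : ∀ g, Commute (π y) (π g) := fun g => by
      have hg' : g ∈ closure {y₀, z} := hg ▸ mem_top g
      induction hg' using closure_induction with
      | mem g hg' =>
        rw [← cm_eq_one, ← map_cm]
        refine (QuotientGroup.eq_one_iff _).2 ?_
        rcases hg' with rfl | rfl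
        · exact mem_sup_right (cm_mem h1 h0)
        · exact mem_sup_left (e ▸ subset_normalClosure rfl)
      | one => simp
      | mul a b _ _ ha hb => rw [map_mul]; exact ha.mul_right hb
      | inv a _ ha => rw [map_inv]; exact ha.inv_right
    have h8 : ((zpowers (π y)).comap π).Normal := ⟨fun x hx g => by
      obtain ⟨n, hn⟩ := hx
      refine ⟨n, ?_⟩
      simp only [map_mul, map_inv, ← hn]
      rw [← ((h7 g).zpow_left n).eq]; simp⟩
    refine (normalClosure_le_normal (N := (zpowers (π y)).comap π) (by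
      rintro _ rfl; exact mem_zpowers _)).trans ?_
    rw [← MonoidHom.map_zpowers, comap_map_eq, QuotientGroup.ker_mk']
    refine sup_le (zpowers_le.2 (mem_sup_left (subset_closure ⟨h1, 0, k.succ_pos, by simpa⟩)))
      (sup_le (h6.trans (sup_le_sup_right (Subgroup.closure_mono ?_) _)) le_sup_right)
    rintro t ⟨ht, l, hl, h⟩
    exact ⟨ht, l + 1, by omega, by rwa [show i + (l + 1) * j = i + j + l * j by ring]⟩

/-- restriction of an endomorphism -/
def res {H : Type} [Group H] (φ : H →* H) (A : Subgroup H) (h : ∀ x ∈ A, φ x ∈ A) : A →* A :=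
  (φ.comp A.subtype).codRestrict A fun x => h x x.2

lemma eg_res {H : Type} [Group H] {φ : H →* H} {A : Subgroup H} (h : ∀ x ∈ A, φ x ∈ A) {w : ℤ}
    {i : ℕ} {x : A} : Eg q w (res φ A h) i x ↔ Eg q w φ i (x : H) :=
  exists_congr fun _ => and_congr_right fun _ => Subtype.ext_iff

lemma pair_inv {H : Type} [Group H] {φ : H →* H} {w : ℤ} {i j : ℕ} {y z : H} (hy : Eg q w φ i y)
    (hz : Eg q w φ j z) : ∀ x ∈ closure {y, z}, φ x ∈ closure {y, z} := by
  obtain ⟨a, -, ea⟩ := hy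
  obtain ⟨b, -, eb⟩ := hz
  refine fun x hx => (closure_le ((closure {y, z}).comap φ)).2 ?_ hx
  rintro _ (rfl | rfl)
  · exact mem_comap.2 (ea ▸ zpow_mem (subset_closure (by simp)) _)
  · exact mem_comap.2 (eb ▸ zpow_mem (subset_closure (by simp)) _)

/-- elements that map a subgroup into itself by conjugation -/
def nz {H : Type} [Group H] (hH : IsPGroup q H) [Fact q.Prime] (U : Subgroup H) : Subgroup H where
  carrier := {g | ∀ u ∈ U, cj u g ∈ U}
  one_mem' := fun u hu => by rwa [cj_one]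
  mul_mem' := fun ha hb u hu => by rw [← cj_cj]; exact hb _ (ha u hu)
  inv_mem' := fun {g} hg => by
    obtain ⟨k, hk⟩ := hH g
    have h1 : ∀ n : ℕ, ∀ u ∈ U, cj u (g ^ n) ∈ U := fun n => by
      induction n with
      | zero => intro u hu; rwa [pow_zero, cj_one]
      | succ n ih => intro u hu; rw [pow_succ, ← cj_cj]; exact hg _ (ih u hu)
    rw [← Nat.sub_add_cancel (Nat.pos_of_ne_zero (pow_ne_zero k (Fact.out : q.Prime).ne_zero)),
      pow_succ] at hk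
    rw [← eq_inv_of_mul_eq_one_left hk]
    exact h1 _

section
variable {H : Type} [Group H] [Fact q.Prime] (hH : IsPGroup q H) (h5 : q % 5 = 1) {φ : H →* H}
  (hφ : ∀ x, φ (φ (φ (φ (φ x)))) = x) {w : ℤ} {i j : ℕ} {y z : H} (hy : Eg q w φ i y)
  (hz : Eg q w φ j z) (hf : Finite (closure {y, z})) {U : Subgroup H} (hU : y ∈ U)
  (hn : z ∈ nz hH U)
include hU hn

lemma ncl_le : normalClosure {(⟨y, subset_closure (by simp)⟩ : closure {y, z})} ≤
    U.subgroupOf (closure {y, z}) := by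
  have h1 : closure {y, z} ≤ nz hH U := (closure_le _).2 (by
    rintro _ (rfl | rfl)
    · exact fun u hu => mul_mem (mul_mem (inv_mem hU) hu) hU
    · exact hn)
  have : (U.subgroupOf (closure {y, z})).Normal := ⟨fun x hx g => by
    simpa [cj, mem_subgroupOf] using h1 (inv_mem g.2) x hx⟩
  exact normalClosure_le_normal (by rintro _ rfl; exact hU)

include h5 hφ hy hz hf

lemma ml (k : ℕ) (h : ∀ t ∈ U, Eg q w φ (i + k * j) t → t = 1) :
    cj y z ∈ closure {t | t ∈ U ∧ ∃ l < k, Eg q w φ (i + l * j) t} := by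
  let A := closure {y, z}
  let y' : A := ⟨y, subset_closure (by simp)⟩
  let z' : A := ⟨z, subset_closure (by simp)⟩
  have hA : IsPGroup q A := hH.to_subgroup A
  have := hA.isNilpotent
  have h0 : y' ∈ normalClosure {y'} := subset_normalClosure rfl
  have h1 := ncl_le hH hU hn
  have h2 := chain hA h5 (res φ A (pair_inv hy hz)) (fun x => Subtype.ext (hφ x)) (z := z')
    (y₀ := y') ((eg_res _).2 hz) (by
      apply map_injective A.subtype_injective
      rw [MonoidHom.map_closure, ← MonoidHom.range_eq_map, range_subtype, Set.image_pair]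
      rfl) h0 k i y' h0 ((eg_res _).2 hy) fun t ht e => Subtype.ext (h t (h1 ht) ((eg_res _).1 e))
  have h3 := mem_map_of_mem A.subtype (nongen ((closure_le _).2 fun t ht => ht.1) h2
    (normalClosure_normal.conj_mem' _ h0 z'))
  rw [MonoidHom.map_closure] at h3
  refine Subgroup.closure_mono ?_ h3
  rintro _ ⟨t, ⟨ht, l, hl, e⟩, rfl⟩
  exact ⟨h1 ht, l, hl, (eg_res _).1 e⟩

lemma ml1 (h : ∀ t ∈ U, Eg q w φ (i + j) t → t = 1) : Commute y z := by
  let A := closure {y, z}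
  let y' : A := ⟨y, subset_closure (by simp)⟩
  let z' : A := ⟨z, subset_closure (by simp)⟩
  have h1 := ncl_le hH hU hn
  obtain ⟨u, hu, e⟩ := step (hH.to_subgroup A) h5 (res φ A (pair_inv hy hz))
    (fun x => Subtype.ext (hφ x)) (y := y') (z := z') ((eg_res _).2 hy) ((eg_res _).2 hz)
  have h2 : u ∈ normalClosure {y'} := normalClosure_le_normal (s := {cm y' z'}) (by
    rintro _ rfl
    exact commutator_le_left _ _ (cm_mem (subset_normalClosure rfl) (mem_top _)))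
      (e ▸ subset_normalClosure rfl)
  have h3 : u = 1 := Subtype.ext (h u (h1 h2) ((eg_res _).1 hu))
  have h4 : cm y' z' ∈ (⊥ : Subgroup A) := normalClosure_le_normal (s := {u}) (by simp [h3])
    (e ▸ subset_normalClosure rfl)
  exact (cm_eq_one.1 (mem_bot.1 h4)).map A.subtype

end

end Pool.Agent.MP_b7033c_al.Five

end

section

set_option autoImplicit false

namespace Pool.Agent.MP_b7033c_al.Five

open Subgroup

variable {H : Type} [Group H] {q : ℕ}

/-- The standing hypotheses. -/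
structure Hy (q : ℕ) (φ : H →* H) : Prop where
  five : ∀ x, φ (φ (φ (φ (φ x)))) = x
  pg : IsPGroup q H
  nrm : ∀ x, x * φ x * φ (φ x) * φ (φ (φ x)) * φ (φ (φ (φ x))) = 1
  inv : ∀ x, ∃ A : Subgroup H, Finite A ∧ x ∈ A ∧ ∀ k ∈ A, φ k ∈ A
  pair : ∀ x y, φ x ∈ zpowers x → φ y ∈ zpowers y → Finite (closure ({x, y} : Set H))

/-- No abelian subgroup is normal in a normal subgroup. -/
def RF (H : Type) [Group H] : Prop :=
  ∀ B : Subgroup H, B.Normal → ∀ X : Set H, X ⊆ B → (∀ b ∈ B, ∀ x ∈ X, cj x b ∈ X) →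
    (∀ x ∈ X, ∀ y ∈ X, Commute x y) → ∀ x ∈ X, x = 1

lemma comm_cl {a : H} {X : Set H} (h : ∀ x ∈ X, Commute a x) : ∀ x ∈ closure X, Commute a x := by
  intro x hx
  induction hx using closure_induction with
  | mem x hx => exact h x hx
  | one => exact Commute.one_right a
  | mul x y _ _ hx hy => exact hx.mul_right hy
  | inv x _ hx => exact hx.inv_right

lemma ito (hR : RF H) {A B : Subgroup H} (hA : ∀ x ∈ A, ∀ y ∈ A, Commute x y)
    (hB : ∀ x ∈ B, ∀ y ∈ B, Commute x y) (h : ∀ g, ∃ a ∈ A, ∃ b ∈ B, g = a * b) (g : H) :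
    g = 1 := by
  have h1 : ∀ b a' : H, ∃ b' ∈ B, ∀ a ∈ A, a' ∈ A → cj (cm a b) a' = cm a b' := fun b a' => by
    obtain ⟨a'', ha, b', hb, e⟩ := h (cj b a')
    refine ⟨b', hb, fun a h1 h2 => ?_⟩
    rw [cj_cm, cj_of_comm (hA _ h1 _ h2), e, cm_eq, cm_eq, ← cj_cj, cj_of_comm (hA _ h1 _ ha)]
  have h2 : ∀ a b' : H, ∃ a' ∈ A, ∀ b ∈ B, b' ∈ B → cj (cm a b) b' = cm a' b := fun a b' => by
    obtain ⟨a', ha, b'', hb, e⟩ := h (cj a b')⁻¹
    refine ⟨a'⁻¹, inv_mem ha, fun b h1 h2 => ?_⟩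
    rw [cj_cm, cj_of_comm (hB _ h1 _ h2), inv_eq_iff_eq_inv.1 e, mul_inv_rev, cm_swap b, cm_swap b,
      cm_eq, cm_eq, ← cj_cj, cj_of_comm (hB _ h1 _ (inv_mem hb))]
  have h3 := hR ⊤ inferInstance {x | ∃ a ∈ A, ∃ b ∈ B, x = cm a b} (fun _ _ => mem_top _) (by
    rintro g - _ ⟨a, ha, b, hb, rfl⟩
    obtain ⟨a', ha', b', hb', rfl⟩ := h g
    obtain ⟨b1, hb1, e1⟩ := h1 b a'
    obtain ⟨a1, ha1, e2⟩ := h2 a b'
    exact ⟨a1, ha1, b1, hb1, by rw [← cj_cj, e1 a ha ha', e2 b1 hb1 hb']⟩) (by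
    rintro _ ⟨a, ha, b, hb, rfl⟩ _ ⟨a', ha', b', hb', rfl⟩
    obtain ⟨b1, hb1, e1⟩ := h1 b a'⁻¹
    obtain ⟨a1, ha1, e2⟩ := h2 a b'⁻¹
    have e : cj (cm a b) (a'⁻¹ * b'⁻¹) = cj (cm a b) (b'⁻¹ * a'⁻¹) := by
      rw [← cj_cj, ← cj_cj, e1 a ha (inv_mem ha'), e2 b1 hb1 (inv_mem hb'), e2 b hb (inv_mem hb'),
        e1 a1 ha1 (inv_mem ha')]
    apply comm_of_cj
    rw [show cm a' b' = a'⁻¹ * b'⁻¹ * (a' * b') by unfold cm; group, ← cj_cj, e, cj_cj,
      show b'⁻¹ * a'⁻¹ * (a' * b') = 1 by group, cj_one])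
  have h4 : ∀ a ∈ A, ∀ b ∈ B, Commute a b := fun a ha b hb =>
    cm_eq_one.1 (h3 _ ⟨a, ha, b, hb, rfl⟩)
  have h5 : ∀ x y : H, Commute x y := fun x y => by
    obtain ⟨a, ha, b, hb, rfl⟩ := h x
    obtain ⟨a', ha', b', hb', rfl⟩ := h y
    exact ((hA _ ha _ ha').mul_right (h4 _ ha _ hb')).mul_left
      ((h4 _ ha' _ hb).symm.mul_right (hB _ hb _ hb'))
  exact hR ⊤ inferInstance Set.univ (fun _ _ => mem_top _) (fun _ _ _ _ => trivial)
    (fun x _ y _ => h5 x y) g trivial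

variable [Fact q.Prime]

lemma le_nz (hH : IsPGroup q H) (U : Subgroup H) : U ≤ nz hH U := fun _ hg _ hu =>
  mul_mem (mul_mem (inv_mem hg) hu) hg

lemma nz_cl (hH : IsPGroup q H) {X : Set H} {z : H} (h : ∀ t ∈ X, cj t z ∈ closure X) :
    z ∈ nz hH (closure X) := by
  intro x hx
  induction hx using closure_induction with
  | mem x hx => exact h x hx
  | one => simp [cj]
  | mul x y _ _ hx hy => rw [cj_mul]; exact mul_mem hx hy
  | inv x _ hx => rw [cj_inv]; exact inv_mem hx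

variable {φ : H →* H} (hy : Hy q φ) (h5 : q % 5 = 1) {w : ℤ}
  (hw : (q : ℤ) ∣ 1 + w + w ^ 2 + w ^ 3 + w ^ 4)

omit [Fact q.Prime] in
include hw in
lemma eg_mod {i j : ℕ} (h : i % 5 = j) {x : H} (e : Eg q w φ i x) : Eg q w φ j x := by
  obtain ⟨n, hn, e⟩ := e
  refine ⟨n, ?_, e⟩
  have h1 := ((cyc_five hw).trans (by simpa using sub_dvd_pow_sub_pow (w ^ 5) 1 (i / 5))).mul_right
    (w ^ j)
  rw [sub_mul, ← pow_mul, ← pow_add, ← h, Nat.div_add_mod, one_mul] at h1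
  simpa [h] using dvd_add hn h1

include hy h5 hw

lemma eg_zero {i : ℕ} (h : i % 5 = 0) {x : H} (e : Eg q w φ i x) : x = 1 := by
  obtain ⟨n, hn, e⟩ := eg_mod hw h e
  obtain ⟨k, hk⟩ := hy.pg x
  have h1 := hy.nrm x
  simp only [e, map_zpow, ← zpow_mul] at h1
  rw [← zpow_one_add, ← zpow_add, ← zpow_add, ← zpow_add] at h1
  refine eq_one_of_not_dvd (q := q) (e := k) (by exact_mod_cast hk) h1 fun h => not_dvd_five h5 ?_
  have := dvd_sub h (hn.mul_right (4 + 3 * n + 2 * n ^ 2 + n ^ 3))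
  rwa [show 1 + n + n * n + n * (n * n) + n * (n * (n * n)) -
    (n - w ^ 0) * (4 + 3 * n + 2 * n ^ 2 + n ^ 3) = 5 by ring] at this

lemma fac (x : H) : ∃ a b c d, Eg q w φ 1 a ∧ Eg q w φ 4 b ∧ Eg q w φ 2 c ∧ Eg q w φ 3 d ∧
    x = a * b * c * d := by
  obtain ⟨A, hA, hx, h⟩ := hy.inv x
  have := (hy.pg.to_subgroup A).isNilpotent
  obtain ⟨y, h1, e⟩ := fac_fin h5 hw A hA (hy.pg.to_subgroup A) (res φ A h)
    (fun x => Subtype.ext (hy.five x)) ⟨x, hx⟩
  have h2 := fun k => (eg_res h).1 (h1 k)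
  refine ⟨_, _, _, _, h2 1, h2 4, h2 2, h2 3, (congrArg Subtype.val e).trans ?_⟩
  simp [eg_zero hy h5 hw rfl (h2 0)]

omit h5 hw [Fact q.Prime] in
lemma fin2 {i j : ℕ} {y z : H} (a : Eg q w φ i y) (b : Eg q w φ j z) :
    Finite (closure ({y, z} : Set H)) := by
  obtain ⟨n, -, a⟩ := a
  obtain ⟨m, -, b⟩ := b
  exact hy.pair _ _ ⟨n, a.symm⟩ ⟨m, b.symm⟩

lemma s1 {i j : ℕ} (h : (i + j) % 5 = 0) {y z : H} (a : Eg q w φ i y) (b : Eg q w φ j z) :
    Commute y z :=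
  ml1 hy.pg h5 hy.five a b (fin2 hy a b) (mem_top y) (fun _ _ => mem_top _)
    fun _ _ => eg_zero hy h5 hw h

lemma s0 {i j : ℕ} (k : ℕ) (h : (i + k * j) % 5 = 0) {y z : H} (a : Eg q w φ i y)
    (b : Eg q w φ j z) {X : Set H} (hX : ∀ l < k, ∀ t, Eg q w φ ((i + l * j) % 5) t → t ∈ X) :
    cj y z ∈ closure X :=
  Subgroup.closure_mono (by rintro t ⟨-, l, hl, e⟩; exact hX l hl t (eg_mod hw rfl e))
    (ml hy.pg h5 hy.five a b (fin2 hy a b) (mem_top y) (fun _ _ => mem_top _) k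
      fun _ _ => eg_zero hy h5 hw h)

lemma s6 (hR : RF H) {y z : H} (a : Eg q w φ 1 y) (b : Eg q w φ 1 z) : Commute y z := by
  let A1 := closure {t | Eg q w φ 1 t}
  let A34 := closure {t | Eg q w φ 3 t ∨ Eg q w φ 4 t}
  let B := closure {t | Eg q w φ 1 t ∨ Eg q w φ 3 t ∨ Eg q w φ 4 t}
  have s2 : ∀ z, Eg q w φ 1 z → z ∈ nz hy.pg A34 := fun z hz => nz_cl _ (by
    rintro t (ht | ht)
    · refine s0 hy h5 hw 2 rfl ht hz fun l hl t e => ?_
      interval_cases l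
      exacts [Or.inl e, Or.inr e]
    · rw [cj_of_comm (s1 hy h5 hw rfl ht hz)]
      exact subset_closure (Or.inr ht))
  have s3 : ∀ z, Eg q w φ 2 z → z ∈ nz hy.pg B := fun z hz => nz_cl _ (by
    rintro t (ht | ht | ht)
    · refine s0 hy h5 hw 2 rfl ht hz fun l hl t e => ?_
      interval_cases l
      exacts [Or.inl e, Or.inr (Or.inl e)]
    · rw [cj_of_comm (s1 hy h5 hw rfl ht hz)]
      exact subset_closure (Or.inr (Or.inl ht))
    · refine s0 hy h5 hw 3 rfl ht hz fun l hl t e => ?_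
      interval_cases l
      exacts [Or.inr (Or.inr e), Or.inl e, Or.inr (Or.inl e)])
  have hB : B.Normal := ⟨fun x hx g => by
    obtain ⟨a, b, c, d, ha, hb, hc, hd, e⟩ := fac hy h5 hw g⁻¹
    have : g⁻¹ ∈ nz hy.pg B := e ▸ mul_mem (mul_mem (mul_mem
      (le_nz _ _ (subset_closure (Or.inl ha))) (le_nz _ _ (subset_closure (Or.inr (Or.inr hb)))))
      (s3 c hc)) (le_nz _ _ (subset_closure (Or.inr (Or.inl hd))))
    simpa [cj] using this x hx⟩
  let U := A1 ⊓ centralizer (A34 : Set H)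
  have hU : ∀ {u}, u ∈ U → ∀ t ∈ A34, Commute t u := fun hu => hu.2
  have s4 : B ≤ nz hy.pg U := (closure_le _).2 (by
    rintro z (hz | hz) u hu
    · refine ⟨le_nz hy.pg A1 (subset_closure hz) u hu.1, fun t ht => ?_⟩
      have := comm_cj (hU hu _ (inv_mem (s2 z hz) t ht)) z
      rwa [cj_cj, inv_mul_cancel, cj_one] at this
    · rwa [cj_of_comm (hU hu z (subset_closure hz)).symm])
  have hZ : ∀ x ∈ U, (∀ u ∈ U, Commute x u) → x = 1 := fun x h1 h2 =>
    hR B hB {x | x ∈ U ∧ ∀ u ∈ U, Commute x u}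
      (fun x hx => Subgroup.closure_mono (fun _ => Or.inl) hx.1.1) (fun b hb x hx =>
        ⟨s4 hb x hx.1, fun u hu => by
          have := comm_cj (hx.2 _ (s4 (inv_mem hb) u hu)) b
          rwa [cj_cj, inv_mul_cancel, cj_one] at this⟩) (fun x hx y hy => hx.2 y hy.1) x ⟨h1, h2⟩
  have s5 : ∀ t ∈ A1, Eg q w φ 2 t → t = 1 := fun t h1 h2 => by
    have h3 : t ∈ U := ⟨h1, fun x hx => (comm_cl (a := t) (by
      rintro x (hx | hx)
      · exact s1 hy h5 hw rfl h2 hx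
      · exact (comm_cl (fun v hv => s1 hy h5 hw rfl hx hv) t h1).symm) x hx).symm⟩
    refine hZ t h3 fun u hu => comm_cl (fun v hv => ?_) u hu.1
    exact ml1 hy.pg h5 hy.five h2 hv (fin2 hy h2 hv) h3 (s4 (subset_closure (Or.inl hv)))
      fun t h4 h6 => hZ t h4 fun u hu => hU hu t (subset_closure (Or.inl h6))
  exact ml1 hy.pg h5 hy.five a b (fin2 hy a b) (U := A1) (subset_closure a)
    (le_nz _ _ (subset_closure b)) s5

lemma core (hR : RF H) (g : H) : g = 1 := by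
  have sq : ∀ {v : ℤ}, (q : ℤ) ∣ 1 + v + v ^ 2 + v ^ 3 + v ^ 4 →
      (q : ℤ) ∣ 1 + v ^ 2 + (v ^ 2) ^ 2 + (v ^ 2) ^ 3 + (v ^ 2) ^ 4 := fun {v} h => by
    rw [show 1 + v ^ 2 + (v ^ 2) ^ 2 + (v ^ 2) ^ 3 + (v ^ 2) ^ 4 =
      (1 + v + v ^ 2 + v ^ 3 + v ^ 4) * (v ^ 4 - v ^ 3 + v ^ 2 - v + 1) by ring]
    exact h.mul_right _
  have c : ∀ {v : ℤ} {i : ℕ}, v = w ^ i → (q : ℤ) ∣ 1 + v + v ^ 2 + v ^ 3 + v ^ 4 → ∀ {j : ℕ},
      (∀ t, Eg q w φ j t → Eg q w φ i t) → ∀ {y z}, Eg q w φ j y → Eg q w φ j z → Commute y z := by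
    rintro _ i rfl h j hj y z a b
    exact s6 hy h5 h hR (by simpa [Eg] using hj y a) (by simpa [Eg] using hj z b)
  have c8 : ∀ t, Eg q w φ 3 t → Eg q w φ 8 t := fun t ⟨n, hn, e⟩ => ⟨n, by
    rw [show n - w ^ 8 = n - w ^ 3 - (w ^ 5 - 1) * w ^ 3 by ring]
    exact dvd_sub hn ((cyc_five hw).mul_right _), e⟩
  refine ito hR (A := closure {t | Eg q w φ 1 t ∨ Eg q w φ 4 t})
    (B := closure {t | Eg q w φ 2 t ∨ Eg q w φ 3 t})
    (fun x hx => comm_cl fun y a => (comm_cl (fun z b => ?_) x hx).symm)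
    (fun x hx => comm_cl fun y a => (comm_cl (fun z b => ?_) x hx).symm) (fun g => ?_) g
  · rcases a with a | a <;> rcases b with b | b
    · exact s6 hy h5 hw hR a b
    · exact s1 hy h5 hw rfl a b
    · exact s1 hy h5 hw rfl a b
    · exact c (i := 4) (by ring) (sq (sq hw)) (fun _ h => h) a b
  · rcases a with a | a <;> rcases b with b | b
    · exact c rfl (sq hw) (fun _ h => h) a b
    · exact s1 hy h5 hw rfl a b
    · exact s1 hy h5 hw rfl a b
    · exact c (i := 8) (by ring) (sq (sq (sq hw))) c8 a b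
  · obtain ⟨a, b, c, d, ha, hb, hc, hd, e⟩ := fac hy h5 hw g
    exact ⟨_, mul_mem (subset_closure (Or.inl ha)) (subset_closure (Or.inr hb)), _,
      mul_mem (subset_closure (Or.inl hc)) (subset_closure (Or.inr hd)), by rw [e, mul_assoc]⟩

end Pool.Agent.MP_b7033c_al.Five

end

section

set_option autoImplicit false

namespace Pool.Agent.MP_b7033c_al.Five

open Subgroup

variable {H : Type} [Group H] {q : ℕ}

/-- locally finite subgroups that are normal in `B` -/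
def NL (B K : Subgroup H) : Prop := K ≤ B ∧ (∀ f ∈ B, ∀ k ∈ K, cj k f ∈ K) ∧ LF K

lemma rad (B : Subgroup H) : ∃ R, NL B R ∧ ∀ K, NL B K → K ≤ R := by
  let N : Set (Subgroup H) := {K | NL B K}
  have hb : ⊥ ∈ N := ⟨bot_le, fun f _ k hk => by rw [mem_bot.1 hk]; simp [cj], fun s _ hs =>
    ((Set.finite_singleton 1).subset ((closure_le ⊥).2 hs)).to_subtype⟩
  have hd : DirectedOn (· ≤ ·) N := by
    rintro A ⟨a1, a2, a3⟩ C ⟨b1, b2, b3⟩
    obtain ⟨M, hM, hM'⟩ := a3.sup b3 fun h hh => b2 h (a1 hh)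
    refine ⟨M, ⟨fun x hx => ?_, fun f hf x hx => ?_, hM'⟩,
      fun x hx => (hM x).2 ⟨x, hx, 1, one_mem _, by simp⟩,
      fun x hx => (hM x).2 ⟨1, one_mem _, x, hx, by simp⟩⟩
    · obtain ⟨h, hh, k, hk, rfl⟩ := (hM x).1 hx
      exact mul_mem (a1 hh) (b1 hk)
    · obtain ⟨h, hh, k, hk, rfl⟩ := (hM x).1 hx
      exact (hM _).2 ⟨_, a2 f hf h hh, _, b2 f hf k hk, cj_mul _ _ _⟩
  have mem : ∀ x, x ∈ sSup N ↔ ∃ K ∈ N, x ∈ K := fun x => mem_sSup_of_directedOn ⟨_, hb⟩ hd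
  refine ⟨sSup N, ⟨sSup_le fun K hK => hK.1, fun f hf x hx => ?_, fun s hs hsR => ?_⟩,
    fun K hK => le_sSup hK⟩
  · obtain ⟨K, hK, hx⟩ := (mem x).1 hx
    exact (mem _).2 ⟨K, hK, hK.2.1 f hf x hx⟩
  · have : ∃ K ∈ N, s ⊆ K := by
      induction s, hs using Set.Finite.induction_on with
      | empty => exact ⟨_, hb, Set.empty_subset _⟩
      | @insert x s _ _ ih =>
        obtain ⟨K, hK, hsK⟩ := ih ((Set.subset_insert _ _).trans hsR)
        obtain ⟨K', hK', hx⟩ := (mem x).1 (hsR (Set.mem_insert _ _))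
        obtain ⟨M, hM, h1, h2⟩ := hd K hK K' hK'
        exact ⟨M, hM, Set.insert_subset (h2 hx) (hsK.trans h1)⟩
    obtain ⟨K, hK, hsK⟩ := this
    exact hK.2.2 s hs hsK

lemma lf_map {L : Type} [Group L] {K : Subgroup H} (hK : LF K) (f : H →* L)
    (hf : Function.Injective f) : LF (K.map f) := by
  intro s hs hsK
  obtain ⟨t, ht, rfl⟩ : ∃ t ⊆ (K : Set H), f '' t = s := Set.subset_image_iff.1 hsK
  have := hK t (hs.of_finite_image hf.injOn) ht
  rw [← MonoidHom.map_closure]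
  exact Finite.of_equiv _ ((closure t).equivMapOfInjective _ hf).toEquiv

lemma NL.map {B K : Subgroup H} (h : NL B K) (f : H →* H) (hf : Function.Injective f)
    (hB : B.map f = B) : NL B (K.map f) := by
  refine ⟨(map_mono h.1).trans hB.le, fun b hb => ?_, lf_map h.2.2 f hf⟩
  obtain ⟨b, hb', rfl⟩ := hB.ge hb
  rintro _ ⟨k, hk, rfl⟩
  exact ⟨_, h.2.1 b hb' k hk, by simp [cj]⟩

lemma rf_quot {R : Subgroup H} [R.Normal] (h1 : LF R) (h2 : ∀ K, NL ⊤ K → K ≤ R)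
    (ho : ∀ x : H ⧸ R, IsOfFinOrder x) : RF (H ⧸ R) := by
  intro B hB X hX hc hc' x hx
  obtain ⟨S, hS, hS'⟩ := rad B
  have h3 : closure X ≤ S := hS' _ ⟨(closure_le _).2 hX, fun b hb k hk => by
    induction hk using closure_induction with
    | mem k hk => exact subset_closure (hc b hb k hk)
    | one => simp [cj]
    | mul a b _ _ ha hb => rw [cj_mul]; exact mul_mem ha hb
    | inv a _ ha => rw [cj_inv]; exact inv_mem ha, lf_comm hc' fun x _ => ho x⟩
  have h4 := h2 (S.comap (QuotientGroup.mk' R)) ⟨le_top, fun g _ k hk => by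
    let e := MulAut.conj (QuotientGroup.mk' R g)⁻¹
    have := hS' _ (hS.map e.toMonoidHom e.injective (le_antisymm (by
      rintro _ ⟨b, hb, rfl⟩
      exact hB.conj_mem b hb _) fun b hb => ⟨_, hB.conj_mem b hb (QuotientGroup.mk' R g), by
        simp [e, mul_assoc]⟩)) ⟨_, hk, rfl⟩
    simpa [e, cj] using this, h1.comap hS.2.2⟩
  obtain ⟨x, rfl⟩ := QuotientGroup.mk_surjective x
  exact (QuotientGroup.eq_one_iff x).2 (h4 (h3 (subset_closure hx)))

variable [Fact q.Prime] {φ : H →* H}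

lemma Hy.quot (hy : Hy q φ) (h5 : q % 5 = 1) {R : Subgroup H} [R.Normal]
    (hR : R ≤ R.comap φ) : Hy q (QuotientGroup.map R R φ hR) := by
  let π := QuotientGroup.mk' R
  have up : ∀ x : H ⧸ R, QuotientGroup.map R R φ hR x ∈ zpowers x →
      ∃ y, π y = x ∧ φ y ∈ zpowers y := fun x ⟨n, hn⟩ => by
    obtain ⟨x, rfl⟩ := QuotientGroup.mk_surjective x
    obtain ⟨A, hA, hx, h⟩ := hy.inv x
    obtain ⟨y, e, m, -, e'⟩ := lift (hy.pg.to_subgroup A) h5 (res φ A h)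
      (fun x => Subtype.ext (hy.five x)) (π.comp A.subtype) (fun v hv =>
        (QuotientGroup.eq_one_iff _).2 (hR ((QuotientGroup.eq_one_iff _).1 hv)))
      (x := ⟨x, hx⟩) (n := n) hn.symm
    exact ⟨y, e, m, (congrArg Subtype.val e').symm⟩
  have fm : ∀ A : Subgroup H, Finite A → Finite (A.map π) := fun A _ =>
    Finite.of_surjective _ (π.subgroupMap_surjective A)
  refine ⟨fun x => ?_, hy.pg.to_quotient R, fun x => ?_, fun x => ?_, fun x y hx hy' => ?_⟩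
  · obtain ⟨x, rfl⟩ := QuotientGroup.mk_surjective x
    simp only [QuotientGroup.map_mk, hy.five]
  · obtain ⟨x, rfl⟩ := QuotientGroup.mk_surjective x
    simp only [QuotientGroup.map_mk, ← QuotientGroup.mk_mul, hy.nrm, QuotientGroup.mk_one]
  · obtain ⟨x, rfl⟩ := QuotientGroup.mk_surjective x
    obtain ⟨A, hA, hx, h⟩ := hy.inv x
    refine ⟨A.map π, fm A hA, ⟨x, hx, rfl⟩, ?_⟩
    rintro _ ⟨k, hk, rfl⟩
    exact ⟨_, h k hk, rfl⟩
  · obtain ⟨x, rfl, a⟩ := up x hx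
    obtain ⟨y, rfl, b⟩ := up y hy'
    have := fm _ (hy.pair x y a b)
    rwa [MonoidHom.map_closure, Set.image_pair] at this

theorem Hy.lf (hy : Hy q φ) (h5 : q % 5 = 1) : LF (⊤ : Subgroup H) := by
  have : Fact (Nat.Prime 5) := ⟨Nat.prime_five⟩
  obtain ⟨u, hu⟩ := exists_prime_orderOf_dvd_card' (G := (ZMod q)ˣ) 5 (by
    rw [Nat.card_eq_fintype_card, ZMod.card_units]; omega)
  have hw : (q : ℤ) ∣ 1 + ((u : ZMod q).val : ℤ) + ((u : ZMod q).val : ℤ) ^ 2 +
      ((u : ZMod q).val : ℤ) ^ 3 + ((u : ZMod q).val : ℤ) ^ 4 := by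
    rw [← ZMod.intCast_zmod_eq_zero_iff_dvd]
    push_cast
    rw [ZMod.natCast_zmod_val]
    have h1 : (u : ZMod q) ^ 5 = 1 := by
      rw [← Units.val_pow_eq_pow_val, ← hu, pow_orderOf_eq_one, Units.val_one]
    have h2 : (u : ZMod q) - 1 ≠ 0 := fun h => by
      rw [Units.val_eq_one.1 (sub_eq_zero.1 h), orderOf_one] at hu
      omega
    apply mul_left_cancel₀ h2
    linear_combination h1
  obtain ⟨R, hR, hR'⟩ := rad (⊤ : Subgroup H)
  have : R.Normal := ⟨fun x hx g => by simpa [cj] using hR.2.1 g⁻¹ (mem_top _) x hx⟩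
  have h1 : R ≤ R.comap φ := map_le_iff_le_comap.1 (hR' _ (hR.map φ
    (fun x y h => by rw [← hy.five x, h, hy.five])
    (map_top_of_surjective φ fun x => ⟨_, hy.five x⟩)))
  have h2 := hy.quot h5 h1
  have h3 := core h2 h5 hw (rf_quot hR.2.2 hR' fun x => by
    obtain ⟨k, hk⟩ := h2.pg x
    exact isOfFinOrder_iff_pow_eq_one.2 ⟨_, pow_pos (Fact.out : q.Prime).pos k, hk⟩)
  exact fun s hs _ => hR.2.2 s hs fun x _ => (QuotientGroup.eq_one_iff x).1 (h3 _)

end Pool.Agent.MP_b7033c_al.Five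

end
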