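import Mathlib

set_option linter.all false

section

set_option autoImplicit false

namespace Pool.Agent.MP_b7033c_al.Three

open scoped Nat

/-- A `ZMod p`-graded Lie ring with zero component `0` is nilpotent of class at most `h`. -/
def Graded (p h : ℕ) : Prop :=
  ∀ (L : Type) [LieRing L] (S : ZMod p → AddSubgroup L),
    (∀ u v (x y : L), x ∈ S u → y ∈ S v → ⁅x, y⁆ ∈ S (u + v)) → S 0 = ⊥ →
    ∀ l : List L, l.length = h → (∀ x ∈ l, ∃ u, x ∈ S u) → ∀ y : L, (∃ u, y ∈ S u) →
      l.foldr (fun x z => ⁅x, z⁆) y = 0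

/-- Higman's theorem for Lie rings of finite exponent prime to `p`. -/
def LieH (p h : ℕ) : Prop :=
  ∀ (L : Type) [LieRing L] (ψ : L →+ L) (m : ℕ), m.Coprime p → (∀ x : L, m • x = 0) →
    (∀ x y : L, ψ ⁅x, y⁆ = ⁅ψ x, ψ y⁆) → (∀ x, ∑ i ∈ Finset.range p, ψ^[i] x = 0) →
    ∀ l : List L, l.length = h → ∀ y : L, l.foldr (fun x z => ⁅x, z⁆) y = 0

/-- Unipotent representations of split groups. -/
def Core (p h : ℕ) : Prop :=
  ∀ (n : ℕ) (E : Type) [Group E] (R : Type) [Ring R] (ρ : E →* R) (Γ : Subgroup E) (c : E)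
    (m : ℕ), m.Coprime (p * (n + 1))! → (m : R) = 0 → (∀ y ∈ Γ, c * y * c⁻¹ ∈ Γ) →
    (∀ y ∈ Γ, (y * c) ^ p = 1) → (∀ y ∈ Γ, (ρ y - 1) ^ n = 0) →
    ∀ y ∈ Γ.lowerCentralSeries h, ρ y = 1

/-- Eigen-lifting in nilpotent groups. -/
def Lift : Prop :=
  ∀ (P : Type) [Group P] (σ : P →* P) (m n : ℕ), (∀ w : P, w ^ m = 1) →
    (⊤ : Subgroup P).lowerCentralSeries n = ⊥ → m.Coprime (2 ^ n)! →
    (∀ w, σ w * (w ^ 2)⁻¹ ∈ commutator P) →
    ∀ w, ∃! z, σ z = z ^ 2 ∧ z * w⁻¹ ∈ commutator P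

/-- Higman's theorem for finite nilpotent groups whose order has no prime factor up to `B`. -/
def GH (p n B : ℕ) : Prop :=
  ∀ (K : Type) [Group K] [Finite K] (α : MulAut K), Group.IsNilpotent K →
    (Nat.card K).Coprime B ! → (∀ y, (MulAut.conj y * α) ^ p = 1) →
    (⊤ : Subgroup K).lowerCentralSeries n = ⊥

/-- Thompson's theorem for finite groups whose order has no prime factor up to `B`. -/
def Tho (p B : ℕ) : Prop :=
  ∀ (K : Type) [Group K] [Finite K] (α : MulAut K), (Nat.card K).Coprime B ! → α ^ p = 1 →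
    (∀ y, α y = y → y = 1) → Group.IsNilpotent K

/-- A special case of the Hall-Wielandt transfer theorem. -/
def Yosh : Prop :=
  ∀ (K : Type) [Group K] [Finite K] (r : ℕ) [Fact r.Prime] (R : Sylow r K) (n : ℕ), n < r →
    (R : Subgroup K) ≠ ⊥ → (R : Subgroup K).lowerCentralSeries n = ⊥ →
    Group.IsNilpotent (Subgroup.normalizer ((R : Subgroup K) : Set K)) → commutator K ≠ ⊤

/-- Coprime invariant subgroups centralise invariant abelian normal subgroups. -/
def NormId : Prop :=
  ∀ (p : ℕ) (K : Type) [Group K] [Finite K] (α : MulAut K) (V W : Subgroup K), p.Prime →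
    α ^ p = 1 → (∀ y, α y = y → y = 1) → V.Normal → (∀ u ∈ V, ∀ v ∈ V, Commute u v) →
    (∀ v ∈ V, α v ∈ V) → (∀ w ∈ W, α w ∈ W) → (Nat.card V).Coprime (Nat.card W) →
    ∀ v ∈ V, ∀ w ∈ W, Commute v w

/-- Periodic nilpotent groups are locally finite. -/
def NilLF : Prop :=
  ∀ (G : Type) [Group G] (N : Subgroup G) (n : ℕ), N.lowerCentralSeries n = ⊥ →
    (∀ x ∈ N, IsOfFinOrder x) → ∀ s : Set G, s.Finite → s ⊆ N → Finite (Subgroup.closure s)

end Pool.Agent.MP_b7033c_al.Three

end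

section

/-! Eigen-lifting in nilpotent groups. -/

set_option autoImplicit false

namespace Pool.Agent.MP_b7033c_al.Three

open scoped Nat commutatorElement

namespace LiftA

variable {P Q : Type} [Group P] [Group Q]

/-- the lower central series of the whole group -/
abbrev g (P : Type) [Group P] (i : ℕ) : Subgroup P := (⊤ : Subgroup P).lowerCentralSeries i

/-- commutator with an element of the second centre -/
def cr (a : Q) (h : ∀ b c : Q, Commute ⁅a, b⁆ c) : Q →* Q :=
  MonoidHom.mk' (fun b => ⁅a, b⁆) fun b c => by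
    have : ⁅a, b * c⁆ = ⁅a, b⁆ * (b * ⁅a, c⁆ * b⁻¹) := by
      simp only [commutatorElement_def]
      group
    rw [this, ← (h c b).eq, mul_inv_cancel_right]

theorem left_mul (a a' b : Q) (h : Commute ⁅a', b⁆ a) : ⁅a * a', b⁆ = ⁅a', b⁆ * ⁅a, b⁆ := by
  have : ⁅a * a', b⁆ = a * ⁅a', b⁆ * a⁻¹ * ⁅a, b⁆ := by
    simp only [commutatorElement_def]
    group
  rw [this, ← h.eq, mul_inv_cancel_right]

theorem left_pow (a b : Q) (h : ∀ c, Commute ⁅a, b⁆ c) (k : ℕ) : ⁅a ^ k, b⁆ = ⁅a, b⁆ ^ k := by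
  induction k with
  | zero => simp
  | succ k ih => rw [pow_succ, left_mul _ _ _ (h _), ih, pow_succ']

theorem kill (F : P →* Q) (h : ∀ x c, Commute (F x) c) : commutator P ≤ F.ker := by
  rw [commutator_def, Subgroup.commutator_le]
  intro x _ y _
  rw [MonoidHom.mem_ker, map_commutatorElement]
  exact commutatorElement_eq_one_iff_commute.2 (h x _)

theorem cen (i : ℕ) {u : P} (hu : u ∈ g P i) (c : P ⧸ g P (i + 1)) :
    Commute (QuotientGroup.mk' (g P (i + 1)) u) c := by
  obtain ⟨v, rfl⟩ := QuotientGroup.mk'_surjective _ c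
  rw [← commutatorElement_eq_one_iff_commute, ← map_commutatorElement, QuotientGroup.mk'_apply,
    QuotientGroup.eq_one_iff]
  exact Subgroup.commutator_mem_commutator hu (Subgroup.mem_top v)

theorem key (σ : P →* P) (hσ : ∀ w, σ w * (w ^ 2)⁻¹ ∈ commutator P) (i : ℕ) :
    ∀ c ∈ g P i, QuotientGroup.mk' (g P (i + 1)) (σ c) =
      QuotientGroup.mk' (g P (i + 1)) c ^ 2 ^ (i + 1) := by
  induction i with
  | zero =>
    intro c _
    rw [← map_pow, ← mul_inv_eq_one, ← map_inv, ← map_mul, QuotientGroup.mk'_apply,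
      QuotientGroup.eq_one_iff]
    exact hσ c
  | succ i ih =>
    intro c hc
    set π := QuotientGroup.mk' (g P (i + 1 + 1)) with hπ
    induction hc using Subgroup.closure_induction with
    | mem x hx =>
      obtain ⟨u, hu, v, -, rfl⟩ := hx
      have hd : σ u * (u ^ 2 ^ (i + 1))⁻¹ ∈ g P (i + 1) := by
        rw [← QuotientGroup.eq_one_iff, ← QuotientGroup.mk'_apply, map_mul, map_inv, map_pow,
          ih u hu, mul_inv_cancel]
      have z : ∀ u ∈ g P i, ∀ b c : P ⧸ g P (i + 1 + 1), Commute ⁅π u, b⁆ c := fun u hu b c => by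
        obtain ⟨v, rfl⟩ := QuotientGroup.mk'_surjective _ b
        rw [← map_commutatorElement]
        exact cen (i + 1) (Subgroup.commutator_mem_commutator hu (Subgroup.mem_top v)) c
      have hu' := pow_mem hu (2 ^ (i + 1))
      have e1 : σ u = σ u * (u ^ 2 ^ (i + 1))⁻¹ * u ^ 2 ^ (i + 1) := by simp
      have e2 : σ v = σ v * (v ^ 2)⁻¹ * v ^ 2 := by simp
      have e3 : cr _ (z _ hu') (π (σ v * (v ^ 2)⁻¹)) = 1 :=
        kill ((cr _ (z _ hu')).comp π) (fun x c => z _ hu' _ c) (hσ v)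
      have e4 : cr _ (z _ hu') (π (σ v)) = cr _ (z _ hu') (π v) ^ 2 := by
        rw [e2, map_mul, map_mul, e3, one_mul, map_pow π v, map_pow]
      change ⁅π (u ^ 2 ^ (i + 1)), π (σ v)⁆ = ⁅π (u ^ 2 ^ (i + 1)), π v⁆ ^ 2 at e4
      rw [map_commutatorElement, map_commutatorElement, map_commutatorElement, e1, map_mul,
        left_mul _ _ _ (z _ hu' _ _), commutatorElement_eq_one_iff_commute.2 (cen (i + 1) hd _),
        mul_one, e4, map_pow, left_pow _ _ (z u hu _), ← pow_mul, ← pow_succ]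
    | one => rw [map_one, map_one, one_pow]
    | mul x y hx _ h1 h2 =>
      rw [map_mul, map_mul, h1, h2, map_mul, (cen (i + 1) hx _).mul_pow]
    | inv x _ h => rw [map_inv, map_inv, h, map_inv, inv_pow]

theorem bez {m n i : ℕ} (h : m.Coprime (2 ^ n)!) (h1 : 1 ≤ i) (h2 : i < n) :
    ∃ a b : ℤ, a * m + b * (((2 ^ (i + 1) : ℕ) : ℤ) - 2) = 1 := by
  have l1 : 2 ^ 2 ≤ 2 ^ (i + 1) := Nat.pow_le_pow_right two_pos (by omega)
  have l2 : 2 ^ (i + 1) ≤ 2 ^ n := Nat.pow_le_pow_right two_pos h2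
  have c : m.Coprime (2 ^ (i + 1) - 2) :=
    h.coprime_dvd_right (Nat.dvd_factorial (by omega) (by omega))
  obtain ⟨a, b, e⟩ := Nat.isCoprime_iff_coprime.2 c
  rw [Nat.cast_sub (by omega)] at e
  exact ⟨a, b, e⟩

end LiftA

open LiftA in
theorem lift : Lift := by
  intro P _ σ m n hm hn hc hσ w
  have hn' : ∀ x, x ∈ g P n → x = 1 := fun x hx => by rwa [g, hn, Subgroup.mem_bot] at hx
  rcases Nat.eq_zero_or_pos n with rfl | n0
  · have s : ∀ x y : P, x = y := fun x y =>
      (hn' x (Subgroup.mem_top x)).trans (hn' y (Subgroup.mem_top y)).symm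
    exact ⟨w, ⟨s _ _, by simp⟩, fun y _ => s _ _⟩
  have zm : ∀ (i : ℕ) (x : P) (a : ℤ), QuotientGroup.mk' (g P i) x ^ (a * m) = 1 := fun i x a => by
    rw [mul_comm, zpow_mul, zpow_natCast, ← map_pow, hm, map_one, one_zpow]
  have ex : ∀ i, 1 ≤ i → i ≤ n → ∃ z, z * w⁻¹ ∈ commutator P ∧ σ z * (z ^ 2)⁻¹ ∈ g P i := by
    intro i hi
    induction i, hi using Nat.le_induction with
    | base => exact fun _ => ⟨w, by simp, hσ w⟩
    | succ i hi ih =>
      intro l
      obtain ⟨z, h1, h2⟩ := ih (by omega)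
      obtain ⟨a, b, e⟩ := bez hc hi l
      have hd : (z ^ 2)⁻¹ * σ z ∈ g P i := Subgroup.Normal.mem_comm inferInstance h2
      have e1 : σ z = z ^ 2 * ((z ^ 2)⁻¹ * σ z) := by simp
      generalize (z ^ 2)⁻¹ * σ z = d at hd e1
      refine ⟨z * d ^ (-b), ?_, ?_⟩
      · have : d ^ (-b) ∈ commutator P :=
          zpow_mem ((⊤ : Subgroup P).lowerCentralSeries_antitone hi hd) _
        have e2 : z * d ^ (-b) * w⁻¹ = z * d ^ (-b) * z⁻¹ * (z * w⁻¹) := by group
        rw [e2]
        exact mul_mem (Subgroup.Normal.conj_mem inferInstance _ this z) h1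
      · rw [← QuotientGroup.eq_one_iff, ← QuotientGroup.mk'_apply, map_mul, map_inv, mul_inv_eq_one,
          map_mul, map_mul, map_zpow, map_zpow, key σ hσ i d hd, e1, map_pow, map_mul, map_mul,
          map_zpow, ((cen i hd _).zpow_left _).symm.mul_pow, map_pow, mul_assoc]
        congr 1
        rw [← zpow_natCast, ← zpow_natCast, ← zpow_mul, ← zpow_mul, ← zpow_one_add,
          show 1 + ((2 ^ (i + 1) : ℕ) : ℤ) * -b = -b * ((2 : ℕ) : ℤ) + a * m by
            push_cast at e ⊢
            linarith, zpow_add, zm, mul_one]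
  obtain ⟨z, h1, h2⟩ := ex n n0 le_rfl
  have hz : σ z = z ^ 2 := mul_inv_eq_one.1 (hn' _ h2)
  refine ⟨z, ⟨hz, h1⟩, fun y ⟨y1, y2⟩ => ?_⟩
  have un : ∀ i, 1 ≤ i → i ≤ n → z⁻¹ * y ∈ g P i := by
    intro i hi
    induction i, hi using Nat.le_induction with
    | base =>
      intro _
      have := mul_mem y2 (inv_mem h1)
      rw [show y * w⁻¹ * (z * w⁻¹)⁻¹ = y * z⁻¹ by group] at this
      exact Subgroup.Normal.mem_comm inferInstance this
    | succ i hi ih =>
      intro l
      have hd := ih (by omega)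
      obtain ⟨a, b, e⟩ := bez hc hi l
      have e1 : y = z * (z⁻¹ * y) := by simp
      generalize z⁻¹ * y = c at hd e1 ⊢
      have e2 := congrArg (QuotientGroup.mk' (g P (i + 1))) y1
      rw [e1, map_mul, map_mul, key σ hσ i c hd, hz, map_pow, map_pow, map_mul,
        (cen i hd _).symm.mul_pow, mul_right_inj] at e2
      rw [← QuotientGroup.eq_one_iff, ← QuotientGroup.mk'_apply,
        ← zpow_one (QuotientGroup.mk' (g P (i + 1)) c), ← e, zpow_add, zm, one_mul, mul_comm,
        zpow_mul, zpow_sub, zpow_natCast, e2, zpow_ofNat, mul_inv_cancel, one_zpow]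
  exact (inv_mul_eq_one.1 (hn' _ (un n n0 le_rfl))).symm

end Pool.Agent.MP_b7033c_al.Three

end

section

set_option autoImplicit false

namespace Pool.Agent.MP_b7033c_al.Three.SumA

open scoped Nat commutatorElement

variable {G : Type} [Group G]

/-- The sequence of repeated squares. -/
def e (x : G) : ℕ → G := fun k => x ^ 2 ^ k

/-- The group generated by the sequences of repeated squares. -/
def P (K : Subgroup G) : Subgroup (ℕ → G) := Subgroup.closure (e '' K)

/-- The shift. -/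
def sh : (ℕ → G) →* (ℕ → G) where
  toFun w k := w (k + 1)
  map_one' := rfl
  map_mul' _ _ := rfl

/-- Finite, of class at most `n`, without small prime divisors. -/
def Good (n : ℕ) (K : Subgroup G) : Prop :=
  Finite K ∧ K.lowerCentralSeries n = ⊥ ∧ (Nat.card K).Coprime (2 ^ n)!

lemma Good.mono {n : ℕ} {K K' : Subgroup G} (h : Good n K) (hle : K' ≤ K) : Good n K' := by
  obtain ⟨h1, h2, h3⟩ := h
  exact ⟨Finite.of_injective _ (Subgroup.inclusion_injective hle),
    eq_bot_iff.2 (h2 ▸ Subgroup.lowerCentralSeries_mono n hle),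
    Nat.Coprime.coprime_dvd_left (Subgroup.card_dvd_of_le hle) h3⟩

lemma Good.map {n : ℕ} {K : Subgroup G} (h : Good n K) (ψ : MulAut G) :
    Good n (K.map ψ.toMonoidHom) := by
  obtain ⟨h1, h2, h3⟩ := h
  refine ⟨Finite.of_equiv _ (ψ.subgroupMap K).toEquiv, ?_, ?_⟩
  · rw [← Subgroup.map_lowerCentralSeries, h2, Subgroup.map_bot]
  · rwa [Subgroup.card_map_of_injective ψ.injective]

lemma e_pow (x : G) (j : ℕ) : e (x ^ j) = e x ^ j := by
  funext k; simp only [e, Pi.pow_apply, ← pow_mul, mul_comm]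

lemma sh_e (x : G) : sh (e x) = e x ^ 2 := by
  funext k; show x ^ 2 ^ (k + 1) = (x ^ 2 ^ k) ^ 2
  rw [← pow_mul, pow_succ]

lemma e_mem {K : Subgroup G} {x : G} (hx : x ∈ K) : e x ∈ P K :=
  Subgroup.subset_closure ⟨x, hx, rfl⟩

lemma eig {w : ℕ → G} (h : sh w = w ^ 2) : w = e (w 0) := by
  funext k
  induction k with
  | zero => simp [e]
  | succ k ih =>
    have : w (k + 1) = w k ^ 2 := congrFun h k
    rw [this, ih, e, e, ← pow_mul, pow_succ]

lemma P_map (K : Subgroup G) (k : ℕ) : (P K).map (Pi.evalMonoidHom (fun _ => G) k) ≤ K := by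
  rw [Subgroup.map_le_iff_le_comap, P, Subgroup.closure_le]
  rintro _ ⟨x, hx, rfl⟩
  exact K.pow_mem hx _

lemma P_mem {K : Subgroup G} {w : ℕ → G} (hw : w ∈ P K) (k : ℕ) : w k ∈ K :=
  P_map K k ⟨w, hw, rfl⟩

lemma P_mono {K K' : Subgroup G} (h : K ≤ K') : P K ≤ P K' :=
  Subgroup.closure_mono (Set.image_mono h)

lemma sh_mem {K : Subgroup G} {w : ℕ → G} (hw : w ∈ P K) : sh w ∈ P K := by
  have : P K ≤ (P K).comap sh := by
    rw [P, Subgroup.closure_le]
    rintro _ ⟨x, hx, rfl⟩
    show sh (e x) ∈ P K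
    rw [sh_e]; exact pow_mem (e_mem hx) 2
  exact this hw

lemma mem_comm {K : Subgroup G} (w : P K) : w ∈ commutator (P K) ↔ w.1 ∈ ⁅P K, P K⁆ := by
  rw [← Subgroup.map_subtype_commutator]
  exact (Subgroup.mem_map_iff_mem (P K).subtype_injective).symm

lemma P_ext {K : Subgroup G} {A : Type} [Monoid A] {f g : P K →* A}
    (h : ∀ x (hx : x ∈ K), f ⟨e x, e_mem hx⟩ = g ⟨e x, e_mem hx⟩) : f = g := by
  refine MonoidHom.eq_of_eqOn_dense Subgroup.closure_closure_coe_preimage ?_
  rintro ⟨_, hw⟩ ⟨x, hx, rfl⟩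
  exact h x hx

lemma exu {n : ℕ} {K : Subgroup G} (h : Good n K) {w : ℕ → G} (hw : w ∈ P K) :
    ∃! z, z ∈ K ∧ e z * w⁻¹ ∈ ⁅P K, P K⁆ := by
  obtain ⟨h1, h2, h3⟩ := h
  let σ : P K →* P K := (sh.comp (P K).subtype).codRestrict _ fun w => sh_mem w.2
  have hσ : ∀ w, σ w * (w ^ 2)⁻¹ ∈ commutator (P K) := by
    intro w
    have : Abelianization.of.comp σ = (powMonoidHom 2).comp Abelianization.of :=
      P_ext fun x hx => by
        rw [MonoidHom.comp_apply, MonoidHom.comp_apply, powMonoidHom_apply, ← map_pow]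
        exact congrArg _ (Subtype.ext (sh_e x))
    have h4 := DFunLike.congr_fun this w
    rw [MonoidHom.comp_apply, MonoidHom.comp_apply, powMonoidHom_apply, ← map_pow] at h4
    rw [← Abelianization.ker_of, MonoidHom.mem_ker, map_mul, map_inv, h4, mul_inv_cancel]
  obtain ⟨z, ⟨hz1, hz2⟩, hz3⟩ := lift (P K) σ (Nat.card K) n (fun w => by
      ext k
      exact congrArg Subtype.val (pow_card_eq_one' (x := (⟨w.1 k, P_mem w.2 k⟩ : K))))
    (by
      rw [← Subgroup.map_subtype_inj, Subgroup.top_subtype_lowerCentralSeries, Subgroup.map_bot,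
        eq_bot_iff]
      intro w hw
      ext k
      have h5 := Subgroup.mem_map_of_mem (Pi.evalMonoidHom (fun _ => G) k) hw
      rw [Subgroup.map_lowerCentralSeries] at h5
      have h6 : w k ∈ K.lowerCentralSeries n := Subgroup.lowerCentralSeries_mono n (P_map K k) h5
      rw [h2] at h6
      exact h6) h3 hσ ⟨w, hw⟩
  have hz4 := eig (congrArg Subtype.val hz1)
  refine ⟨z.1 0, ⟨P_mem z.2 0, ?_⟩, ?_⟩
  · rw [← hz4]; exact (mem_comm _).1 hz2
  · rintro y ⟨hy, hy2⟩
    have := hz3 ⟨e y, e_mem hy⟩ ⟨Subtype.ext (sh_e y), (mem_comm _).2 hy2⟩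
    rw [← this]; simp [e]

open Classical in
/-- The class of the sequence of squares in the abelianisation. -/
noncomputable def cl (K : Subgroup G) (z : G) : Abelianization (P K) :=
  if h : z ∈ K then Abelianization.of ⟨e z, e_mem h⟩ else 1

lemma cl_eq {K : Subgroup G} {z : G} (h : z ∈ K) :
    cl K z = Abelianization.of ⟨e z, e_mem h⟩ := dif_pos h

lemma of_eq {K : Subgroup G} (u v : P K) :
    Abelianization.of u = Abelianization.of v ↔ u.1 * v.1⁻¹ ∈ ⁅P K, P K⁆ := by
  rw [← mul_inv_eq_one, ← map_inv, ← map_mul, ← MonoidHom.mem_ker, Abelianization.ker_of, mem_comm]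
  rfl

lemma cl_inj {n : ℕ} {K : Subgroup G} (h : Good n K) : Set.InjOn (cl K) K := by
  intro x hx y hy hxy
  rw [cl_eq hx, cl_eq hy, of_eq] at hxy
  exact (exu h (e_mem hy)).unique ⟨hx, hxy⟩ ⟨hy, by simp⟩

lemma cl_pow {K : Subgroup G} {x : G} (hx : x ∈ K) (j : ℕ) : cl K (x ^ j) = cl K x ^ j := by
  rw [cl_eq hx, cl_eq (K.pow_mem hx j), ← map_pow]
  exact congrArg _ (Subtype.ext (e_pow x j))

open Classical in
/-- The sum of two group elements. -/
noncomputable def add (x y : G) : G :=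
  Classical.epsilon fun z => z ∈ Subgroup.closure {x, y} ∧
    e z * (e x * e y)⁻¹ ∈ ⁅P (Subgroup.closure {x, y}), P (Subgroup.closure {x, y})⁆

lemma add_spec {n : ℕ} {K : Subgroup G} (h : Good n K) {x y : G} (hx : x ∈ K) (hy : y ∈ K) :
    add x y ∈ K ∧ e (add x y) * (e x * e y)⁻¹ ∈ ⁅P K, P K⁆ := by
  have hle : Subgroup.closure {x, y} ≤ K := by
    rw [Subgroup.closure_le, Set.insert_subset_iff, Set.singleton_subset_iff]; exact ⟨hx, hy⟩
  have := Classical.epsilon_spec (exu (h.mono hle) (mul_mem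
    (e_mem (Subgroup.subset_closure (by simp))) (e_mem (Subgroup.subset_closure (by simp)))
    : e x * e y ∈ _)).exists
  exact ⟨hle this.1, Subgroup.commutator_mono (P_mono hle) (P_mono hle) this.2⟩

lemma cl_add {n : ℕ} {K : Subgroup G} (h : Good n K) {x y : G} (hx : x ∈ K) (hy : y ∈ K) :
    cl K (add x y) = cl K x * cl K y := by
  rw [cl_eq hx, cl_eq hy, cl_eq (add_spec h hx hy).1, ← map_mul, of_eq]
  exact (add_spec h hx hy).2

/-- Componentwise application of an automorphism. -/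
def up (ψ : MulAut G) : (ℕ → G) →* (ℕ → G) := ψ.toMonoidHom.compLeft ℕ

lemma up_e (ψ : MulAut G) (x : G) : up ψ (e x) = e (ψ x) := by
  funext k; exact map_pow ψ x _

lemma up_P (ψ : MulAut G) (K : Subgroup G) : (P K).map (up ψ) = P (K.map ψ.toMonoidHom) := by
  rw [P, P, MonoidHom.map_closure, Subgroup.coe_map, Set.image_image, Set.image_image]
  simp only [up_e]; rfl

lemma add_map {n : ℕ} {K : Subgroup G} (h : Good n K) {x y : G} (hx : x ∈ K) (hy : y ∈ K)
    (ψ : MulAut G) : add (ψ x) (ψ y) = ψ (add x y) := by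
  have h' := h.map ψ
  have hx' : ψ x ∈ K.map ψ.toMonoidHom := ⟨x, hx, rfl⟩
  have hy' : ψ y ∈ K.map ψ.toMonoidHom := ⟨y, hy, rfl⟩
  refine (exu h' (mul_mem (e_mem hx') (e_mem hy'))).unique (add_spec h' hx' hy')
    ⟨⟨_, (add_spec h hx hy).1, rfl⟩, ?_⟩
  have := Subgroup.mem_map_of_mem (up ψ) (add_spec h hx hy).2
  rwa [Subgroup.map_commutator, up_P, map_mul, map_inv, map_mul, up_e, up_e, up_e] at this

lemma up_mem (ψ : MulAut G) {w : ℕ → G} (hw : w ∈ P (⊤ : Subgroup G)) :
    up ψ w ∈ P (⊤ : Subgroup G) :=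
  P_mono le_top (up_P ψ ⊤ ▸ Subgroup.mem_map_of_mem _ hw)

/-- The action of an automorphism on the group of square sequences. -/
def upP (ψ : MulAut G) : P (⊤ : Subgroup G) →* P (⊤ : Subgroup G) :=
  ((up ψ).comp (P ⊤).subtype).codRestrict _ fun w => up_mem ψ w.2

/-- The linear action of the automorphism group. -/
def rep : MulAut G →* AddMonoid.End (Additive (Abelianization (P (⊤ : Subgroup G)))) where
  toFun ψ := MonoidHom.toAdditive (Abelianization.map (upP ψ))
  map_one' := by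
    refine AddMonoidHom.ext fun v => ?_
    obtain ⟨w, rfl⟩ : ∃ w, Additive.ofMul (Abelianization.of w) = v :=
      QuotientGroup.mk_surjective v.toMul
    rfl
  map_mul' a b := by
    refine AddMonoidHom.ext fun v => ?_
    obtain ⟨w, rfl⟩ : ∃ w, Additive.ofMul (Abelianization.of w) = v :=
      QuotientGroup.mk_surjective v.toMul
    rfl

lemma rep_apply (ψ : MulAut G) (w : P (⊤ : Subgroup G)) :
    rep ψ (Additive.ofMul (Abelianization.of w)) =
      Additive.ofMul (Abelianization.of (upP ψ w)) := rfl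

lemma rep_inj {n : ℕ} (h : Good n (⊤ : Subgroup G)) {ψ : MulAut G} (h1 : rep ψ = 1) : ψ = 1 := by
  ext x
  refine cl_inj h (Subgroup.mem_top _) (Subgroup.mem_top _) ?_
  have := rep_apply ψ ⟨e x, e_mem (Subgroup.mem_top x)⟩
  rw [h1] at this
  rw [cl_eq (Subgroup.mem_top _), cl_eq (Subgroup.mem_top _)]
  refine Eq.trans (congrArg _ (Subtype.ext (up_e ψ x).symm)) (Additive.ofMul.injective this).symm

lemma rep_unip {n : ℕ} (h : (⊤ : Subgroup G).lowerCentralSeries n = ⊥) (y : G) :
    (rep (MulAut.conj y) - 1) ^ n = 0 := by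
  have key : ∀ i, ∀ w : P (⊤ : Subgroup G), ∃ w' : P (⊤ : Subgroup G),
      (∀ k, w'.1 k ∈ (⊤ : Subgroup G).lowerCentralSeries i) ∧
      ((rep (MulAut.conj y) - 1) ^ i) (Additive.ofMul (Abelianization.of w)) =
        Additive.ofMul (Abelianization.of w') := by
    intro i w
    induction i with
    | zero => exact ⟨w, fun k => Subgroup.mem_top _, rfl⟩
    | succ i ih =>
      obtain ⟨w', h1, h2⟩ := ih
      refine ⟨upP (MulAut.conj y) w' * w'⁻¹, fun k => ?_, ?_⟩
      · rw [Subgroup.lowerCentralSeries_succ, Subgroup.commutator_comm]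
        exact Subgroup.commutator_mem_commutator (Subgroup.mem_top y) (h1 k)
      · rw [pow_succ', AddMonoid.End.coe_mul, Function.comp_apply, h2, map_mul, map_inv,
          ofMul_mul, ofMul_inv, ← rep_apply, ← sub_eq_add_neg]
        rfl
  refine AddMonoidHom.ext fun v => ?_
  obtain ⟨w, rfl⟩ : ∃ w, Additive.ofMul (Abelianization.of w) = v :=
    QuotientGroup.mk_surjective v.toMul
  obtain ⟨w', h1, h2⟩ := key n w
  have : w' = 1 := by
    ext k; simpa [h] using h1 k
  rw [this] at h2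
  exact h2

lemma rep_card [Finite G] :
    ((Nat.card G : ℕ) : AddMonoid.End (Additive (Abelianization (P (⊤ : Subgroup G))))) = 0 := by
  refine AddMonoidHom.ext fun v => ?_
  obtain ⟨w, rfl⟩ : ∃ w, Additive.ofMul (Abelianization.of w) = v :=
    QuotientGroup.mk_surjective v.toMul
  have : w ^ Nat.card G = 1 := by
    ext k; exact pow_card_eq_one'
  refine (AddMonoid.End.natCast_apply _ _).trans ?_
  rw [← ofMul_pow, ← map_pow, this]; rfl

end Pool.Agent.MP_b7033c_al.Three.SumA

end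

section

/-! Theorems of Kreknin and Kostrikin on cyclically graded Lie rings. -/

set_option autoImplicit false

namespace Pool.Agent.MP_b7033c_al.Three

namespace GrA

variable {p : ℕ} {L : Type} [LieRing L]

/-- bracket of two families -/
def br (A B : ZMod p → AddSubgroup L) (w : ZMod p) : AddSubgroup L :=
  AddSubgroup.closure {z | ∃ u v x y, x ∈ A u ∧ y ∈ B v ∧ u + v = w ∧ z = ⁅x, y⁆}

/-- closed family -/
def Cl (S : ZMod p → AddSubgroup L) : Prop :=
  ∀ u v (x y : L), x ∈ S u → y ∈ S v → ⁅x, y⁆ ∈ S (u + v)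

def der (S : ZMod p → AddSubgroup L) : ZMod p → AddSubgroup L := br S S

/-- least closed family above `A` -/
def gen (A : ZMod p → AddSubgroup L) : ZMod p → AddSubgroup L := sInf {T | Cl T ∧ A ≤ T}

def trunc (k : ℕ) (S : ZMod p → AddSubgroup L) (u : ZMod p) : AddSubgroup L :=
  if k ≤ u.val then S u else ⊥

/-- elements sent into `J` by all of `S` -/
def pre (S J : ZMod p → AddSubgroup L) (w : ZMod p) : AddSubgroup L where
  carrier := {y | ∀ u x, x ∈ S u → ⁅x, y⁆ ∈ J (u + w)}
  zero_mem' := fun u x _ => by rw [lie_zero]; exact zero_mem _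
  add_mem' := fun ha hb u x hx => by rw [lie_add]; exact add_mem (ha u x hx) (hb u x hx)
  neg_mem' := fun ha u x hx => by rw [lie_neg]; exact neg_mem (ha u x hx)

theorem mem_pre {S J : ZMod p → AddSubgroup L} {w : ZMod p} {y : L} :
    y ∈ pre S J w ↔ ∀ u x, x ∈ S u → ⁅x, y⁆ ∈ J (u + w) := Iff.rfl

theorem pre_mono (S : ZMod p → AddSubgroup L) : Monotone (pre S) :=
  fun _ _ h w _ hy u x hx => h (u + w) (hy u x hx)

theorem mem_br {A B : ZMod p → AddSubgroup L} {u v : ZMod p} {x y : L} (hx : x ∈ A u)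
    (hy : y ∈ B v) : ⁅x, y⁆ ∈ br A B (u + v) :=
  AddSubgroup.subset_closure ⟨u, v, x, y, hx, hy, rfl, rfl⟩

theorem br_le {A B : ZMod p → AddSubgroup L} {w : ZMod p} {C : AddSubgroup L}
    (h : ∀ u v x y, x ∈ A u → y ∈ B v → u + v = w → ⁅x, y⁆ ∈ C) : br A B w ≤ C := by
  refine (AddSubgroup.closure_le _).2 ?_
  rintro _ ⟨u, v, x, y, hx, hy, e, rfl⟩
  exact h u v x y hx hy e

theorem der_le {S : ZMod p → AddSubgroup L} (h : Cl S) : der S ≤ S :=
  fun _ => br_le fun u v x y hx hy e => e ▸ h u v x y hx hy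

theorem der_cl {S : ZMod p → AddSubgroup L} (h : Cl S) : Cl (der S) :=
  fun u v _ _ hx hy => mem_br (der_le h u hx) (der_le h v hy)

theorem iter_cl {S : ZMod p → AddSubgroup L} (h : Cl S) (s : ℕ) :
    Cl (der^[s] S) ∧ der^[s] S ≤ S := by
  induction s with
  | zero => exact ⟨h, le_rfl⟩
  | succ s ih =>
    rw [Function.iterate_succ_apply']
    exact ⟨der_cl ih.1, (der_le ih.1).trans ih.2⟩

theorem mem_gen {A : ZMod p → AddSubgroup L} {u : ZMod p} {x : L} :
    x ∈ gen A u ↔ ∀ T, Cl T → A ≤ T → x ∈ T u := by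
  simp only [gen, sInf_apply, AddSubgroup.mem_iInf, Subtype.forall, Set.mem_ofPred_eq, and_imp]

theorem gen_cl (A : ZMod p → AddSubgroup L) : Cl (gen A) := fun u v x y hx hy =>
  mem_gen.2 fun T h1 h2 => h1 u v x y (mem_gen.1 hx T h1 h2) (mem_gen.1 hy T h1 h2)

theorem le_gen (A : ZMod p → AddSubgroup L) : A ≤ gen A :=
  fun u _ hx => mem_gen.2 fun _ _ h2 => h2 u hx

theorem gen_le {A T : ZMod p → AddSubgroup L} (h1 : Cl T) (h2 : A ≤ T) : gen A ≤ T :=
  fun _ _ hx => mem_gen.1 hx T h1 h2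

/-- the auxiliary family of Kreknin's proof -/
def aux (k : ℕ) (S H : ZMod p → AddSubgroup L) (u : ZMod p) : AddSubgroup L where
  carrier := {w | w ∈ S u ∧ ∀ v x, x ∈ S v → (v + u).val = k → ⁅x, w⁆ ∈ H (v + u)}
  zero_mem' := ⟨zero_mem _, fun u x _ _ => by rw [lie_zero]; exact zero_mem _⟩
  add_mem' := fun ha hb => ⟨add_mem ha.1 hb.1, fun u x hx e => by
    rw [lie_add]; exact add_mem (ha.2 u x hx e) (hb.2 u x hx e)⟩
  neg_mem' := fun ha => ⟨neg_mem ha.1, fun u x hx e => by
    rw [lie_neg]; exact neg_mem (ha.2 u x hx e)⟩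

theorem aux_cl (k : ℕ) {S : ZMod p → AddSubgroup L} (H : ZMod p → AddSubgroup L) (h : Cl S) :
    Cl (aux k S H) := by
  intro u1 u2 w1 w2 h1 h2
  refine ⟨h _ _ _ _ h1.1 h2.1, fun v x hx e => ?_⟩
  have a1 := h2.2 (v + u1) _ (h _ _ _ _ hx h1.1) (by rw [add_assoc]; exact e)
  have a2 := h1.2 (v + u2) _ (h _ _ _ _ hx h2.1) (by rw [add_assoc, add_comm u2]; exact e)
  rw [add_assoc] at a1
  rw [add_assoc, add_comm u2] at a2
  have : ⁅x, ⁅w1, w2⁆⁆ = ⁅⁅x, w1⁆, w2⁆ - ⁅⁅x, w2⁆, w1⁆ := by
    rw [leibniz_lie x w1 w2, ← lie_skew w1 ⁅x, w2⁆, sub_eq_add_neg]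
  rw [this]
  exact sub_mem a1 a2

theorem trunc_le_aux [NeZero p] (k : ℕ) {S : ZMod p → AddSubgroup L} (h0 : S 0 = ⊥) :
    trunc k S ≤ aux k S (gen (trunc (k + 1) S)) := by
  intro u w hw
  unfold trunc at hw
  split_ifs at hw with hk
  · refine ⟨hw, fun v x hx e => ?_⟩
    rcases hk.eq_or_lt with h1 | h1
    · have : v + u = u := ZMod.val_injective p (e.trans h1)
      have hv : v = 0 := by simpa using this
      rw [hv, h0, AddSubgroup.mem_bot] at hx
      rw [hx, zero_lie]
      exact zero_mem _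
    · have hv : k + 1 ≤ v.val := by
        have h2 := ZMod.val_lt u
        have h3 := ZMod.val_lt v
        rw [ZMod.val_add] at e
        by_cases h4 : v.val + u.val < p
        · rw [Nat.mod_eq_of_lt h4] at e
          omega
        · rw [Nat.mod_eq_sub_mod (by omega), Nat.mod_eq_of_lt (by omega)] at e
          omega
      refine gen_cl _ _ _ _ _ (le_gen _ v ?_) (le_gen _ u ?_)
      · unfold trunc
        rwa [if_pos hv]
      · unfold trunc
        rwa [if_pos (by omega)]
  · rw [AddSubgroup.mem_bot] at hw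
    rw [hw]
    exact zero_mem _

theorem kreknin (p : ℕ) [NeZero p] (k : ℕ) : ∃ s : ℕ, ∀ (L : Type) [LieRing L]
    (S : ZMod p → AddSubgroup L), Cl S → S 0 = ⊥ → der^[s] S ≤ gen (trunc (k + 1) S) := by
  induction k with
  | zero =>
    refine ⟨0, fun L _ S _ h0 => le_trans (fun u => ?_) (le_gen _)⟩
    unfold trunc
    split_ifs with h
    · exact le_rfl
    · have : u = 0 := by
        rw [← ZMod.val_eq_zero]
        omega
      rw [this]
      exact h0.le
  | succ k ih =>
    obtain ⟨s, hs⟩ := ih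
    refine ⟨s + (s + 1), fun L _ S hS h0 => ?_⟩
    rw [Function.iterate_add_apply]
    obtain ⟨hM, hMS⟩ := iter_cl hS (s + 1)
    have hM0 : der^[s + 1] S 0 = ⊥ := le_bot_iff.1 (h0 ▸ hMS 0)
    refine (hs L _ hM hM0).trans (gen_le (gen_cl _) fun u => ?_)
    have hT := (hs L S hS h0).trans (gen_le (aux_cl (k + 1) _ hS) (trunc_le_aux (k + 1) h0))
    conv_lhs => unfold trunc
    split_ifs with hk
    · rcases hk.eq_or_lt with h1 | h1
      · rw [Function.iterate_succ_apply']
        refine br_le fun a b x y hx hy e => ?_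
        subst e
        exact (hT b hy).2 a x ((iter_cl hS s).2 a hx) h1.symm
      · refine (hMS u).trans (le_trans ?_ (le_gen _ u))
        unfold trunc
        rw [if_pos (by omega)]
    · exact bot_le

theorem solv (p : ℕ) [NeZero p] : ∃ s : ℕ, ∀ (L : Type) [LieRing L]
    (S : ZMod p → AddSubgroup L), Cl S → S 0 = ⊥ → der^[s] S ≤ ⊥ := by
  obtain ⟨s, hs⟩ := kreknin p p
  refine ⟨s, fun L _ S hS h0 => (hs L S hS h0).trans (gen_le ?_ fun u => ?_)⟩
  · intro u v x y hx _
    have hx' : x = 0 := hx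
    rw [hx', zero_lie]
    exact zero_mem _
  · have := ZMod.val_lt u
    unfold trunc
    rw [if_neg (by omega)]
    exact bot_le

def act (l : List (ZMod p × L)) (y : L) : L := l.foldr (fun q z => ⁅q.2, z⁆) y

def deg (l : List (ZMod p × L)) : ZMod p := (l.map Prod.fst).sum

theorem act_cons (q : ZMod p × L) (l : List (ZMod p × L)) (y : L) :
    act (q :: l) y = ⁅q.2, act l y⁆ := rfl

omit [LieRing L] in
theorem deg_cons (q : ZMod p × L) (l : List (ZMod p × L)) (w : ZMod p) :
    deg (q :: l) + w = q.1 + (deg l + w) := by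
  simp [deg, add_assoc]

theorem act_zero (l : List (ZMod p × L)) : act l (0 : L) = 0 := by
  induction l with
  | nil => rfl
  | cons q l ih => rw [act_cons, ih, lie_zero]

theorem mem_iter (S : ZMod p → AddSubgroup L) (k : ℕ) : ∀ (J : ZMod p → AddSubgroup L)
    (w : ZMod p) (y : L), y ∈ (pre S)^[k] J w ↔ ∀ l : List (ZMod p × L), l.length = k →
      (∀ q ∈ l, q.2 ∈ S q.1) → act l y ∈ J (deg l + w) := by
  induction k with
  | zero =>
    intro J w y
    constructor
    · intro h l hl _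
      rw [List.length_eq_zero_iff.1 hl]
      simpa [act, deg] using h
    · intro h
      simpa [act, deg] using h [] rfl (by simp)
  | succ k ih =>
    intro J w y
    rw [Function.iterate_succ_apply, ih]
    constructor
    · intro h l hl hq
      obtain _ | ⟨q, l⟩ := l
      · simp at hl
      · rw [act_cons, deg_cons]
        exact h l (by simpa using hl) (fun r hr => hq r (List.mem_cons_of_mem _ hr)) q.1 q.2
          (hq q List.mem_cons_self)
    · intro h l hl hq u x hx
      have := h ((u, x) :: l) (by simp [hl]) (by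
        intro r hr
        rcases List.mem_cons.1 hr with rfl | hr
        · exact hx
        · exact hq r hr)
      rwa [act_cons, deg_cons] at this

theorem act_mem {S I : ZMod p → AddSubgroup L} (hI : I ≤ pre S I) {w : ZMod p} {y : L}
    (hy : y ∈ I w) (l : List (ZMod p × L)) (hl : ∀ q ∈ l, q.2 ∈ S q.1) :
    act l y ∈ I (deg l + w) := by
  induction l with
  | nil => simpa [act, deg] using hy
  | cons q l ih =>
    rw [act_cons, deg_cons]
    exact hI _ (ih fun r hr => hl r (List.mem_cons_of_mem _ hr)) _ _ (hl q List.mem_cons_self)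

theorem act_perm {S I J : ZMod p → AddSubgroup L} (hI : I ≤ pre S I) (hJ : J ≤ pre S J)
    (hIJ : I ≤ pre (der S) J) {w : ZMod p} {y : L} (hy : y ∈ I w) {l l' : List (ZMod p × L)}
    (h : l.Perm l') : (∀ q ∈ l, q.2 ∈ S q.1) → act l y - act l' y ∈ J (deg l + w) := by
  induction h with
  | nil => intro _; rw [sub_self]; exact zero_mem _
  | cons q _ ih =>
    intro hl
    rw [act_cons, act_cons, ← lie_sub, deg_cons]
    exact hJ _ (ih fun r hr => hl r (List.mem_cons_of_mem _ hr)) _ _ (hl q List.mem_cons_self)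
  | swap a b l =>
    intro hl
    have hb := hl b List.mem_cons_self
    have ha := hl a (List.mem_cons_of_mem _ List.mem_cons_self)
    have h1 := act_mem hI hy l fun r hr =>
      hl r (List.mem_cons_of_mem _ (List.mem_cons_of_mem _ hr))
    rw [act_cons, act_cons, act_cons, act_cons, ← lie_lie, deg_cons, deg_cons, ← add_assoc]
    exact hIJ _ h1 _ _ (mem_br hb ha)
  | @trans l1 l2 l3 h12 _ ih1 ih2 =>
    intro hl
    have h1 := ih1 hl
    have h2 := ih2 fun r hr => hl r (h12.mem_iff.2 hr)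
    have e : deg l2 = deg l1 := (h12.map Prod.fst).sum_eq.symm
    rw [e] at h2
    have := add_mem h1 h2
    rwa [sub_add_sub_cancel] at this

theorem act_const {S I : ZMod p → AddSubgroup L} (hI : I ≤ pre S I) (hI0 : I 0 = ⊥)
    {w u : ZMod p} {y : L} (hy : y ∈ I w) (l : List (ZMod p × L))
    (hl : ∀ q ∈ l, q.2 ∈ S q.1 ∧ q.1 = u) : deg l = (l.length : ZMod p) * u ∧
      ∀ t : ℕ, t ≤ l.length → (t : ZMod p) * u + w = 0 → act l y = 0 := by
  induction l with
  | nil =>
    refine ⟨by simp [deg], fun t ht e => ?_⟩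
    have : t = 0 := by simpa using ht
    subst this
    have hw : w = 0 := by simpa using e
    rw [hw, hI0] at hy
    exact hy
  | cons q l ih =>
    obtain ⟨h1, h2⟩ := ih fun r hr => hl r (List.mem_cons_of_mem _ hr)
    have hd : deg (q :: l) = ((q :: l).length : ZMod p) * u := by
      have := deg_cons q l 0
      rw [add_zero, add_zero, h1, (hl q List.mem_cons_self).2] at this
      rw [this, List.length_cons]
      push_cast
      ring
    refine ⟨hd, fun t ht e => ?_⟩
    rcases ht.eq_or_lt with h3 | h3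
    · have := act_mem hI hy (q :: l) fun r hr => (hl r hr).1
      rw [hd, ← h3, e, hI0] at this
      exact this
    · rw [act_cons, h2 t (by simpa [Nat.lt_succ_iff] using h3) e, lie_zero]

theorem met [Fact p.Prime] {S I J : ZMod p → AddSubgroup L} (h0 : S 0 = ⊥) (hI : I ≤ pre S I)
    (hJ : J ≤ pre S J) (hIJ : I ≤ pre (der S) J) (hI0 : I 0 = ⊥) : I ≤ (pre S)^[p * p] J := by
  classical
  intro w y hy
  refine (mem_iter S _ J w y).2 fun l hl hq => ?_
  have hp : 0 < p := (Fact.out : p.Prime).pos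
  obtain ⟨u, hu⟩ : ∃ u : ZMod p, p ≤ (l.filter (fun q => decide (q.1 = u))).length := by
    have h1 : ∑ u : ZMod p, Multiset.count u ((l.map Prod.fst : List (ZMod p)) : Multiset _) =
        p * p := by
      rw [Multiset.sum_count_eq_card (fun _ _ => Finset.mem_univ _)]
      simpa using hl
    have h2 : ∑ _u : ZMod p, p ≤
        ∑ u : ZMod p, Multiset.count u ((l.map Prod.fst : List (ZMod p)) : Multiset _) := by
      rw [h1]
      simp [ZMod.card]
    obtain ⟨u, -, hu⟩ := Finset.exists_le_of_sum_le Finset.univ_nonempty h2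
    refine ⟨u, hu.trans (le_of_eq ?_)⟩
    rw [Multiset.coe_count, List.count_eq_countP, List.countP_map, List.countP_eq_length_filter]
    congr 2
  set B := l.filter (fun q => decide (q.1 = u)) with hB
  set A := l.filter (fun q => !decide (q.1 = u)) with hA
  have hperm : l.Perm (A ++ B) :=
    (List.filter_append_perm _ l).symm.trans List.perm_append_comm
  have hBm : ∀ q ∈ B, q.2 ∈ S q.1 ∧ q.1 = u := fun q h =>
    ⟨hq q (List.mem_filter.1 h).1, by simpa using (List.mem_filter.1 h).2⟩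
  have hz : act B y = 0 := by
    by_cases hu0 : u = 0
    · obtain ⟨q, B', e⟩ : ∃ q B', B = q :: B' :=
        List.exists_cons_of_length_pos (by omega)
      have := hBm q (e ▸ List.mem_cons_self)
      have h2 := this.1
      rw [this.2, hu0, h0, AddSubgroup.mem_bot] at h2
      rw [e, act_cons, h2, zero_lie]
    · refine (act_const hI hI0 hy B hBm).2 (-w / u).val ((ZMod.val_lt _).le.trans hu) ?_
      rw [ZMod.natCast_zmod_val, div_mul_cancel₀ _ hu0, neg_add_cancel]
  have h3 := act_perm hI hJ hIJ hy hperm hq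
  have h4 : act (A ++ B) y = 0 := by
    have : act (A ++ B) y = act A (act B y) := List.foldr_append
    rw [this, hz, act_zero]
  rwa [h4, sub_zero] at h3

theorem upper_inv {S : ZMod p → AddSubgroup L} (hS : Cl S) (i : ℕ) :
    (pre (der S))^[i] ⊥ ≤ pre S ((pre (der S))^[i] ⊥) := by
  induction i with
  | zero =>
    intro w y hy u x _
    have hy' : y = 0 := hy
    rw [hy', lie_zero]
    exact zero_mem _
  | succ i ih =>
    rw [Function.iterate_succ_apply']
    intro w y hy u x hx v m hm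
    rw [leibniz_lie]
    refine add_mem ?_ ?_
    · rw [← add_assoc]
      exact hy _ _ (mem_br (der_le hS v hm) hx)
    · rw [add_left_comm]
      exact ih _ (hy v m hm) u x hx

theorem nilp (p : ℕ) [Fact p.Prime] (s : ℕ) : ∃ c : ℕ, ∀ (L : Type) [LieRing L]
    (S : ZMod p → AddSubgroup L), Cl S → S 0 = ⊥ → der^[s] S ≤ ⊥ → S ≤ (pre S)^[c] ⊥ := by
  induction s with
  | zero => exact ⟨0, fun L _ S _ _ h => h⟩
  | succ s ih =>
    obtain ⟨c, hc⟩ := ih
    refine ⟨p * p * c + 1, fun L _ S hS h0 h => ?_⟩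
    have hM := hc L (der S) (der_cl hS) (le_bot_iff.1 (h0 ▸ der_le hS 0)) h
    have hinv : ∀ i, (pre (der S))^[i] ⊥ ⊓ S ≤ pre S ((pre (der S))^[i] ⊥ ⊓ S) :=
      fun i w y hy u x hx => ⟨upper_inv hS i w hy.1 u x hx, hS _ _ _ _ hx hy.2⟩
    have key : ∀ i, (pre (der S))^[i] ⊥ ⊓ S ≤ (pre S)^[p * p * i] ⊥ := by
      intro i
      induction i with
      | zero => exact inf_le_left
      | succ i ih2 =>
        rw [Nat.mul_succ, Nat.add_comm (p * p * i), Function.iterate_add_apply (pre S)]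
        refine (met h0 (hinv _) (hinv i) ?_ ?_).trans ((pre_mono S).iterate _ ih2)
        · rw [Function.iterate_succ_apply']
          exact fun w y hy u x hx => ⟨hy.1 u x hx, hS _ _ _ _ (der_le hS u hx) hy.2⟩
        · exact le_bot_iff.1 (h0 ▸ inf_le_right)
    rw [Function.iterate_succ_apply']
    refine le_trans ?_ (pre_mono S ((le_inf hM (der_le hS)).trans (key c)))
    exact fun w y hy u x hx => mem_br hx hy

end GrA

theorem graded (p : Nat) (hp : p.Prime) : ∃ h, Graded p h := by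
  have : Fact p.Prime := ⟨hp⟩
  obtain ⟨s, hs⟩ := GrA.solv p
  obtain ⟨c, hc⟩ := GrA.nilp p s
  refine ⟨c, fun L _ S hS h0 l hl hx y hy => ?_⟩
  obtain ⟨w, hw⟩ := hy
  choose! dg hdg using hx
  have h1 := (GrA.mem_iter S c ⊥ w y).1 (hc L S hS h0 (hs L S hS h0) w hw)
    (l.map fun x => (dg x, x)) (by simpa using hl) (by
      intro q hq
      obtain ⟨x, hx, rfl⟩ := List.mem_map.1 hq
      exact hdg x hx)
  have h2 : GrA.act (l.map fun x => (dg x, x)) y = 0 := h1
  rwa [GrA.act, List.foldr_map] at h2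

end Pool.Agent.MP_b7033c_al.Three

end

section

set_option autoImplicit false

namespace Pool.Agent.MP_b7033c_al.Three

namespace ExtA

open scoped TensorProduct

lemma pow_val_add {G : Type*} [Monoid G] {p : ℕ} [NeZero p] {g : G} (h : g ^ p = 1)
    (a b : ZMod p) : g ^ (a + b).val = g ^ a.val * g ^ b.val := by
  rw [ZMod.val_add, ← pow_eq_pow_mod _ h, pow_add]

lemma sum_val {A : Type*} [AddCommMonoid A] {p : ℕ} [NeZero p] (f : ℕ → A) :
    ∑ u : ZMod p, f u.val = ∑ i ∈ Finset.range p, f i := by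
  refine Finset.sum_bij (fun u _ => u.val) (fun u _ => Finset.mem_range.2 (ZMod.val_lt u))
    (fun a _ b _ e => ZMod.val_injective p e) (fun i hi => ?_) (fun _ _ => rfl)
  exact ⟨(i : ZMod p), Finset.mem_univ _, ZMod.val_cast_of_lt (Finset.mem_range.1 hi)⟩

lemma multi {M : Type} [LieRing M] (Hom : M → Prop)
    (hgen : ∀ φ : M →+ M, (∀ y, Hom y → φ y = 0) → ∀ y, φ y = 0) (k : ℕ) :
    ∀ φ : M →+ M, (∀ l : List M, l.length = k → (∀ x ∈ l, Hom x) → ∀ y, Hom y →
      φ (l.foldr (fun x z => ⁅x, z⁆) y) = 0) →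
      ∀ l : List M, l.length = k → ∀ y, φ (l.foldr (fun x z => ⁅x, z⁆) y) = 0 := by
  induction k with
  | zero =>
    intro φ h l hl y
    rw [List.length_eq_zero_iff.1 hl]
    exact hgen φ (fun y hy => h [] rfl (by simp) y hy) y
  | succ k ih =>
    intro φ h l hl y
    obtain ⟨x, l', rfl⟩ := List.exists_cons_of_length_eq_add_one hl
    have hl' : l'.length = k := by simpa using hl
    have h1 : ∀ x, Hom x → φ ⁅x, l'.foldr (fun x z => ⁅x, z⁆) y⁆ = 0 := by
      intro x hx
      refine ih (φ.comp (AddMonoidHom.mk' (fun z => ⁅x, z⁆) (lie_add x))) ?_ l' hl' y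
      intro l hl hh y hy
      refine h (x :: l) (by simp [hl]) ?_ y hy
      intro a ha
      rcases List.mem_cons.1 ha with rfl | ha
      · exact hx
      · exact hh a ha
    exact hgen (φ.comp (AddMonoidHom.mk' (fun x => ⁅x, l'.foldr (fun x z => ⁅x, z⁆) y⁆)
      (fun a b => add_lie a b _))) h1 x

lemma eq_zero_of_coprime {M : Type} [AddCommGroup M] {m p : ℕ} (hm : m.Coprime p) {z : M}
    (h1 : m • z = 0) (h2 : p • z = 0) : z = 0 := by
  have a1 := addOrderOf_dvd_of_nsmul_eq_zero h1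
  have a2 := addOrderOf_dvd_of_nsmul_eq_zero h2
  exact AddMonoid.addOrderOf_eq_one_iff.1 (Nat.eq_one_of_dvd_coprimes hm a1 a2)

lemma core {p h : ℕ} (hp : p.Prime) (H : Graded p h) {O : Type} [CommRing O] (w : O)
    (hw : ∑ i ∈ Finset.range p, w ^ i = 0) {M : Type} [LieRing M] [LieAlgebra O M]
    (Ψ : Module.End O M) (m : ℕ) (hm : m.Coprime p) (hM : ∀ z : M, m • z = 0)
    (hbr : ∀ x y : M, Ψ ⁅x, y⁆ = ⁅Ψ x, Ψ y⁆) (hN : ∑ i ∈ Finset.range p, Ψ ^ i = 0)
    (l : List M) (hl : l.length = h) (y : M) : l.foldr (fun x z => ⁅x, z⁆) y = 0 := by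
  have : Fact p.Prime := ⟨hp⟩
  have hwp : w ^ p = 1 := by
    have := geom_sum_mul w p
    rw [hw, zero_mul] at this
    exact (sub_eq_zero.1 this.symm)
  have hΨp : Ψ ^ p = 1 := by
    have := geom_sum_mul Ψ p
    rw [hN, zero_mul] at this
    exact (sub_eq_zero.1 this.symm)
  let S : ZMod p → AddSubgroup M := fun u =>
    { carrier := {z | Ψ z = w ^ u.val • z}
      add_mem' := fun {a b} ha hb => by
        simp only [Set.mem_ofPred_eq] at ha hb ⊢
        rw [map_add, ha, hb, smul_add]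
      zero_mem' := by simp
      neg_mem' := fun {a} ha => by
        simp only [Set.mem_ofPred_eq] at ha ⊢
        rw [map_neg, ha, smul_neg] }
  have hS : ∀ u z, z ∈ S u ↔ Ψ z = w ^ u.val • z := fun _ _ => Iff.rfl
  have h1 : ∀ u v (x y : M), x ∈ S u → y ∈ S v → ⁅x, y⁆ ∈ S (u + v) := by
    intro u v x y hx hy
    rw [hS] at hx hy ⊢
    rw [hbr, hx, hy, smul_lie, lie_smul, smul_smul, pow_val_add hwp]
  have h2 : S 0 = ⊥ := by
    rw [eq_bot_iff]
    intro z hz
    rw [hS, ZMod.val_zero, pow_zero, one_smul] at hz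
    have a1 : ∀ i : ℕ, (Ψ ^ i) z = z := by
      intro i
      induction i with
      | zero => simp
      | succ i ih => rw [pow_succ, Module.End.mul_apply, hz, ih]
    have a2 : (∑ i ∈ Finset.range p, Ψ ^ i) z = 0 := by rw [hN]; rfl
    rw [LinearMap.sum_apply] at a2
    simp only [a1, Finset.sum_const, Finset.card_range] at a2
    exact eq_zero_of_coprime hm (hM z) a2
  have hchi : ∀ i : ZMod p, i ≠ 0 → ∑ k : ZMod p, w ^ (-(k * i)).val = 0 := by
    intro i hi
    rw [← hw, ← sum_val fun j => w ^ j]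
    refine Fintype.sum_equiv ((Equiv.mulRight₀ i hi).trans (Equiv.neg _)) _ _ fun k => rfl
  have hone : (1 : ZMod p).val = 1 := ZMod.val_one p
  have hgen : ∀ φ : M →+ M, (∀ y, (∃ u, y ∈ S u) → φ y = 0) → ∀ y, φ y = 0 := by
    intro φ hφ z
    have a1 : ∀ k : ZMod p, (∑ i : ZMod p, w ^ (-(k * i)).val • (Ψ ^ i.val) z) ∈ S k := by
      intro k
      rw [hS, map_sum, Finset.smul_sum]
      refine Fintype.sum_equiv (Equiv.addRight (1 : ZMod p)) _ _ fun i => ?_
      have e1 : Ψ ^ (i + 1).val = Ψ * Ψ ^ i.val := by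
        rw [add_comm, pow_val_add hΨp, hone, pow_one]
      have e2 : w ^ k.val * w ^ (-(k * (i + 1))).val = w ^ (-(k * i)).val := by
        rw [← pow_val_add hwp]
        have : k + -(k * (i + 1)) = -(k * i) := by ring
        rw [this]
      rw [Equiv.coe_addRight, smul_smul, e2, e1, map_smul, Module.End.mul_apply]
    have a2 : ∑ k : ZMod p, ∑ i : ZMod p, w ^ (-(k * i)).val • (Ψ ^ i.val) z = p • z := by
      rw [Finset.sum_comm, Finset.sum_eq_single (0 : ZMod p)]
      · simp [ZMod.card]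
      · intro i _ hi
        rw [← Finset.sum_smul, hchi i hi, zero_smul]
      · intro hn
        exact absurd (Finset.mem_univ _) hn
    have a3 : p • φ z = 0 := by
      rw [← map_nsmul, ← a2, map_sum]
      exact Finset.sum_eq_zero fun k _ => hφ _ ⟨k, a1 k⟩
    exact eq_zero_of_coprime hm (hM _) a3
  exact multi (fun y => ∃ u, y ∈ S u) hgen h (AddMonoidHom.id M)
    (fun l hl hh y hy => H M S h1 h2 l hl hh y hy) l hl y

lemma exists_ring {p : ℕ} (hp : p.Prime) : ∃ (O : Type) (_ : CommRing O) (w : O) (r : O →+ ℤ),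
    ∑ i ∈ Finset.range p, w ^ i = 0 ∧ r 1 = 1 := by
  have : Fact p.Prime := ⟨hp⟩
  have hmon : (Polynomial.cyclotomic p ℤ).Monic := Polynomial.cyclotomic.monic p ℤ
  let B := AdjoinRoot.powerBasis' hmon
  have hd : 0 < B.dim := by
    rw [AdjoinRoot.powerBasis'_dim, Polynomial.natDegree_cyclotomic]
    exact Nat.totient_pos.2 hp.pos
  refine ⟨AdjoinRoot (Polynomial.cyclotomic p ℤ), inferInstance, AdjoinRoot.root _,
    (B.basis.coord ⟨0, hd⟩).toAddMonoidHom, ?_, ?_⟩
  · have e := AdjoinRoot.mk_self (f := Polynomial.cyclotomic p ℤ)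
    have e2 : AdjoinRoot.mk (Polynomial.cyclotomic p ℤ) (Polynomial.cyclotomic p ℤ) =
        AdjoinRoot.mk (Polynomial.cyclotomic p ℤ)
          (∑ i ∈ Finset.range p, (Polynomial.X : Polynomial ℤ) ^ i) :=
      congrArg _ (Polynomial.cyclotomic_prime ℤ p)
    rw [e, map_sum] at e2
    simp only [map_pow, AdjoinRoot.mk_X] at e2
    exact e2.symm
  · have e : B.basis ⟨0, hd⟩ = 1 := by
      rw [B.basis_eq_pow]
      exact pow_zero _
    have e2 : B.basis.coord ⟨0, hd⟩ (B.basis ⟨0, hd⟩) = 1 := by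
      rw [Module.Basis.coord_apply, Module.Basis.repr_self, Finsupp.single_eq_same]
    rw [e] at e2
    exact e2

end ExtA

open scoped TensorProduct in
theorem lieH_of_graded (p h : ℕ) (hp : p.Prime) (H : Graded p h) : LieH p h := by
  intro L _ ψ m hm hL hbr hN l hl y
  obtain ⟨O, _, w, r, hw, hr⟩ := ExtA.exists_ring hp
  let Ψ : Module.End O (O ⊗[ℤ] L) := LinearMap.baseChange O ψ.toIntLinearMap
  have hΨ : ∀ (a : O) (x : L), Ψ (a ⊗ₜ x) = a ⊗ₜ ψ x := fun _ _ => rfl
  have hΨi : ∀ (i : ℕ) (a : O) (x : L), (Ψ ^ i) (a ⊗ₜ x) = a ⊗ₜ ψ^[i] x := by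
    intro i
    induction i with
    | zero => intro a x; rfl
    | succ i ih =>
      intro a x
      rw [pow_succ, Module.End.mul_apply, hΨ, ih, Function.iterate_succ_apply]
  have h1 : ∀ z : O ⊗[ℤ] L, m • z = 0 := by
    intro z
    induction z using TensorProduct.induction_on with
    | zero => exact smul_zero _
    | tmul a x =>
      have := map_nsmul (TensorProduct.mk ℤ O L a) m x
      rw [hL, map_zero] at this
      exact this.symm
    | add a b ha hb => rw [smul_add, ha, hb, add_zero]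
  have h2 : ∀ x y : O ⊗[ℤ] L, Ψ ⁅x, y⁆ = ⁅Ψ x, Ψ y⁆ := by
    have la : ∀ x y z : O ⊗[ℤ] L, ⁅x, y + z⁆ = ⁅x, y⁆ + ⁅x, z⁆ := fun x y z => lie_add x y z
    have lz : ∀ x : O ⊗[ℤ] L, ⁅x, (0 : O ⊗[ℤ] L)⁆ = 0 := fun x => lie_zero x
    intro x y
    induction x using TensorProduct.induction_on with
    | zero => simp
    | tmul a x =>
      induction y using TensorProduct.induction_on with
      | zero => rw [lz, map_zero, lz]
      | tmul b y =>
        rw [LieAlgebra.ExtendScalars.bracket_tmul, hΨ, hΨ, hΨ,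
          LieAlgebra.ExtendScalars.bracket_tmul, hbr]
      | add b c hb hc => rw [la, map_add, hb, hc, map_add, la]
    | add a b ha hb => rw [add_lie, map_add, ha, hb, map_add, add_lie]
  have h3 : ∑ i ∈ Finset.range p, Ψ ^ i = 0 := by
    refine LinearMap.ext fun z => ?_
    induction z using TensorProduct.induction_on with
    | zero => simp
    | tmul a x =>
      rw [LinearMap.sum_apply]
      simp only [hΨi]
      rw [← TensorProduct.tmul_sum, hN, TensorProduct.tmul_zero, LinearMap.zero_apply]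
    | add a b ha hb => rw [map_add, map_add, ha, hb]
  have h4 : ∀ l : List L, (l.map fun x => (1 : O) ⊗ₜ[ℤ] x).foldr (fun x z => ⁅x, z⁆)
      ((1 : O) ⊗ₜ[ℤ] y) = (1 : O) ⊗ₜ[ℤ] l.foldr (fun x z => ⁅x, z⁆) y := by
    intro l
    induction l with
    | nil => rfl
    | cons a l ih =>
      rw [List.map_cons, List.foldr_cons, ih, List.foldr_cons,
        LieAlgebra.ExtendScalars.bracket_tmul, one_mul]
  have h5 := ExtA.core hp H w hw Ψ m hm h1 h2 h3 (l.map fun x => (1 : O) ⊗ₜ[ℤ] x)
    (by rw [List.length_map, hl]) ((1 : O) ⊗ₜ[ℤ] y)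
  rw [h4] at h5
  have h6 := congrArg
    (fun z => TensorProduct.lid ℤ L (LinearMap.rTensor L r.toIntLinearMap z)) h5
  simpa [hr] using h6

end Pool.Agent.MP_b7033c_al.Three

end

section

set_option autoImplicit false

namespace Pool.Agent.MP_b7033c_al.Three

namespace NormIdA

variable {K : Type} [Group K] (α : MulAut K)

/-- the twisted power `w α(w) ⋯ α^(i-1)(w)` -/
def tw (w : K) : ℕ → K
  | 0 => 1
  | i + 1 => tw w i * (α ^ i) w

theorem tw_add (w : K) (i j : ℕ) : tw α w (i + j) = tw α w i * (α ^ i) (tw α w j) := by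
  induction j with
  | zero => simp [tw]
  | succ j ih => rw [← add_assoc, tw, ih, tw, map_mul, pow_add, MulAut.mul_apply, mul_assoc]

theorem tw_comm (g : K) (i : ℕ) : tw α (g / α g) i = g / (α ^ i) g := by
  induction i with
  | zero => simp [tw]
  | succ i ih => rw [tw, ih, map_div, pow_succ, MulAut.mul_apply]; simp [div_eq_mul_inv, mul_assoc]

theorem tw_p [Finite K] {p : ℕ} (hp : α ^ p = 1) (hf : ∀ y, α y = y → y = 1) (w : K) :
    tw α w p = 1 := by
  obtain ⟨g, rfl⟩ := MonoidHom.FixedPointFree.commutatorMap_surjective (φ := α) hf w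
  rw [MonoidHom.commutatorMap_apply, tw_comm, hp]; simp

theorem tw_inj [Finite K] {p : ℕ} (hpp : p.Prime) (hp : α ^ p = 1) (hf : ∀ y, α y = y → y = 1)
    {i : ℕ} (h0 : 0 < i) (hi : i < p) {w w' : K} (h : tw α w i = tw α w' i) : w = w' := by
  have h1 : ∀ k, tw α w (i * k) = tw α w' (i * k) := fun k => by
    induction k with
    | zero => rfl
    | succ k ih => rw [Nat.mul_succ, add_comm, tw_add, tw_add, h, ih]
  have h2 : ∀ (x : K) m, tw α x (p * m + 1) = x := fun x m => by
    induction m with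
    | zero => simp [tw]
    | succ m ih => rw [Nat.mul_succ, add_comm (p * m), add_assoc, tw_add, tw_p α hp hf, hp, ih]; simp
  obtain ⟨k, _, hk⟩ := Nat.exists_mul_mod_eq_one_of_coprime
    ((Nat.coprime_of_lt_prime h0.ne' hi hpp).symm) hpp.one_lt
  have h3 := h1 k
  rwa [← Nat.div_add_mod (i * k) p, hk, h2, h2] at h3

variable {α}

theorem pow_mem' {H : Subgroup K} (h : ∀ v ∈ H, α v ∈ H) (i : ℕ) : ∀ v ∈ H, (α ^ i) v ∈ H := by
  induction i with
  | zero => simp
  | succ i ih => intro v hv; rw [pow_succ', MulAut.mul_apply]; exact h _ (ih v hv)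

theorem tw_mem {H : Subgroup K} (h : ∀ v ∈ H, α v ∈ H) {w : K} (hw : w ∈ H) (i : ℕ) :
    tw α w i ∈ H := by
  induction i with
  | zero => exact one_mem _
  | succ i ih => exact mul_mem ih (pow_mem' h i w hw)

end NormIdA

open NormIdA in
theorem normId : NormId := by
  classical
  intro p K _ _ α V W hpp hp hf hN hc hV hW hcop v hv w₀ hw₀
  let _ : CommGroup V := { (inferInstance : Group V) with
    mul_comm := fun a b => Subtype.ext (hc a a.2 b b.2) }
  have : Fintype W := Fintype.ofFinite W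
  let a : ℕ → V → V := fun i x => ⟨(α ^ i) x, pow_mem' hV i x x.2⟩
  have h1 : ∀ (w : K) (x : V) (i : ℕ), tw α (x * w) i =
      (∏ j ∈ Finset.range i, MulAut.conjNormal (tw α w j) (a j x) : V) * tw α w i := by
    intro w x i
    induction i with
    | zero => simp [tw]
    | succ i ih => rw [Finset.prod_range_succ, tw, ih, tw]; simp [a, mul_assoc]
  have h2 : ∀ (w : K) (x : V),
      ∏ j ∈ Finset.range p, MulAut.conjNormal (tw α w j) (a j x) = 1 := fun w x => by
    have := h1 w x p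
    rw [tw_p α hp hf, tw_p α hp hf, mul_one] at this
    exact Subtype.ext this.symm
  have h3 : ∀ j, tw α 1 j = 1 := fun j => Subgroup.mem_bot.1
    (tw_mem (H := ⊥) (fun v hv => by rw [Subgroup.mem_bot.1 hv, map_one]; exact one_mem _)
      (one_mem _) j)
  obtain ⟨q, rfl⟩ : ∃ q, p = q + 1 := ⟨p - 1, (Nat.sub_add_cancel hpp.pos).symm⟩
  have h4 : ∀ x : V, ∏ w : W, MulAut.conjNormal (w : K) x = x ^ Fintype.card W := fun x => by
    have e1 := h2 1 x
    simp only [h3, map_one, MulAut.one_apply, Finset.prod_range_succ'] at e1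
    have e0 : a 0 x = x := by simp [a]
    have e2 : ∏ w : W, ∏ j ∈ Finset.range (q + 1), MulAut.conjNormal (tw α w j) (a j x) = 1 :=
      Finset.prod_eq_one fun w _ => h2 w x
    rw [Finset.prod_comm, Finset.prod_range_succ'] at e2
    have e3 : ∀ j ∈ Finset.range q, ∏ w : W, MulAut.conjNormal (tw α w (j + 1)) (a (j + 1) x) =
        ∏ w : W, MulAut.conjNormal (w : K) (a (j + 1) x) := fun j hj =>
      Fintype.prod_bijective (fun w : W => (⟨tw α w (j + 1), tw_mem hW w.2 _⟩ : W))
        (Finite.injective_iff_bijective.1 fun w w' e => Subtype.ext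
          (tw_inj α hpp hp hf j.succ_pos (by simpa using hj) (congrArg Subtype.val e)))
        _ _ fun _ => rfl
    rw [Finset.prod_congr rfl e3, Finset.prod_comm] at e2
    simp only [← map_prod, eq_inv_of_mul_eq_one_left e1, e0, tw, map_one, MulAut.one_apply,
      map_inv, Finset.prod_inv_distrib, Finset.prod_const, Finset.card_univ] at e2
    exact (inv_mul_eq_one.1 e2)
  have h5 : (MulAut.conjNormal w₀ (⟨v, hv⟩ : V)) ^ Fintype.card W = ⟨v, hv⟩ ^ Fintype.card W := by
    rw [← map_pow, ← h4, map_prod]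
    exact Fintype.prod_equiv (Equiv.mulLeft (⟨w₀, hw₀⟩ : W)) _ _ fun w => by simp
  rw [← Nat.card_eq_fintype_card] at h5
  have h6 := congrArg Subtype.val ((Nat.Coprime.pow_left_bijective hcop).1 h5)
  exact (mul_inv_eq_iff_eq_mul.1 (by simpa using h6) : w₀ * v = v * w₀).symm

end Pool.Agent.MP_b7033c_al.Three

end
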